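import Pool.Agent.H33.AM.Basic

/-!
# Module X1: the kinetic energy

* `HK.grad`: `0 ≤ K w - K v - ⟪D v, w - v⟫ ≤ κ₂/2 ‖w - v‖²`, so `D v` is the gradient.
* `HK.mono`: add the lower bound for `(v, w)` and `(w, v)`.
* `HK.lip` (co-coercivity): `ψ(z) = K z - ⟪D v, z⟫` has its minimum at `v`;
  `ψ v ≤ ψ (w - (1/κ₂) (D w - D v)) ≤ ψ w - (1/(2 κ₂)) ‖D w - D v‖²` by the upper bound; add the same with
  `v`, `w` exchanged: `(1/κ₂) ‖D w - D v‖² ≤ ⟪D w - D v, w - v⟫`.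
* `HK.antilip`: from `HK.mono` and Cauchy-Schwarz.
* `HK.inv`: `D` is surjective: `z ↦ K z - ⟪p, z⟫` is continuous and coercive (`HK.lo` with `v = 0`), so it
  has a minimum, where `D z = p`; injective by `HK.antilip`.
-/

set_option autoImplicit false

open MeasureTheory
open scoped RealInnerProductSpace

namespace Pool.Agent.H33.AM

variable {n : ℕ} {K : EuclideanSpace ℝ (Fin n) → ℝ}
  {D : EuclideanSpace ℝ (Fin n) → EuclideanSpace ℝ (Fin n)} {κ₁ κ₂ : ℝ}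

theorem HK.grad (h : HK K D κ₁ κ₂) (v : EuclideanSpace ℝ (Fin n)) : HasGradientAt K (D v) v := by
  rw [hasGradientAt_iff_isLittleO]
  have h1 : (fun w => K w - K v - ⟪D v, w - v⟫) =O[nhds v] fun w => ‖w - v‖ ^ 2 := by
    refine Asymptotics.IsBigO.of_bound (κ₂ / 2) (Filter.Eventually.of_forall fun w => ?_)
    have h2 := h.lo v w
    have h3 := h.hi v w
    have h4 : 0 ≤ κ₁ / 2 * ‖w - v‖ ^ 2 := by
      have := h.pos
      positivity
    rw [Real.norm_eq_abs, abs_of_nonneg (h4.trans h2), Real.norm_eq_abs,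
      abs_of_nonneg (by positivity)]
    exact h3
  exact h1.trans_isLittleO (Asymptotics.isLittleO_pow_sub_sub v (by norm_num))

theorem HK.mono (h : HK K D κ₁ κ₂) (v w : EuclideanSpace ℝ (Fin n)) :
    κ₁ * ‖w - v‖ ^ 2 ≤ ⟪D w - D v, w - v⟫ := by
  have h1 := h.lo v w
  have h2 := h.lo w v
  have h3 : ‖v - w‖ = ‖w - v‖ := norm_sub_rev v w
  have h4 : (⟪D w, v - w⟫ : ℝ) = -⟪D w, w - v⟫ := by
    rw [← inner_neg_right, neg_sub]
  rw [h3, h4] at h2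
  rw [inner_sub_left]
  linarith

private theorem X1_coco (h : HK K D κ₁ κ₂) (v w : EuclideanSpace ℝ (Fin n)) :
    1 / (2 * κ₂) * ‖D w - D v‖ ^ 2 ≤ K w - K v - ⟪D v, w - v⟫ := by
  have hκ := h.pos₂
  set d := D w - D v with hd
  have h1 := h.lo v (w - (1 / κ₂) • d)
  have h2 := h.hi w (w - (1 / κ₂) • d)
  have h3 : 0 ≤ κ₁ / 2 * ‖w - (1 / κ₂) • d - v‖ ^ 2 := by
    have := h.pos
    positivity
  have h4 : w - (1 / κ₂) • d - w = -((1 / κ₂) • d) := by abel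
  have h5 : w - (1 / κ₂) • d - v = (w - v) - (1 / κ₂) • d := by abel
  rw [h4, inner_neg_right, inner_smul_right, norm_neg, norm_smul, mul_pow,
    Real.norm_of_nonneg (by positivity)] at h2
  rw [h5, inner_sub_right, inner_smul_right] at h1
  rw [← h5] at h1
  have h6 : (⟪D w, d⟫ : ℝ) = ⟪D v, d⟫ + ‖d‖ ^ 2 := by
    rw [← real_inner_self_eq_norm_sq d, ← inner_add_left]
    congr 1
    rw [hd]
    abel
  rw [h6] at h2
  have h7 : κ₂ / 2 * ((1 / κ₂) ^ 2 * ‖d‖ ^ 2) = 1 / (2 * κ₂) * ‖d‖ ^ 2 := by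
    field_simp
  have h8 : 1 / κ₂ * (⟪D v, d⟫ + ‖d‖ ^ 2) = 1 / κ₂ * ⟪D v, d⟫ + 2 * (1 / (2 * κ₂) * ‖d‖ ^ 2) := by
    field_simp
  rw [h7, h8] at h2
  linarith

theorem HK.lip (h : HK K D κ₁ κ₂) (v w : EuclideanSpace ℝ (Fin n)) :
    ‖D w - D v‖ ≤ κ₂ * ‖w - v‖ := by
  have hκ := h.pos₂
  have h1 := X1_coco h v w
  have h2 := X1_coco h w v
  have h3 : ‖D v - D w‖ = ‖D w - D v‖ := norm_sub_rev _ _
  have h4 : (⟪D w, v - w⟫ : ℝ) = -⟪D w, w - v⟫ := by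
    rw [← inner_neg_right, neg_sub]
  rw [h3, h4] at h2
  have h5 : (⟪D w - D v, w - v⟫ : ℝ) ≤ ‖D w - D v‖ * ‖w - v‖ := real_inner_le_norm _ _
  rw [inner_sub_left] at h5
  have h6 : 1 / κ₂ * ‖D w - D v‖ ^ 2 ≤ ‖D w - D v‖ * ‖w - v‖ := by
    have : 1 / κ₂ * ‖D w - D v‖ ^ 2 = 2 * (1 / (2 * κ₂) * ‖D w - D v‖ ^ 2) := by
      field_simp
    rw [this]
    linarith
  rcases (norm_nonneg (D w - D v)).eq_or_lt with h7 | h7
  · rw [← h7]
    positivity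
  · have h8 : 1 / κ₂ * ‖D w - D v‖ ≤ ‖w - v‖ := by
      have h9 : (1 / κ₂ * ‖D w - D v‖) * ‖D w - D v‖ ≤ ‖w - v‖ * ‖D w - D v‖ := by
        nlinarith [h6]
      exact le_of_mul_le_mul_right h9 h7
    rw [one_div, inv_mul_le_iff₀ hκ] at h8
    exact h8

theorem HK.antilip (h : HK K D κ₁ κ₂) (v w : EuclideanSpace ℝ (Fin n)) :
    κ₁ * ‖w - v‖ ≤ ‖D w - D v‖ := by
  have h1 := h.mono v w
  have h5 : (⟪D w - D v, w - v⟫ : ℝ) ≤ ‖D w - D v‖ * ‖w - v‖ := real_inner_le_norm _ _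
  rcases (norm_nonneg (w - v)).eq_or_lt with h7 | h7
  · rw [← h7]
    simp
  · have h9 : (κ₁ * ‖w - v‖) * ‖w - v‖ ≤ ‖D w - D v‖ * ‖w - v‖ := by
      nlinarith [h1]
    exact le_of_mul_le_mul_right h9 h7

private theorem X1_surj (h : HK K D κ₁ κ₂) (p : EuclideanSpace ℝ (Fin n)) : ∃ z, D z = p := by
  have hκ := h.pos₂
  have hκ' := h.pos
  have hcK : Continuous K := continuous_iff_continuousAt.2 fun v => (h.grad v).continuousAt
  have hc : Continuous fun z => K z - ⟪p, z⟫ :=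
    hcK.sub (continuous_const.inner continuous_id)
  have hlow : ∀ z, ‖z‖ + (K 0 - (‖D 0 - p‖ + 1) ^ 2 / (2 * κ₁)) ≤ K z - ⟪p, z⟫ := by
    intro z
    have h1 := h.lo 0 z
    rw [sub_zero] at h1
    have h2 : -(‖D 0 - p‖ * ‖z‖) ≤ ⟪D 0 - p, z⟫ := by
      have := abs_le.1 (abs_real_inner_le_norm (D 0 - p) z)
      exact this.1
    rw [inner_sub_left] at h2
    set c := ‖D 0 - p‖ + 1 with hc'
    have h3 : 0 ≤ κ₁ / 2 * (‖z‖ - c / κ₁) ^ 2 := by positivity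
    have h4 : κ₁ / 2 * (‖z‖ - c / κ₁) ^ 2 = κ₁ / 2 * ‖z‖ ^ 2 - c * ‖z‖ + c ^ 2 / (2 * κ₁) := by
      field_simp
      ring
    rw [h4] at h3
    have h5 : ‖D 0 - p‖ * ‖z‖ = c * ‖z‖ - ‖z‖ := by
      rw [hc']
      ring
    rw [h5] at h2
    linarith
  have htend : Filter.Tendsto (fun z => K z - ⟪p, z⟫) (Filter.cocompact _) Filter.atTop := by
    refine Filter.tendsto_atTop_mono hlow ?_
    exact Filter.tendsto_atTop_add_const_right _ _ tendsto_norm_cocompact_atTop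
  obtain ⟨z, hz⟩ := hc.exists_forall_le htend
  refine ⟨z, ?_⟩
  set g := D z - p with hg
  have h1 := hz (z - (1 / κ₂) • g)
  have h2 := h.hi z (z - (1 / κ₂) • g)
  have h4 : z - (1 / κ₂) • g - z = -((1 / κ₂) • g) := by abel
  rw [h4, inner_neg_right, inner_smul_right, norm_neg, norm_smul, mul_pow,
    Real.norm_of_nonneg (by positivity)] at h2
  rw [inner_sub_right, inner_smul_right] at h1
  have h6 : (⟪D z, g⟫ : ℝ) = ⟪p, g⟫ + ‖g‖ ^ 2 := by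
    rw [← real_inner_self_eq_norm_sq g, ← inner_add_left]
    congr 1
    rw [hg]
    abel
  rw [h6] at h2
  have h7 : κ₂ / 2 * ((1 / κ₂) ^ 2 * ‖g‖ ^ 2) = 1 / (2 * κ₂) * ‖g‖ ^ 2 := by
    field_simp
  have h8 : 1 / κ₂ * (⟪p, g⟫ + ‖g‖ ^ 2) = 1 / κ₂ * ⟪p, g⟫ + 2 * (1 / (2 * κ₂) * ‖g‖ ^ 2) := by
    field_simp
  rw [h7, h8] at h2
  have h9 : 1 / (2 * κ₂) * ‖g‖ ^ 2 ≤ 0 := by linarith
  have h10 : ‖g‖ ^ 2 ≤ 0 := by
    have h11 : 0 < 1 / (2 * κ₂) := by positivity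
    by_contra hcon
    rw [not_le] at hcon
    have := mul_pos h11 hcon
    linarith
  have h12 : ‖g‖ = 0 := by
    have := sq_nonneg ‖g‖
    nlinarith [norm_nonneg g]
  rw [norm_eq_zero] at h12
  exact sub_eq_zero.1 (hg ▸ h12)

theorem HK.inv (h : HK K D κ₁ κ₂) : ∃ D' : EuclideanSpace ℝ (Fin n) → EuclideanSpace ℝ (Fin n),
    (∀ p, D (D' p) = p) ∧ (∀ v, D' (D v) = v) ∧ ∀ p q, κ₁ * ‖D' p - D' q‖ ≤ ‖p - q‖ := by
  choose D' hD' using X1_surj h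
  refine ⟨D', hD', fun v => ?_, fun p q => ?_⟩
  · have h1 := h.antilip v (D' (D v))
    rw [hD', sub_self, norm_zero] at h1
    have h2 : ‖D' (D v) - v‖ ≤ 0 := by
      have h3 := h.pos
      by_contra hcon
      rw [not_le] at hcon
      have := mul_pos h3 hcon
      linarith
    exact sub_eq_zero.1 (norm_eq_zero.1 (le_antisymm h2 (norm_nonneg _)))
  · have h1 := h.antilip (D' q) (D' p)
    rw [hD', hD'] at h1
    exact h1

end Pool.Agent.H33.AM
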