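import Pool.Agent.H33.AM.P.I2
import Pool.Agent.H33.AM.P.X1

/-!
# Module C1: the integrable case `A = a₀ + ∇f`, `V = V₀`

Here `L x v t = K v + ⟪a₀ + ∇f(x), v⟫ - V₀`. For `c` let `vc = D' (c - a₀)`, i.e. `D vc = c - a₀`, and
`α = ⟪c - a₀, vc⟫ - K vc + V₀`; `L - ⟪c, v⟫ + α = (K v - K vc - ⟪D vc, v - vc⟫) + ⟪∇f(x), v⟫`.
* `alpha_int`: `actionValues L c ≥ -α` by `actionValues_ge`, since on curves the integral is at least
  `f(x(T)) - f(x(0)) ≥ -2 C` (`Adm.integral_grad`). Conversely, for `j ≥ 1` let `k` be an integer vector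
  with `‖zv k - j vc‖ ≤ √n`; the straight line `γ(t) = t v`, `v = zv k/j`, is a solution (`Sol`: `D v + A(γ)`
  has the derivative `A'(γ) v = adjoint (A'(γ)) v` because `A'` is symmetric, `F = 0`), and has the
  period `j`; its value is at most `-α + κ₂/2 ‖v - vc‖² ≤ -α + κ₂ n/(2 j²)` (the integral of `⟪∇f, v⟫` over the
  period vanishes), `mem_actionValues`.
* `peierls_int`: for a curve as in `curveActions` from `x` to `x`: the action is
  `∫ (K γ' - K vc - ⟪D vc, γ' - vc⟫) + f(γ(k)) - f(γ(0)) ≥ 0` (`f ∘ γ` is absolutely continuous since `f`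
  is Lipschitz; see `AbsolutelyContinuousOnInterval`, its fundamental theorem of calculus and
  a.e. differentiability; `f(γ(k)) = f(γ(0))` since `pr (γ k) = pr (γ 0)`). The line from `x` to `x + zv k'`,
  `‖zv k' - k vc‖ ≤ √n`, has the action at most `k κ₂/2 (√n/k)² = κ₂ n/(2 k)`. So
  `0 ≤ sInf (curveActions L c k x x) ≤ κ₂ n/(2 k) → 0`.
-/

set_option autoImplicit false

open MeasureTheory
open scoped RealInnerProductSpace

namespace Pool.Agent.H33.AM

variable {n : ℕ} {K V f : EuclideanSpace ℝ (Fin n) → ℝ}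
  {D F A : EuclideanSpace ℝ (Fin n) → EuclideanSpace ℝ (Fin n)}
  {A' : EuclideanSpace ℝ (Fin n) → EuclideanSpace ℝ (Fin n) →L[ℝ] EuclideanSpace ℝ (Fin n)}
  {κ₁ κ₂ B C V₀ : ℝ} {a₀ : EuclideanSpace ℝ (Fin n)}

private theorem c1a_F_zero (hV : HV V F B) (hV₀ : ∀ x, V x = V₀) (x : EuclideanSpace ℝ (Fin n)) :
    F x = 0 := by
  have h1 : HasGradientAt V 0 x := by
    have : V = fun _ => V₀ := funext hV₀
    rw [this]
    exact hasGradientAt_const x V₀
  exact (hV.der x).unique h1

private theorem c1a_adj (hs : ∀ x v w, ⟪A' x v, w⟫ = ⟪A' x w, v⟫)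
    (x v : EuclideanSpace ℝ (Fin n)) : ContinuousLinearMap.adjoint (A' x) v = A' x v := by
  apply ext_inner_right ℝ
  intro w
  rw [ContinuousLinearMap.adjoint_inner_left, hs x v w, real_inner_comm]

private theorem c1a_approx (vc : EuclideanSpace ℝ (Fin n)) (j : ℕ) :
    ∃ k : Fin n → ℤ, ‖zv k - (j : ℝ) • vc‖ ^ 2 ≤ n := by
  refine ⟨fun i => ⌊(j : ℝ) * vc i⌋, ?_⟩
  rw [EuclideanSpace.norm_sq_eq]
  calc ∑ i, ‖(zv (fun i => ⌊(j : ℝ) * vc i⌋) - (j : ℝ) • vc) i‖ ^ 2 ≤ ∑ _i : Fin n, (1 : ℝ) := by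
        apply Finset.sum_le_sum
        intro i _
        have h1 : (zv (fun i => ⌊(j : ℝ) * vc i⌋) - (j : ℝ) • vc) i =
            (⌊(j : ℝ) * vc i⌋ : ℝ) - (j : ℝ) * vc i := by
          simp [zv]
        rw [h1, Real.norm_eq_abs, sq_abs]
        have h2 := Int.floor_le ((j : ℝ) * vc i)
        have h3 := Int.lt_floor_add_one ((j : ℝ) * vc i)
        nlinarith
    _ = n := by simp

private theorem c1a_cont (hK : HK K D κ₁ κ₂) (hA : HA A A' B) (hV : HV V F B)
    (c : EuclideanSpace ℝ (Fin n)) (e : ℝ) :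
    Continuous fun p : EuclideanSpace ℝ (Fin n) × EuclideanSpace ℝ (Fin n) =>
      lag K A V p.1 p.2 - ⟪c, p.2⟫ + e := by
  have cK : Continuous K :=
    continuous_iff_continuousAt.2 fun x => (hK.grad x).continuousAt
  have cV : Continuous V :=
    continuous_iff_continuousAt.2 fun x => (hV.der x).continuousAt
  have cA : Continuous A :=
    continuous_iff_continuousAt.2 fun x => (hA.der x).continuousAt
  unfold lag
  exact ((((cK.comp continuous_snd).add ((cA.comp continuous_fst).inner continuous_snd)).sub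
    (cV.comp continuous_fst)).sub (continuous_const.inner continuous_snd)).add continuous_const

theorem alpha_int (hK : HK K D κ₁ κ₂) (hA : HA A A' B) (hV : HV V F B)
    (hs : ∀ x v w, ⟪A' x v, w⟫ = ⟪A' x w, v⟫) (hf : ∀ x, HasGradientAt f (A x - a₀) x)
    (hfper : ∀ x (k : Fin n → ℤ), f (x + zv k) = f x) (hfb : ∀ x, |f x| ≤ C)
    (hV₀ : ∀ x, V x = V₀) {c vc : EuclideanSpace ℝ (Fin n)} (hvc : D vc = c - a₀) :
    alpha (fun x v _ => lag K A V x v) c = ⟪c - a₀, vc⟫ - K vc + V₀ := by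
  have cA : Continuous A :=
    continuous_iff_continuousAt.2 fun x => (hA.der x).continuousAt
  have cG : Continuous fun p : EuclideanSpace ℝ (Fin n) × EuclideanSpace ℝ (Fin n) =>
      (⟪A p.1 - a₀, p.2⟫ : ℝ) :=
    ((cA.comp continuous_fst).sub continuous_const).inner continuous_snd
  set α : ℝ := ⟪c - a₀, vc⟫ - K vc + V₀ with hα
  set S := actionValues (fun x v _ => lag K A V x v) c with hS
  have low : ∀ a ∈ S, -α ≤ a := by
    intro a ha
    refine actionValues_ge hK hA hV (E₀ := α) (C := 2 * C) ?_ ha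
    intro T x u hx
    have h1 : ∫ t in (0 : ℝ)..T, ⟪A (x t) - a₀, u t⟫ = f (x T) - f (x 0) :=
      hx.integral_grad (g := f) (G := fun x => A x - a₀) hf (cA.sub continuous_const)
    have h2 : (∫ t in (0 : ℝ)..T, (⟪A (x t) - a₀, u t⟫ : ℝ)) ≤
        ∫ t in (0 : ℝ)..T, (lag K A V (x t) (u t) - ⟪c, u t⟫ + α) := by
      apply intervalIntegral.integral_mono_on hx.le (hx.integrable cG)
        (hx.integrable (c1a_cont hK hA hV c α))
      intro t _
      have h3 := hK.lo vc (u t)
      have h4 : 0 ≤ κ₁ / 2 * ‖u t - vc‖ ^ 2 := by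
        have := hK.pos
        positivity
      rw [hvc] at h3
      simp only [lag, hV₀, hα]
      simp only [inner_sub_left, inner_sub_right] at h3 ⊢
      linarith
    rw [h1] at h2
    have f1 := abs_le.1 (hfb (x T))
    have f2 := abs_le.1 (hfb (x 0))
    linarith [f1.1, f2.2]
  have up : ∀ j : ℕ, 0 < j → ∃ a ∈ S, a ≤ -α + κ₂ / 2 * (n / (j : ℝ) ^ 2) := by
    intro j hj
    have hj' : (0 : ℝ) < j := Nat.cast_pos.2 hj
    obtain ⟨k, hk⟩ := c1a_approx vc j
    set v : EuclideanSpace ℝ (Fin n) := (1 / (j : ℝ)) • zv k with hv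
    have hjv : (j : ℝ) • v = zv k := by
      rw [hv, smul_smul, mul_one_div_cancel hj'.ne', one_smul]
    have hsol : Sol D F A A' (fun t => t • v) fun _ => v := by
      refine ⟨continuous_const, ?_, ?_⟩
      · intro t
        simpa using (hasDerivAt_id t).smul_const v
      · intro t
        have h1 : HasDerivAt (fun s : ℝ => s • v) v t := by
          simpa using (hasDerivAt_id t).smul_const v
        have h2 : HasDerivAt (fun s : ℝ => A (s • v)) (A' (t • v) v) t :=
          (hA.der (t • v)).comp_hasDerivAt t h1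
        have h3 := h2.const_add (D v)
        rw [c1a_F_zero hV hV₀, sub_zero, c1a_adj hs]
        exact h3
    have hmem := mem_actionValues hK hA hV hj' hsol (k := k)
      (by
        intro t
        show (t + j) • v = t • v + zv k
        rw [add_smul, hjv]) (fun _ => rfl) c
    refine ⟨_, hmem, ?_⟩
    have hadm : Adm 0 (j : ℝ) (fun t => t • v) fun _ => v := by
      have := Adm.line hj'.le (0 : EuclideanSpace ℝ (Fin n)) v
      simpa using this
    have h1 : ∫ t in (0 : ℝ)..j, ⟪A (t • v) - a₀, v⟫ = 0 := by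
      have := hadm.integral_grad (g := f) (G := fun x => A x - a₀) hf (cA.sub continuous_const)
      rw [this]
      simp only [zero_smul]
      rw [hjv]
      have := hfper 0 k
      rw [zero_add] at this
      rw [this, sub_self]
    have h2 : (∫ t in (0 : ℝ)..j, (lag K A V (t • v) v - ⟪c, v⟫)) =
        j * (K v - V₀ - ⟪c - a₀, v⟫) := by
      have e1 : ∀ t : ℝ, lag K A V (t • v) v - ⟪c, v⟫ =
          (K v - V₀ - ⟪c - a₀, v⟫) + ⟪A (t • v) - a₀, v⟫ := by
        intro t
        simp only [lag, hV₀, inner_sub_left]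
        ring
      simp only [e1]
      rw [intervalIntegral.integral_add intervalIntegrable_const (hadm.integrable cG), h1,
        intervalIntegral.integral_const]
      simp
    rw [h2]
    have h3 := hK.hi vc v
    rw [hvc] at h3
    have h4 : ‖v - vc‖ ^ 2 ≤ n / (j : ℝ) ^ 2 := by
      have e1 : zv k - (j : ℝ) • vc = (j : ℝ) • (v - vc) := by
        rw [smul_sub, hjv]
      rw [e1, norm_smul, Real.norm_of_nonneg hj'.le, mul_pow] at hk
      rw [le_div_iff₀ (by positivity)]
      linarith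
    have h5 : κ₂ / 2 * ‖v - vc‖ ^ 2 ≤ κ₂ / 2 * (n / (j : ℝ) ^ 2) :=
      mul_le_mul_of_nonneg_left h4 (by linarith [hK.pos₂])
    have h6 : 1 / (j : ℝ) * (j * (K v - V₀ - ⟪c - a₀, v⟫)) = K v - V₀ - ⟪c - a₀, v⟫ := by
      field_simp
    rw [h6, hα]
    simp only [inner_sub_left, inner_sub_right] at h3 ⊢
    linarith
  have bdd : BddBelow S := ⟨-α, low⟩
  have ne : S.Nonempty := by
    obtain ⟨a, ha, _⟩ := up 1 one_pos
    exact ⟨a, ha⟩
  have h1 : -α ≤ sInf S := le_csInf ne low
  have h2 : sInf S ≤ -α := by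
    apply le_of_forall_pos_le_add
    intro ε hε
    obtain ⟨j, hj⟩ := exists_nat_gt (κ₂ / 2 * n / ε)
    have hj0 : (0 : ℝ) < (j : ℝ) + 1 := by positivity
    obtain ⟨a, ha, ha'⟩ := up (j + 1) (Nat.succ_pos j)
    refine le_trans (csInf_le bdd ha) (le_trans ha' ?_)
    have h3 : κ₂ / 2 * (n / ((j + 1 : ℕ) : ℝ) ^ 2) ≤ ε := by
      push_cast
      rw [← mul_div_assoc, div_le_iff₀ (by positivity)]
      rw [div_lt_iff₀ hε] at hj
      have h4 : (j : ℝ) ≤ ((j : ℝ) + 1) ^ 2 := by nlinarith [Nat.cast_nonneg (α := ℝ) j]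
      nlinarith [mul_le_mul_of_nonneg_left h4 hε.le]
    linarith
  have h3 : sInf S = -α := le_antisymm h2 h1
  show -sInf S = α
  rw [h3, neg_neg]

end Pool.Agent.H33.AM
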