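import Pool.Agent.H33.AM.P.I2
import Pool.Agent.H33.AM.P.X1
import Pool.Agent.H33.AM.P.C1a

/-!
# Module C1: the integrable case `A = a₀ + ∇f`, `V = V₀`

Here `L x v t = K v + ⟪a₀ + ∇f(x), v⟫ - V₀`. For `c` let `vc = D' (c - a₀)`, i.e. `D vc = c - a₀`, and
`α = ⟪c - a₀, vc⟫ - K vc + V₀`; `L - ⟪c, v⟫ + α = (K v - K vc - ⟪D vc, v - vc⟫) + ⟪∇f(x), v⟫`.
* `alpha_int`: `actionValues L c ≥ -α` by `actionValues_ge`, since on curves the integral is at least
  `f(x(T)) - f(x(0)) ≥ -2 C` (`Adm.integral_grad`). Conversely, for `j ≥ 1` let `k` be an integer vector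
  with `‖zv k - j vc‖ ≤ √n`; the straight line `γ(t) = t v`, `v = zv k/j`, is a solution (`Sol`: `D v + A(γ)`
  has the derivative `A'(γ) v = adjoint (A'(γ)) v` because `A'` is symmetric, `F = 0`), and has the
  period `j`; its value is at most `-α + κ₂/2 ‖v - vc‖² ≤ -α + κ₂ n/(2 j²)` (the integral of `⟪∇f, v⟫` over the
  period vanishes), `mem_actionValues`.
* `peierls_int`: for a curve as in `curveActions` from `x` to `x`: the action is
  `∫ (K γ' - K vc - ⟪D vc, γ' - vc⟫) + f(γ(k)) - f(γ(0)) ≥ 0` (`f ∘ γ` is absolutely continuous since `f`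
  is Lipschitz; see `AbsolutelyContinuousOnInterval`, its fundamental theorem of calculus and
  a.e. differentiability; `f(γ(k)) = f(γ(0))` since `pr (γ k) = pr (γ 0)`). The line from `x` to `x + zv k'`,
  `‖zv k' - k vc‖ ≤ √n`, has the action at most `k κ₂/2 (√n/k)² = κ₂ n/(2 k)`. So
  `0 ≤ sInf (curveActions L c k x x) ≤ κ₂ n/(2 k) → 0`.
-/

set_option autoImplicit false

open MeasureTheory
open scoped RealInnerProductSpace

namespace Pool.Agent.H33.AM

variable {n : ℕ} {K V f : EuclideanSpace ℝ (Fin n) → ℝ}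
  {D F A : EuclideanSpace ℝ (Fin n) → EuclideanSpace ℝ (Fin n)}
  {A' : EuclideanSpace ℝ (Fin n) → EuclideanSpace ℝ (Fin n) →L[ℝ] EuclideanSpace ℝ (Fin n)}
  {κ₁ κ₂ B C V₀ : ℝ} {a₀ : EuclideanSpace ℝ (Fin n)}

private lemma c1b_ac_comp {X Y : Type*} [PseudoMetricSpace X] [PseudoMetricSpace Y]
    {g : X → Y} {γ : ℝ → X} {M a b : ℝ} (hg : ∀ x y, dist (g x) (g y) ≤ M * dist x y)
    (h : AbsolutelyContinuousOnInterval γ a b) :
    AbsolutelyContinuousOnInterval (fun t => g (γ t)) a b := by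
  have h' := Filter.Tendsto.const_mul M h
  rw [mul_zero] at h'
  refine squeeze_zero (fun t => Finset.sum_nonneg fun i _ => dist_nonneg) (fun t => ?_) h'
  rw [Finset.mul_sum]
  exact Finset.sum_le_sum fun i _ => hg _ _

private lemma c1b_lip {f : EuclideanSpace ℝ (Fin n) → ℝ}
    {G : EuclideanSpace ℝ (Fin n) → EuclideanSpace ℝ (Fin n)}
    (hf : ∀ x, HasGradientAt f (G x) x) {M : ℝ} (hM : ∀ x, ‖G x‖ ≤ M)
    (x y : EuclideanSpace ℝ (Fin n)) : dist (f x) (f y) ≤ M * dist x y := by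
  have h := Convex.norm_image_sub_le_of_norm_hasFDerivWithin_le (𝕜 := ℝ) (s := Set.univ)
    (f := f) (f' := fun x => (InnerProductSpace.toDual ℝ _) (G x)) (C := M)
    (fun x _ => (hf x).hasFDerivAt.hasFDerivWithinAt)
    (fun x _ => by rw [LinearIsometryEquiv.norm_map]; exact hM x)
    convex_univ (Set.mem_univ y) (Set.mem_univ x)
  rw [dist_eq_norm, dist_eq_norm]
  exact h

private lemma c1b_round (v : EuclideanSpace ℝ (Fin n)) :
    ∃ k : Fin n → ℤ, ‖zv k - v‖ ^ 2 ≤ n := by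
  refine ⟨fun i => round (v i), ?_⟩
  rw [EuclideanSpace.norm_sq_eq]
  calc ∑ i, ‖(zv (fun i => round (v i)) - v) i‖ ^ 2 ≤ ∑ i : Fin n, (1 : ℝ) := by
        refine Finset.sum_le_sum fun i _ => ?_
        have h1 : (zv (fun i => round (v i)) - v) i = (round (v i) : ℝ) - v i := rfl
        rw [h1, Real.norm_eq_abs, sq_abs]
        have h2 := abs_sub_round (v i)
        rw [abs_le] at h2
        nlinarith [h2.1, h2.2]
    _ = n := by simp

/-- chain rule along an absolutely continuous curve -/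
private lemma c1b_deriv {f : EuclideanSpace ℝ (Fin n) → ℝ}
    {G : EuclideanSpace ℝ (Fin n) → EuclideanSpace ℝ (Fin n)}
    (hf : ∀ x, HasGradientAt f (G x) x) {γ : ℝ → EuclideanSpace ℝ (Fin n)} {t : ℝ}
    (h : DifferentiableAt ℝ γ t) : deriv (fun s => f (γ s)) t = ⟪G (γ t), deriv γ t⟫ := by
  have h1 := (hf (γ t)).hasFDerivAt.comp_hasDerivAt t h.hasDerivAt
  have h2 : deriv (fun s => f (γ s)) t =
      ((InnerProductSpace.toDual ℝ (EuclideanSpace ℝ (Fin n))) (G (γ t))) (deriv γ t) := h1.deriv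
  rw [h2, InnerProductSpace.toDual_apply_apply]

private lemma c1b_int {f : EuclideanSpace ℝ (Fin n) → ℝ}
    {G : EuclideanSpace ℝ (Fin n) → EuclideanSpace ℝ (Fin n)}
    (hf : ∀ x, HasGradientAt f (G x) x) {M : ℝ} (hM : ∀ x, ‖G x‖ ≤ M)
    (hfper : ∀ x (k : Fin n → ℤ), f (x + zv k) = f x)
    {γ : ℝ → EuclideanSpace ℝ (Fin n)} {b : ℝ}
    (h : AbsolutelyContinuousOnInterval γ 0 b) (hb : pr (γ 0) = pr (γ b)) :
    IntervalIntegrable (fun t => deriv (fun s => f (γ s)) t) volume 0 b ∧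
      ∫ t in (0 : ℝ)..b, deriv (fun s => f (γ s)) t = 0 := by
  have h1 : AbsolutelyContinuousOnInterval (fun t => f (γ t)) 0 b :=
    c1b_ac_comp (c1b_lip hf hM) h
  refine ⟨h1.intervalIntegrable_deriv, ?_⟩
  rw [h1.integral_deriv_eq_sub]
  obtain ⟨k, hk⟩ := (pr_eq_iff _ _).1 hb
  rw [hk, hfper, sub_self]

theorem peierls_int (hK : HK K D κ₁ κ₂) (hA : HA A A' B) (hV : HV V F B)
    (hf : ∀ x, HasGradientAt f (A x - a₀) x)
    (hfper : ∀ x (k : Fin n → ℤ), f (x + zv k) = f x) (hfb : ∀ x, |f x| ≤ C)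
    (hV₀ : ∀ x, V x = V₀) {c vc : EuclideanSpace ℝ (Fin n)} (hvc : D vc = c - a₀)
    (hα : alpha (fun x v _ => lag K A V x v) c = ⟪c - a₀, vc⟫ - K vc + V₀) (x : Tor n) :
    peierls (fun x v _ => lag K A V x v) c x x = 0 := by
  have hM : ∀ x, ‖A x - a₀‖ ≤ B + ‖a₀‖ := fun x =>
    (norm_sub_le _ _).trans (add_le_add (hA.bd x) le_rfl)
  -- the integrand
  have hdec : ∀ y v : EuclideanSpace ℝ (Fin n),
      lag K A V y v - ⟪c, v⟫ + alpha (fun x v _ => lag K A V x v) c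
        = (K v - K vc - ⟪D vc, v - vc⟫) + ⟪A y - a₀, v⟫ := by
    intro y v
    rw [hα, hvc, lag, hV₀, inner_sub_right, inner_sub_left, inner_sub_left, inner_sub_left]
    ring
  have hlo : ∀ v, 0 ≤ K v - K vc - ⟪D vc, v - vc⟫ := fun v => by
    have h1 := hK.lo vc v
    have h2 : 0 ≤ κ₁ / 2 * ‖v - vc‖ ^ 2 := mul_nonneg (by linarith [hK.pos]) (sq_nonneg _)
    linarith
  -- lower bound
  have hlower : ∀ (k : ℕ), ∀ a ∈ curveActions (fun x v _ => lag K A V x v) c k x x, 0 ≤ a := by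
    rintro k a ⟨γ, hγ, h0, h1, hint, rfl⟩
    obtain ⟨hi1, hi2⟩ := c1b_int hf hM hfper hγ (h0.trans h1.symm)
    refine le_of_eq_of_le hi2.symm ?_
    refine intervalIntegral.integral_mono_ae_restrict (Nat.cast_nonneg k) hi1 hint ?_
    have h3 := hγ.boundedVariationOn.ae_differentiableAt_of_mem_uIcc
    rw [Set.uIcc_of_le (Nat.cast_nonneg k)] at h3
    refine (ae_restrict_iff' measurableSet_Icc).2 ?_
    filter_upwards [h3] with t ht htm
    have h4 := c1b_deriv hf (ht htm)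
    have h5 := hdec (γ t) (deriv γ t)
    have h6 := hlo (deriv γ t)
    show deriv (fun s => f (γ s)) t ≤ lag K A V (γ t) (deriv γ t) - ⟪c, deriv γ t⟫ +
      alpha (fun x v _ => lag K A V x v) c
    rw [h4, h5]
    linarith
  -- upper bound
  have hupper : ∀ (k : ℕ), 1 ≤ k → ∃ a ∈ curveActions (fun x v _ => lag K A V x v) c k x x,
      a ≤ κ₂ / 2 * n / k := by
    intro k hk
    have hk0 : (0 : ℝ) < k := by exact_mod_cast hk
    obtain ⟨z, hz⟩ := c1b_round ((k : ℝ) • vc)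
    have hw : ‖(1 / (k : ℝ)) • zv z - vc‖ ^ 2 ≤ n / k ^ 2 := by
      have h1 : (1 / (k : ℝ)) • zv z - vc = (1 / (k : ℝ)) • (zv z - (k : ℝ) • vc) := by
        rw [smul_sub, smul_smul, one_div_mul_cancel hk0.ne', one_smul]
      rw [h1, norm_smul, mul_pow, Real.norm_eq_abs, sq_abs, one_div, inv_pow, div_eq_inv_mul]
      exact mul_le_mul_of_nonneg_left hz (by positivity)
    have hγd : ∀ t : ℝ, HasDerivAt (fun t : ℝ => repE x + t • ((1 / (k : ℝ)) • zv z))
        ((1 / (k : ℝ)) • zv z) t := fun t => by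
      have h1 := ((hasDerivAt_id t).smul_const ((1 / (k : ℝ)) • zv z)).const_add (repE x)
      rw [one_smul] at h1
      exact h1
    have hAC : AbsolutelyContinuousOnInterval
        (fun t : ℝ => repE x + t • ((1 / (k : ℝ)) • zv z)) 0 k := by
      refine ContDiffOn.absolutelyContinuousOnInterval (ContDiff.contDiffOn ?_)
      exact contDiff_const.add (contDiff_id.smul contDiff_const)
    have h0 : pr (repE x + (0 : ℝ) • ((1 / (k : ℝ)) • zv z)) = x := by
      rw [zero_smul, add_zero, pr_repE]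
    have h1 : pr (repE x + (k : ℝ) • ((1 / (k : ℝ)) • zv z)) = x := by
      rw [smul_smul, mul_one_div_cancel hk0.ne', one_smul]
      exact ((pr_eq_iff _ _).2 ⟨z, rfl⟩).trans (pr_repE x)
    obtain ⟨hi1, hi2⟩ := c1b_int hf hM hfper hAC (h0.trans h1.symm)
    have hd : ∀ t : ℝ, deriv (fun t : ℝ => repE x + t • ((1 / (k : ℝ)) • zv z)) t =
        (1 / (k : ℝ)) • zv z := fun t => (hγd t).deriv
    have heq : (fun t : ℝ => (fun x v _ => lag K A V x v)
          ((fun t : ℝ => repE x + t • ((1 / (k : ℝ)) • zv z)) t)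
          (deriv (fun t : ℝ => repE x + t • ((1 / (k : ℝ)) • zv z)) t) t
          - ⟪c, deriv (fun t : ℝ => repE x + t • ((1 / (k : ℝ)) • zv z)) t⟫
          + alpha (fun x v _ => lag K A V x v) c) =
        fun t : ℝ => (K ((1 / (k : ℝ)) • zv z) - K vc
          - ⟪D vc, (1 / (k : ℝ)) • zv z - vc⟫) +
          deriv (fun s : ℝ => f (repE x + s • ((1 / (k : ℝ)) • zv z))) t := by
      funext t
      have h4 := c1b_deriv (γ := fun t : ℝ => repE x + t • ((1 / (k : ℝ)) • zv z)) hf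
        (hγd t).differentiableAt
      have h5 := hdec (repE x + t • ((1 / (k : ℝ)) • zv z)) ((1 / (k : ℝ)) • zv z)
      rw [hd] at h4 ⊢
      show lag K A V (repE x + t • ((1 / (k : ℝ)) • zv z)) ((1 / (k : ℝ)) • zv z)
        - ⟪c, (1 / (k : ℝ)) • zv z⟫ + alpha (fun x v _ => lag K A V x v) c = _
      rw [h5]
      exact congrArg _ h4.symm
    refine ⟨_, ⟨fun t : ℝ => repE x + t • ((1 / (k : ℝ)) • zv z), hAC, h0, h1, ?_, rfl⟩, ?_⟩
    · rw [heq]
      exact intervalIntegrable_const.add hi1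
    · rw [heq, intervalIntegral.integral_add intervalIntegrable_const hi1, hi2, add_zero,
        intervalIntegral.integral_const, sub_zero, smul_eq_mul]
      have h6 := hK.hi vc ((1 / (k : ℝ)) • zv z)
      have h7 : κ₂ / 2 * ‖(1 / (k : ℝ)) • zv z - vc‖ ^ 2 ≤ κ₂ / 2 * (n / k ^ 2) :=
        mul_le_mul_of_nonneg_left hw (by linarith [hK.pos₂])
      calc (k : ℝ) * (K ((1 / (k : ℝ)) • zv z) - K vc - ⟪D vc, (1 / (k : ℝ)) • zv z - vc⟫)
          ≤ k * (κ₂ / 2 * (n / k ^ 2)) := mul_le_mul_of_nonneg_left (h6.trans h7) hk0.le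
        _ = κ₂ / 2 * n / k := by field_simp
  have hnonneg : ∀ k : ℕ, 0 ≤ sInf (curveActions (fun x v _ => lag K A V x v) c k x x) :=
    fun k => Real.sInf_nonneg (hlower k)
  have hle : ∀ k : ℕ, 1 ≤ k →
      sInf (curveActions (fun x v _ => lag K A V x v) c k x x) ≤ κ₂ / 2 * n / k := by
    intro k hk
    obtain ⟨a, ha, hle⟩ := hupper k hk
    exact (csInf_le ⟨0, fun b hb => hlower k b hb⟩ ha).trans hle
  have hlim : Filter.Tendsto
      (fun k : ℕ => sInf (curveActions (fun x v _ => lag K A V x v) c k x x))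
      Filter.atTop (nhds 0) := by
    refine squeeze_zero' (Filter.Eventually.of_forall hnonneg)
      (Filter.eventually_atTop.2 ⟨1, hle⟩) ?_
    exact tendsto_const_div_atTop_nhds_zero_nat _
  exact hlim.liminf_eq

end Pool.Agent.H33.AM
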