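import Pool.Agent.H33.AM.Basic
import Pool.Agent.H33.AM.P.F1a

/-!
# Module F1: global flows

* `flow_of_lipschitz`: Picard-Lindelöf gives for every `z` a solution on every interval
  (`IsPicardLindelof`, or the contraction principle with a weighted norm), glue; uniqueness by
  Gronwall (`ODE_solution_unique_univ`), continuity in `z`: `dist_le_of_trajectories_ODE`.
* `flow_of_growth`: `Y` is Lipschitz on every ball and `‖Y z‖ ≤ C (1 + ‖z‖)`: for `ρ_R(z) =
  min(1, R/‖z‖) z` (Lipschitz with the constant 2 in every normed space) the field `Y ∘ ρ_R` is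
  Lipschitz (globally), and its solutions starting in the ball of radius `r` stay for `|t| ≤ T` in the
  ball of radius `(1 + r) exp(C T)`, so they are solutions for `Y` if `R` is large.
* `euler`: let `z 0, …, z N` be in the ball of radius `R`, `N τ ≤ T`, and
  `‖z (i + 1) - z i - τ Y (z i)‖ ≤ c`. Then `‖φ (i τ) (z 0) - z i‖ ≤ C₂ (τ + c/τ)`, `C₂ = C₂(Y, R, T)`:
  the exact solution from the ball `R` stays in a ball `R'`, where `Y` has a Lipschitz constant `K'` and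
  a bound `M'`; `e_i = ‖φ (i τ) (z 0) - z i‖` satisfies `e_{i+1} ≤ (1 + K' τ) e_i + K' M' τ² + c`, so
  `e_i ≤ i exp(K' T) (K' M' τ² + c)`.
-/

set_option autoImplicit false

open MeasureTheory
open scoped RealInnerProductSpace

namespace Pool.Agent.H33.AM

variable {W : Type*} [NormedAddCommGroup W] [NormedSpace ℝ W] [CompleteSpace W]

omit [CompleteSpace W] in
/-- Uniqueness on symmetric open intervals, for locally Lipschitz fields. -/
private theorem f1b_unique {Y : W → W}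
    (hloc : ∀ R : ℝ, ∃ K : NNReal, LipschitzOnWith K Y (Metric.closedBall 0 R)) (T : ℝ)
    (α β : ℝ → W) (hα : ∀ t ∈ Set.Ioo (-T) T, HasDerivAt α (Y (α t)) t)
    (hβ : ∀ t ∈ Set.Ioo (-T) T, HasDerivAt β (Y (β t)) t) (h : α 0 = β 0) :
    Set.EqOn α β (Set.Ioo (-T) T) := by
  intro t ht
  have hT : 0 < T := by
    by_contra h1
    linarith [ht.1, ht.2]
  obtain ⟨S, hS1, hS2⟩ : ∃ S, |t| < S ∧ S < T := exists_between (abs_lt.2 ⟨ht.1, ht.2⟩)
  have hS0 : 0 < S := (abs_nonneg t).trans_lt hS1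
  have hsub : Set.Icc (-S) S ⊆ Set.Ioo (-T) T := fun s hs =>
    ⟨by linarith [hs.1], by linarith [hs.2]⟩
  obtain ⟨R₁, hR₁⟩ := isCompact_Icc.exists_bound_of_continuousOn (s := Set.Icc (-S) S) (f := α)
    (fun s hs => (hα s (hsub hs)).continuousAt.continuousWithinAt)
  obtain ⟨R₂, hR₂⟩ := isCompact_Icc.exists_bound_of_continuousOn (s := Set.Icc (-S) S) (f := β)
    (fun s hs => (hβ s (hsub hs)).continuousAt.continuousWithinAt)
  obtain ⟨K, hK⟩ := hloc (max R₁ R₂)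
  have hss : Set.Ioo (-S) S ⊆ Set.Icc (-S) S := Set.Ioo_subset_Icc_self
  exact ODE_solution_unique_of_mem_Ioo (v := fun _ => Y)
    (s := fun _ => Metric.closedBall 0 (max R₁ R₂)) (t₀ := 0) (a := -S) (b := S)
    (fun _ _ => hK) ⟨by linarith, hS0⟩
    (fun s hs => ⟨hα s (hsub (hss hs)), by
      rw [mem_closedBall_zero_iff]
      exact (hR₁ s (hss hs)).trans (le_max_left _ _)⟩)
    (fun s hs => ⟨hβ s (hsub (hss hs)), by
      rw [mem_closedBall_zero_iff]
      exact (hR₂ s (hss hs)).trans (le_max_right _ _)⟩) h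
    ⟨by linarith [neg_abs_le t], by linarith [le_abs_self t]⟩

omit [CompleteSpace W] in
/-- Gluing of the solutions on all bounded intervals. -/
private theorem f1b_glue {Y : W → W} {z : W}
    (hU : ∀ (T : ℝ) (α β : ℝ → W), (∀ t ∈ Set.Ioo (-T) T, HasDerivAt α (Y (α t)) t) →
      (∀ t ∈ Set.Ioo (-T) T, HasDerivAt β (Y (β t)) t) → α 0 = β 0 →
      Set.EqOn α β (Set.Ioo (-T) T))
    (h : ∀ T : ℝ, ∃ α : ℝ → W, α 0 = z ∧ ∀ t ∈ Set.Ioo (-T) T, HasDerivAt α (Y (α t)) t) :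
    ∃ γ : ℝ → W, γ 0 = z ∧ ∀ t, HasDerivAt γ (Y (γ t)) t := by
  choose α hα0 hα using h
  have key : ∀ t₀ t : ℝ, |t| < |t₀| + 1 → α (|t| + 1) t = α (|t₀| + 2) t := by
    intro t₀ t ht
    refine hU (|t| + 1) _ _ (hα _) ?_ ?_ ?_
    · exact fun s hs => hα _ s ⟨by linarith [hs.1], by linarith [hs.2]⟩
    · rw [hα0, hα0]
    · exact ⟨by linarith [neg_abs_le t], by linarith [le_abs_self t]⟩
  refine ⟨fun t => α (|t| + 1) t, hα0 _, fun t₀ => ?_⟩
  have h1 : (fun t => α (|t| + 1) t) =ᶠ[nhds t₀] α (|t₀| + 2) := by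
    have h2 : ∀ᶠ t in nhds t₀, |t| < |t₀| + 1 :=
      continuous_abs.continuousAt.eventually_lt continuousAt_const (by linarith)
    filter_upwards [h2] with t ht
    exact key t₀ t ht
  have h2 := hα (|t₀| + 2) t₀ ⟨by linarith [neg_abs_le t₀], by linarith [le_abs_self t₀]⟩
  have h3 := h2.congr_of_eventuallyEq h1
  have h4 : α (|t₀| + 1) t₀ = α (|t₀| + 2) t₀ := key t₀ t₀ (by linarith)
  simp only
  rw [h4]
  exact h3

/-- The cutoff function. -/
private noncomputable def f1b_chi (R : ℝ) (z : W) : ℝ := max 0 (min 1 (2 - ‖z‖ / R))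

omit [NormedSpace ℝ W] [CompleteSpace W] in
private theorem f1b_chi_nonneg (R : ℝ) (z : W) : 0 ≤ f1b_chi R z := le_max_left _ _

omit [NormedSpace ℝ W] [CompleteSpace W] in
private theorem f1b_chi_le (R : ℝ) (z : W) : f1b_chi R z ≤ 1 :=
  max_le zero_le_one (min_le_left _ _)

omit [NormedSpace ℝ W] [CompleteSpace W] in
private theorem f1b_chi_one {R : ℝ} (hR : 0 < R) {z : W} (hz : ‖z‖ ≤ R) : f1b_chi R z = 1 := by
  have h1 : ‖z‖ / R ≤ 1 := (div_le_one hR).2 hz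
  rw [f1b_chi, min_eq_left (by linarith), max_eq_right zero_le_one]

omit [NormedSpace ℝ W] [CompleteSpace W] in
private theorem f1b_chi_zero {R : ℝ} (hR : 0 < R) {z : W} (hz : 2 * R ≤ ‖z‖) :
    f1b_chi R z = 0 := by
  have h1 : 2 ≤ ‖z‖ / R := (le_div_iff₀ hR).2 hz
  rw [f1b_chi, max_eq_left]
  exact (min_le_right _ _).trans (by linarith)

omit [NormedSpace ℝ W] [CompleteSpace W] in
private theorem f1b_chi_lip {R : ℝ} (hR : 0 < R) (z w : W) :
    |f1b_chi R z - f1b_chi R w| ≤ ‖z - w‖ / R := by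
  have h1 : |f1b_chi R z - f1b_chi R w| ≤ |(2 - ‖z‖ / R) - (2 - ‖w‖ / R)| := by
    unfold f1b_chi
    refine (abs_max_sub_max_le_max _ _ _ _).trans ?_
    refine max_le (by rw [sub_self, abs_zero]; exact abs_nonneg _) ?_
    refine (abs_min_sub_min_le_max _ _ _ _).trans ?_
    exact max_le (by rw [sub_self, abs_zero]; exact abs_nonneg _) le_rfl
  refine h1.trans ?_
  rw [show (2 - ‖z‖ / R) - (2 - ‖w‖ / R) = (‖w‖ - ‖z‖) / R by ring, abs_div, abs_of_pos hR,
    abs_sub_comm]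
  gcongr
  exact abs_norm_sub_norm_le z w

omit [CompleteSpace W] in
private theorem f1b_cut_lip {Y : W → W}
    (hloc : ∀ R : ℝ, ∃ K : NNReal, LipschitzOnWith K Y (Metric.closedBall 0 R)) {R : ℝ}
    (hR : 0 < R) : ∃ K : NNReal, LipschitzWith K (fun z => f1b_chi R z • Y z) := by
  obtain ⟨K, hK⟩ := hloc (2 * R)
  -- bound of the field
  set M : ℝ := ‖Y 0‖ + K * (2 * R) with hM
  have hK0 : (0 : ℝ) ≤ K := K.2
  have hM0 : 0 ≤ M := by positivity
  have hlip : ∀ z w : W, ‖z‖ ≤ 2 * R → ‖w‖ ≤ 2 * R → ‖Y z - Y w‖ ≤ K * ‖z - w‖ := by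
    intro z w hz hw
    have := hK.dist_le_mul z (by rwa [mem_closedBall_zero_iff]) w
      (by rwa [mem_closedBall_zero_iff])
    rwa [dist_eq_norm, dist_eq_norm] at this
  have hbd : ∀ z : W, ‖z‖ ≤ 2 * R → ‖Y z‖ ≤ M := by
    intro z hz
    have h1 := hlip z 0 hz (by rw [norm_zero]; positivity)
    rw [sub_zero] at h1
    have h2 : ‖Y z‖ ≤ ‖Y 0‖ + ‖Y z - Y 0‖ := by
      have := norm_add_le (Y 0) (Y z - Y 0)
      rwa [add_sub_cancel] at this
    have h3 : (K : ℝ) * ‖z‖ ≤ K * (2 * R) := by gcongr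
    linarith
  have hone : ∀ z w : W, ‖z‖ ≤ 2 * R → 2 * R ≤ ‖w‖ →
      ‖f1b_chi R z • Y z - f1b_chi R w • Y w‖ ≤ (K + M / R) * ‖z - w‖ := by
    intro z w hz hw
    rw [f1b_chi_zero hR hw, zero_smul, sub_zero, norm_smul, Real.norm_eq_abs]
    have h1 := f1b_chi_lip hR z w
    rw [f1b_chi_zero hR hw, sub_zero] at h1
    calc |f1b_chi R z| * ‖Y z‖ ≤ ‖z - w‖ / R * M :=
          mul_le_mul h1 (hbd z hz) (norm_nonneg _) (by positivity)
      _ = M / R * ‖z - w‖ := by ring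
      _ ≤ (K + M / R) * ‖z - w‖ := by
          gcongr
          linarith
  refine ⟨⟨K + M / R, by positivity⟩, LipschitzWith.of_dist_le_mul fun z w => ?_⟩
  rw [dist_eq_norm, dist_eq_norm]
  change ‖f1b_chi R z • Y z - f1b_chi R w • Y w‖ ≤ (K + M / R) * ‖z - w‖
  rcases le_total ‖z‖ (2 * R) with hz | hz
  · rcases le_total ‖w‖ (2 * R) with hw | hw
    · have e : f1b_chi R z • Y z - f1b_chi R w • Y w =
          (f1b_chi R z - f1b_chi R w) • Y z + f1b_chi R w • (Y z - Y w) := by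
        rw [sub_smul, smul_sub]
        abel
      rw [e]
      refine (norm_add_le _ _).trans ?_
      rw [norm_smul, norm_smul, Real.norm_eq_abs, Real.norm_eq_abs,
        abs_of_nonneg (f1b_chi_nonneg R w)]
      have h1 : |f1b_chi R z - f1b_chi R w| * ‖Y z‖ ≤ ‖z - w‖ / R * M :=
        mul_le_mul (f1b_chi_lip hR z w) (hbd z hz) (norm_nonneg _) (by positivity)
      have h2 : f1b_chi R w * ‖Y z - Y w‖ ≤ 1 * (K * ‖z - w‖) :=
        mul_le_mul (f1b_chi_le R w) (hlip z w hz hw) (norm_nonneg _) zero_le_one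
      calc _ ≤ ‖z - w‖ / R * M + 1 * (K * ‖z - w‖) := add_le_add h1 h2
        _ = (K + M / R) * ‖z - w‖ := by ring
    · exact hone z w hz hw
  · rcases le_total ‖w‖ (2 * R) with hw | hw
    · rw [norm_sub_rev, norm_sub_rev z w]
      exact hone w z hw hz
    · rw [f1b_chi_zero hR hz, f1b_chi_zero hR hw, zero_smul, zero_smul, sub_zero, norm_zero]
      positivity

omit [CompleteSpace W] in
/-- The a priori bound. -/
private theorem f1b_bound {Z : W → W} {C : ℝ} (hC : 0 < C) (hgr : ∀ z, ‖Z z‖ ≤ C * (1 + ‖z‖))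
    {α : ℝ → W} (hα : ∀ t, HasDerivAt α (Z (α t)) t) (t : ℝ) :
    ‖α t‖ ≤ (1 + ‖α 0‖) * Real.exp (C * |t|) := by
  have main : ∀ (Z : W → W) (α : ℝ → W), (∀ z, ‖Z z‖ ≤ C * (1 + ‖z‖)) →
      (∀ t, HasDerivAt α (Z (α t)) t) → ∀ t, 0 ≤ t →
      ‖α t‖ ≤ (1 + ‖α 0‖) * Real.exp (C * t) := by
    intro Z α hgr hα t ht
    have h1 := norm_le_gronwallBound_of_norm_deriv_right_le (f := α) (f' := fun t => Z (α t))
      (δ := ‖α 0‖) (K := C) (ε := C) (a := 0) (b := t)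
      (fun s _ => (hα s).continuousAt.continuousWithinAt) (fun s _ => (hα s).hasDerivWithinAt)
      le_rfl (fun s _ => (hgr (α s)).trans (by linarith)) t ⟨ht, le_rfl⟩
    rw [gronwallBound_of_K_ne_0 hC.ne'] at h1
    simp only [sub_zero, div_self hC.ne', one_mul] at h1
    linarith
  rcases le_or_gt 0 t with ht | ht
  · rw [abs_of_nonneg ht]
    exact main Z α hgr hα t ht
  · rw [abs_of_neg ht]
    have hr : ∀ s, HasDerivAt (fun s => α (-s)) (-Z (α (-s))) s := by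
      intro s
      have h1 := HasDerivAt.scomp s (hα (-s)) (hasDerivAt_neg s)
      rw [neg_one_smul] at h1
      exact h1
    have h2 := main (fun z => -Z z) (fun s => α (-s)) (fun z => by rw [norm_neg]; exact hgr z)
      hr (-t) (by linarith)
    simp only [neg_neg, neg_zero] at h2
    exact h2

/-- The flow of the cutoff field. -/
private theorem f1b_cut {Y : W → W}
    (hloc : ∀ R : ℝ, ∃ K : NNReal, LipschitzOnWith K Y (Metric.closedBall 0 R)) {C : ℝ}
    (hC : 0 < C) (hgr : ∀ z, ‖Y z‖ ≤ C * (1 + ‖z‖)) (r T : ℝ) :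
    ∃ ψ : ℝ → W → W, (∀ z, ψ 0 z = z) ∧ Continuous (fun p : ℝ × W => ψ p.1 p.2) ∧
      ∀ z, ‖z‖ ≤ r → ∀ t ∈ Set.Ioo (-T) T, HasDerivAt (fun s => ψ s z) (Y (ψ t z)) t := by
  set R : ℝ := (1 + |r|) * Real.exp (C * |T|) with hR
  have hR0 : 0 < R := by positivity
  obtain ⟨K, hK⟩ := f1b_cut_lip hloc hR0
  obtain ⟨ψ, hψ⟩ := flow_of_lipschitz hK
  refine ⟨ψ, hψ.zero, hψ.cont, fun z hz t ht => ?_⟩
  have hgr' : ∀ z : W, ‖f1b_chi R z • Y z‖ ≤ C * (1 + ‖z‖) := by
    intro z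
    rw [norm_smul, Real.norm_eq_abs, abs_of_nonneg (f1b_chi_nonneg R z)]
    calc f1b_chi R z * ‖Y z‖ ≤ 1 * ‖Y z‖ := by
          gcongr
          exact f1b_chi_le R z
      _ ≤ C * (1 + ‖z‖) := by rw [one_mul]; exact hgr z
  have h1 := f1b_bound hC hgr' (fun t => hψ.der z t) t
  rw [hψ.zero] at h1
  have h2 : ‖ψ t z‖ ≤ R := by
    refine h1.trans ?_
    have h3 : |t| ≤ |T| := by
      rw [abs_le]
      constructor
      · linarith [ht.1, le_abs_self T]
      · linarith [ht.2, le_abs_self T]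
    have h4 : ‖z‖ ≤ |r| := hz.trans (le_abs_self r)
    rw [hR]
    gcongr
  have h3 := hψ.der z t
  rw [f1b_chi_one hR0 h2, one_smul] at h3
  exact h3

theorem flow_of_growth {Y : W → W}
    (hloc : ∀ R : ℝ, ∃ K : NNReal, LipschitzOnWith K Y (Metric.closedBall 0 R)) {C : ℝ}
    (hgr : ∀ z, ‖Y z‖ ≤ C * (1 + ‖z‖)) : ∃ φ : ℝ → W → W, IsFlow Y φ := by
  have hC : 0 < |C| + 1 := by positivity
  have hgr' : ∀ z, ‖Y z‖ ≤ (|C| + 1) * (1 + ‖z‖) := by
    intro z
    refine (hgr z).trans ?_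
    have h1 : 0 ≤ 1 + ‖z‖ := by positivity
    exact mul_le_mul_of_nonneg_right (by linarith [le_abs_self C]) h1
  have hU := f1b_unique hloc
  have hG : ∀ z, ∃ γ : ℝ → W, γ 0 = z ∧ ∀ t, HasDerivAt γ (Y (γ t)) t := by
    intro z
    refine f1b_glue hU fun T => ?_
    obtain ⟨ψ, hψ0, -, hψ⟩ := f1b_cut hloc hC hgr' ‖z‖ T
    exact ⟨fun t => ψ t z, hψ0 z, hψ z le_rfl⟩
  choose γ hγ0 hγ using hG
  have huniq : ∀ α β : ℝ → W, (∀ t, HasDerivAt α (Y (α t)) t) →
      (∀ t, HasDerivAt β (Y (β t)) t) → α 0 = β 0 → α = β := by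
    intro α β hα hβ h0
    funext t
    exact hU (|t| + 1) α β (fun t _ => hα t) (fun t _ => hβ t) h0
      ⟨by linarith [neg_abs_le t], by linarith [le_abs_self t]⟩
  refine ⟨fun t z => γ z t, hγ0, fun z t => hγ z t, ?_, ?_⟩
  · rw [continuous_iff_continuousAt]
    rintro ⟨t₀, z₀⟩
    obtain ⟨ψ, hψ0, hψc, hψ⟩ := f1b_cut hloc hC hgr' (‖z₀‖ + 1) (|t₀| + 1)
    refine (hψc.continuousAt (x := (t₀, z₀))).congr ?_
    have h1 : ∀ᶠ p : ℝ × W in nhds (t₀, z₀), |p.1| < |t₀| + 1 :=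
      (continuous_abs.comp continuous_fst).continuousAt.eventually_lt continuousAt_const
        (by simp)
    have h2 : ∀ᶠ p : ℝ × W in nhds (t₀, z₀), ‖p.2‖ < ‖z₀‖ + 1 :=
      (continuous_norm.comp continuous_snd).continuousAt.eventually_lt continuousAt_const
        (by simp)
    filter_upwards [h1, h2] with p hp1 hp2
    exact hU (|t₀| + 1) (fun s => ψ s p.2) (γ p.2) (hψ p.2 hp2.le) (fun t _ => hγ p.2 t)
      (by rw [hψ0, hγ0]) ⟨by linarith [neg_abs_le p.1], by linarith [le_abs_self p.1]⟩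
  · intro α hα s t
    have h1 : ∀ s, HasDerivAt (fun s => α (s + t)) (Y (α (s + t))) s := fun s =>
      (hα (s + t)).comp_add_const s t
    have h2 := huniq (fun s => α (s + t)) (γ (α t)) h1 (hγ _) (by simp [hγ0])
    exact congrFun h2 s

end Pool.Agent.H33.AM
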