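import Pool.Agent.H33.AM.Basic
import Pool.Agent.H33.AM.P.F1a
import Pool.Agent.H33.AM.P.F1b

/-!
# Module F1: global flows

* `flow_of_lipschitz`: Picard-Lindelöf gives for every `z` a solution on every interval
  (`IsPicardLindelof`, or the contraction principle with a weighted norm), glue; uniqueness by
  Gronwall (`ODE_solution_unique_univ`), continuity in `z`: `dist_le_of_trajectories_ODE`.
* `flow_of_growth`: `Y` is Lipschitz on every ball and `‖Y z‖ ≤ C (1 + ‖z‖)`: for `ρ_R(z) =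
  min(1, R/‖z‖) z` (Lipschitz with the constant 2 in every normed space) the field `Y ∘ ρ_R` is
  Lipschitz (globally), and its solutions starting in the ball of radius `r` stay for `|t| ≤ T` in the
  ball of radius `(1 + r) exp(C T)`, so they are solutions for `Y` if `R` is large.
* `euler`: let `z 0, …, z N` be in the ball of radius `R`, `N τ ≤ T`, and
  `‖z (i + 1) - z i - τ Y (z i)‖ ≤ c`. Then `‖φ (i τ) (z 0) - z i‖ ≤ C₂ (τ + c/τ)`, `C₂ = C₂(Y, R, T)`:
  the exact solution from the ball `R` stays in a ball `R'`, where `Y` has a Lipschitz constant `K'` and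
  a bound `M'`; `e_i = ‖φ (i τ) (z 0) - z i‖` satisfies `e_{i+1} ≤ (1 + K' τ) e_i + K' M' τ² + c`, so
  `e_i ≤ i exp(K' T) (K' M' τ² + c)`.
-/

set_option autoImplicit false

open MeasureTheory
open scoped RealInnerProductSpace

namespace Pool.Agent.H33.AM

variable {W : Type*} [NormedAddCommGroup W] [NormedSpace ℝ W] [CompleteSpace W]

private theorem F1c_apriori {Y : W → W} {C : ℝ} (hC : 0 ≤ C)
    (hgr : ∀ z, ‖Y z‖ ≤ C * (1 + ‖z‖)) {φ : ℝ → W → W} (hφ : IsFlow Y φ) {R T : ℝ} (hR : 0 ≤ R)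
    (z₀ : W) (hz : ‖z₀‖ ≤ R) : ∀ t ∈ Set.Icc 0 T, ‖φ t z₀‖ ≤ gronwallBound R C C T := by
  intro t ht
  have h1 := norm_le_gronwallBound_of_norm_deriv_right_le (f := fun s => φ s z₀)
    (f' := fun s => Y (φ s z₀)) (δ := R) (K := C) (ε := C) (a := 0) (b := T)
    (fun s _ => (hφ.der z₀ s).continuousAt.continuousWithinAt)
    (fun s _ => (hφ.der z₀ s).hasDerivWithinAt)
    (by simpa [hφ.zero] using hz)
    (fun s _ => by have := hgr (φ s z₀); linarith [this]) t ht
  have h2 := gronwallBound_mono hR hC hC (show t - 0 ≤ T by linarith [ht.2])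
  exact h1.trans h2

private theorem F1c_step {Y : W → W} {φ : ℝ → W → W} (hφ : IsFlow Y φ) {R' M T : ℝ}
    {K : NNReal} (hK : LipschitzOnWith K Y (Metric.closedBall 0 R')) (z₀ : W)
    (hM : ∀ z, ‖z‖ ≤ R' → ‖Y z‖ ≤ M)
    (hap : ∀ t ∈ Set.Icc 0 T, ‖φ t z₀‖ ≤ R') {s τ : ℝ} (hs : 0 ≤ s) (hτ : 0 < τ)
    (hsT : s + τ ≤ T) :
    ‖φ (s + τ) z₀ - φ s z₀ - τ • Y (φ s z₀)‖ ≤ K * M * τ ^ 2 := by
  have hsub : ∀ t ∈ Set.Icc s (s + τ), t ∈ Set.Icc 0 T := fun t ht =>
    ⟨hs.trans ht.1, ht.2.trans hsT⟩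
  have h1 : ∀ t ∈ Set.Icc s (s + τ), ‖φ t z₀ - φ s z₀‖ ≤ M * (t - s) := by
    apply norm_image_sub_le_of_norm_deriv_le_segment' (f' := fun t => Y (φ t z₀))
    · intro t _
      exact (hφ.der z₀ t).hasDerivWithinAt
    · intro t ht
      exact hM _ (hap t (hsub t ⟨ht.1, ht.2.le⟩))
  have hmem : ∀ t ∈ Set.Icc s (s + τ), φ t z₀ ∈ Metric.closedBall (0 : W) R' := by
    intro t ht
    simpa using hap t (hsub t ht)
  have hsm : s ∈ Set.Icc s (s + τ) := ⟨le_refl _, by linarith⟩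
  have hM0 : 0 ≤ M := (norm_nonneg _).trans (hM _ (hap s (hsub s hsm)))
  have h2 : ∀ t ∈ Set.Icc s (s + τ),
      ‖(φ t z₀ - t • Y (φ s z₀)) - (φ s z₀ - s • Y (φ s z₀))‖ ≤ (K * M * τ) * (t - s) := by
    apply norm_image_sub_le_of_norm_deriv_le_segment'
      (f := fun t => φ t z₀ - t • Y (φ s z₀)) (f' := fun t => Y (φ t z₀) - (1 : ℝ) • Y (φ s z₀))
    · intro t _
      exact ((hφ.der z₀ t).sub ((hasDerivAt_id t).smul_const _)).hasDerivWithinAt
    · intro t ht
      have ht' : t ∈ Set.Icc s (s + τ) := ⟨ht.1, ht.2.le⟩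
      rw [one_smul, ← dist_eq_norm]
      have e1 := hK.dist_le_mul _ (hmem t ht') _ (hmem s hsm)
      have e2 : dist (φ t z₀) (φ s z₀) ≤ M * τ := by
        rw [dist_eq_norm]
        refine (h1 t ht').trans ?_
        apply mul_le_mul_of_nonneg_left _ hM0
        linarith [ht.2]
      calc dist (Y (φ t z₀)) (Y (φ s z₀)) ≤ K * dist (φ t z₀) (φ s z₀) := e1
        _ ≤ K * (M * τ) := mul_le_mul_of_nonneg_left e2 K.2
        _ = K * M * τ := by ring
  have h3 := h2 (s + τ) ⟨by linarith, le_refl _⟩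
  have e : (φ (s + τ) z₀ - (s + τ) • Y (φ s z₀)) - (φ s z₀ - s • Y (φ s z₀))
      = φ (s + τ) z₀ - φ s z₀ - τ • Y (φ s z₀) := by
    rw [add_smul]
    abel
  rw [e] at h3
  refine h3.trans (le_of_eq ?_)
  ring

theorem euler {Y : W → W}
    (hloc : ∀ R : ℝ, ∃ K : NNReal, LipschitzOnWith K Y (Metric.closedBall 0 R)) {C : ℝ}
    (hgr : ∀ z, ‖Y z‖ ≤ C * (1 + ‖z‖)) {φ : ℝ → W → W} (hφ : IsFlow Y φ) (R T : ℝ) :
    ∃ C₂ : ℝ, ∀ (τ c : ℝ) (N : ℕ), 0 < τ → 0 ≤ c → N * τ ≤ T → ∀ z : ℕ → W,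
      (∀ i ≤ N, ‖z i‖ ≤ R) → (∀ i < N, ‖z (i + 1) - z i - τ • Y (z i)‖ ≤ c) →
      ∀ i ≤ N, ‖φ (i * τ) (z 0) - z i‖ ≤ C₂ * (τ + c / τ) := by
  have hC : 0 ≤ C := by
    have h := (norm_nonneg _).trans (hgr 0)
    simpa using h
  obtain ⟨K, hK⟩ := hloc (gronwallBound R C C T)
  set R' := gronwallBound R C C T with hR'
  set M := C * (1 + R') with hM
  refine ⟨T * Real.exp (K * T) * (K * M + 1), ?_⟩
  intro τ c N hτ hc hNT z hz hstep
  have hR : 0 ≤ R := (norm_nonneg _).trans (hz 0 (Nat.zero_le N))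
  have hT : 0 ≤ T := le_trans (by positivity) hNT
  have hRR' : R ≤ R' := by
    have := gronwallBound_mono hR hC hC hT
    rw [gronwallBound_x0] at this
    exact this
  have hMb : ∀ z, ‖z‖ ≤ R' → ‖Y z‖ ≤ M := by
    intro z hz
    refine (hgr z).trans ?_
    rw [hM]
    apply mul_le_mul_of_nonneg_left _ hC
    linarith
  have hM0 : 0 ≤ M := (norm_nonneg _).trans (hMb (z 0) ((hz 0 (Nat.zero_le N)).trans hRR'))
  have hK0 : (0 : ℝ) ≤ K := K.2
  have hap := F1c_apriori (T := T) hC hgr hφ hR (z 0) (hz 0 (Nat.zero_le N))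
  set Dd := K * M * τ ^ 2 + c with hDd
  have hDd0 : 0 ≤ Dd := by positivity
  have hmain : ∀ i : ℕ, i ≤ N → ‖φ (i * τ) (z 0) - z i‖ ≤ i * (1 + K * τ) ^ i * Dd := by
    intro i
    induction i with
    | zero => intro _; simp [hφ.zero]
    | succ i ih =>
      intro hi
      have ih' := ih (by omega)
      have hiT : (i : ℝ) * τ + τ ≤ T := by
        have : ((i + 1 : ℕ) : ℝ) ≤ N := by exact_mod_cast hi
        have h2 : ((i + 1 : ℕ) : ℝ) * τ ≤ N * τ := mul_le_mul_of_nonneg_right this hτ.le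
        push_cast at h2
        linarith
      have hi0 : (0 : ℝ) ≤ i * τ := by positivity
      have e0 : ((i + 1 : ℕ) : ℝ) * τ = i * τ + τ := by push_cast; ring
      rw [e0]
      have s1 := F1c_step hφ hK (z 0) hMb hap hi0 hτ hiT
      have s2 := hstep i (by omega)
      have s3 : ‖Y (φ (i * τ) (z 0)) - Y (z i)‖ ≤ K * ‖φ (i * τ) (z 0) - z i‖ := by
        rw [← dist_eq_norm, ← dist_eq_norm]
        apply hK.dist_le_mul
        · simpa using hap (i * τ) ⟨hi0, by linarith⟩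
        · simpa using (hz i (by omega)).trans hRR'
      have e1 : φ (i * τ + τ) (z 0) - z (i + 1)
          = (φ (i * τ + τ) (z 0) - φ (i * τ) (z 0) - τ • Y (φ (i * τ) (z 0)))
            + (φ (i * τ) (z 0) - z i) + τ • (Y (φ (i * τ) (z 0)) - Y (z i))
            - (z (i + 1) - z i - τ • Y (z i)) := by
        rw [smul_sub]
        abel
      have e2 : ‖φ (i * τ + τ) (z 0) - z (i + 1)‖ ≤
          K * M * τ ^ 2 + ‖φ (i * τ) (z 0) - z i‖ + τ * (K * ‖φ (i * τ) (z 0) - z i‖) + c := by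
        rw [e1]
        refine (norm_sub_le _ _).trans (add_le_add ?_ s2)
        refine (norm_add_le _ _).trans (add_le_add ?_ ?_)
        · exact (norm_add_le _ _).trans (add_le_add s1 le_rfl)
        · rw [norm_smul, Real.norm_of_nonneg hτ.le]
          exact mul_le_mul_of_nonneg_left s3 hτ.le
      have hq : 1 ≤ 1 + (K : ℝ) * τ := by
        have : 0 ≤ (K : ℝ) * τ := by positivity
        linarith
      have hp : 1 ≤ (1 + (K : ℝ) * τ) ^ (i + 1) := one_le_pow₀ hq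
      calc ‖φ (i * τ + τ) (z 0) - z (i + 1)‖
          ≤ (1 + K * τ) * ‖φ (i * τ) (z 0) - z i‖ + Dd := by rw [hDd]; linarith [e2]
        _ ≤ (1 + K * τ) * (i * (1 + K * τ) ^ i * Dd) + Dd := by
          have := mul_le_mul_of_nonneg_left ih' (by positivity : (0 : ℝ) ≤ 1 + K * τ)
          linarith
        _ = i * (1 + K * τ) ^ (i + 1) * Dd + 1 * Dd := by ring
        _ ≤ i * (1 + K * τ) ^ (i + 1) * Dd + (1 + K * τ) ^ (i + 1) * Dd := by
          have := mul_le_mul_of_nonneg_right hp hDd0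
          linarith
        _ = ((i + 1 : ℕ) : ℝ) * (1 + K * τ) ^ (i + 1) * Dd := by push_cast; ring
  intro i hi
  have hiN : (i : ℝ) ≤ N := by exact_mod_cast hi
  have hiT : (i : ℝ) * τ ≤ T := (mul_le_mul_of_nonneg_right hiN hτ.le).trans hNT
  have hexp : (1 + (K : ℝ) * τ) ^ i ≤ Real.exp (K * T) := by
    have h1 : 1 + (K : ℝ) * τ ≤ Real.exp (K * τ) := by
      have := Real.add_one_le_exp ((K : ℝ) * τ)
      linarith
    calc (1 + (K : ℝ) * τ) ^ i ≤ (Real.exp (K * τ)) ^ i :=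
          pow_le_pow_left₀ (by positivity) h1 i
      _ = Real.exp (i * (K * τ)) := by rw [← Real.exp_nat_mul]
      _ ≤ Real.exp (K * T) := by
        apply Real.exp_le_exp.mpr
        have := mul_le_mul_of_nonneg_left hiT hK0
        linarith
  have hDτ : Dd = τ * (K * M * τ + c / τ) := by
    rw [hDd]
    field_simp
  have hcτ : 0 ≤ c / τ := by positivity
  have hin : K * M * τ + c / τ ≤ (K * M + 1) * (τ + c / τ) := by
    have h1 : 0 ≤ (K : ℝ) * M * (c / τ) := by positivity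
    have h2 : (K * M + 1) * (τ + c / τ) = K * M * τ + c / τ + (K * M * (c / τ) + τ) := by ring
    rw [h2]
    linarith
  have hin0 : 0 ≤ K * M * τ + c / τ := by positivity
  calc ‖φ (i * τ) (z 0) - z i‖ ≤ i * (1 + K * τ) ^ i * Dd := hmain i hi
    _ = (i * τ) * (1 + K * τ) ^ i * (K * M * τ + c / τ) := by rw [hDτ]; ring
    _ ≤ T * Real.exp (K * T) * (K * M * τ + c / τ) := by
      apply mul_le_mul_of_nonneg_right _ hin0
      apply mul_le_mul hiT hexp (by positivity) hT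
    _ ≤ T * Real.exp (K * T) * ((K * M + 1) * (τ + c / τ)) := by
      apply mul_le_mul_of_nonneg_left hin
      exact mul_nonneg hT (Real.exp_pos _).le
    _ = T * Real.exp (K * T) * (K * M + 1) * (τ + c / τ) := by ring

end Pool.Agent.H33.AM
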