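import Pool.Agent.H33.AM.P.R1
import Pool.Agent.H33.AM.P.X1
import Pool.Agent.H33.AM.P.X2a

/-!
# Module X2: discrete minimisers

`τ = T / N`, `v_i = (1/τ) (x_{i+1} - x_i)`, `S = Sd K A V τ N`.
* `disc_exists`: a quasi-periodic sequence is determined by `(x_0, …, x_{N-1}) ∈ (ℝⁿ)^N`; `S` is
  continuous in these variables, invariant under the translations by `zv k'`, so one may restrict to
  `x_0 ∈ [0, 1]ⁿ`, and coercive there: `K v ≥ K 0 + ⟪D 0, v⟫ + κ₁/2 ‖v‖²`, `|A|, |V| ≤ B`.
* `disc_EL`: derivative of `S` in the direction of the variable `x_i` (moved together with all the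
  `x_{i + j N}`): the terms `i` and `i - 1` give
  `-D v_i - A x_i + τ (adjoint (A' x_i) v_i - F x_i) + D v_{i-1} + A x_{i-1} = 0`.
  (By the invariance of the problem under the index shift one may assume `1 ≤ i ≤ N`… or treat
  the sum over a period as a sum over `ZMod N`; the case `N = 1` needs care: then `x_{i+1}`,
  `x_i` and `x_{i-1}` move together, `v_i = v_{i-1}`; the formula is still true.)
* `disc_bound`: `S(x) ≤ S(straight line) = ∑ τ lag(x_i, zv k/T) ≤ T (K (zv k/T) + B ‖zv k/T‖ + B)`, so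
  `∑ τ ‖v_i‖² ≤ C`, `∑ τ ‖v_i‖ ≤ C`; by `disc_EL`, for `p_i = D v_i + A x_i`,
  `‖p_i - p_j‖ ≤ ∑ τ (B ‖v‖ + B) ≤ C` for all `i`, `j`; `κ₁ ‖v_i - v_j‖ ≤ ‖D v_i - D v_j‖ ≤ C + 2 B`, and some
  `‖v_j‖ ≤ C/T` (average), so `‖v_i‖ ≤ R`, with `R` independent of `N` and of `x`.
-/

set_option autoImplicit false

open MeasureTheory
open scoped RealInnerProductSpace

namespace Pool.Agent.H33.AM

variable {n : ℕ} {K V : EuclideanSpace ℝ (Fin n) → ℝ}
  {D F A : EuclideanSpace ℝ (Fin n) → EuclideanSpace ℝ (Fin n)}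
  {A' : EuclideanSpace ℝ (Fin n) → EuclideanSpace ℝ (Fin n) →L[ℝ] EuclideanSpace ℝ (Fin n)}
  {κ₁ κ₂ B T : ℝ} {N : ℕ} {k : Fin n → ℤ}

/-- The derivative of one term of the discrete action. -/
private theorem X2b_term (hK : HK K D κ₁ κ₂) (hA : HA A A' B) (hV : HV V F B)
    (a b c d : EuclideanSpace ℝ (Fin n)) :
    HasDerivAt (fun s : ℝ => lag K A V (a + s • b) (c + s • d))
      (⟪D c, d⟫ + (⟪A a, d⟫ + ⟪A' a b, c⟫) - ⟪F a, b⟫) 0 := by
  have h1 : HasDerivAt (fun s : ℝ => a + s • b) b 0 := by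
    have := ((hasDerivAt_id (0 : ℝ)).smul_const b).const_add a
    simpa using this
  have h2 : HasDerivAt (fun s : ℝ => c + s • d) d 0 := by
    have := ((hasDerivAt_id (0 : ℝ)).smul_const d).const_add c
    simpa using this
  have hK1 : HasDerivAt (fun s : ℝ => K (c + s • d)) ⟪D c, d⟫ 0 := by
    have h3 := (hK.grad c).hasFDerivAt
    have h4 : HasFDerivAt K (InnerProductSpace.toDual ℝ _ (D c)) (c + (0 : ℝ) • d) := by
      simpa using h3
    have := h4.comp_hasDerivAt (0 : ℝ) h2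
    simpa [Function.comp_def] using this
  have hV1 : HasDerivAt (fun s : ℝ => V (a + s • b)) ⟪F a, b⟫ 0 := by
    have h3 := (hV.der a).hasFDerivAt
    have h4 : HasFDerivAt V (InnerProductSpace.toDual ℝ _ (F a)) (a + (0 : ℝ) • b) := by
      simpa using h3
    have := h4.comp_hasDerivAt (0 : ℝ) h1
    simpa [Function.comp_def] using this
  have hA1 : HasDerivAt (fun s : ℝ => A (a + s • b)) (A' a b) 0 := by
    have h4 : HasFDerivAt A (A' a) (a + (0 : ℝ) • b) := by
      simpa using hA.der a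
    have := h4.comp_hasDerivAt (0 : ℝ) h1
    simpa [Function.comp_def] using this
  have h5 := hA1.inner ℝ h2
  have h6 := (hK1.fun_add h5).fun_sub hV1
  simp only [zero_smul, add_zero] at h6
  unfold lag
  exact h6

/-- The Euler-Lagrange equation at the index `0`. -/
private theorem X2b_core (hK : HK K D κ₁ κ₂) (hA : HA A A' B) (hV : HV V F B) {τ : ℝ}
    (hτ : 0 < τ) (hN : 0 < N) {x : ℤ → EuclideanSpace ℝ (Fin n)}
    (hx1 : ∀ i, x (i + N) = x i + zv k)
    (hx2 : ∀ y : ℤ → EuclideanSpace ℝ (Fin n), (∀ i, y (i + N) = y i + zv k) →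
      Sd K A V τ N x ≤ Sd K A V τ N y) :
    D ((1 / τ) • (x 1 - x 0)) + A (x 0) -
      (D ((1 / τ) • (x 0 - x (-1))) + A (x (-1))) =
    τ • (ContinuousLinearMap.adjoint (A' (x 0)) ((1 / τ) • (x 1 - x 0)) - F (x 0)) := by
  refine ext_inner_right ℝ fun w => ?_
  set χ : ℤ → EuclideanSpace ℝ (Fin n) := fun j => if (N : ℤ) ∣ j then w else 0 with hχ
  have hχN : ∀ j, χ (j + N) = χ j := by
    intro j
    simp only [hχ]
    congr 1
    simp
  set v : ℤ → EuclideanSpace ℝ (Fin n) := fun j => (1 / τ) • (x (j + 1) - x j) with hv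
  -- the action along the perturbation
  have hder : HasDerivAt (fun s : ℝ => Sd K A V τ N (fun j => x j + s • χ j))
      (∑ j ∈ Finset.range N, τ * (⟪D (v j), (1 / τ) • (χ (j + 1) - χ j)⟫ +
        (⟪A (x j), (1 / τ) • (χ (j + 1) - χ j)⟫ + ⟪A' (x j) (χ j), v j⟫) -
          ⟪F (x j), χ j⟫)) 0 := by
    unfold Sd
    refine HasDerivAt.fun_sum fun j _ => ?_
    have h1 := (X2b_term hK hA hV (x j) (χ j) (v j) ((1 / τ) • (χ (j + 1) - χ j))).const_mul τ
    refine h1.congr_of_eventuallyEq (Filter.Eventually.of_forall fun s => ?_)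
    beta_reduce
    congr 2
    simp only [hv]
    module
  have hmin : IsLocalMin (fun s : ℝ => Sd K A V τ N (fun j => x j + s • χ j)) 0 := by
    refine Filter.Eventually.of_forall fun s => ?_
    beta_reduce
    have h0 : (fun j => x j + (0 : ℝ) • χ j) = x := by
      funext j
      simp
    rw [h0]
    refine hx2 _ fun i => ?_
    rw [hx1, hχN]
    abel
  have hz := hmin.hasDerivAt_eq_zero hder
  set p : ℤ → EuclideanSpace ℝ (Fin n) := fun j => D (v j) + A (x j) with hp
  set G : ℤ → EuclideanSpace ℝ (Fin n) := fun j =>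
    ContinuousLinearMap.adjoint (A' (x j)) (v j) - F (x j) with hG
  have hterm : ∀ j : ℤ, τ * (⟪D (v j), (1 / τ) • (χ (j + 1) - χ j)⟫ +
        (⟪A (x j), (1 / τ) • (χ (j + 1) - χ j)⟫ + ⟪A' (x j) (χ j), v j⟫) -
          ⟪F (x j), χ j⟫) = ⟪p j, χ (j + 1)⟫ - ⟪p j - τ • G j, χ j⟫ := by
    intro j
    have h1 : ⟪A' (x j) (χ j), v j⟫ = ⟪ContinuousLinearMap.adjoint (A' (x j)) (v j), χ j⟫ := by
      rw [ContinuousLinearMap.adjoint_inner_left, real_inner_comm]
    rw [h1]
    simp only [hp, hG, inner_sub_left, inner_add_left, inner_sub_right, real_inner_smul_left,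
      real_inner_smul_right]
    field_simp
    ring
  have hz2 : ∑ j ∈ Finset.range N, ⟪p (j : ℤ), χ ((j : ℤ) + 1)⟫ =
      ∑ j ∈ Finset.range N, ⟪p (j : ℤ) - τ • G (j : ℤ), χ (j : ℤ)⟫ := by
    rw [← sub_eq_zero, ← Finset.sum_sub_distrib, ← hz]
    exact Finset.sum_congr rfl fun j _ => (hterm j).symm
  have hs1 : ∑ j ∈ Finset.range N, ⟪p (j : ℤ), χ ((j : ℤ) + 1)⟫ =
      ⟪p (((N - 1 : ℕ) : ℤ)), w⟫ := by
    rw [Finset.sum_eq_single (N - 1)]
    · have : χ ((((N - 1 : ℕ) : ℤ)) + 1) = w := by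
        simp only [hχ]
        rw [if_pos]
        rw [show (((N - 1 : ℕ) : ℤ)) + 1 = N by omega]
      rw [this]
    · intro j hj hj1
      rw [Finset.mem_range] at hj
      have : χ ((j : ℤ) + 1) = 0 := by
        simp only [hχ]
        rw [if_neg]
        intro hd
        have := Int.le_of_dvd (by omega) hd
        omega
      rw [this, inner_zero_right]
    · intro h
      rw [Finset.mem_range] at h
      omega
  have hs2 : ∑ j ∈ Finset.range N, ⟪p (j : ℤ) - τ • G (j : ℤ), χ (j : ℤ)⟫ =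
      ⟪p 0 - τ • G 0, w⟫ := by
    rw [Finset.sum_eq_single 0]
    · have : χ ((0 : ℕ) : ℤ) = w := by simp [hχ]
      rw [this]
      simp
    · intro j hj hj1
      rw [Finset.mem_range] at hj
      have : χ (j : ℤ) = 0 := by
        simp only [hχ]
        rw [if_neg]
        intro hd
        have := Int.le_of_dvd (by omega) hd
        omega
      rw [this, inner_zero_right]
    · intro h
      rw [Finset.mem_range] at h
      omega
  have hpN : p (((N - 1 : ℕ) : ℤ)) = p (-1) := by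
    have e1 : (((N - 1 : ℕ) : ℤ)) = -1 + N := by omega
    have e2 : (-1 + (N : ℤ)) + 1 = (-1 + 1) + N := by ring
    simp only [hp, hv]
    rw [e1, e2, hx1, hx1, hA.per, add_sub_add_right_eq_sub]
  rw [hs1, hs2, hpN] at hz2
  have e3 : p 0 = D ((1 / τ) • (x 1 - x 0)) + A (x 0) := by
    simp only [hp, hv, zero_add]
  have e4 : p (-1) = D ((1 / τ) • (x 0 - x (-1))) + A (x (-1)) := by
    simp only [hp, hv]
    norm_num
  have e5 : G 0 = ContinuousLinearMap.adjoint (A' (x 0)) ((1 / τ) • (x 1 - x 0)) - F (x 0) := by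
    simp only [hG, hv, zero_add]
  rw [← e3, ← e4, ← e5, inner_sub_left, hz2, inner_sub_left]
  ring

/-- The sums over a period of a periodic function. -/
private theorem X2b_per {h : ℤ → ℝ} (hh : ∀ j, h (j + N) = h j) (i : ℤ) :
    ∑ j ∈ Finset.range N, h (j + i) = ∑ j ∈ Finset.range N, h j := by
  have hstep : ∀ i : ℤ, ∑ j ∈ Finset.range N, h (j + (i + 1)) = ∑ j ∈ Finset.range N, h (j + i) := by
    intro i
    have h1 := Finset.sum_range_succ' (fun j : ℕ => h ((j : ℤ) + i)) N
    have h2 := Finset.sum_range_succ (fun j : ℕ => h ((j : ℤ) + i)) N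
    have h3 : h ((N : ℤ) + i) = h i := by
      rw [add_comm, hh]
    have h4 : ∀ j : ℕ, h (((j + 1 : ℕ) : ℤ) + i) = h ((j : ℤ) + (i + 1)) := by
      intro j
      congr 1
      push_cast
      ring
    simp only [h4, h3, Nat.cast_zero, zero_add] at h1 h2
    rw [h2] at h1
    linarith
  induction i using Int.induction_on with
  | zero => simp
  | succ i ih => rw [hstep, ih]
  | pred i ih =>
    rw [← ih, ← hstep (-(i : ℤ) - 1)]
    refine Finset.sum_congr rfl fun j _ => ?_
    congr 1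
    ring

theorem disc_EL (hK : HK K D κ₁ κ₂) (hA : HA A A' B) (hV : HV V F B) (hT : 0 < T)
    (hN : 0 < N) {x : ℤ → EuclideanSpace ℝ (Fin n)} (hx : IsDM K A V T N k x) (i : ℤ) :
    D ((1 / (T / N)) • (x (i + 1) - x i)) + A (x i) -
      (D ((1 / (T / N)) • (x i - x (i - 1))) + A (x (i - 1))) =
    (T / N) • (ContinuousLinearMap.adjoint (A' (x i)) ((1 / (T / N)) • (x (i + 1) - x i)) -
      F (x i)) := by
  obtain ⟨hx1, hx2⟩ := hx
  have hτ : 0 < T / N := div_pos hT (by exact_mod_cast hN)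
  have hS : Sd K A V (T / N) N (fun j => x (j + i)) = Sd K A V (T / N) N x := by
    unfold Sd
    have hper : ∀ j : ℤ, (T / N) * lag K A V (x (j + N))
        ((1 / (T / N)) • (x (j + N + 1) - x (j + N))) =
        (T / N) * lag K A V (x j) ((1 / (T / N)) • (x (j + 1) - x j)) := by
      intro j
      have e : j + (N : ℤ) + 1 = (j + 1) + N := by ring
      rw [e, hx1, hx1, add_sub_add_right_eq_sub]
      unfold lag
      rw [hA.per, hV.per]
    have h1 := X2b_per (N := N) (h := fun j => (T / N) * lag K A V (x j)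
      ((1 / (T / N)) • (x (j + 1) - x j))) hper i
    beta_reduce at h1
    rw [← h1]
    refine Finset.sum_congr rfl fun j _ => ?_
    beta_reduce
    rw [show (j : ℤ) + 1 + i = j + i + 1 by ring]
  have h1 := X2b_core (x := fun j => x (j + i)) (k := k) hK hA hV hτ hN
    (fun j => by
      beta_reduce
      rw [show j + (N : ℤ) + i = j + i + N by ring, hx1])
    (fun y hy => by
      rw [hS]
      exact hx2 y hy)
  beta_reduce at h1
  rw [show (0 : ℤ) + i = i by ring, show (1 : ℤ) + i = i + 1 by ring,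
    show (-1 : ℤ) + i = i - 1 by ring] at h1
  exact h1

end Pool.Agent.H33.AM
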