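import Pool.Agent.H33.AM.P.R1
import Pool.Agent.H33.AM.P.X1
import Pool.Agent.H33.AM.P.X2a
import Pool.Agent.H33.AM.P.X2b

/-!
# Module X2: discrete minimisers

`τ = T / N`, `v_i = (1/τ) (x_{i+1} - x_i)`, `S = Sd K A V τ N`.
* `disc_exists`: a quasi-periodic sequence is determined by `(x_0, …, x_{N-1}) ∈ (ℝⁿ)^N`; `S` is
  continuous in these variables, invariant under the translations by `zv k'`, so one may restrict to
  `x_0 ∈ [0, 1]ⁿ`, and coercive there: `K v ≥ K 0 + ⟪D 0, v⟫ + κ₁/2 ‖v‖²`, `|A|, |V| ≤ B`.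
* `disc_EL`: derivative of `S` in the direction of the variable `x_i` (moved together with all the
  `x_{i + j N}`): the terms `i` and `i - 1` give
  `-D v_i - A x_i + τ (adjoint (A' x_i) v_i - F x_i) + D v_{i-1} + A x_{i-1} = 0`.
  (By the invariance of the problem under the index shift one may assume `1 ≤ i ≤ N`… or treat
  the sum over a period as a sum over `ZMod N`; the case `N = 1` needs care: then `x_{i+1}`,
  `x_i` and `x_{i-1}` move together, `v_i = v_{i-1}`; the formula is still true.)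
* `disc_bound`: `S(x) ≤ S(straight line) = ∑ τ lag(x_i, zv k/T) ≤ T (K (zv k/T) + B ‖zv k/T‖ + B)`, so
  `∑ τ ‖v_i‖² ≤ C`, `∑ τ ‖v_i‖ ≤ C`; by `disc_EL`, for `p_i = D v_i + A x_i`,
  `‖p_i - p_j‖ ≤ ∑ τ (B ‖v‖ + B) ≤ C` for all `i`, `j`; `κ₁ ‖v_i - v_j‖ ≤ ‖D v_i - D v_j‖ ≤ C + 2 B`, and some
  `‖v_j‖ ≤ C/T` (average), so `‖v_i‖ ≤ R`, with `R` independent of `N` and of `x`.
-/

set_option autoImplicit false

open MeasureTheory
open scoped RealInnerProductSpace

namespace Pool.Agent.H33.AM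

variable {n : ℕ} {K V : EuclideanSpace ℝ (Fin n) → ℝ}
  {D F A : EuclideanSpace ℝ (Fin n) → EuclideanSpace ℝ (Fin n)}
  {A' : EuclideanSpace ℝ (Fin n) → EuclideanSpace ℝ (Fin n) →L[ℝ] EuclideanSpace ℝ (Fin n)}
  {κ₁ κ₂ B T : ℝ} {N : ℕ} {k : Fin n → ℤ}

theorem disc_bound (hK : HK K D κ₁ κ₂) (hA : HA A A' B) (hV : HV V F B) (hT : 0 < T)
    (k : Fin n → ℤ) :
    ∃ R : ℝ, ∀ (N : ℕ) (x : ℤ → EuclideanSpace ℝ (Fin n)), 0 < N → IsDM K A V T N k x →
      ∀ i, ‖(1 / (T / N)) • (x (i + 1) - x i)‖ ≤ R := by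
  set c : EuclideanSpace ℝ (Fin n) := (1 / T) • zv k with hc
  have hκ := hK.pos
  have hB := hV.nonneg
  set M := 2 * B * ‖c‖ + 2 * B + B ^ 2 / κ₁ with hM
  have hM0 : 0 ≤ M := by positivity
  set S1 := (T + 4 * T * M / κ₁) / 2 with hS1
  set S2 := S1 + T * ‖c‖ with hS2
  refine ⟨S2 / T + 2 * (B * (S2 + T) + B) / κ₁, ?_⟩
  intro N x hN hx
  have hN' : (0 : ℝ) < N := by exact_mod_cast hN
  set τ := T / N with hτd
  have hτ : 0 < τ := by positivity
  have hNτ : N * τ = T := by rw [hτd]; field_simp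
  set v : ℤ → EuclideanSpace ℝ (Fin n) := fun i => (1 / τ) • (x (i + 1) - x i) with hv
  change ∀ i, ‖v i‖ ≤ _
  have hvx : ∀ i, τ • v i = x (i + 1) - x i := by
    intro i
    simp only [hv]
    rw [smul_smul, mul_one_div_cancel hτ.ne', one_smul]
  have hvp : ∀ i, v (i + N) = v i := by
    intro i
    simp only [hv]
    rw [hx.1 i, show i + (N : ℤ) + 1 = (i + 1) + N by ring, hx.1 (i + 1), add_sub_add_right_eq_sub]
  have hsumv : ∀ m : ℕ, ∑ i ∈ Finset.range m, τ • v i = x m - x 0 := by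
    intro m
    induction m with
    | zero => simp
    | succ m ih =>
      rw [Finset.sum_range_succ, ih, hvx]
      push_cast
      abel
  have hTc : T • c = zv k := by
    rw [hc, smul_smul, mul_one_div_cancel hT.ne', one_smul]
  have hsum0 : ∑ i ∈ Finset.range N, τ * ⟪D c, v i - c⟫ = 0 := by
    have h1 : ∑ i ∈ Finset.range N, τ * ⟪D c, v i - c⟫ =
        ⟪D c, ∑ i ∈ Finset.range N, (τ • v i - τ • c)⟫ := by
      rw [inner_sum]
      apply Finset.sum_congr rfl
      intro i _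
      rw [← smul_sub, inner_smul_right]
    rw [h1, Finset.sum_sub_distrib, hsumv, Finset.sum_const, Finset.card_range,
      ← Nat.cast_smul_eq_nsmul ℝ, smul_smul, hNτ, hTc]
    have h2 := hx.1 0
    rw [zero_add] at h2
    rw [h2]
    simp
  -- comparison with the straight line
  set y : ℤ → EuclideanSpace ℝ (Fin n) := fun i => ((i : ℝ) * τ) • c with hy
  have hyv : ∀ i : ℤ, (1 / τ) • (y (i + 1) - y i) = c := by
    intro i
    simp only [hy]
    rw [← sub_smul, smul_smul]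
    push_cast
    rw [show 1 / τ * ((i + 1) * τ - i * τ) = 1 by field_simp; ring, one_smul]
  have hyp : ∀ i, y (i + N) = y i + zv k := by
    intro i
    simp only [hy]
    push_cast
    rw [add_mul, hNτ, add_smul, hTc]
  have hcmp := hx.2 y hyp
  have hup : Sd K A V τ N y ≤ T * (K c + B * ‖c‖ + B) := by
    unfold Sd
    have h1 : ∀ i ∈ Finset.range N, τ * lag K A V (y i) ((1 / τ) • (y (i + 1) - y i)) ≤
        τ * (K c + B * ‖c‖ + B) := by
      intro i _
      rw [hyv]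
      apply mul_le_mul_of_nonneg_left _ hτ.le
      unfold lag
      have h2 := (abs_le.mp (abs_real_inner_le_norm (A (y i)) c)).2
      have h3 := mul_le_mul_of_nonneg_right (hA.bd (y i)) (norm_nonneg c)
      have h4 := (abs_le.mp (hV.bd (y i))).1
      linarith
    refine (Finset.sum_le_sum h1).trans (le_of_eq ?_)
    rw [Finset.sum_const, Finset.card_range, nsmul_eq_mul, ← mul_assoc, hNτ]
  have hlo : T * (K c - B * ‖c‖ - B) + ∑ i ∈ Finset.range N, τ * ⟪D c, v i - c⟫ +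
      ∑ i ∈ Finset.range N, τ * (κ₁ / 4 * ‖v i - c‖ ^ 2 - B ^ 2 / κ₁) ≤ Sd K A V τ N x := by
    unfold Sd
    have h1 : T * (K c - B * ‖c‖ - B) = ∑ i ∈ Finset.range N, τ * (K c - B * ‖c‖ - B) := by
      rw [Finset.sum_const, Finset.card_range, nsmul_eq_mul, ← mul_assoc, hNτ]
    rw [h1, ← Finset.sum_add_distrib, ← Finset.sum_add_distrib]
    apply Finset.sum_le_sum
    intro i _
    rw [← mul_add, ← mul_add]
    apply mul_le_mul_of_nonneg_left _ hτ.le
    change _ ≤ lag K A V (x i) (v i)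
    unfold lag
    have h2 := (abs_le.mp (abs_real_inner_le_norm (A (x i)) (v i))).1
    have h3 := mul_le_mul_of_nonneg_right (hA.bd (x i)) (norm_nonneg (v i))
    have h4 := (abs_le.mp (hV.bd (x i))).2
    have h5 := hK.lo c (v i)
    have h6 : ‖(v i)‖ ≤ ‖v i - c‖ + ‖c‖ := by
      have := norm_add_le (v i - c) c
      rwa [sub_add_cancel] at this
    have h7 := mul_le_mul_of_nonneg_left h6 hB
    have h8 : B * ‖v i - c‖ ≤ κ₁ / 4 * ‖v i - c‖ ^ 2 + B ^ 2 / κ₁ := by
      have h9 : κ₁ / 4 * ‖v i - c‖ ^ 2 + B ^ 2 / κ₁ - B * ‖v i - c‖ =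
          (κ₁ * ‖v i - c‖ - 2 * B) ^ 2 / (4 * κ₁) := by
        field_simp
        ring
      have h10 : 0 ≤ (κ₁ * ‖v i - c‖ - 2 * B) ^ 2 / (4 * κ₁) := by positivity
      linarith
    linarith
  have hq : ∑ i ∈ Finset.range N, τ * ‖v i - c‖ ^ 2 ≤ 4 * T * M / κ₁ := by
    have h1 : ∑ i ∈ Finset.range N, τ * (κ₁ / 4 * ‖v i - c‖ ^ 2 - B ^ 2 / κ₁) =
        κ₁ / 4 * (∑ i ∈ Finset.range N, τ * ‖v i - c‖ ^ 2) - T * (B ^ 2 / κ₁) := by
      have h2 : T * (B ^ 2 / κ₁) = ∑ i ∈ Finset.range N, τ * (B ^ 2 / κ₁) := by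
        rw [Finset.sum_const, Finset.card_range, nsmul_eq_mul, ← mul_assoc, hNτ]
      rw [h2, Finset.mul_sum, ← Finset.sum_sub_distrib]
      apply Finset.sum_congr rfl
      intro i _
      ring
    rw [h1, hsum0] at hlo
    have h3 : κ₁ / 4 * (∑ i ∈ Finset.range N, τ * ‖v i - c‖ ^ 2) ≤ T * M := by
      rw [hM]
      linarith
    rw [le_div_iff₀ hκ]
    linarith
  have hs1 : ∑ i ∈ Finset.range N, τ * ‖v i - c‖ ≤ S1 := by
    have h1 : ∀ i ∈ Finset.range N, τ * ‖v i - c‖ ≤ (τ + τ * ‖v i - c‖ ^ 2) / 2 := by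
      intro i _
      nlinarith [sq_nonneg (‖v i - c‖ - 1)]
    refine (Finset.sum_le_sum h1).trans ?_
    rw [← Finset.sum_div, Finset.sum_add_distrib, Finset.sum_const, Finset.card_range,
      nsmul_eq_mul, hNτ, hS1]
    linarith
  have hs2 : ∑ i ∈ Finset.range N, τ * ‖v i‖ ≤ S2 := by
    have h1 : ∀ i ∈ Finset.range N, τ * ‖v i‖ ≤ τ * ‖v i - c‖ + τ * ‖c‖ := by
      intro i _
      rw [← mul_add]
      apply mul_le_mul_of_nonneg_left _ hτ.le
      have := norm_add_le (v i - c) c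
      rwa [sub_add_cancel] at this
    refine (Finset.sum_le_sum h1).trans ?_
    rw [Finset.sum_add_distrib, Finset.sum_const, Finset.card_range, nsmul_eq_mul, ← mul_assoc,
      hNτ, hS2]
    linarith
  -- momenta
  set p : ℤ → EuclideanSpace ℝ (Fin n) := fun i => D (v i) + A (x i) with hp
  have hpstep : ∀ i : ℤ, ‖p i - p (i - 1)‖ ≤ τ * (B * ‖v i‖ + B) := by
    intro i
    have h1 := disc_EL hK hA hV hT hN hx i
    have h2 : p i - p (i - 1) = τ • (ContinuousLinearMap.adjoint (A' (x i)) (v i) - F (x i)) := by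
      rw [← h1]
      simp only [hp, hv]
      rw [sub_add_cancel]
    rw [h2, norm_smul, Real.norm_eq_abs, abs_of_pos hτ]
    apply mul_le_mul_of_nonneg_left _ hτ.le
    refine (norm_sub_le _ _).trans (add_le_add ?_ (hV.bdF _))
    refine (ContinuousLinearMap.le_opNorm _ _).trans ?_
    rw [LinearIsometryEquiv.norm_map]
    exact mul_le_mul_of_nonneg_right (hA.bdA _) (norm_nonneg _)
  have hp0 : ∀ m : ℕ, ‖p m - p 0‖ ≤ ∑ i ∈ Finset.range (m + 1), τ * (B * ‖v i‖ + B) := by
    intro m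
    induction m with
    | zero =>
      simp only [Nat.cast_zero, sub_self, norm_zero]
      exact Finset.sum_nonneg fun i _ => by positivity
    | succ m ih =>
      rw [Finset.sum_range_succ]
      have h1 := hpstep ((m + 1 : ℕ) : ℤ)
      have h2 : (((m + 1 : ℕ) : ℤ) - 1) = (m : ℤ) := by push_cast; ring
      rw [h2] at h1
      calc ‖p ((m + 1 : ℕ) : ℤ) - p 0‖ = ‖(p m - p 0) + (p ((m + 1 : ℕ) : ℤ) - p m)‖ := by
            congr 1
            abel
        _ ≤ ‖p m - p 0‖ + ‖p ((m + 1 : ℕ) : ℤ) - p m‖ := norm_add_le _ _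
        _ ≤ _ := add_le_add ih h1
  have hpN : ∀ m : ℕ, m < N → ‖p m - p 0‖ ≤ B * (S2 + T) := by
    intro m hm
    refine (hp0 m).trans ?_
    have h1 : ∑ i ∈ Finset.range (m + 1), τ * (B * ‖v i‖ + B) ≤
        ∑ i ∈ Finset.range N, τ * (B * ‖v i‖ + B) := by
      apply Finset.sum_le_sum_of_subset_of_nonneg
      · exact Finset.range_subset_range.mpr hm
      · intro i _ _
        positivity
    refine h1.trans ?_
    have h2 : ∑ i ∈ Finset.range N, τ * (B * ‖v i‖ + B) =
        B * (∑ i ∈ Finset.range N, τ * ‖v i‖) + B * T := by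
      have h3 : B * T = ∑ i ∈ Finset.range N, τ * B := by
        rw [Finset.sum_const, Finset.card_range, nsmul_eq_mul, ← mul_assoc, hNτ, mul_comm]
      rw [h3, Finset.mul_sum, ← Finset.sum_add_distrib]
      apply Finset.sum_congr rfl
      intro i _
      ring
    rw [h2, mul_add]
    have := mul_le_mul_of_nonneg_left hs2 hB
    linarith
  -- a small velocity
  obtain ⟨j, hj, hjv⟩ : ∃ j ∈ Finset.range N, ‖v j‖ ≤ S2 / T := by
    by_contra hcon
    push Not at hcon
    have h1 : ∑ i ∈ Finset.range N, τ * (S2 / T) < ∑ i ∈ Finset.range N, τ * ‖v i‖ := by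
      apply Finset.sum_lt_sum_of_nonempty (Finset.nonempty_range_iff.mpr hN.ne')
      intro i hi
      exact mul_lt_mul_of_pos_left (hcon i hi) hτ
    rw [Finset.sum_const, Finset.card_range, nsmul_eq_mul, ← mul_assoc, hNτ,
      mul_div_cancel₀ _ hT.ne'] at h1
    linarith
  rw [Finset.mem_range] at hj
  have hmain : ∀ m : ℕ, m < N → ‖v m‖ ≤ S2 / T + 2 * (B * (S2 + T) + B) / κ₁ := by
    intro m hm
    have h1 := hK.antilip (v j) (v m)
    have h2 : D (v m) - D (v j) = ((p m - p 0) - (p j - p 0)) - (A (x m) - A (x j)) := by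
      simp only [hp]
      abel
    have h3 : ‖D (v m) - D (v j)‖ ≤ 2 * (B * (S2 + T) + B) := by
      rw [h2]
      refine (norm_sub_le _ _).trans ?_
      have a1 := (norm_sub_le (p m - p 0) (p j - p 0)).trans (add_le_add (hpN m hm) (hpN j hj))
      have a2 := (norm_sub_le (A (x m)) (A (x j))).trans (add_le_add (hA.bd _) (hA.bd _))
      linarith
    have h4 : ‖v m - v j‖ ≤ 2 * (B * (S2 + T) + B) / κ₁ := by
      rw [le_div_iff₀ hκ]
      linarith
    have h5 : ‖v m‖ ≤ ‖v j‖ + ‖v m - v j‖ := by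
      have := norm_add_le (v j) (v m - v j)
      rwa [add_sub_cancel] at this
    linarith
  intro i
  have hvpz : ∀ (q : ℕ) (i : ℤ), v (i + q * N) = v i := by
    intro q
    induction q with
    | zero => intro i; simp
    | succ q ih =>
      intro i
      rw [show i + ((q + 1 : ℕ) : ℤ) * N = (i + q * N) + N by push_cast; ring, hvp, ih]
  have hvpz' : ∀ (q : ℤ) (i : ℤ), v (i + q * N) = v i := by
    intro q i
    rcases Int.eq_nat_or_neg q with ⟨m, rfl | rfl⟩
    · exact hvpz m i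
    · have := hvpz m (i + -(m : ℤ) * N)
      rw [show i + -(m : ℤ) * N + m * N = i by ring] at this
      exact this.symm
  have hNz : (0 : ℤ) < N := by exact_mod_cast hN
  obtain ⟨m, hm⟩ := Int.eq_ofNat_of_zero_le (Int.emod_nonneg i hNz.ne')
  have hm' : m < N := by
    have := Int.emod_lt_of_pos i hNz
    omega
  have h1 : i = m + (i / N) * N := by
    rw [← hm, mul_comm (i / (N : ℤ)) (N : ℤ)]
    exact (Int.emod_add_mul_ediv i N).symm
  rw [h1, hvpz']
  exact hmain m hm'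

end Pool.Agent.H33.AM
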