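import Pool.Agent.H33.AM.P.R2
import Pool.Agent.H33.AM.P.X1
import Pool.Agent.H33.AM.P.X2
import Pool.Agent.H33.AM.P.F1

/-!
# Module X3: from discrete to continuous

`Y = field A A' F D'`, `W = ℝⁿ × ℝⁿ`, `τ = T / N`, `v_i = (1/τ) (x_{i+1} - x_i)`,
`z_i = (x_i, D v_i + A x_i)`, so that `v_i = D' (z_i.2 - A z_i.1)`, `x_{i+1} = x_i + τ (Y z_i).1`.
* `field_loc`, `field_growth`: `κ₁ ‖D' p - D' q‖ ≤ ‖p - q‖`, `A`, `A'`, `F` bounded and Lipschitz
  (`A` is Lipschitz with the constant `B` because `‖A'‖ ≤ B`); only `adjoint (A' x) v` needs the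
  restriction to balls.
* `disc_euler`: `‖x_i‖ ≤ √n + T R` for `0 ≤ i ≤ N`; `z_{i+1}.2 - z_i.2 = τ (adjoint (A' x_{i+1}) v_{i+1} -
  F x_{i+1})` by `disc_EL`, and `‖v_{i+1} - v_i‖ ≤ (1/κ₁) (‖z_{i+1}.2 - z_i.2‖ + B ‖x_{i+1} - x_i‖) = O(τ)`.
* `disc_of_curve`: `y i = x(i τ)` for `0 ≤ i < N`, extended quasi-periodically. Jensen:
  `τ K((1/τ) ∫ u) ≤ ∫ K(u)` on every `[i τ, (i + 1) τ]` (`ConvexOn.map_average_le` or: `K(u) ≥ K(c) +
  ⟪D c, u - c⟫` with `c` the average, integrate); `‖x(t) - x(i τ)‖ ≤ R τ`, so the terms with `A` and `V`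
  change by `O(τ)`.
* `Sol_of_flow`, `flow_of_Sol`: `v = D' (p - A(γ))`.
-/

set_option autoImplicit false

open MeasureTheory
open scoped RealInnerProductSpace

namespace Pool.Agent.H33.AM

variable {n : ℕ} {K V : EuclideanSpace ℝ (Fin n) → ℝ}
  {D F A D' : EuclideanSpace ℝ (Fin n) → EuclideanSpace ℝ (Fin n)}
  {A' : EuclideanSpace ℝ (Fin n) → EuclideanSpace ℝ (Fin n) →L[ℝ] EuclideanSpace ℝ (Fin n)}
  {κ₁ κ₂ B T : ℝ}

private theorem X3a_lipA (hA : HA A A' B) (x y : EuclideanSpace ℝ (Fin n)) :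
    ‖A x - A y‖ ≤ B * ‖x - y‖ :=
  convex_univ.norm_image_sub_le_of_norm_hasFDerivWithin_le
    (fun x _ => (hA.der x).hasFDerivWithinAt) (fun x _ => hA.bdA x) (Set.mem_univ y)
    (Set.mem_univ x)

private theorem X3a_D (hκ : 0 < κ₁) (hD : ∀ p q, κ₁ * ‖D' p - D' q‖ ≤ ‖p - q‖)
    (p q : EuclideanSpace ℝ (Fin n)) : ‖D' p - D' q‖ ≤ 1 / κ₁ * ‖p - q‖ := by
  rw [one_div, inv_mul_eq_div, le_div_iff₀ hκ]
  linarith [hD p q]

private theorem X3a_bdD (hκ : 0 < κ₁) (hA : HA A A' B)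
    (hD : ∀ p q, κ₁ * ‖D' p - D' q‖ ≤ ‖p - q‖)
    (z : EuclideanSpace ℝ (Fin n) × EuclideanSpace ℝ (Fin n)) :
    ‖D' (z.2 - A z.1)‖ ≤ ‖D' 0‖ + 1 / κ₁ * (‖z‖ + B) := by
  have h1 := X3a_D hκ hD (z.2 - A z.1) 0
  rw [sub_zero] at h1
  have h2 : ‖z.2 - A z.1‖ ≤ ‖z‖ + B :=
    (norm_sub_le _ _).trans (add_le_add (norm_snd_le z) (hA.bd _))
  have h3 : ‖D' (z.2 - A z.1)‖ ≤ ‖D' 0‖ + ‖D' (z.2 - A z.1) - D' 0‖ := by
    have := norm_add_le (D' 0) (D' (z.2 - A z.1) - D' 0)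
    rwa [add_sub_cancel] at this
  have h4 : 1 / κ₁ * ‖z.2 - A z.1‖ ≤ 1 / κ₁ * (‖z‖ + B) :=
    mul_le_mul_of_nonneg_left h2 (by positivity)
  linarith

private theorem X3a_adj (hA : HA A A' B) (x v : EuclideanSpace ℝ (Fin n)) :
    ‖ContinuousLinearMap.adjoint (A' x) v‖ ≤ B * ‖v‖ := by
  refine (ContinuousLinearMap.le_opNorm _ _).trans ?_
  rw [LinearIsometryEquiv.norm_map]
  exact mul_le_mul_of_nonneg_right (hA.bdA x) (norm_nonneg _)

private theorem X3a_adj_sub (hA : HA A A' B) (x y v : EuclideanSpace ℝ (Fin n)) :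
    ‖ContinuousLinearMap.adjoint (A' x) v - ContinuousLinearMap.adjoint (A' y) v‖
      ≤ B * ‖x - y‖ * ‖v‖ := by
  have h1 : ContinuousLinearMap.adjoint (A' x) v - ContinuousLinearMap.adjoint (A' y) v
      = ContinuousLinearMap.adjoint (A' x - A' y) v := by
    rw [map_sub]
    rfl
  rw [h1]
  refine (ContinuousLinearMap.le_opNorm _ _).trans ?_
  rw [LinearIsometryEquiv.norm_map]
  exact mul_le_mul_of_nonneg_right (hA.lip x y) (norm_nonneg _)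

theorem field_loc (hκ : 0 < κ₁) (hA : HA A A' B) (hV : HV V F B)
    (hD : ∀ p q, κ₁ * ‖D' p - D' q‖ ≤ ‖p - q‖) (R : ℝ) :
    ∃ L : NNReal, LipschitzOnWith L (field A A' F D') (Metric.closedBall 0 R) := by
  have hB : 0 ≤ B := hA.nonneg
  set M : ℝ := ‖D' 0‖ + 1 / κ₁ * (|R| + B) with hM
  have hM0 : 0 ≤ M := by positivity
  set c : ℝ := 1 / κ₁ * (1 + B) with hc
  have hc0 : 0 ≤ c := by positivity
  refine ⟨Real.toNNReal (c + (B * M + B * c + B)), LipschitzOnWith.of_dist_le_mul ?_⟩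
  intro z hz w hw
  rw [Real.coe_toNNReal _ (by positivity), dist_eq_norm, dist_eq_norm]
  have hz' : ‖z‖ ≤ |R| := (mem_closedBall_zero_iff.1 hz).trans (le_abs_self R)
  have h1 : ‖z.1 - w.1‖ ≤ ‖z - w‖ := norm_fst_le (z - w)
  have h2 : ‖z.2 - w.2‖ ≤ ‖z - w‖ := norm_snd_le (z - w)
  have h0 : 0 ≤ ‖z - w‖ := norm_nonneg _
  set a := D' (z.2 - A z.1) with ha
  set b := D' (w.2 - A w.1) with hb
  have h3 : ‖a - b‖ ≤ c * ‖z - w‖ := by
    refine (X3a_D hκ hD _ _).trans ?_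
    rw [hc, mul_assoc]
    refine mul_le_mul_of_nonneg_left ?_ (by positivity)
    have h4 : z.2 - A z.1 - (w.2 - A w.1) = (z.2 - w.2) - (A z.1 - A w.1) := by abel
    rw [h4]
    refine (norm_sub_le _ _).trans ?_
    have h5 := X3a_lipA hA z.1 w.1
    have h6 : B * ‖z.1 - w.1‖ ≤ B * ‖z - w‖ := mul_le_mul_of_nonneg_left h1 hB
    nlinarith
  have h4 : ‖a‖ ≤ M := by
    refine (X3a_bdD hκ hA hD z).trans ?_
    rw [hM]
    have : 1 / κ₁ * (‖z‖ + B) ≤ 1 / κ₁ * (|R| + B) :=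
      mul_le_mul_of_nonneg_left (by linarith) (by positivity)
    linarith
  have h5 : ‖ContinuousLinearMap.adjoint (A' z.1) a - F z.1
      - (ContinuousLinearMap.adjoint (A' w.1) b - F w.1)‖ ≤ (B * M + B * c + B) * ‖z - w‖ := by
    have h6 : ContinuousLinearMap.adjoint (A' z.1) a - F z.1
        - (ContinuousLinearMap.adjoint (A' w.1) b - F w.1)
        = (ContinuousLinearMap.adjoint (A' z.1) a - ContinuousLinearMap.adjoint (A' w.1) a)
          + ContinuousLinearMap.adjoint (A' w.1) (a - b) - (F z.1 - F w.1) := by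
      rw [map_sub]
      abel
    rw [h6]
    refine (norm_sub_le _ _).trans ?_
    have h7 := norm_add_le (ContinuousLinearMap.adjoint (A' z.1) a
      - ContinuousLinearMap.adjoint (A' w.1) a) (ContinuousLinearMap.adjoint (A' w.1) (a - b))
    have h8 := X3a_adj_sub hA z.1 w.1 a
    have h9 := X3a_adj hA w.1 (a - b)
    have h10 := hV.lip z.1 w.1
    have h11 : B * ‖z.1 - w.1‖ ≤ B * ‖z - w‖ := mul_le_mul_of_nonneg_left h1 hB
    have h12 : B * ‖z.1 - w.1‖ * ‖a‖ ≤ B * ‖z - w‖ * M :=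
      mul_le_mul h11 h4 (norm_nonneg _) (by positivity)
    have h13 : B * ‖a - b‖ ≤ B * (c * ‖z - w‖) := mul_le_mul_of_nonneg_left h3 hB
    nlinarith
  have h6 : field A A' F D' z - field A A' F D' w = (a - b,
      ContinuousLinearMap.adjoint (A' z.1) a - F z.1
        - (ContinuousLinearMap.adjoint (A' w.1) b - F w.1)) := rfl
  rw [h6, Prod.norm_def]
  refine max_le ?_ ?_
  · refine h3.trans ?_
    refine mul_le_mul_of_nonneg_right ?_ h0
    have : 0 ≤ B * M + B * c + B := by positivity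
    linarith
  · refine h5.trans ?_
    refine mul_le_mul_of_nonneg_right ?_ h0
    linarith

theorem field_growth (hκ : 0 < κ₁) (hA : HA A A' B) (hV : HV V F B)
    (hD : ∀ p q, κ₁ * ‖D' p - D' q‖ ≤ ‖p - q‖) :
    ∃ C : ℝ, ∀ z, ‖field A A' F D' z‖ ≤ C * (1 + ‖z‖) := by
  have hB : 0 ≤ B := hA.nonneg
  set M : ℝ := ‖D' 0‖ + 1 / κ₁ * (1 + B) with hM
  have hM0 : 0 ≤ M := by positivity
  refine ⟨M + (B * M + B), fun z => ?_⟩
  have h0 : 0 ≤ ‖z‖ := norm_nonneg _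
  have h1 : ‖D' (z.2 - A z.1)‖ ≤ M * (1 + ‖z‖) := by
    refine (X3a_bdD hκ hA hD z).trans ?_
    rw [hM, add_mul]
    have h2 : ‖D' 0‖ ≤ ‖D' 0‖ * (1 + ‖z‖) := by nlinarith [norm_nonneg (D' 0)]
    have h3 : 1 / κ₁ * (‖z‖ + B) ≤ 1 / κ₁ * (1 + B) * (1 + ‖z‖) := by
      rw [mul_assoc]
      refine mul_le_mul_of_nonneg_left ?_ (by positivity)
      nlinarith
    linarith
  have h2 : field A A' F D' z = (D' (z.2 - A z.1),
      ContinuousLinearMap.adjoint (A' z.1) (D' (z.2 - A z.1)) - F z.1) := rfl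
  rw [h2, Prod.norm_def]
  refine max_le ?_ ?_
  · refine h1.trans ?_
    refine mul_le_mul_of_nonneg_right ?_ (by positivity)
    have : 0 ≤ B * M + B := by positivity
    linarith
  · refine (norm_sub_le _ _).trans ?_
    have h3 := X3a_adj hA z.1 (D' (z.2 - A z.1))
    have h4 := hV.bdF z.1
    have h5 : B * ‖D' (z.2 - A z.1)‖ ≤ B * (M * (1 + ‖z‖)) := mul_le_mul_of_nonneg_left h1 hB
    have h6 : B ≤ B * (1 + ‖z‖) := by nlinarith
    have h7 : 0 ≤ M * (1 + ‖z‖) := by positivity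
    have h8 : B * (M * (1 + ‖z‖)) + B * (1 + ‖z‖) ≤ (M + (B * M + B)) * (1 + ‖z‖) := by
      nlinarith
    linarith

end Pool.Agent.H33.AM
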