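import Pool.Agent.H33.AM.P.R2
import Pool.Agent.H33.AM.P.X1
import Pool.Agent.H33.AM.P.X2
import Pool.Agent.H33.AM.P.F1
import Pool.Agent.H33.AM.P.X3a

/-!
# Module X3: from discrete to continuous

`Y = field A A' F D'`, `W = ℝⁿ × ℝⁿ`, `τ = T / N`, `v_i = (1/τ) (x_{i+1} - x_i)`,
`z_i = (x_i, D v_i + A x_i)`, so that `v_i = D' (z_i.2 - A z_i.1)`, `x_{i+1} = x_i + τ (Y z_i).1`.
* `field_loc`, `field_growth`: `κ₁ ‖D' p - D' q‖ ≤ ‖p - q‖`, `A`, `A'`, `F` bounded and Lipschitz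
  (`A` is Lipschitz with the constant `B` because `‖A'‖ ≤ B`); only `adjoint (A' x) v` needs the
  restriction to balls.
* `disc_euler`: `‖x_i‖ ≤ √n + T R` for `0 ≤ i ≤ N`; `z_{i+1}.2 - z_i.2 = τ (adjoint (A' x_{i+1}) v_{i+1} -
  F x_{i+1})` by `disc_EL`, and `‖v_{i+1} - v_i‖ ≤ (1/κ₁) (‖z_{i+1}.2 - z_i.2‖ + B ‖x_{i+1} - x_i‖) = O(τ)`.
* `disc_of_curve`: `y i = x(i τ)` for `0 ≤ i < N`, extended quasi-periodically. Jensen:
  `τ K((1/τ) ∫ u) ≤ ∫ K(u)` on every `[i τ, (i + 1) τ]` (`ConvexOn.map_average_le` or: `K(u) ≥ K(c) +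
  ⟪D c, u - c⟫` with `c` the average, integrate); `‖x(t) - x(i τ)‖ ≤ R τ`, so the terms with `A` and `V`
  change by `O(τ)`.
* `Sol_of_flow`, `flow_of_Sol`: `v = D' (p - A(γ))`.
-/

set_option autoImplicit false

open MeasureTheory
open scoped RealInnerProductSpace

namespace Pool.Agent.H33.AM

variable {n : ℕ} {K V : EuclideanSpace ℝ (Fin n) → ℝ}
  {D F A D' : EuclideanSpace ℝ (Fin n) → EuclideanSpace ℝ (Fin n)}
  {A' : EuclideanSpace ℝ (Fin n) → EuclideanSpace ℝ (Fin n) →L[ℝ] EuclideanSpace ℝ (Fin n)}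
  {κ₁ κ₂ B T : ℝ}

private theorem X3b_adj (G : EuclideanSpace ℝ (Fin n) →L[ℝ] EuclideanSpace ℝ (Fin n))
    {b : ℝ} (hG : ‖G‖ ≤ b) (v : EuclideanSpace ℝ (Fin n)) :
    ‖ContinuousLinearMap.adjoint G v‖ ≤ b * ‖v‖ := by
  have h1 : ‖ContinuousLinearMap.adjoint G‖ = ‖G‖ :=
    LinearIsometryEquiv.norm_map ContinuousLinearMap.adjoint G
  refine (ContinuousLinearMap.le_opNorm _ v).trans ?_
  rw [h1]
  exact mul_le_mul_of_nonneg_right hG (norm_nonneg v)

private theorem X3b_A (hA : HA A A' B) (x y : EuclideanSpace ℝ (Fin n)) :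
    ‖A y - A x‖ ≤ B * ‖y - x‖ :=
  Convex.norm_image_sub_le_of_norm_hasFDerivWithin_le (s := Set.univ) (f' := A')
    (fun x _ => (hA.der x).hasFDerivWithinAt) (fun x _ => hA.bdA x) convex_univ
    (Set.mem_univ x) (Set.mem_univ y)

private theorem X3b_sqrt (x : EuclideanSpace ℝ (Fin n)) (hx : ∀ j, x j ∈ Set.Icc (0 : ℝ) 1) :
    ‖x‖ ≤ Real.sqrt n := by
  rw [EuclideanSpace.norm_eq]
  apply Real.sqrt_le_sqrt
  have h1 : ∑ i, ‖x i‖ ^ 2 ≤ ∑ _i : Fin n, (1 : ℝ) := by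
    refine Finset.sum_le_sum (fun i _ => ?_)
    obtain ⟨h2, h3⟩ := hx i
    rw [Real.norm_eq_abs, sq_abs]
    nlinarith
  simpa using h1

theorem disc_euler (hK : HK K D κ₁ κ₂) (hA : HA A A' B) (hV : HV V F B)
    (hD1 : ∀ p, D (D' p) = p) (hD2 : ∀ v, D' (D v) = v)
    (hD : ∀ p q, κ₁ * ‖D' p - D' q‖ ≤ ‖p - q‖) (hT : 0 < T) (k : Fin n → ℤ) :
    ∃ R C : ℝ, ∀ (N : ℕ) (x : ℤ → EuclideanSpace ℝ (Fin n)), 0 < N → IsDM K A V T N k x →
      (∀ j, x 0 j ∈ Set.Icc (0 : ℝ) 1) →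
      ∀ z : ℕ → EuclideanSpace ℝ (Fin n) × EuclideanSpace ℝ (Fin n),
        (∀ i : ℕ, z i = (x i, D ((1 / (T / N)) • (x (i + 1) - x i)) + A (x i))) →
        (∀ i ≤ N, ‖z i‖ ≤ R) ∧
        ∀ i < N, ‖z (i + 1) - z i - (T / N) • field A A' F D' (z i)‖ ≤ C * (T / N) ^ 2 := by
  obtain ⟨R0, hR0⟩ := disc_bound hK hA hV hT k
  set R1 := max R0 0 with hR1
  have hR1n : 0 ≤ R1 := le_max_right _ _
  have hB := hA.nonneg
  have hκ₁ := hK.pos
  have hκ₂ := hK.pos₂
  refine ⟨Real.sqrt n + T * R1 + (‖D 0‖ + κ₂ * R1 + B),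
    B * ((2 * B * R1 + B) / κ₁) + B * R1 * R1 + B * R1, ?_⟩
  intro N x hN hx hx0 z hz
  have hNr : (0 : ℝ) < N := by exact_mod_cast hN
  set τ := T / N with hτ
  have hτ0 : 0 < τ := div_pos hT hNr
  have hτN : (N : ℝ) * τ = T := by
    rw [hτ]
    field_simp
  set v : ℤ → EuclideanSpace ℝ (Fin n) := fun i => (1 / τ) • (x (i + 1) - x i) with hv
  have hvR : ∀ i, ‖v i‖ ≤ R1 := fun i => (hR0 N x hN hx i).trans (le_max_left _ _)
  have hstep : ∀ i, x (i + 1) - x i = τ • v i := by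
    intro i
    rw [hv]
    dsimp only
    rw [smul_smul, mul_one_div_cancel hτ0.ne', one_smul]
  have hstepn : ∀ i, ‖x (i + 1) - x i‖ ≤ τ * R1 := by
    intro i
    rw [hstep, norm_smul, Real.norm_of_nonneg hτ0.le]
    exact mul_le_mul_of_nonneg_left (hvR i) hτ0.le
  have hxi : ∀ i : ℕ, ‖x i‖ ≤ Real.sqrt n + i * (τ * R1) := by
    intro i
    induction i with
    | zero =>
      have := X3b_sqrt (x 0) hx0
      simpa using this
    | succ i ih =>
      have h1 : x ((i + 1 : ℕ) : ℤ) = x i + (x ((i : ℤ) + 1) - x i) := by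
        push_cast
        abel
      rw [h1]
      refine (norm_add_le _ _).trans ?_
      have h2 := hstepn (i : ℤ)
      push_cast
      linarith
  have hDg : ∀ w, ‖D w‖ ≤ ‖D 0‖ + κ₂ * ‖w‖ := by
    intro w
    have h1 := hK.lip 0 w
    rw [sub_zero] at h1
    have h2 : ‖D w‖ ≤ ‖D w - D 0‖ + ‖D 0‖ := by
      have := norm_add_le (D w - D 0) (D 0)
      rwa [sub_add_cancel] at this
    linarith
  constructor
  · intro i hi
    rw [hz i, Prod.norm_mk]
    have hir : (i : ℝ) ≤ N := by exact_mod_cast hi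
    apply max_le
    · refine (hxi i).trans ?_
      have h1 : (i : ℝ) * (τ * R1) ≤ N * (τ * R1) :=
        mul_le_mul_of_nonneg_right hir (by positivity)
      have h2 : (N : ℝ) * (τ * R1) = T * R1 := by rw [← mul_assoc, hτN]
      have h3 : 0 ≤ ‖D 0‖ + κ₂ * R1 + B := by positivity
      linarith
    · refine (norm_add_le _ _).trans ?_
      have h1 := hDg (v i)
      have h2 := mul_le_mul_of_nonneg_left (hvR i) hκ₂.le
      have h3 := hA.bd (x i)
      have h4 : 0 ≤ Real.sqrt n := Real.sqrt_nonneg _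
      have h5 : 0 ≤ T * R1 := by positivity
      have h6 : ‖D ((1 / τ) • (x (i + 1) - x i))‖ = ‖D (v i)‖ := rfl
      rw [h6]
      linarith
  · intro i hi
    have hEL := disc_EL hK hA hV hT hN hx ((i : ℤ) + 1)
    rw [add_sub_cancel_right, ← hτ] at hEL
    have hz1 : z (i + 1) = (x ((i : ℤ) + 1), D (v ((i : ℤ) + 1)) + A (x ((i : ℤ) + 1))) := by
      rw [hz (i + 1)]
      push_cast
      rfl
    have hz0 : z i = (x (i : ℤ), D (v (i : ℤ)) + A (x (i : ℤ))) := hz i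
    have hEL' : D (v ((i : ℤ) + 1)) + A (x ((i : ℤ) + 1)) - (D (v i) + A (x i)) =
        τ • (ContinuousLinearMap.adjoint (A' (x ((i : ℤ) + 1))) (v ((i : ℤ) + 1)) -
          F (x ((i : ℤ) + 1))) := hEL
    set a := x (i : ℤ) with ha
    set b := x ((i : ℤ) + 1) with hb
    set va := v (i : ℤ) with hva
    set vb := v ((i : ℤ) + 1) with hvb
    have hba : ‖b - a‖ ≤ τ * R1 := hstepn i
    have hba' : b - a = τ • va := hstep i
    have hvaR : ‖va‖ ≤ R1 := hvR i
    have hvbR : ‖vb‖ ≤ R1 := hvR _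
    have hp : ‖D vb + A b - (D va + A a)‖ ≤ τ * (B * R1 + B) := by
      rw [hEL', norm_smul, Real.norm_of_nonneg hτ0.le]
      refine mul_le_mul_of_nonneg_left ((norm_sub_le _ _).trans ?_) hτ0.le
      refine add_le_add ((X3b_adj _ (hA.bdA b) vb).trans ?_) (hV.bdF b)
      exact mul_le_mul_of_nonneg_left hvbR hB
    have hAba : ‖A b - A a‖ ≤ B * (τ * R1) :=
      (X3b_A hA a b).trans (mul_le_mul_of_nonneg_left hba hB)
    have hDv : κ₁ * ‖vb - va‖ ≤ τ * (2 * B * R1 + B) := by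
      refine (hK.antilip va vb).trans ?_
      have e : D vb - D va = (D vb + A b - (D va + A a)) - (A b - A a) := by abel
      rw [e]
      refine (norm_sub_le _ _).trans ?_
      linarith
    have hvv : ‖vb - va‖ ≤ τ * ((2 * B * R1 + B) / κ₁) := by
      rw [← mul_div_assoc, le_div_iff₀ hκ₁, mul_comm]
      exact hDv
    have hfield : field A A' F D' (z i) =
        (va, ContinuousLinearMap.adjoint (A' a) va - F a) := by
      rw [hz0]
      unfold field
      dsimp only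
      rw [add_sub_cancel_right, hD2]
    have hfin : z (i + 1) - z i - τ • field A A' F D' (z i) =
        (0, τ • (ContinuousLinearMap.adjoint (A' b) (vb - va) +
          ContinuousLinearMap.adjoint (A' b - A' a) va - (F b - F a))) := by
      rw [hfield, hz1, hz0]
      refine Prod.ext ?_ ?_
      · change b - a - τ • va = 0
        rw [hba', sub_self]
      · change D vb + A b - (D va + A a) -
          τ • (ContinuousLinearMap.adjoint (A' a) va - F a) = _
        rw [hEL', ← smul_sub]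
        congr 1
        rw [map_sub ContinuousLinearMap.adjoint (A' b) (A' a)]
        rw [map_sub (ContinuousLinearMap.adjoint (A' b)) vb va]
        rw [sub_apply]
        abel
    rw [hfin, Prod.norm_mk, norm_zero]
    have hC0 : 0 ≤ (B * ((2 * B * R1 + B) / κ₁) + B * R1 * R1 + B * R1) * τ ^ 2 := by
      positivity
    apply max_le hC0
    rw [norm_smul, Real.norm_of_nonneg hτ0.le]
    have g1 : ‖ContinuousLinearMap.adjoint (A' b) (vb - va)‖ ≤
        B * (τ * ((2 * B * R1 + B) / κ₁)) :=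
      (X3b_adj _ (hA.bdA b) _).trans (mul_le_mul_of_nonneg_left hvv hB)
    have g2 : ‖ContinuousLinearMap.adjoint (A' b - A' a) va‖ ≤ B * (τ * R1) * R1 := by
      refine (X3b_adj _ ((hA.lip b a).trans (mul_le_mul_of_nonneg_left hba hB)) va).trans ?_
      exact mul_le_mul_of_nonneg_left hvaR (by positivity)
    have g3 : ‖F b - F a‖ ≤ B * (τ * R1) :=
      (hV.lip b a).trans (mul_le_mul_of_nonneg_left hba hB)
    have g4 : ‖ContinuousLinearMap.adjoint (A' b) (vb - va) +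
        ContinuousLinearMap.adjoint (A' b - A' a) va - (F b - F a)‖ ≤
        B * (τ * ((2 * B * R1 + B) / κ₁)) + B * (τ * R1) * R1 + B * (τ * R1) :=
      (norm_sub_le _ _).trans (add_le_add ((norm_add_le _ _).trans (add_le_add g1 g2)) g3)
    refine (mul_le_mul_of_nonneg_left g4 hτ0.le).trans (le_of_eq ?_)
    ring

end Pool.Agent.H33.AM
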