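import Pool.Agent.H33.AM.P.R2
import Pool.Agent.H33.AM.P.X1
import Pool.Agent.H33.AM.P.X2
import Pool.Agent.H33.AM.P.F1
import Pool.Agent.H33.AM.P.X3a
import Pool.Agent.H33.AM.P.X3b

/-!
# Module X3: from discrete to continuous

`Y = field A A' F D'`, `W = ℝⁿ × ℝⁿ`, `τ = T / N`, `v_i = (1/τ) (x_{i+1} - x_i)`,
`z_i = (x_i, D v_i + A x_i)`, so that `v_i = D' (z_i.2 - A z_i.1)`, `x_{i+1} = x_i + τ (Y z_i).1`.
* `field_loc`, `field_growth`: `κ₁ ‖D' p - D' q‖ ≤ ‖p - q‖`, `A`, `A'`, `F` bounded and Lipschitz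
  (`A` is Lipschitz with the constant `B` because `‖A'‖ ≤ B`); only `adjoint (A' x) v` needs the
  restriction to balls.
* `disc_euler`: `‖x_i‖ ≤ √n + T R` for `0 ≤ i ≤ N`; `z_{i+1}.2 - z_i.2 = τ (adjoint (A' x_{i+1}) v_{i+1} -
  F x_{i+1})` by `disc_EL`, and `‖v_{i+1} - v_i‖ ≤ (1/κ₁) (‖z_{i+1}.2 - z_i.2‖ + B ‖x_{i+1} - x_i‖) = O(τ)`.
* `disc_of_curve`: `y i = x(i τ)` for `0 ≤ i < N`, extended quasi-periodically. Jensen:
  `τ K((1/τ) ∫ u) ≤ ∫ K(u)` on every `[i τ, (i + 1) τ]` (`ConvexOn.map_average_le` or: `K(u) ≥ K(c) +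
  ⟪D c, u - c⟫` with `c` the average, integrate); `‖x(t) - x(i τ)‖ ≤ R τ`, so the terms with `A` and `V`
  change by `O(τ)`.
* `Sol_of_flow`, `flow_of_Sol`: `v = D' (p - A(γ))`.
-/

set_option autoImplicit false

open MeasureTheory
open scoped RealInnerProductSpace

namespace Pool.Agent.H33.AM

variable {n : ℕ} {K V : EuclideanSpace ℝ (Fin n) → ℝ}
  {D F A D' : EuclideanSpace ℝ (Fin n) → EuclideanSpace ℝ (Fin n)}
  {A' : EuclideanSpace ℝ (Fin n) → EuclideanSpace ℝ (Fin n) →L[ℝ] EuclideanSpace ℝ (Fin n)}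
  {κ₁ κ₂ B T : ℝ}

private lemma c_V (hV : HV V F B) : Continuous V :=
  continuous_iff_continuousAt.mpr fun v => (hV.der v).continuousAt

private lemma c_A (hA : HA A A' B) : Continuous A :=
  continuous_iff_continuousAt.mpr fun v => (hA.der v).continuousAt

private lemma c_K (hK : HK K D κ₁ κ₂) : Continuous K :=
  continuous_iff_continuousAt.mpr fun v => (hK.grad v).continuousAt

private lemma lip_V (hV : HV V F B) (x y : EuclideanSpace ℝ (Fin n)) :
    |V y - V x| ≤ B * ‖y - x‖ := by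
  have := (convex_univ (E := EuclideanSpace ℝ (Fin n))).norm_image_sub_le_of_norm_hasFDerivWithin_le
    (f := V) (C := B) (fun z _ => (hV.der z).hasFDerivAt.hasFDerivWithinAt)
    (fun z _ => by rw [LinearIsometryEquiv.norm_map]; exact hV.bdF z)
    (Set.mem_univ x) (Set.mem_univ y)
  rwa [Real.norm_eq_abs] at this

private lemma lip_A (hA : HA A A' B) (x y : EuclideanSpace ℝ (Fin n)) :
    ‖A y - A x‖ ≤ B * ‖y - x‖ :=
  (convex_univ (E := EuclideanSpace ℝ (Fin n))).norm_image_sub_le_of_norm_hasFDerivWithin_le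
    (f := A) (C := B) (fun z _ => (hA.der z).hasFDerivWithinAt)
    (fun z _ => hA.bdA z) (Set.mem_univ x) (Set.mem_univ y)

private lemma c_lag (hK : HK K D κ₁ κ₂) (hA : HA A A' B) (hV : HV V F B) :
    Continuous fun p : EuclideanSpace ℝ (Fin n) × EuclideanSpace ℝ (Fin n) =>
      lag K A V p.1 p.2 := by
  unfold lag
  exact (((c_K hK).comp continuous_snd).add
    (((c_A hA).comp continuous_fst).inner continuous_snd)).sub ((c_V hV).comp continuous_fst)

private lemma Adm.dist_le {a b R : ℝ} {x u : ℝ → EuclideanSpace ℝ (Fin n)} (h : Adm a b x u)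
    (hR : ∀ t, ‖u t‖ ≤ R) : ‖x b - x a‖ ≤ R * (b - a) := by
  have hab := h.le
  have hR0 : 0 ≤ R := (norm_nonneg _).trans (hR 0)
  have h1 := h.integral_inner (x b - x a)
  rw [← inner_sub_right, real_inner_self_eq_norm_sq] at h1
  have h2 := intervalIntegral.norm_integral_le_of_norm_le_const (a := a) (b := b)
    (f := fun t => ⟪x b - x a, u t⟫) (C := ‖x b - x a‖ * R) (fun t _ => by
      rw [Real.norm_eq_abs]
      exact (abs_real_inner_le_norm _ _).trans
        (mul_le_mul_of_nonneg_left (hR t) (norm_nonneg _)))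
  rw [h1, Real.norm_eq_abs, abs_of_nonneg (by positivity), abs_of_nonneg (by linarith)] at h2
  rcases (norm_nonneg (x b - x a)).eq_or_lt with h0 | h0
  · rw [← h0]
    exact mul_nonneg hR0 (by linarith)
  · nlinarith

private lemma one_step (hK : HK K D κ₁ κ₂) (hA : HA A A' B) (hV : HV V F B) {a b R : ℝ}
    {x u : ℝ → EuclideanSpace ℝ (Fin n)} (h : Adm a b x u) (hab : a < b) (hR : ∀ t, ‖u t‖ ≤ R) :
    (b - a) * lag K A V (x a) ((1 / (b - a)) • (x b - x a)) ≤
      (∫ t in a..b, lag K A V (x t) (u t)) + B * (R ^ 2 + R) * (b - a) ^ 2 := by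
  have hR0 : 0 ≤ R := (norm_nonneg _).trans (hR 0)
  have hB := hV.nonneg
  have hτ : 0 < b - a := by linarith
  set c := (1 / (b - a)) • (x b - x a) with hc
  set w := D c + A (x a) with hw
  set e := K c - ⟪D c, c⟫ - V (x a) - B * (R ^ 2 + R) * (b - a) with he
  have i1 : IntervalIntegrable (fun t => ⟪w, u t⟫) volume a b :=
    h.integrable (g := fun p => ⟪w, p.2⟫) (continuous_const.inner continuous_snd)
  have i2 : IntervalIntegrable (fun t => lag K A V (x t) (u t)) volume a b :=
    h.integrable (g := fun p => lag K A V p.1 p.2) (c_lag hK hA hV)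
  have i3 : IntervalIntegrable (fun t => e + ⟪w, u t⟫) volume a b :=
    (continuous_const.intervalIntegrable _ _).add i1
  have h1 : ∫ t in a..b, (e + ⟪w, u t⟫) ≤ ∫ t in a..b, lag K A V (x t) (u t) := by
    apply intervalIntegral.integral_mono_on hab.le i3 i2
    intro t ht
    have hx : ‖x t - x a‖ ≤ R * (b - a) :=
      ((h.sub le_rfl ht.1 ht.2).dist_le hR).trans
        (mul_le_mul_of_nonneg_left (by linarith [ht.2]) hR0)
    have k1 := hK.lo c (u t)
    have k2 : 0 ≤ κ₁ / 2 * ‖u t - c‖ ^ 2 := by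
      have := hK.pos
      positivity
    have k3 := (abs_le.mp (lip_V hV (x a) (x t))).2
    have k4 := mul_le_mul_of_nonneg_left hx hB
    have k5 : |⟪A (x t) - A (x a), u t⟫| ≤ (B * (R * (b - a))) * R :=
      (abs_real_inner_le_norm _ _).trans (mul_le_mul ((lip_A hA (x a) (x t)).trans k4) (hR t)
        (norm_nonneg _) (by positivity))
    have k6 := (abs_le.mp k5).1
    rw [inner_sub_left] at k6
    rw [inner_sub_right] at k1
    unfold lag
    rw [he, hw, inner_add_left]
    nlinarith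
  have h2 : ∫ t in a..b, (e + ⟪w, u t⟫) = (b - a) * e + ⟪w, x b - x a⟫ := by
    rw [intervalIntegral.integral_add (continuous_const.intervalIntegrable _ _) i1,
      intervalIntegral.integral_const, smul_eq_mul, h.integral_inner, inner_sub_right]
  have h3 : x b - x a = (b - a) • c := by
    rw [hc, smul_smul, mul_one_div_cancel hτ.ne', one_smul]
  have h4 : ⟪w, x b - x a⟫ = (b - a) * ⟪D c, c⟫ + (b - a) * ⟪A (x a), c⟫ := by
    rw [h3, inner_smul_right, hw, inner_add_left]
    ring
  rw [h2, h4] at h1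
  unfold lag
  rw [he] at h1
  unfold lag at h1
  nlinarith

theorem disc_of_curve (hK : HK K D κ₁ κ₂) (hA : HA A A' B) (hV : HV V F B) (hT : 0 < T)
    {x u : ℝ → EuclideanSpace ℝ (Fin n)} (h : Adm 0 T x u) {k : Fin n → ℤ}
    (hx : x T = x 0 + zv k) {ε : ℝ} (hε : 0 < ε) :
    ∃ N₀ : ℕ, ∀ N ≥ N₀, ∃ y : ℤ → EuclideanSpace ℝ (Fin n), (∀ i, y (i + N) = y i + zv k) ∧
      Sd K A V (T / N) N y ≤ (∫ t in (0 : ℝ)..T, lag K A V (x t) (u t)) + ε := by
  obtain ⟨R, hR⟩ := h.bd
  have hR0 : 0 ≤ R := (norm_nonneg _).trans (hR 0)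
  have hB := hV.nonneg
  obtain ⟨M, hM⟩ := exists_nat_ge (B * (R ^ 2 + R) * T ^ 2 / ε)
  refine ⟨M + 1, fun N hN => ?_⟩
  have hN0 : 0 < N := by omega
  have hN' : (0 : ℝ) < N := by exact_mod_cast hN0
  have hNz : (0 : ℤ) < N := by exact_mod_cast hN0
  have hNM : (M : ℝ) ≤ N := by
    have : M ≤ N := by omega
    exact_mod_cast this
  set τ := T / N with hτd
  have hτ : 0 < τ := by positivity
  have hNτ : N * τ = T := by rw [hτd]; field_simp
  set y : ℤ → EuclideanSpace ℝ (Fin n) := fun i =>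
    x (((i % (N : ℤ) : ℤ) : ℝ) * τ) + ((i / (N : ℤ) : ℤ) : ℝ) • zv k with hy
  have hyi : ∀ i : ℕ, i ≤ N → y i = x (i * τ) := by
    intro i hi
    simp only [hy]
    rcases hi.eq_or_lt with h1 | h1
    · subst h1
      rw [Int.emod_self, Int.ediv_self hNz.ne', hNτ, hx]
      simp
    · have h2 : ((i : ℤ) % (N : ℤ)) = i := Int.emod_eq_of_lt (by positivity) (by exact_mod_cast h1)
      have h3 : ((i : ℤ) / (N : ℤ)) = 0 := Int.ediv_eq_zero_of_lt (by positivity)
        (by exact_mod_cast h1)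
      rw [h2, h3]
      simp
  refine ⟨y, ?_, ?_⟩
  · intro i
    simp only [hy]
    rw [Int.add_emod_right, Int.add_ediv_of_dvd_right (dvd_refl _), Int.ediv_self hNz.ne']
    push_cast
    rw [add_smul, one_smul, add_assoc]
  · set a : ℕ → ℝ := fun i => i * τ with ha
    have hstep : ∀ i ∈ Finset.range N,
        τ * lag K A V (y i) ((1 / τ) • (y (i + 1) - y i)) ≤
          (∫ t in a i..a (i + 1), lag K A V (x t) (u t)) + B * (R ^ 2 + R) * τ ^ 2 := by
      intro i hi
      rw [Finset.mem_range] at hi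
      have hi' : (i : ℝ) + 1 ≤ N := by exact_mod_cast hi
      have e1 : a (i + 1) - a i = τ := by
        simp only [ha]
        push_cast
        ring
      have hai : 0 ≤ a i := by simp only [ha]; positivity
      have haT : a (i + 1) ≤ T := by
        rw [← hNτ]
        simp only [ha]
        push_cast
        exact mul_le_mul_of_nonneg_right hi' hτ.le
      have e2 := one_step hK hA hV (h.sub hai (by linarith) haT) (by linarith) hR
      rw [e1] at e2
      have e3 : y i = x (a i) := hyi i hi.le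
      have e4 : y ((i : ℤ) + 1) = x (a (i + 1)) := by
        have := hyi (i + 1) hi
        push_cast at this
        rw [this]
        simp only [ha]
        push_cast
        rfl
      rw [e3, e4]
      exact e2
    have hint : ∀ i < N, IntervalIntegrable (fun t => lag K A V (x t) (u t)) volume (a i)
        (a (i + 1)) := by
      intro i hi
      have hi' : (i : ℝ) + 1 ≤ N := by exact_mod_cast hi
      have hai : 0 ≤ a i := by simp only [ha]; positivity
      have haT : a (i + 1) ≤ T := by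
        rw [← hNτ]
        simp only [ha]
        push_cast
        exact mul_le_mul_of_nonneg_right hi' hτ.le
      have e0 : a i ≤ a (i + 1) := by
        simp only [ha]
        push_cast
        nlinarith
      exact (h.sub hai e0 haT).integrable (g := fun p => lag K A V p.1 p.2) (c_lag hK hA hV)
    have hsum : ∑ i ∈ Finset.range N, ∫ t in a i..a (i + 1), lag K A V (x t) (u t) =
        ∫ t in (0 : ℝ)..T, lag K A V (x t) (u t) := by
      rw [intervalIntegral.sum_integral_adjacent_intervals (fun i hi => hint i hi)]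
      simp only [ha, Nat.cast_zero, zero_mul]
      rw [hNτ]
    unfold Sd
    refine (Finset.sum_le_sum hstep).trans ?_
    rw [Finset.sum_add_distrib, hsum, Finset.sum_const, Finset.card_range, nsmul_eq_mul]
    have h5 : (N : ℝ) * (B * (R ^ 2 + R) * τ ^ 2) = B * (R ^ 2 + R) * T ^ 2 / N := by
      rw [hτd]
      field_simp
    have h6 : B * (R ^ 2 + R) * T ^ 2 / N ≤ ε := by
      rw [div_le_iff₀ hN']
      rw [div_le_iff₀ hε] at hM
      nlinarith
    rw [h5]
    linarith

end Pool.Agent.H33.AM
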