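import Pool.Agent.H33.AM.P.R2
import Pool.Agent.H33.AM.P.X1
import Pool.Agent.H33.AM.P.X2
import Pool.Agent.H33.AM.P.F1
import Pool.Agent.H33.AM.P.X3a
import Pool.Agent.H33.AM.P.X3b
import Pool.Agent.H33.AM.P.X3c

/-!
# Module X3: from discrete to continuous

`Y = field A A' F D'`, `W = ℝⁿ × ℝⁿ`, `τ = T / N`, `v_i = (1/τ) (x_{i+1} - x_i)`,
`z_i = (x_i, D v_i + A x_i)`, so that `v_i = D' (z_i.2 - A z_i.1)`, `x_{i+1} = x_i + τ (Y z_i).1`.
* `field_loc`, `field_growth`: `κ₁ ‖D' p - D' q‖ ≤ ‖p - q‖`, `A`, `A'`, `F` bounded and Lipschitz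
  (`A` is Lipschitz with the constant `B` because `‖A'‖ ≤ B`); only `adjoint (A' x) v` needs the
  restriction to balls.
* `disc_euler`: `‖x_i‖ ≤ √n + T R` for `0 ≤ i ≤ N`; `z_{i+1}.2 - z_i.2 = τ (adjoint (A' x_{i+1}) v_{i+1} -
  F x_{i+1})` by `disc_EL`, and `‖v_{i+1} - v_i‖ ≤ (1/κ₁) (‖z_{i+1}.2 - z_i.2‖ + B ‖x_{i+1} - x_i‖) = O(τ)`.
* `disc_of_curve`: `y i = x(i τ)` for `0 ≤ i < N`, extended quasi-periodically. Jensen:
  `τ K((1/τ) ∫ u) ≤ ∫ K(u)` on every `[i τ, (i + 1) τ]` (`ConvexOn.map_average_le` or: `K(u) ≥ K(c) +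
  ⟪D c, u - c⟫` with `c` the average, integrate); `‖x(t) - x(i τ)‖ ≤ R τ`, so the terms with `A` and `V`
  change by `O(τ)`.
* `Sol_of_flow`, `flow_of_Sol`: `v = D' (p - A(γ))`.
-/

set_option autoImplicit false

open MeasureTheory
open scoped RealInnerProductSpace

namespace Pool.Agent.H33.AM

variable {n : ℕ} {K V : EuclideanSpace ℝ (Fin n) → ℝ}
  {D F A D' : EuclideanSpace ℝ (Fin n) → EuclideanSpace ℝ (Fin n)}
  {A' : EuclideanSpace ℝ (Fin n) → EuclideanSpace ℝ (Fin n) →L[ℝ] EuclideanSpace ℝ (Fin n)}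
  {κ₁ κ₂ B T : ℝ}

theorem Sol_of_flow (hκ : 0 < κ₁) (hA : HA A A' B) (hD1 : ∀ p, D (D' p) = p)
    (hD : ∀ p q, κ₁ * ‖D' p - D' q‖ ≤ ‖p - q‖)
    {z : ℝ → EuclideanSpace ℝ (Fin n) × EuclideanSpace ℝ (Fin n)}
    (hz : ∀ t, HasDerivAt z (field A A' F D' (z t)) t) :
    Sol D F A A' (fun t => (z t).1) fun t => D' ((z t).2 - A (z t).1) := by
  have hD'c : Continuous D' := by
    have hL : LipschitzWith (Real.toNNReal (1 / κ₁)) D' := by
      apply LipschitzWith.of_dist_le_mul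
      intro p q
      rw [dist_eq_norm, dist_eq_norm, Real.coe_toNNReal _ (by positivity)]
      have h := hD p q
      rw [div_mul_eq_mul_div, one_mul, le_div_iff₀ hκ]
      linarith
    exact hL.continuous
  have hAc : Continuous A := continuous_iff_continuousAt.mpr fun x => (hA.der x).continuousAt
  have hzc : Continuous z := continuous_iff_continuousAt.mpr fun t => (hz t).continuousAt
  refine ⟨?_, ?_, ?_⟩
  · exact hD'c.comp ((continuous_snd.comp hzc).sub (hAc.comp (continuous_fst.comp hzc)))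
  · intro t
    exact (hasFDerivAt_fst.comp_hasDerivAt t (hz t))
  · intro t
    have h1 : HasDerivAt (fun s => (z s).2)
        (ContinuousLinearMap.adjoint (A' (z t).1) (D' ((z t).2 - A (z t).1)) - F (z t).1) t := by
      have h3 := (hasFDerivAt_snd (𝕜 := ℝ) (E := EuclideanSpace ℝ (Fin n))
        (F := EuclideanSpace ℝ (Fin n)) (p := z t)).comp_hasDerivAt t (hz t)
      exact h3
    have h2 : (fun s => D (D' ((z s).2 - A (z s).1)) + A (z s).1) = fun s => (z s).2 := by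
      funext s
      rw [hD1]
      abel
    rw [h2]
    exact h1

theorem flow_of_Sol (hD2 : ∀ v, D' (D v) = v) {γ v : ℝ → EuclideanSpace ℝ (Fin n)}
    (h : Sol D F A A' γ v) (t : ℝ) :
    HasDerivAt (fun t => (γ t, D (v t) + A (γ t)))
      (field A A' F D' (γ t, D (v t) + A (γ t))) t := by
  have h1 : field A A' F D' (γ t, D (v t) + A (γ t))
      = (v t, ContinuousLinearMap.adjoint (A' (γ t)) (v t) - F (γ t)) := by
    unfold field
    simp only [add_sub_cancel_right, hD2]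
  rw [h1]
  exact (h.der t).prodMk (h.el t)

end Pool.Agent.H33.AM
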