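import Pool.Agent.H33.AM.Defs
import Pool.Agent.H33.AM.P.X3

/-!
# Module I1: the Euler-Lagrange flow on `𝕋ⁿ × ℝⁿ × 𝕋`

* `pr_eq_iff`: `pr x = pr y` iff `x - y` is an integer vector (`AddCircle.coe_eq_coe_iff_of_mem_Ico`,
  `AddCircle.coe_eq_zero_iff`, `QuotientAddGroup`).
* `isEL_iff`: for `L x v t = lag K A V x v`: `gradient (fun v => L x v t) v = D v + A x`,
  `gradient (fun x => L x v t) x = adjoint (A' x) v - F x`. So `IsEL` says: `γ` is differentiable and
  `s ↦ D (deriv γ s) + A (γ s)` has the derivative `adjoint (A' (γ t)) (deriv γ t) - F (γ t)`. Then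
  `D (deriv γ)` is continuous, and `deriv γ = D' (D (deriv γ))` is continuous.
* `exists_ELflow`: with the flow `φ` of `Y = field A A' F D'` (`field_loc`, `field_growth`,
  `flow_of_growth`) put `Φ s (X, v, τ) = (pr (z.1), D' (z.2 - A z.1), τ + s)`,
  `z = φ s (repE X, D v + A (repE X))`. `Y` is periodic in `x`, so the same formula holds for every
  lift `x` of `X` (uniqueness of the flow). Measurability: `repE` is measurable
  (`AddCircle.measurable_equivIco` or similar), `φ s` is continuous, `pr` is continuous.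
* `exists_ELflow` also gives: every solution `Sol D F A A' γ v` is a trajectory.
-/

set_option autoImplicit false

open MeasureTheory
open scoped RealInnerProductSpace

namespace Pool.Agent.H33.AM

variable {n : ℕ} {K V : EuclideanSpace ℝ (Fin n) → ℝ}
  {D F A : EuclideanSpace ℝ (Fin n) → EuclideanSpace ℝ (Fin n)}
  {A' : EuclideanSpace ℝ (Fin n) → EuclideanSpace ℝ (Fin n) →L[ℝ] EuclideanSpace ℝ (Fin n)}
  {κ₁ κ₂ B T : ℝ}

theorem pr_eq_iff (x y : EuclideanSpace ℝ (Fin n)) :
    pr x = pr y ↔ ∃ k : Fin n → ℤ, x = y + zv k := by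
  have key : ∀ a b : ℝ, ((a : ℝ) : UnitAddCircle) = (b : UnitAddCircle) ↔ ∃ m : ℤ, a = b + m := by
    intro a b
    rw [← sub_eq_zero, ← AddCircle.coe_sub, AddCircle.coe_eq_zero_iff]
    constructor
    · rintro ⟨m, hm⟩
      refine ⟨m, ?_⟩
      simp only [zsmul_eq_mul, mul_one] at hm
      linarith
    · rintro ⟨m, hm⟩
      refine ⟨m, ?_⟩
      simp only [zsmul_eq_mul, mul_one]
      linarith
  constructor
  · intro h
    have h1 : ∀ i, ∃ m : ℤ, x i = y i + m := fun i => (key _ _).1 (congrFun h i)
    choose k hk using h1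
    refine ⟨k, ?_⟩
    ext i
    simp only [zv, PiLp.add_apply]
    exact hk i
  · rintro ⟨k, hk⟩
    funext i
    refine (key _ _).2 ⟨k i, ?_⟩
    rw [hk]
    simp [zv]

private theorem I1a_rep_coe (a : UnitAddCircle) : ((rep a : ℝ) : UnitAddCircle) = a := by
  unfold rep
  exact (AddCircle.equivIco (1 : ℝ) 0).symm_apply_apply a

theorem pr_repE (X : Tor n) : pr (repE X) = X := by
  funext i
  exact I1a_rep_coe (X i)

theorem rep_coe (a : UnitAddCircle) : ((rep a : ℝ) : UnitAddCircle) = a :=
  I1a_rep_coe a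

theorem measurable_repE : Measurable (repE (n := n)) := by
  have h1 : Measurable rep := by
    unfold rep
    exact measurable_subtype_coe.comp (AddCircle.measurableEquivIco (1 : ℝ) 0).measurable
  have h2 : Measurable fun X : Tor n => fun i => rep (X i) :=
    measurable_pi_lambda _ fun i => h1.comp (measurable_pi_apply i)
  exact (WithLp.measurable_toLp 2 _).comp h2

theorem continuous_pr : Continuous (pr (n := n)) := by
  unfold pr
  refine continuous_pi fun i => ?_
  exact (AddCircle.continuous_mk' (1 : ℝ)).comp (by fun_prop)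

end Pool.Agent.H33.AM
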