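import Pool.Agent.H33.AM.Defs
import Pool.Agent.H33.AM.P.X3
import Pool.Agent.H33.AM.P.I1a

/-!
# Module I1: the Euler-Lagrange flow on `𝕋ⁿ × ℝⁿ × 𝕋`

* `pr_eq_iff`: `pr x = pr y` iff `x - y` is an integer vector (`AddCircle.coe_eq_coe_iff_of_mem_Ico`,
  `AddCircle.coe_eq_zero_iff`, `QuotientAddGroup`).
* `isEL_iff`: for `L x v t = lag K A V x v`: `gradient (fun v => L x v t) v = D v + A x`,
  `gradient (fun x => L x v t) x = adjoint (A' x) v - F x`. So `IsEL` says: `γ` is differentiable and
  `s ↦ D (deriv γ s) + A (γ s)` has the derivative `adjoint (A' (γ t)) (deriv γ t) - F (γ t)`. Then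
  `D (deriv γ)` is continuous, and `deriv γ = D' (D (deriv γ))` is continuous.
* `exists_ELflow`: with the flow `φ` of `Y = field A A' F D'` (`field_loc`, `field_growth`,
  `flow_of_growth`) put `Φ s (X, v, τ) = (pr (z.1), D' (z.2 - A z.1), τ + s)`,
  `z = φ s (repE X, D v + A (repE X))`. `Y` is periodic in `x`, so the same formula holds for every
  lift `x` of `X` (uniqueness of the flow). Measurability: `repE` is measurable
  (`AddCircle.measurable_equivIco` or similar), `φ s` is continuous, `pr` is continuous.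
* `exists_ELflow` also gives: every solution `Sol D F A A' γ v` is a trajectory.
-/

set_option autoImplicit false

open MeasureTheory
open scoped RealInnerProductSpace

namespace Pool.Agent.H33.AM

variable {n : ℕ} {K V : EuclideanSpace ℝ (Fin n) → ℝ}
  {D F A : EuclideanSpace ℝ (Fin n) → EuclideanSpace ℝ (Fin n)}
  {A' : EuclideanSpace ℝ (Fin n) → EuclideanSpace ℝ (Fin n) →L[ℝ] EuclideanSpace ℝ (Fin n)}
  {κ₁ κ₂ B T : ℝ}

private theorem I1b_grad_v (hK : HK K D κ₁ κ₂) (x v : EuclideanSpace ℝ (Fin n)) :
    HasGradientAt (fun v => lag K A V x v) (D v + A x) v := by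
  have h1 : HasFDerivAt K (InnerProductSpace.toDual ℝ _ (D v)) v := (hK.grad v).hasFDerivAt
  have h2 : HasFDerivAt (fun v => (⟪A x, v⟫ : ℝ)) (InnerProductSpace.toDual ℝ _ (A x)) v :=
    (InnerProductSpace.toDual ℝ _ (A x)).hasFDerivAt
  have h3 : HasFDerivAt (fun v => lag K A V x v)
      (InnerProductSpace.toDual ℝ _ (D v) + InnerProductSpace.toDual ℝ _ (A x)) v := by
    unfold lag
    exact (h1.add h2).sub_const _
  rw [hasGradientAt_iff_hasFDerivAt, map_add]
  exact h3

private theorem I1b_grad_x (hA : HA A A' B) (hV : HV V F B) (x v : EuclideanSpace ℝ (Fin n)) :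
    HasGradientAt (fun x => lag K A V x v) (ContinuousLinearMap.adjoint (A' x) v - F x) x := by
  have h1 : HasFDerivAt V (InnerProductSpace.toDual ℝ _ (F x)) x := (hV.der x).hasFDerivAt
  have h2 : HasFDerivAt (fun x => (⟪A x, v⟫ : ℝ))
      (InnerProductSpace.toDual ℝ _ (ContinuousLinearMap.adjoint (A' x) v)) x := by
    have h4 := (hA.der x).inner ℝ (hasFDerivAt_const v x)
    refine h4.congr_fderiv ?_
    ext u
    simp [ContinuousLinearMap.adjoint_inner_left, real_inner_comm]
  have h3 : HasFDerivAt (fun x => lag K A V x v)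
      (InnerProductSpace.toDual ℝ _ (ContinuousLinearMap.adjoint (A' x) v)
        - InnerProductSpace.toDual ℝ _ (F x)) x := by
    unfold lag
    have h5 : HasFDerivAt (fun x => K v + (⟪A x, v⟫ : ℝ))
      (InnerProductSpace.toDual ℝ _ (ContinuousLinearMap.adjoint (A' x) v)) x := h2.const_add _
    exact h5.sub h1
  rw [hasGradientAt_iff_hasFDerivAt, map_sub]
  exact h3

theorem isEL_iff (hK : HK K D κ₁ κ₂) (hA : HA A A' B) (hV : HV V F B)
    (γ : ℝ → EuclideanSpace ℝ (Fin n)) :
    IsEL (fun x v _ => lag K A V x v) γ ↔ Sol D F A A' γ (deriv γ) := by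
  have e1 : ∀ x v, gradient (fun v => lag K A V x v) v = D v + A x := fun x v =>
    (I1b_grad_v hK x v).gradient
  have e2 : ∀ x v, gradient (fun x => lag K A V x v) x =
      ContinuousLinearMap.adjoint (A' x) v - F x := fun x v =>
    (I1b_grad_x hA hV x v).gradient
  unfold IsEL
  simp only [e1, e2]
  constructor
  · rintro ⟨h1, h2⟩
    refine ⟨?_, fun t => (h1 t).hasDerivAt, h2⟩
    obtain ⟨D', -, hD2, hD3⟩ := hK.inv
    have h3 : Continuous fun s => D (deriv γ s) + A (γ s) :=
      continuous_iff_continuousAt.2 fun t => (h2 t).continuousAt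
    have h4 : Continuous A := continuous_iff_continuousAt.2 fun x => (hA.der x).continuousAt
    have h5 : Continuous γ := continuous_iff_continuousAt.2 fun t => (h1 t).continuousAt
    have h6 : Continuous fun s => D (deriv γ s) := by
      have := h3.sub (h4.comp h5)
      refine this.congr fun s => ?_
      simp
    have h7 : Continuous D' := by
      have hL : LipschitzWith (Real.toNNReal (1 / κ₁)) D' := by
        refine LipschitzWith.of_dist_le_mul fun p q => ?_
        rw [dist_eq_norm, dist_eq_norm, Real.coe_toNNReal _ (by have := hK.pos; positivity)]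
        have := hD3 p q
        rw [one_div, inv_mul_eq_div, le_div_iff₀ hK.pos]
        linarith
      exact hL.continuous
    have h8 := h7.comp h6
    refine h8.congr fun s => ?_
    exact hD2 _
  · intro h
    exact ⟨fun t => (h.der t).differentiableAt, h.el⟩

end Pool.Agent.H33.AM
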