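import Pool.Agent.H33.AM.Defs
import Pool.Agent.H33.AM.P.X3
import Pool.Agent.H33.AM.P.I1a
import Pool.Agent.H33.AM.P.I1b

/-!
# Module I1: the Euler-Lagrange flow on `𝕋ⁿ × ℝⁿ × 𝕋`

* `exists_ELflow`: with the flow `φ` of `Y = field A A' F D'` (`field_loc`, `field_growth`,
  `flow_of_growth`) put `Φ s (X, v, τ) = (pr (z.1), D' (z.2 - A z.1), τ + s)`,
  `z = φ s (repE X, D v + A (repE X))`. `Y` is periodic in `x`, so the same formula holds for every
  lift `x` of `X` (uniqueness of the flow).
* `exists_ELflow` also gives: every solution `Sol D F A A' γ v` is a trajectory.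
-/

set_option autoImplicit false

open MeasureTheory
open scoped RealInnerProductSpace

namespace Pool.Agent.H33.AM

variable {n : ℕ} {K V : EuclideanSpace ℝ (Fin n) → ℝ}
  {D F A : EuclideanSpace ℝ (Fin n) → EuclideanSpace ℝ (Fin n)}
  {A' : EuclideanSpace ℝ (Fin n) → EuclideanSpace ℝ (Fin n) →L[ℝ] EuclideanSpace ℝ (Fin n)}
  {κ₁ κ₂ B T : ℝ}

private theorem I1c_perA' (hA : HA A A' B) (x : EuclideanSpace ℝ (Fin n)) (k : Fin n → ℤ) :
    A' (x + zv k) = A' x := by
  have h1 : HasFDerivAt (fun y => A (y + zv k)) (A' (x + zv k)) x := by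
    have h2 := (hA.der (x + zv k)).comp x ((hasFDerivAt_id x).add_const (zv k))
    rw [ContinuousLinearMap.comp_id] at h2
    exact h2
  have h3 : (fun y => A (y + zv k)) = A := by
    funext y
    exact hA.per y k
  rw [h3] at h1
  exact h1.unique (hA.der x)

private theorem I1c_perF (hV : HV V F B) (x : EuclideanSpace ℝ (Fin n)) (k : Fin n → ℤ) :
    F (x + zv k) = F x := by
  have h1 : HasFDerivAt (fun y => V (y + zv k))
      ((InnerProductSpace.toDual ℝ (EuclideanSpace ℝ (Fin n))) (F (x + zv k))) x := by
    have h2 := (hV.der (x + zv k)).hasFDerivAt.comp x ((hasFDerivAt_id x).add_const (zv k))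
    rw [ContinuousLinearMap.comp_id] at h2
    exact h2
  have h3 : (fun y => V (y + zv k)) = V := by
    funext y
    exact hV.per y k
  rw [h3] at h1
  have h4 := h1.unique (hV.der x).hasFDerivAt
  exact (InnerProductSpace.toDual ℝ (EuclideanSpace ℝ (Fin n))).injective h4

private theorem I1c_shift (hA : HA A A' B) (hV : HV V F B)
    {γ v : ℝ → EuclideanSpace ℝ (Fin n)} (h : Sol D F A A' γ v) (k : Fin n → ℤ) :
    Sol D F A A' (fun t => γ t + zv k) v where
  cont := h.cont
  der := fun t => (h.der t).add_const (zv k)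
  el := fun t => by
    have h1 := h.el t
    have h2 : (fun s => D (v s) + A (γ s + zv k)) = fun s => D (v s) + A (γ s) := by
      funext s
      rw [hA.per]
    simp only [h2, I1c_perA' hA, I1c_perF hV]
    exact h1

theorem exists_ELflow (hK : HK K D κ₁ κ₂) (hA : HA A A' B) (hV : HV V F B) :
    ∃ Φ : ℝ → Ph n → Ph n, IsELFlow (fun x v _ => lag K A V x v) Φ ∧ (∀ s, Measurable (Φ s)) ∧
      ∀ (γ v : ℝ → EuclideanSpace ℝ (Fin n)), Sol D F A A' γ v → ∀ s t τ : ℝ,
        Φ s (pr (γ t), v t, (τ : UnitAddCircle)) =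
          (pr (γ (t + s)), v (t + s), ((τ + s : ℝ) : UnitAddCircle)) := by
  obtain ⟨D', hD1, hD2, hD⟩ := hK.inv
  obtain ⟨C, hC⟩ := field_growth hK.pos hA hV hD
  obtain ⟨φ, hφ⟩ := flow_of_growth (field_loc hK.pos hA hV hD) hC
  -- continuity
  have hDc : Continuous D := by
    have : LipschitzWith (Real.toNNReal κ₂) D := by
      apply LipschitzWith.of_dist_le_mul
      intro x y
      rw [dist_eq_norm, dist_eq_norm, Real.coe_toNNReal _ hK.pos₂.le]
      exact hK.lip y x
    exact this.continuous
  have hD'c : Continuous D' := by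
    have : LipschitzWith (Real.toNNReal (1 / κ₁)) D' := by
      apply LipschitzWith.of_dist_le_mul
      intro x y
      have h1 := hK.pos
      rw [dist_eq_norm, dist_eq_norm, Real.coe_toNNReal _ (by positivity)]
      rw [div_mul_eq_mul_div, one_mul, le_div_iff₀ h1, mul_comm]
      exact hD x y
    exact this.continuous
  have hAc : Continuous A := by
    rw [continuous_iff_continuousAt]
    intro x
    exact (hA.der x).continuousAt
  have hφs : ∀ s, Continuous (φ s) := by
    intro s
    have := hφ.cont.comp (Continuous.prodMk (continuous_const (y := s)) continuous_id)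
    exact this
  let Ψ : Ph n → EuclideanSpace ℝ (Fin n) × EuclideanSpace ℝ (Fin n) := fun z =>
    (repE z.1, D z.2.1 + A (repE z.1))
  let Φ : ℝ → Ph n → Ph n := fun s z =>
    (pr (φ s (Ψ z)).1, D' ((φ s (Ψ z)).2 - A (φ s (Ψ z)).1), z.2.2 + ((s : ℝ) : UnitAddCircle))
  have traj : ∀ (γ v : ℝ → EuclideanSpace ℝ (Fin n)), Sol D F A A' γ v → ∀ s t τ : ℝ,
        Φ s (pr (γ t), v t, (τ : UnitAddCircle)) =
          (pr (γ (t + s)), v (t + s), ((τ + s : ℝ) : UnitAddCircle)) := by
    intro γ v h s t τ
    obtain ⟨k, hk⟩ := (pr_eq_iff (repE (pr (γ t))) (γ t)).1 (pr_repE _)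
    have h' := I1c_shift hA hV h k
    have hu := hφ.uniq (fun t => (γ t + zv k, D (v t) + A (γ t + zv k)))
      (fun t => flow_of_Sol hD2 h' t) s t
    have hΨ : Ψ (pr (γ t), v t, (τ : UnitAddCircle)) =
        (γ t + zv k, D (v t) + A (γ t + zv k)) := by
      simp only [Ψ, hk]
    have hpr : pr (γ (s + t) + zv k) = pr (γ (s + t)) := (pr_eq_iff _ _).2 ⟨k, rfl⟩
    simp only [Φ, hΨ]
    rw [← hu]
    simp only [add_sub_cancel_right, hD2, hpr]
    rw [add_comm s t, AddCircle.coe_add]
  refine ⟨Φ, ?_, ?_, traj⟩
  · intro x v t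
    let w : ℝ → EuclideanSpace ℝ (Fin n) × EuclideanSpace ℝ (Fin n) := fun u =>
      φ (u - t) (x, D v + A x)
    have hw : ∀ u, HasDerivAt w (field A A' F D' (w u)) u := by
      intro u
      have h1 := hφ.der (x, D v + A x) (u - t)
      have h2 : HasDerivAt (fun u : ℝ => u - t) 1 u := (hasDerivAt_id u).sub_const t
      have h3 := HasDerivAt.scomp u h1 h2
      rw [one_smul] at h3
      exact h3
    have hsol := Sol_of_flow (D := D) hK.pos hA hD1 hD hw
    have hder : deriv (fun u => (w u).1) = fun u => D' ((w u).2 - A (w u).1) := by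
      funext u
      exact (hsol.der u).deriv
    have hwt : w t = (x, D v + A x) := by
      simp only [w, sub_self]
      exact hφ.zero _
    refine ⟨fun u => (w u).1, ?_, ?_, ?_, ?_⟩
    · rw [isEL_iff hK hA hV, hder]
      exact hsol
    · simp only [hwt]
    · rw [hder]
      simp only [hwt, add_sub_cancel_right, hD2]
    · intro s
      have h1 := traj _ _ hsol s t t
      simp only [hwt, add_sub_cancel_right, hD2] at h1
      rw [hder]
      exact h1
  · intro s
    have hΨm : Measurable Ψ := by
      apply Measurable.prodMk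
      · exact measurable_repE.comp measurable_fst
      · apply Measurable.add
        · exact hDc.measurable.comp (measurable_fst.comp measurable_snd)
        · exact hAc.measurable.comp (measurable_repE.comp measurable_fst)
    have h1 : Measurable fun z => φ s (Ψ z) := (hφs s).measurable.comp hΨm
    apply Measurable.prodMk
    · exact continuous_pr.measurable.comp (measurable_fst.comp h1)
    · apply Measurable.prodMk
      · apply hD'c.measurable.comp
        apply Measurable.sub
        · exact measurable_snd.comp h1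
        · exact hAc.measurable.comp (measurable_fst.comp h1)
      · exact (measurable_snd.comp measurable_snd).add_const _

end Pool.Agent.H33.AM
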