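import Pool.Agent.H33.AM.P.I1

/-!
# Module I2: invariant measures

Here `L x v t = lag K A V x v`.
* `mem_actionValues`: `μ` = image of the Haar probability measure of `(ℝ/Tℤ) × (ℝ/ℤ)` under
  `(t, σ) ↦ (pr (γ t), v t, σ)`. It is invariant under the flow `Φ` of `exists_ELflow`: `Φ s` maps
  `(pr (γ t), v t, σ)` to `(pr (γ (t + s)), v (t + s), σ + s)`. `Lc L c` at `(pr (γ t), v t, σ)` is
  `lag K A V (γ t) (v t) - ⟪c, v t⟫` because of the periodicity of `A`, `V`.
-/

set_option autoImplicit false

open MeasureTheory
open scoped RealInnerProductSpace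

namespace Pool.Agent.H33.AM

variable {n : ℕ} {K V : EuclideanSpace ℝ (Fin n) → ℝ}
  {D F A : EuclideanSpace ℝ (Fin n) → EuclideanSpace ℝ (Fin n)}
  {A' : EuclideanSpace ℝ (Fin n) → EuclideanSpace ℝ (Fin n) →L[ℝ] EuclideanSpace ℝ (Fin n)}
  {κ₁ κ₂ B T : ℝ}

private theorem I2a_lift_continuous {β : Type*} [TopologicalSpace β] {f : ℝ → β} {T : ℝ}
    (h : Function.Periodic f T) (hf : Continuous f) :
    Continuous (h.lift : AddCircle T → β) := by
  rw [(QuotientAddGroup.isQuotientMap_mk (N := AddSubgroup.zmultiples T)).continuous_iff]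
  exact hf

theorem mem_actionValues (hK : HK K D κ₁ κ₂) (hA : HA A A' B) (hV : HV V F B) (hT : 0 < T)
    {γ v : ℝ → EuclideanSpace ℝ (Fin n)} (h : Sol D F A A' γ v) {k : Fin n → ℤ}
    (hγ : ∀ t, γ (t + T) = γ t + zv k) (hv : ∀ t, v (t + T) = v t)
    (c : EuclideanSpace ℝ (Fin n)) :
    (1 / T) * (∫ t in (0 : ℝ)..T, (lag K A V (γ t) (v t) - ⟪c, v t⟫)) ∈
      actionValues (fun x v _ => lag K A V x v) c := by
  haveI : Fact (0 < T) := ⟨hT⟩
  obtain ⟨Φ, hΦ, hΦm, hΦt⟩ := exists_ELflow hK hA hV
  -- continuity
  have hKc : Continuous K := by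
    rw [continuous_iff_continuousAt]
    intro x
    exact (hK.grad x).hasFDerivAt.continuousAt
  have hVc : Continuous V := by
    rw [continuous_iff_continuousAt]
    intro x
    exact (hV.der x).hasFDerivAt.continuousAt
  have hAc : Continuous A := by
    rw [continuous_iff_continuousAt]
    intro x
    exact (hA.der x).continuousAt
  have hγc : Continuous γ := by
    rw [continuous_iff_continuousAt]
    intro t
    exact (h.der t).continuousAt
  -- the maps on the circle
  have p1 : Function.Periodic (fun t => pr (γ t)) T := by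
    intro t
    simp only [hγ]
    exact (pr_eq_iff _ _).2 ⟨k, rfl⟩
  have p2 : Function.Periodic v T := hv
  have p3 : Function.Periodic (fun t => lag K A V (γ t) (v t) - ⟪c, v t⟫) T := by
    intro t
    simp only [lag, hγ, hv, hA.per, hV.per]
  have c1 : Continuous (p1.lift : AddCircle T → Tor n) :=
    I2a_lift_continuous p1 (continuous_pr.comp hγc)
  have c2 : Continuous (p2.lift : AddCircle T → EuclideanSpace ℝ (Fin n)) :=
    I2a_lift_continuous p2 h.cont
  have c3 : Continuous (p3.lift : AddCircle T → ℝ) := by
    apply I2a_lift_continuous p3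
    unfold lag
    apply Continuous.sub
    · apply Continuous.sub
      · apply Continuous.add (hKc.comp h.cont)
        exact Continuous.inner (hAc.comp hγc) h.cont
      · exact hVc.comp hγc
    · exact Continuous.inner continuous_const h.cont
  let M : AddCircle T × UnitAddCircle → Ph n := fun z => (p1.lift z.1, p2.lift z.1, z.2)
  have hMc : Continuous M :=
    (c1.comp continuous_fst).prodMk ((c2.comp continuous_fst).prodMk continuous_snd)
  have hMm : Measurable M := hMc.measurable
  let ν : Measure (AddCircle T × UnitAddCircle) :=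
    (AddCircle.haarAddCircle (T := T)).prod (AddCircle.haarAddCircle (T := (1 : ℝ)))
  have hν : IsProbabilityMeasure ν := inferInstance
  -- the translation by `s`
  have htr : ∀ s : ℝ, MeasurePreserving
      (Prod.map (fun a : AddCircle T => a + (s : AddCircle T))
        (fun b : UnitAddCircle => b + (s : UnitAddCircle))) ν ν := by
    intro s
    exact (measurePreserving_add_right _ _).prod (measurePreserving_add_right _ _)
  have hcomm : ∀ s : ℝ, Φ s ∘ M = M ∘ (Prod.map (fun a : AddCircle T => a + (s : AddCircle T))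
        (fun b : UnitAddCircle => b + (s : UnitAddCircle))) := by
    intro s
    funext ⟨θ, σ⟩
    induction θ using QuotientAddGroup.induction_on with
    | H t =>
      induction σ using QuotientAddGroup.induction_on with
      | H τ =>
        have h1 := hΦt γ v h s t τ
        simp only [Function.comp, M, Prod.map]
        have e1 : p1.lift ((t : ℝ) : AddCircle T) = pr (γ t) := p1.lift_coe t
        have e2 : p2.lift ((t : ℝ) : AddCircle T) = v t := p2.lift_coe t
        have e3 : p1.lift ((t : ℝ) + (s : ℝ) : AddCircle T) = pr (γ (t + s)) := by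
          rw [← AddCircle.coe_add]
          exact p1.lift_coe (t + s)
        have e4 : p2.lift ((t : ℝ) + (s : ℝ) : AddCircle T) = v (t + s) := by
          rw [← AddCircle.coe_add]
          exact p2.lift_coe (t + s)
        have e5 : ((τ : ℝ) : UnitAddCircle) + (s : UnitAddCircle) =
            ((τ + s : ℝ) : UnitAddCircle) := by
          rw [AddCircle.coe_add]
        refine Eq.trans ?_ (h1.trans ?_)
        · exact congrArg (Φ s) (Prod.ext e1 (Prod.ext e2 rfl))
        · exact (Prod.ext e3 (Prod.ext e4 e5)).symm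
  let μ : Measure (Ph n) := ν.map M
  have hμ : IsProbabilityMeasure μ := Measure.isProbabilityMeasure_map hMm.aemeasurable
  have hinv : ∀ s, MeasurePreserving (Φ s) μ μ := by
    intro s
    refine ⟨hΦm s, ?_⟩
    have e1 : Measure.map (Φ s) μ = Measure.map (Φ s ∘ M) ν :=
      Measure.map_map (hΦm s) hMm
    rw [e1, hcomm s, ← Measure.map_map hMm (htr s).measurable, (htr s).map_eq]
  -- the function
  have hLm : Measurable (Lc (fun x v _ => lag K A V x v) c) := by
    unfold Lc lag
    have r1 : Measurable fun z : Ph n => repE z.1 := measurable_repE.comp measurable_fst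
    have r2 : Measurable fun z : Ph n => z.2.1 := measurable_fst.comp measurable_snd
    apply Measurable.sub
    · apply Measurable.sub
      · apply Measurable.add (hKc.measurable.comp r2)
        exact (hAc.measurable.comp r1).inner r2
      · exact hVc.measurable.comp r1
    · exact measurable_const.inner r2
  have hLM : ∀ z, Lc (fun x v _ => lag K A V x v) c (M z) = p3.lift z.1 := by
    rintro ⟨θ, σ⟩
    induction θ using QuotientAddGroup.induction_on with
    | H t =>
      have e1 : p1.lift ((t : ℝ) : AddCircle T) = pr (γ t) := p1.lift_coe t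
      have e2 : p2.lift ((t : ℝ) : AddCircle T) = v t := p2.lift_coe t
      have e3 : p3.lift ((t : ℝ) : AddCircle T) = lag K A V (γ t) (v t) - ⟪c, v t⟫ :=
        p3.lift_coe t
      obtain ⟨l, hl⟩ := (pr_eq_iff (repE (pr (γ t))) (γ t)).1 (pr_repE _)
      refine Eq.trans ?_ e3.symm
      simp only [Lc, M]
      refine Eq.trans (b := lag K A V (repE (pr (γ t))) (v t) - ⟪c, v t⟫) ?_ ?_
      · exact congrArg₂ (fun a b => lag K A V (repE a) b - ⟪c, b⟫) e1 e2
      · rw [hl]
        simp only [lag, hA.per, hV.per]
  have hint3 : Integrable (p3.lift : AddCircle T → ℝ) (AddCircle.haarAddCircle (T := T)) :=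
    c3.integrable_of_hasCompactSupport (HasCompactSupport.of_compactSpace _)
  have hLi : Integrable (Lc (fun x v _ => lag K A V x v) c) μ := by
    rw [integrable_map_measure hLm.aestronglyMeasurable hMm.aemeasurable]
    have e1 : (Lc (fun x v _ => lag K A V x v) c) ∘ M = fun z => p3.lift z.1 := by
      funext z
      exact hLM z
    rw [e1]
    exact hint3.comp_fst _
  refine ⟨Φ, hΦ, μ, hμ, hinv, hLi, ?_⟩
  rw [integral_map hMm.aemeasurable hLm.aestronglyMeasurable]
  simp only [hLM]
  have e1 : ∫ z, p3.lift z.1 ∂ν = ∫ θ, p3.lift θ ∂(AddCircle.haarAddCircle (T := T)) := by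
    have := integral_fun_fst (μ := AddCircle.haarAddCircle (T := T))
      (ν := AddCircle.haarAddCircle (T := (1 : ℝ))) (f := (p3.lift : AddCircle T → ℝ))
    simpa using this
  rw [e1]
  have e2 := AddCircle.intervalIntegral_preimage T 0 (p3.lift : AddCircle T → ℝ)
  have e3 : ∫ a in (0 : ℝ)..0 + T, p3.lift ((a : ℝ) : AddCircle T) =
      ∫ t in (0 : ℝ)..T, (lag K A V (γ t) (v t) - ⟪c, v t⟫) := by
    rw [zero_add]
    rfl
  rw [← e3, e2, AddCircle.volume_eq_smul_haarAddCircle, integral_smul_measure,
    ENNReal.toReal_ofReal hT.le, smul_eq_mul, ← mul_assoc, one_div, inv_mul_cancel₀ hT.ne',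
    one_mul]

end Pool.Agent.H33.AM
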