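import Pool.Agent.H33.AM.P.I1
import Pool.Agent.H33.AM.P.I2a

/-!
# Module I2: invariant measures

Here `L x v t = lag K A V x v`.
* `mem_actionValues`: `μ` = image of the uniform probability measure of `(t, σ) ∈ [0, T] × [0, 1]` under
  `(t, σ) ↦ (pr (γ t), v t, σ)` (continuous; `(pr (γ t), v t)` is `T`-periodic). It is invariant
  under the flow `Φ` of `exists_ELflow`: `Φ s` maps `(pr (γ t), v t, σ)` to
  `(pr (γ (t + s)), v (t + s), σ + s)`; the translation `t ↦ t + s` preserves the uniform measure of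
  `ℝ/T ℤ`, and `σ ↦ σ + s` the one of `ℝ/ℤ` (`Function.Periodic.intervalIntegral_add_eq`, or use
  `AddCircle T` with its Haar measure). `Lc L c` at `(pr (γ t), v t, σ)` is
  `lag K A V (γ t) (v t) - ⟪c, v t⟫` because of the periodicity of `A`, `V`; it is bounded on the orbit.
* `actionValues_ge`: let `μ` be invariant under `Φ`, `IsELFlow L Φ`. For every phase point `z` the
  function `s ↦ Lc L c (Φ s z)` is `lag K A V (γ s) (γ' s) - ⟪c, γ' s⟫` for a solution `γ` (`isEL_iff`), it is
  continuous, and its integral over `[0, T]` is at least `-C - E₀ T` (`(γ, γ')`, with `γ'` cut off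
  outside `[0, T]`, is `Adm`). By `MeasurePreserving`, `∫ Lc ∘ Φ s dμ = ∫ Lc dμ` for every `s`; joint
  measurability of `(s, z) ↦ Lc L c (Φ s z)`: `measurable_uncurry_of_continuous_of_measurable`
  (`Lc L c` is measurable: `lag` is continuous, `repE` is measurable); Fubini on `[0, T] × μ` gives
  `T ∫ Lc dμ ≥ -C - E₀ T`; let `T → ∞`.
-/

set_option autoImplicit false

open MeasureTheory
open scoped RealInnerProductSpace

namespace Pool.Agent.H33.AM

variable {n : ℕ} {K V : EuclideanSpace ℝ (Fin n) → ℝ}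
  {D F A : EuclideanSpace ℝ (Fin n) → EuclideanSpace ℝ (Fin n)}
  {A' : EuclideanSpace ℝ (Fin n) → EuclideanSpace ℝ (Fin n) →L[ℝ] EuclideanSpace ℝ (Fin n)}
  {κ₁ κ₂ B T : ℝ}

private theorem I2b_zv_neg (k : Fin n → ℤ) : zv (-k) = -zv k := by
  ext i
  simp [zv]

private theorem I2b_contK (hK : HK K D κ₁ κ₂) : Continuous K := by
  refine continuous_iff_continuousAt.2 fun v => ?_
  exact (hK.grad v).continuousAt

private theorem I2b_lag_cont (hK : HK K D κ₁ κ₂) (hA : HA A A' B) (hV : HV V F B) :
    Continuous fun p : EuclideanSpace ℝ (Fin n) × EuclideanSpace ℝ (Fin n) =>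
      lag K A V p.1 p.2 := by
  have h1 : Continuous K := I2b_contK hK
  have h2 : Continuous A := continuous_iff_continuousAt.2 fun x => (hA.der x).continuousAt
  have h3 : Continuous V := continuous_iff_continuousAt.2 fun x => (hV.der x).continuousAt
  unfold lag
  exact ((h1.comp continuous_snd).add ((h2.comp continuous_fst).inner continuous_snd)).sub
    (h3.comp continuous_fst)

private theorem I2b_lag_per (hA : HA A A' B) (hV : HV V F B)
    (x v : EuclideanSpace ℝ (Fin n)) : lag K A V (repE (pr x)) v = lag K A V x v := by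
  have h : pr (repE (pr x)) = pr x := pr_repE _
  obtain ⟨k, hk⟩ := (pr_eq_iff _ _).1 h
  rw [hk]
  unfold lag
  rw [hA.per, hV.per]

private theorem I2b_meas_Lc (hK : HK K D κ₁ κ₂) (hA : HA A A' B) (hV : HV V F B)
    (c : EuclideanSpace ℝ (Fin n)) :
    Measurable (Lc (fun x v _ => lag K A V x v) c) := by
  have h1 : Measurable fun z : Ph n => (repE z.1, z.2.1) :=
    (measurable_repE.comp measurable_fst).prodMk (measurable_fst.comp measurable_snd)
  have h2 : Measurable fun z : Ph n => lag K A V (repE z.1) z.2.1 :=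
    (I2b_lag_cont hK hA hV).measurable.comp h1
  have h3 : Measurable fun z : Ph n => ⟪c, z.2.1⟫ := by
    have : Continuous fun v : EuclideanSpace ℝ (Fin n) => (⟪c, v⟫ : ℝ) :=
      continuous_const.inner continuous_id
    exact this.measurable.comp (measurable_fst.comp measurable_snd)
  exact h2.sub h3

/-- Along the orbits. -/
private theorem I2b_orbit (hK : HK K D κ₁ κ₂) (hA : HA A A' B) (hV : HV V F B)
    {c : EuclideanSpace ℝ (Fin n)} {Φ : ℝ → Ph n → Ph n}
    (hΦ : IsELFlow (fun x v _ => lag K A V x v) Φ) (z : Ph n) :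
    ∃ γ v : ℝ → EuclideanSpace ℝ (Fin n), Continuous v ∧ (∀ t, HasDerivAt γ (v t) t) ∧
      ∀ s, Lc (fun x v _ => lag K A V x v) c (Φ s z) = lag K A V (γ s) (v s) - ⟪c, v s⟫ := by
  obtain ⟨X, v₀, τ⟩ := z
  obtain ⟨γ, hEL, h0, h1, h2⟩ := hΦ (repE X) v₀ (rep τ)
  have hS : Sol D F A A' γ (deriv γ) := (isEL_iff hK hA hV γ).1 hEL
  refine ⟨fun s => γ (rep τ + s), fun s => deriv γ (rep τ + s), ?_, ?_, ?_⟩
  · exact hS.cont.comp (continuous_const.add continuous_id)
  · intro t
    have := (hS.der (rep τ + t)).comp_const_add (rep τ) t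
    exact this
  · intro s
    have h3 := h2 s
    rw [pr_repE, rep_coe] at h3
    rw [h3]
    unfold Lc
    simp only
    rw [I2b_lag_per hA hV]

theorem actionValues_ge (hK : HK K D κ₁ κ₂) (hA : HA A A' B) (hV : HV V F B)
    {c : EuclideanSpace ℝ (Fin n)} {E₀ C : ℝ}
    (h : ∀ (T : ℝ) (x u : ℝ → EuclideanSpace ℝ (Fin n)), Adm 0 T x u →
      -C ≤ ∫ t in (0 : ℝ)..T, (lag K A V (x t) (u t) - ⟪c, u t⟫ + E₀))
    {a : ℝ} (ha : a ∈ actionValues (fun x v _ => lag K A V x v) c) : -E₀ ≤ a := by
  obtain ⟨Φ, hΦ, μ, hμ, hinv, hint, rfl⟩ := ha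
  set g : Ph n → ℝ := Lc (fun x v _ => lag K A V x v) c with hg
  have hgm : Measurable g := I2b_meas_Lc hK hA hV c
  have hcont : ∀ z : Ph n, Continuous fun s => g (Φ s z) := by
    intro z
    obtain ⟨γ, v, h1, h2, h3⟩ := I2b_orbit (c := c) hK hA hV hΦ z
    have h4 : (fun s => g (Φ s z)) = fun s => lag K A V (γ s) (v s) - ⟪c, v s⟫ := by
      funext s
      exact h3 s
    rw [h4]
    have h5 : Continuous γ := continuous_iff_continuousAt.2 fun t => (h2 t).continuousAt
    exact ((I2b_lag_cont hK hA hV).comp (h5.prodMk h1)).sub (continuous_const.inner h1)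
  have hmeas : ∀ s, Measurable fun z => g (Φ s z) := fun s => hgm.comp (hinv s).measurable
  have hjoint : Measurable (Function.uncurry fun (s : ℝ) (z : Ph n) => g (Φ s z)) :=
    measurable_uncurry_of_continuous_of_measurable hcont hmeas
  have hint' : ∀ s, Integrable (fun z => g (Φ s z)) μ := fun s =>
    (hinv s).integrable_comp_of_integrable hint
  have hval : ∀ s, ∫ z, g (Φ s z) ∂μ = ∫ z, g z ∂μ := by
    intro s
    have h1 := integral_map (μ := μ) (φ := Φ s) (hinv s).measurable.aemeasurable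
      (f := g) (hgm.aestronglyMeasurable)
    rw [← h1, (hinv s).map_eq]
  have hvaln : ∀ s, ∫ z, ‖g (Φ s z)‖ ∂μ = ∫ z, ‖g z‖ ∂μ := by
    intro s
    have h1 := integral_map (μ := μ) (φ := Φ s) (hinv s).measurable.aemeasurable
      (f := fun z => ‖g z‖) (hgm.norm.aestronglyMeasurable)
    rw [← h1, (hinv s).map_eq]
  -- the lower bound along the orbits
  have hlow : ∀ (T : ℝ), 0 < T → ∀ z : Ph n, -C - E₀ * T ≤ ∫ s in (0 : ℝ)..T, g (Φ s z) := by
    intro T hT z
    obtain ⟨γ, v, h1, h2, h3⟩ := I2b_orbit (c := c) hK hA hV hΦ z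
    obtain ⟨R, hR⟩ := (isCompact_Icc (a := (0 : ℝ)) (b := T)).exists_bound_of_continuousOn
      (h1.continuousOn (s := Set.Icc (0 : ℝ) T))
    have hadm : Adm 0 T γ ((Set.Icc (0 : ℝ) T).indicator v) := by
      refine ⟨hT.le, ?_, ⟨∅, Set.countable_empty, ?_⟩, ?_, ⟨max R 0, ?_⟩⟩
      · exact (continuous_iff_continuousAt.2 fun t => (h2 t).continuousAt).continuousOn
      · intro t ht
        have ht' : t ∈ Set.Icc (0 : ℝ) T := Set.Ioo_subset_Icc_self ht.1
        rw [Set.indicator_of_mem ht']
        exact h2 t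
      · exact h1.measurable.indicator measurableSet_Icc
      · intro t
        by_cases ht : t ∈ Set.Icc (0 : ℝ) T
        · rw [Set.indicator_of_mem ht]
          exact (hR t ht).trans (le_max_left _ _)
        · rw [Set.indicator_of_notMem ht, norm_zero]
          exact le_max_right _ _
    have h4 := h T γ _ hadm
    have h5 : (∫ t in (0 : ℝ)..T, (lag K A V (γ t) ((Set.Icc (0 : ℝ) T).indicator v t)
        - ⟪c, (Set.Icc (0 : ℝ) T).indicator v t⟫ + E₀)) = ∫ s in (0 : ℝ)..T, (g (Φ s z) + E₀) := by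
      refine intervalIntegral.integral_congr fun t ht => ?_
      rw [Set.uIcc_of_le hT.le] at ht
      rw [Set.indicator_of_mem ht]
      have := h3 t
      rw [hg, this]
    rw [h5, intervalIntegral.integral_add ((hcont z).intervalIntegrable _ _)
      intervalIntegrable_const, intervalIntegral.integral_const, smul_eq_mul] at h4
    linarith [mul_comm E₀ T, h4]
  -- Fubini
  have hfub : ∀ (T : ℝ), 0 < T → -C - E₀ * T ≤ T * ∫ z, g z ∂μ := by
    intro T hT
    set ν : Measure ℝ := volume.restrict (Set.Ioc (0 : ℝ) T) with hν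
    have hfin : IsFiniteMeasure ν := by
      rw [hν]
      infer_instance
    have hprod : Integrable (Function.uncurry fun (s : ℝ) (z : Ph n) => g (Φ s z)) (ν.prod μ) := by
      rw [integrable_prod_iff hjoint.aestronglyMeasurable]
      refine ⟨Filter.Eventually.of_forall fun s => hint' s, ?_⟩
      have : (fun s : ℝ => ∫ z, ‖Function.uncurry (fun (s : ℝ) (z : Ph n) => g (Φ s z)) (s, z)‖ ∂μ)
          = fun _ => ∫ z, ‖g z‖ ∂μ := by
        funext s
        exact hvaln s
      rw [this]
      exact integrable_const _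
    have hsw := integral_integral_swap hprod
    have hl : ∫ s, ∫ z, g (Φ s z) ∂μ ∂ν = T * ∫ z, g z ∂μ := by
      have : (fun s : ℝ => ∫ z, g (Φ s z) ∂μ) = fun _ => ∫ z, g z ∂μ := by
        funext s
        exact hval s
      rw [this, integral_const, smul_eq_mul, hν, measureReal_restrict_apply_univ]
      simp [Real.volume_real_Ioc_of_le hT.le]
    rw [← hl, hsw]
    have hr : Integrable (fun z => ∫ s, g (Φ s z) ∂ν) μ := hprod.integral_prod_right
    have hc : ∫ _z : Ph n, (-C - E₀ * T) ∂μ = -C - E₀ * T := by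
      simp
    rw [← hc]
    refine integral_mono (integrable_const _) hr fun z => ?_
    simp only
    have := hlow T hT z
    rw [intervalIntegral.integral_of_le hT.le] at this
    exact this
  -- the limit
  by_contra hcon
  rw [not_le] at hcon
  set a := ∫ z, g z ∂μ with ha
  have hδ : 0 < -E₀ - a := by linarith
  have hT : 0 < (|C| + 1) / (-E₀ - a) := by positivity
  have h1 := hfub _ hT
  have h2 : (-E₀ - a) * ((|C| + 1) / (-E₀ - a)) = |C| + 1 := by
    field_simp
  have h3 : C ≤ |C| := le_abs_self C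
  nlinarith [h1, h2, h3]

end Pool.Agent.H33.AM
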