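import Pool.Agent.H33.AM.P.R1

/-!
# Module T2: the lattice `{k : k₀ · k = 0}` is cocompact in the slab `|k₀ · z| ≤ 1`

Round the coordinates of `z` to integers `m'` (`|z i - m' i| ≤ 1`), put
`k = m' - (k₀ · m') m`: then `k₀ · k = 0` and
`‖z - zv k‖ ≤ ‖z - zv m'‖ + |k₀ · m'| ‖zv m‖`, `|k₀ · m'| ≤ |⟪zv k₀, z⟫| + ‖zv k₀‖ ‖z - zv m'‖`.
-/

set_option autoImplicit false

open MeasureTheory
open scoped RealInnerProductSpace

namespace Pool.Agent.H33.AM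

variable {n : ℕ}

theorem lattice {k₀ m : Fin n → ℤ} (h : dot k₀ m = 1) :
    ∃ C₀ : ℝ, 0 ≤ C₀ ∧ ∀ z : EuclideanSpace ℝ (Fin n), |⟪zv k₀, z⟫| ≤ 1 →
      ∃ k : Fin n → ℤ, dot k₀ k = 0 ∧ ‖z - zv k‖ ≤ C₀ := by
  refine ⟨Real.sqrt n + (1 + ‖zv k₀‖ * Real.sqrt n) * ‖zv m‖, by positivity, ?_⟩
  intro z hz
  set m' : Fin n → ℤ := fun i => round (z i) with hm'
  set c : ℤ := dot k₀ m' with hc
  have hR : ‖z - zv m'‖ ≤ Real.sqrt n := by
    rw [EuclideanSpace.norm_eq]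
    apply Real.sqrt_le_sqrt
    calc ∑ i, ‖(z - zv m') i‖ ^ 2 ≤ ∑ _i : Fin n, (1 : ℝ) := by
          apply Finset.sum_le_sum
          intro i _
          have e : (z - zv m') i = z i - (round (z i) : ℝ) := rfl
          rw [e, Real.norm_eq_abs]
          have h1 := abs_sub_round (z i)
          have h2 := abs_nonneg (z i - (round (z i) : ℝ))
          nlinarith
      _ = n := by simp
  refine ⟨m' + -(c • m), ?_, ?_⟩
  · rw [dot_add, dot_neg, dot_zsmul, h, ← hc]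
    ring
  · have e1 : z - zv (m' + -(c • m)) = (z - zv m') + (c : ℝ) • zv m := by
      rw [zv_add, zv_neg, zv_zsmul]
      abel
    have e2 : |(c : ℝ)| ≤ 1 + ‖zv k₀‖ * Real.sqrt n := by
      have e3 : (c : ℝ) = ⟪zv k₀, z⟫ - ⟪zv k₀, z - zv m'⟫ := by
        rw [inner_sub_right, inner_zv, ← hc]
        ring
      rw [e3]
      calc |⟪zv k₀, z⟫ - ⟪zv k₀, z - zv m'⟫| ≤ |⟪zv k₀, z⟫| + |⟪zv k₀, z - zv m'⟫| := abs_sub _ _
        _ ≤ 1 + ‖zv k₀‖ * ‖z - zv m'‖ := add_le_add hz (abs_real_inner_le_norm _ _)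
        _ ≤ 1 + ‖zv k₀‖ * Real.sqrt n := by
            have := mul_le_mul_of_nonneg_left hR (norm_nonneg (zv k₀))
            linarith
    rw [e1]
    calc ‖(z - zv m') + (c : ℝ) • zv m‖ ≤ ‖z - zv m'‖ + ‖(c : ℝ) • zv m‖ := norm_add_le _ _
      _ = ‖z - zv m'‖ + |(c : ℝ)| * ‖zv m‖ := by rw [norm_smul, Real.norm_eq_abs]
      _ ≤ _ := add_le_add hR (mul_le_mul_of_nonneg_right e2 (norm_nonneg _))

end Pool.Agent.H33.AM
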