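import Pool.Agent.H33.AM.P.R3

/-!
# Module T3: closing up curves inside a level

Notation: `q = s • zv P`, `θ(x) = ⟪zv k₀, x⟫`.
* `Trap.closes`: let `θ(x) = θ(y) = θ₀`, `z = y - x - τ₀ q`; `θ(z) = 0` (as `dot k₀ P = 0`), so there is
  `k'` with `dot k₀ k' = 0`, `‖z - zv k'‖ ≤ C₀`. The straight line `t ↦ x + t (q + w₀)`,
  `w₀ = (z - zv k') / τ₀`, `t ∈ [0, τ₀]`, ends in `y - zv k' = y + zv (-k')`, stays in the level `θ₀`
  (`⟪zv k₀, w₀⟫ = 0`), and by `Trap.hi` its action w.r.t. `ℓ + e` is at most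
  `κ₂/2 (C₀/τ₀)² τ₀ - w(θ₀) τ₀ + ε τ₀ + β₀ + β₁ C₀ + e τ₀`; use `w(θ₀) ≥ M - ω` and the bound of `e`
  (and `β₁²/(2 κ₁) ≤ β₁²/κ₁`).
* `Trap.rough`: the same with `τ₀ = 1`, `|θ(z)| ≤ 1`; `w` is bounded (continuous and periodic).
-/

set_option autoImplicit false

open MeasureTheory
open scoped RealInnerProductSpace

namespace Pool.Agent.H33.AM

variable {n : ℕ} {l : EuclideanSpace ℝ (Fin n) → EuclideanSpace ℝ (Fin n) → ℝ}
  {k₀ m P : Fin n → ℤ} {s : ℝ} {w : ℝ → ℝ} {κ₁ κ₂ ε β₀ β₁ M : ℝ}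

private theorem t3_line (h : Trap l k₀ m P s w κ₁ κ₂ ε β₀ β₁ M) (e : ℝ) {T : ℝ} (hT : 0 ≤ T)
    (x v : EuclideanSpace ℝ (Fin n)) {C : ℝ} (hC : ‖v - s • zv P‖ * T ≤ C) (hC0 : 0 ≤ C) :
    Conn l e T x (x + T • v) (act l e 0 T (fun t => x + t • v) fun _ => v) ∧
      act l e 0 T (fun t => x + t • v) (fun _ => v) ≤
        κ₂ / 2 * (‖v - s • zv P‖ * C) - (∫ t in (0 : ℝ)..T, w ⟪zv k₀, x + t • v⟫) + ε * T + β₀
          + β₁ * C + e * T := by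
  have hadm := Adm.line hT x v
  refine ⟨⟨fun t => x + t • v, fun _ => v, hadm, by simp, rfl, rfl⟩, ?_⟩
  have hi := h.hi 0 T _ _ hadm
  have hint : IntervalIntegrable (fun t => l (x + t • v) v) volume 0 T :=
    hadm.integrable (g := fun p => l p.1 p.2) h.hl.cont
  have h1 : act l e 0 T (fun t => x + t • v) (fun _ => v) =
      (∫ t in (0 : ℝ)..T, l (x + t • v) v) + e * T := by
    unfold act
    rw [intervalIntegral.integral_add hint intervalIntegrable_const,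
      intervalIntegral.integral_const]
    simp [mul_comm]
  have hwc : Continuous fun t : ℝ => w ⟪zv k₀, x + t • v⟫ := by
    refine h.w_cont.comp ?_
    fun_prop
  have h2 : (∫ t in (0 : ℝ)..T, (κ₂ / 2 * ‖v - s • zv P‖ ^ 2 - w ⟪zv k₀, x + t • v⟫)) =
      κ₂ / 2 * ‖v - s • zv P‖ ^ 2 * T - ∫ t in (0 : ℝ)..T, w ⟪zv k₀, x + t • v⟫ := by
    rw [intervalIntegral.integral_sub intervalIntegrable_const (hwc.intervalIntegrable _ _),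
      intervalIntegral.integral_const]
    simp [mul_comm]
  have h3 : (∫ _t in (0 : ℝ)..T, ‖v - s • zv P‖) = ‖v - s • zv P‖ * T := by
    rw [intervalIntegral.integral_const]
    simp [mul_comm]
  rw [h2, h3, sub_zero] at hi
  rw [h1]
  have hn : 0 ≤ ‖v - s • zv P‖ := norm_nonneg _
  have h4 : κ₂ / 2 * ‖v - s • zv P‖ ^ 2 * T ≤ κ₂ / 2 * (‖v - s • zv P‖ * C) := by
    have h5 : ‖v - s • zv P‖ * (‖v - s • zv P‖ * T) ≤ ‖v - s • zv P‖ * C :=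
      mul_le_mul_of_nonneg_left hC hn
    have h6 := mul_le_mul_of_nonneg_left h5 (half_pos h.κ₂_pos).le
    calc κ₂ / 2 * ‖v - s • zv P‖ ^ 2 * T
        = κ₂ / 2 * (‖v - s • zv P‖ * (‖v - s • zv P‖ * T)) := by ring
      _ ≤ _ := h6
  have h5 : β₁ * (‖v - s • zv P‖ * T) ≤ β₁ * C := mul_le_mul_of_nonneg_left hC h.β₁_nonneg
  linarith

theorem Trap.closes (h : Trap l k₀ m P s w κ₁ κ₂ ε β₀ β₁ M) {e C₀ ω τ₀ θ₀ : ℝ}
    (he : e ≤ M + ε + β₁ ^ 2 / (2 * κ₁)) (hC₀ : 0 ≤ C₀)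
    (hC : ∀ z : EuclideanSpace ℝ (Fin n), |⟪zv k₀, z⟫| ≤ 1 →
      ∃ k : Fin n → ℤ, dot k₀ k = 0 ∧ ‖z - zv k‖ ≤ C₀)
    (hτ : 0 < τ₀) (hw : M - ω ≤ w θ₀) :
    Closes l k₀ e (κ₂ * C₀ ^ 2 / (2 * τ₀) + (ω + (2 * ε + β₁ ^ 2 / κ₁)) * τ₀ + β₀ + β₁ * C₀)
      θ₀ := by
  intro x y hx hy
  have hkP : ⟪zv k₀, zv P⟫ = (0 : ℝ) := by rw [inner_zv, h.kP]; simp
  set z : EuclideanSpace ℝ (Fin n) := y - x - τ₀ • (s • zv P) with hz
  have hz0 : ⟪zv k₀, z⟫ = (0 : ℝ) := by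
    rw [hz, inner_sub_right, inner_sub_right, inner_smul_right, inner_smul_right, hkP, hx, hy]
    ring
  obtain ⟨k, hk, hkC⟩ := hC z (by rw [hz0]; norm_num)
  set v : EuclideanSpace ℝ (Fin n) := s • zv P + τ₀⁻¹ • (z - zv k) with hv
  have hvq : v - s • zv P = τ₀⁻¹ • (z - zv k) := by rw [hv]; abel
  have hnv : ‖v - s • zv P‖ = τ₀⁻¹ * ‖z - zv k‖ := by
    rw [hvq, norm_smul, Real.norm_of_nonneg (inv_pos.2 hτ).le]
  have hnT : ‖v - s • zv P‖ * τ₀ ≤ C₀ := by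
    rw [hnv]
    have : τ₀⁻¹ * ‖z - zv k‖ * τ₀ = ‖z - zv k‖ := by field_simp
    rw [this]; exact hkC
  obtain ⟨h1, h2⟩ := t3_line h e hτ.le x v hnT hC₀
  have hk0v : ⟪zv k₀, v⟫ = (0 : ℝ) := by
    rw [hv, inner_add_right, inner_smul_right, hkP, inner_smul_right, inner_sub_right, hz0,
      inner_zv, hk]
    simp
  have hend : x + τ₀ • v = y + zv (-k) := by
    rw [hv, smul_add, smul_smul τ₀ τ₀⁻¹, mul_inv_cancel₀ hτ.ne', one_smul, hz, zv_neg]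
    abel
  rw [hend] at h1
  refine ⟨τ₀, -k, _, by rw [dot_neg, hk, neg_zero], h1, h2.trans ?_⟩
  have h3 : (∫ t in (0 : ℝ)..τ₀, w ⟪zv k₀, x + t • v⟫) = τ₀ * w θ₀ := by
    have : (fun t : ℝ => w ⟪zv k₀, x + t • v⟫) = fun _ => w θ₀ := by
      funext t
      rw [inner_add_right, inner_smul_right, hk0v, hx, mul_zero, add_zero]
    rw [this, intervalIntegral.integral_const]
    simp
  rw [h3]
  have h4 : ‖v - s • zv P‖ ≤ C₀ / τ₀ := by rw [le_div_iff₀ hτ]; exact hnT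
  have h5 : κ₂ / 2 * (‖v - s • zv P‖ * C₀) ≤ κ₂ * C₀ ^ 2 / (2 * τ₀) := by
    have h6 := mul_le_mul_of_nonneg_right h4 hC₀
    have h7 := mul_le_mul_of_nonneg_left h6 (half_pos h.κ₂_pos).le
    calc κ₂ / 2 * (‖v - s • zv P‖ * C₀) ≤ κ₂ / 2 * (C₀ / τ₀ * C₀) := h7
      _ = κ₂ * C₀ ^ 2 / (2 * τ₀) := by field_simp
  have h6 : τ₀ * (M - ω) ≤ τ₀ * w θ₀ := mul_le_mul_of_nonneg_left hw hτ.le
  have h7 : e * τ₀ ≤ (M + ε + β₁ ^ 2 / (2 * κ₁)) * τ₀ := mul_le_mul_of_nonneg_right he hτ.le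
  have h8 : β₁ ^ 2 / (2 * κ₁) * τ₀ ≤ β₁ ^ 2 / κ₁ * τ₀ := by
    refine mul_le_mul_of_nonneg_right ?_ hτ.le
    refine div_le_div_of_nonneg_left (sq_nonneg _) h.κ₁_pos ?_
    linarith [h.κ₁_pos]
  nlinarith

theorem Trap.rough (h : Trap l k₀ m P s w κ₁ κ₂ ε β₀ β₁ M) (e : ℝ) {C₀ : ℝ} (hC₀ : 0 ≤ C₀)
    (hC : ∀ z : EuclideanSpace ℝ (Fin n), |⟪zv k₀, z⟫| ≤ 1 →
      ∃ k : Fin n → ℤ, dot k₀ k = 0 ∧ ‖z - zv k‖ ≤ C₀) :
    ∃ C₁, Rough l k₀ e C₁ := by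
  obtain ⟨B, hB⟩ : ∃ B, ∀ θ, |w θ| ≤ B := by
    obtain ⟨B, hB⟩ := isCompact_Icc.exists_bound_of_continuousOn (s := Set.Icc (0 : ℝ) 1)
      h.w_cont.continuousOn
    refine ⟨B, fun θ => ?_⟩
    have hper : Function.Periodic w 1 := h.w_per
    have h1 : w (Int.fract θ) = w θ := by
      have := hper.sub_zsmul_eq (x := θ) ⌊θ⌋
      rw [← this]
      congr 1
      rw [Int.fract]; simp
    rw [← h1, ← Real.norm_eq_abs]
    exact hB _ ⟨Int.fract_nonneg θ, (Int.fract_lt_one θ).le⟩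
  refine ⟨κ₂ / 2 * (C₀ * C₀) + B + ε + β₀ + β₁ * C₀ + e, ?_⟩
  intro x y hxy
  have hkP : ⟪zv k₀, zv P⟫ = (0 : ℝ) := by rw [inner_zv, h.kP]; simp
  set z : EuclideanSpace ℝ (Fin n) := y - x - s • zv P with hz
  have hz0 : ⟪zv k₀, z⟫ = ⟪zv k₀, y⟫ - ⟪zv k₀, x⟫ := by
    rw [hz, inner_sub_right, inner_sub_right, inner_smul_right, hkP]
    ring
  obtain ⟨k, hk, hkC⟩ := hC z (by rw [hz0]; exact hxy)
  set v : EuclideanSpace ℝ (Fin n) := s • zv P + (z - zv k) with hv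
  have hvq : v - s • zv P = z - zv k := by rw [hv]; abel
  have hnT : ‖v - s • zv P‖ * 1 ≤ C₀ := by rw [hvq, mul_one]; exact hkC
  obtain ⟨h1, h2⟩ := t3_line h e zero_le_one x v hnT hC₀
  have hend : x + (1 : ℝ) • v = y + zv (-k) := by
    rw [hv, one_smul, hz, zv_neg]
    abel
  rw [hend] at h1
  refine ⟨1, -k, _, by rw [dot_neg, hk, neg_zero], h1, h2.trans ?_⟩
  have hwc : Continuous fun t : ℝ => w ⟪zv k₀, x + t • v⟫ := by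
    refine h.w_cont.comp ?_
    fun_prop
  have h3 : -B ≤ ∫ t in (0 : ℝ)..1, w ⟪zv k₀, x + t • v⟫ := by
    have h4 : (∫ _t in (0 : ℝ)..1, -B) ≤ ∫ t in (0 : ℝ)..1, w ⟪zv k₀, x + t • v⟫ :=
      intervalIntegral.integral_mono_on zero_le_one intervalIntegrable_const
        (hwc.intervalIntegrable _ _) fun t _ => (abs_le.1 (hB _)).1
    rw [intervalIntegral.integral_const] at h4
    simpa using h4
  have h5 : κ₂ / 2 * (‖v - s • zv P‖ * C₀) ≤ κ₂ / 2 * (C₀ * C₀) := by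
    rw [mul_one] at hnT
    exact mul_le_mul_of_nonneg_left (mul_le_mul_of_nonneg_right hnT hC₀) (half_pos h.κ₂_pos).le
  linarith

end Pool.Agent.H33.AM
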