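import Pool.Agent.H33.AM.P.R3

/-!
# Module T4: curves with both ends in the same level

* `Closes.same`: close the curve up (`Conn.trans`) and use `Crit`.
* `Closes.add_int`: translate by `zv (j • m)` (`Conn.add_zv`, `dot k₀ m = 1`).
* `rest`: `A` = infimum of the costs `r` of the curves from the level `θc` to the level `θa + 1`, `B` =
  infimum of the costs of the curves from the level `θa + 1` to the level `θc`. Both families are not
  empty by `Rough` (the points `t • zv m` have the level `t`; `θa ≤ θc ≤ θa + 1`). If `x → y` costs `r`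
  (up) and `x' → y'` costs `r'` (down), connect `y → x' + zv k` and `y' + zv k → x + zv (k + k')` by
  `Closes` (`Closes.add_int` for the level `θa + 1`); the closed curve costs `≥ 0` by `Crit`, so
  `r + r' ≥ -2 κ`.
-/

set_option autoImplicit false

open MeasureTheory
open scoped RealInnerProductSpace

namespace Pool.Agent.H33.AM

variable {n : ℕ} {l : EuclideanSpace ℝ (Fin n) → EuclideanSpace ℝ (Fin n) → ℝ}
  {k₀ m : Fin n → ℤ}

theorem Closes.same (hl : HL l) {e κ θ₀ : ℝ} (hcrit : Crit l k₀ e) (h : Closes l k₀ e κ θ₀)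
    {T : ℝ} {x y : EuclideanSpace ℝ (Fin n)} {r : ℝ} (hx : ⟪zv k₀, x⟫ = θ₀)
    (hy : ⟪zv k₀, y⟫ = θ₀) (hxy : Conn l e T x y r) : -κ ≤ r := by
  obtain ⟨T', k, r', hk, hc, hr'⟩ := h y x hy hx
  have := hcrit _ x k _ hk (hxy.trans hl hc)
  linarith

theorem Closes.add_int (hl : HL l) (hkm : dot k₀ m = 1) {e κ θ₀ : ℝ} (h : Closes l k₀ e κ θ₀)
    (j : ℤ) : Closes l k₀ e κ (θ₀ + j) := by
  intro x y hx hy
  have hlev : ⟪zv k₀, zv (j • m)⟫ = (j : ℝ) := by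
    rw [inner_zv, dot_zsmul, hkm, mul_one]
  obtain ⟨T, k, r, hk, hc, hr⟩ := h (x - zv (j • m)) (y - zv (j • m))
    (by rw [inner_sub_right, hx, hlev]; ring) (by rw [inner_sub_right, hy, hlev]; ring)
  refine ⟨T, k, r, hk, ?_, hr⟩
  have h1 := hc.add_zv hl (j • m)
  rw [sub_add_cancel, show y - zv (j • m) + zv k + zv (j • m) = y + zv k by abel] at h1
  exact h1

theorem rest (hl : HL l) (hkm : dot k₀ m = 1) {e κ C₁ θa θc : ℝ} (hcrit : Crit l k₀ e)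
    (hr : Rough l k₀ e C₁) (ha : Closes l k₀ e κ θa) (hc : Closes l k₀ e κ θc) (hac : θa ≤ θc)
    (hca : θc ≤ θa + 1) :
    ∃ A B : ℝ, -(2 * κ) ≤ A + B ∧
      (∀ (T : ℝ) (x y : EuclideanSpace ℝ (Fin n)) (r : ℝ), ⟪zv k₀, x⟫ = θc →
        ⟪zv k₀, y⟫ = θa + 1 → Conn l e T x y r → A ≤ r) ∧
      ∀ (T : ℝ) (x y : EuclideanSpace ℝ (Fin n)) (r : ℝ), ⟪zv k₀, x⟫ = θa + 1 →
        ⟪zv k₀, y⟫ = θc → Conn l e T x y r → B ≤ r := by
  have ha1 : Closes l k₀ e κ (θa + 1) := by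
    have := ha.add_int hl hkm 1
    simpa using this
  have hlev0 : ∀ t : ℝ, ⟪zv k₀, t • zv m⟫ = t := by
    intro t
    rw [inner_smul_right, inner_zv, hkm]; simp
  have hlevk : ∀ (z : EuclideanSpace ℝ (Fin n)) (k : Fin n → ℤ), dot k₀ k = 0 →
      ⟪zv k₀, z + zv k⟫ = ⟪zv k₀, z⟫ := by
    intro z k hk
    rw [inner_add_right, inner_zv, hk]; simp
  -- the two families
  set SA : Set ℝ := {r | ∃ (T : ℝ) (x y : EuclideanSpace ℝ (Fin n)), ⟪zv k₀, x⟫ = θc ∧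
    ⟪zv k₀, y⟫ = θa + 1 ∧ Conn l e T x y r} with hSA
  set SB : Set ℝ := {r | ∃ (T : ℝ) (x y : EuclideanSpace ℝ (Fin n)), ⟪zv k₀, x⟫ = θa + 1 ∧
    ⟪zv k₀, y⟫ = θc ∧ Conn l e T x y r} with hSB
  have hneA : SA.Nonempty := by
    obtain ⟨T, k, r, hk, hcn, _⟩ := hr (θc • zv m) ((θa + 1) • zv m) (by
      rw [hlev0, hlev0, abs_le]; constructor <;> linarith)
    exact ⟨r, T, _, _, hlev0 _, by rw [hlevk _ _ hk, hlev0], hcn⟩
  have hneB : SB.Nonempty := by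
    obtain ⟨T, k, r, hk, hcn, _⟩ := hr ((θa + 1) • zv m) (θc • zv m) (by
      rw [hlev0, hlev0, abs_le]; constructor <;> linarith)
    exact ⟨r, T, _, _, hlev0 _, by rw [hlevk _ _ hk, hlev0], hcn⟩
  have key : ∀ r ∈ SA, ∀ r' ∈ SB, -(2 * κ) ≤ r + r' := by
    rintro r ⟨T, x, y, hx, hy, hxy⟩ r' ⟨T', x', y', hx', hy', hxy'⟩
    obtain ⟨T₁, k, r₁, hk, h1, hr1⟩ := ha1 y x' hy hx'
    obtain ⟨T₂, k', r₂, hk', h2, hr2⟩ := hc (y' + zv k) x (by rw [hlevk _ _ hk, hy']) hx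
    have h3 := hcrit _ x k' _ hk' (((hxy.trans hl h1).trans hl (hxy'.add_zv hl k)).trans hl h2)
    linarith
  obtain ⟨ra, hra⟩ := hneA
  obtain ⟨rb, hrb⟩ := hneB
  have hbA : BddBelow SA := ⟨-(2 * κ) - rb, fun r hr => by linarith [key r hr rb hrb]⟩
  have hbB : BddBelow SB := ⟨-(2 * κ) - ra, fun r hr => by linarith [key ra hra r hr]⟩
  refine ⟨sInf SA, sInf SB, ?_, ?_, ?_⟩
  · have h1 : ∀ r' ∈ SB, -(2 * κ) - r' ≤ sInf SA := fun r' hr' =>
      le_csInf ⟨ra, hra⟩ fun r hr => by linarith [key r hr r' hr']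
    have h2 : -(2 * κ) - sInf SA ≤ sInf SB :=
      le_csInf ⟨rb, hrb⟩ fun r' hr' => by linarith [h1 r' hr']
    linarith
  · intro T x y r hx hy hxy
    exact csInf_le hbA ⟨T, x, y, hx, hy, hxy⟩
  · intro T x y r hx hy hxy
    exact csInf_le hbB ⟨T, x, y, hx, hy, hxy⟩

end Pool.Agent.H33.AM
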