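import Pool.Agent.H33.AM.P.R3

/-!
# Module T5: the cost of crossing a gap

Notation: `q = s • zv P`, `ũ = u - q`, `θ(t) = ⟪zv k₀, x t⟫`, `θ' = ⟪zv k₀, u⟫ = ⟪zv k₀, ũ⟫`.
* `Trap.gap`: by `Trap.lo`, `e ≥ M - ε` and `β₁ a ≤ κ₁/4 a² + β₁²/κ₁` the action is at least
  `∫ (κ₁/4 ‖ũ‖² + (M - w(θ)) - (2 ε + β₁²/κ₁)) - β₀ ≥ ∫ (κ₁/4 ‖ũ‖² + (M - w(θ))/2) - β₀`
  `≥ ∫ √(κ₁/2) ‖ũ‖ √(M - w(θ)) - β₀ ≥ √(κ₁/2)/‖zv k₀‖ |∫ √(M - w(θ)) θ'| - β₀`, and
  `∫ √(M - w(θ)) θ' = Ψ(θ(b)) - Ψ(θ(a))`, `Ψ(θ) = ∫_{θa}^θ √(M - w)`, by `Adm.integral_grad` applied to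
  `g y = Ψ ⟪zv k₀, y⟫`, `G y = √(M - w ⟪zv k₀, y⟫) • zv k₀`. (`zv k₀ ≠ 0` by `ne_zero_of_dot`.)
* `cross_gap`: by `crossing`, `crossing'` there are `σ₁ ≤ σ₂` such that the curve is in the gap on
  `[σ₁, σ₂]`, in the level of its beginning at the time `σ₁` and in the level of its end at `σ₂`; the
  pieces on `[0, σ₁]`, `[σ₂, T]` have both ends in the same level, hence cost `≥ -κ` (`Closes.same`
  in module T4; its one-line proof may be repeated here: close up and use `Crit`).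
-/

set_option autoImplicit false

open MeasureTheory
open scoped RealInnerProductSpace

namespace Pool.Agent.H33.AM

variable {n : ℕ} {l : EuclideanSpace ℝ (Fin n) → EuclideanSpace ℝ (Fin n) → ℝ}
  {k₀ m P : Fin n → ℤ} {s : ℝ} {w : ℝ → ℝ} {κ₁ κ₂ ε β₀ β₁ M : ℝ}

/-- The primitive of `√(M - w)` as a function on the space. -/
private theorem T5a_grad {w : ℝ → ℝ} (hw : Continuous w) (M θa : ℝ) (z y : EuclideanSpace ℝ (Fin n)) :
    HasGradientAt (fun y : EuclideanSpace ℝ (Fin n) => ∫ θ in θa..⟪z, y⟫, √(M - w θ))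
      (√(M - w ⟪z, y⟫) • z) y := by
  have hc : Continuous fun θ => √(M - w θ) := (continuous_const.sub hw).sqrt
  have h1 : HasDerivAt (fun t : ℝ => ∫ θ in θa..t, √(M - w θ)) (√(M - w ⟪z, y⟫)) ⟪z, y⟫ :=
    intervalIntegral.integral_hasDerivAt_right (hc.intervalIntegrable _ _)
      (hc.stronglyMeasurableAtFilter _ _) hc.continuousAt
  have h2 : HasFDerivAt (fun y : EuclideanSpace ℝ (Fin n) => ⟪z, y⟫) (innerSL ℝ z) y :=
    (innerSL ℝ z).hasFDerivAt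
  have h3 := h1.comp_hasFDerivAt y h2
  rw [hasGradientAt_iff_hasFDerivAt]
  refine h3.congr_fderiv ?_
  ext v
  simp [InnerProductSpace.toDual_apply_apply]

private theorem T5a_point {κ W a b N ε' : ℝ} (hκ : 0 < κ) (hN : 0 < N) (hε : 2 * ε' ≤ W)
    (hε' : 0 ≤ ε') (hb : b ≤ N * a) :
    √(κ / 2) / N * (√W * b) ≤ κ / 4 * a ^ 2 + W - ε' := by
  have hW : 0 ≤ W := by linarith
  have h1 : √(κ / 2) ^ 2 = κ / 2 := Real.sq_sqrt (by positivity)
  have h2 : √W ^ 2 = W := Real.sq_sqrt hW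
  have h3 : 0 ≤ √(κ / 2) := Real.sqrt_nonneg _
  have h4 : 0 ≤ √W := Real.sqrt_nonneg _
  have h5 : √(κ / 2) / N * (√W * b) ≤ √(κ / 2) * √W * a := by
    have : √(κ / 2) / N * (√W * b) ≤ √(κ / 2) / N * (√W * (N * a)) := by
      apply mul_le_mul_of_nonneg_left _ (by positivity)
      exact mul_le_mul_of_nonneg_left hb h4
    refine this.trans (le_of_eq ?_)
    field_simp
  have h6 : √(κ / 2) * √W * a ≤ κ / 4 * a ^ 2 + W / 2 := by
    nlinarith [sq_nonneg (√(κ / 2) * a - √W)]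
  linarith

theorem Trap.gap (h : Trap l k₀ m P s w κ₁ κ₂ ε β₀ β₁ M) {e θa θc : ℝ} (he : M - ε ≤ e)
    (hac : θa ≤ θc) (hgap : ∀ θ ∈ Set.Icc θa θc, 2 * (2 * ε + β₁ ^ 2 / κ₁) ≤ M - w θ)
    {a b : ℝ} {x u : ℝ → EuclideanSpace ℝ (Fin n)} (hx : Adm a b x u)
    (hθ : ∀ t ∈ Set.Icc a b, ⟪zv k₀, x t⟫ ∈ Set.Icc θa θc)
    (hends : (⟪zv k₀, x a⟫ = θa ∧ ⟪zv k₀, x b⟫ = θc) ∨ (⟪zv k₀, x a⟫ = θc ∧ ⟪zv k₀, x b⟫ = θa)) :
    √(κ₁ / 2) / ‖zv k₀‖ * (∫ θ in θa..θc, √(M - w θ)) - β₀ ≤ act l e a b x u := by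
  have hab := hx.le
  have hκ := h.κ₁_pos
  have hβ₁ := h.β₁_nonneg
  have hε := h.ε_nonneg
  have hw := h.w_cont
  have hN : 0 < ‖zv k₀‖ := norm_pos_iff.2 (ne_zero_of_dot h.km).2
  have hkP : ⟪zv k₀, zv P⟫ = 0 := by
    rw [inner_zv, h.kP]
    simp
  -- integrability
  have i1 : IntervalIntegrable (fun t => l (x t) (u t)) volume a b :=
    hx.integrable h.hl.cont
  have i2 : IntervalIntegrable (fun t => κ₁ / 2 * ‖u t - s • zv P‖ ^ 2 - w ⟪zv k₀, x t⟫)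
      volume a b :=
    hx.integrable (g := fun p => κ₁ / 2 * ‖p.2 - s • zv P‖ ^ 2 - w ⟪zv k₀, p.1⟫) (by fun_prop)
  have i3 : IntervalIntegrable (fun t => ‖u t - s • zv P‖) volume a b :=
    hx.integrable (g := fun p => ‖p.2 - s • zv P‖) (by fun_prop)
  have hGc : Continuous fun y : EuclideanSpace ℝ (Fin n) => √(M - w ⟪zv k₀, y⟫) • zv k₀ := by
    have : Continuous fun y : EuclideanSpace ℝ (Fin n) => √(M - w ⟪zv k₀, y⟫) :=
      (continuous_const.sub (hw.comp (by fun_prop))).sqrt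
    exact this.smul continuous_const
  have i4 : IntervalIntegrable (fun t => ⟪√(M - w ⟪zv k₀, x t⟫) • zv k₀, u t⟫) volume a b :=
    hx.integrable (g := fun p => ⟪√(M - w ⟪zv k₀, p.1⟫) • zv k₀, p.2⟫)
      ((hGc.comp continuous_fst).inner continuous_snd)
  -- the action
  have e1 : act l e a b x u = (∫ t in a..b, l (x t) (u t)) + e * (b - a) := by
    unfold act
    rw [intervalIntegral.integral_add i1 intervalIntegrable_const,
      intervalIntegral.integral_const, smul_eq_mul]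
    ring
  have e2 := h.lo a b x u hx
  -- the integral of the primitive
  have e3 := hx.integral_grad (fun y => T5a_grad hw M θa (zv k₀) y) hGc
  -- the comparison for both signs
  have main : ∀ σ : ℝ, (σ = 1 ∨ σ = -1) →
      √(κ₁ / 2) / ‖zv k₀‖ * (σ * ∫ t in a..b, ⟪√(M - w ⟪zv k₀, x t⟫) • zv k₀, u t⟫) - β₀ ≤
        act l e a b x u := by
    intro σ hσ
    have m1 : ∫ t in a..b, (√(κ₁ / 2) / ‖zv k₀‖ * (σ * ⟪√(M - w ⟪zv k₀, x t⟫) • zv k₀, u t⟫)) ≤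
        ∫ t in a..b, ((κ₁ / 2 * ‖u t - s • zv P‖ ^ 2 - w ⟪zv k₀, x t⟫) -
          β₁ * ‖u t - s • zv P‖ + (M - 2 * ε)) := by
      apply intervalIntegral.integral_mono_on hab ((i4.const_mul σ).const_mul _)
        ((i2.sub (i3.const_mul β₁)).add intervalIntegrable_const)
      intro t ht
      have g1 := hgap _ (hθ t ht)
      have g2 : β₁ * ‖u t - s • zv P‖ ≤ κ₁ / 4 * ‖u t - s • zv P‖ ^ 2 + β₁ ^ 2 / κ₁ := by
        have : 0 ≤ (κ₁ * ‖u t - s • zv P‖ - 2 * β₁) ^ 2 / (4 * κ₁) := by positivity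
        have e : (κ₁ * ‖u t - s • zv P‖ - 2 * β₁) ^ 2 / (4 * κ₁) =
            κ₁ / 4 * ‖u t - s • zv P‖ ^ 2 + β₁ ^ 2 / κ₁ - β₁ * ‖u t - s • zv P‖ := by
          field_simp
          ring
        linarith
      have g3 : σ * ⟪zv k₀, u t⟫ ≤ ‖zv k₀‖ * ‖u t - s • zv P‖ := by
        have g4 : ⟪zv k₀, u t⟫ = ⟪zv k₀, u t - s • zv P⟫ := by
          rw [inner_sub_right, inner_smul_right, hkP]
          ring
        have g5 := abs_real_inner_le_norm (zv k₀) (u t - s • zv P)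
        rw [← g4] at g5
        rcases hσ with rfl | rfl
        · rw [one_mul]
          exact (le_abs_self _).trans g5
        · rw [neg_one_mul]
          exact (neg_le_abs _).trans g5
      have g6 := T5a_point (κ := κ₁) (W := M - w ⟪zv k₀, x t⟫) (a := ‖u t - s • zv P‖)
        (b := σ * ⟪zv k₀, u t⟫) (N := ‖zv k₀‖) (ε' := 2 * ε + β₁ ^ 2 / κ₁) hκ hN g1
        (by positivity) g3
      rw [inner_smul_left]
      simp only [conj_trivial]
      have g7 : √(κ₁ / 2) / ‖zv k₀‖ * (σ * (√(M - w ⟪zv k₀, x t⟫) * ⟪zv k₀, u t⟫)) =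
          √(κ₁ / 2) / ‖zv k₀‖ * (√(M - w ⟪zv k₀, x t⟫) * (σ * ⟪zv k₀, u t⟫)) := by ring
      rw [g7]
      linarith
    rw [intervalIntegral.integral_const_mul, intervalIntegral.integral_const_mul,
      intervalIntegral.integral_add (i2.sub (i3.const_mul β₁)) intervalIntegrable_const,
      intervalIntegral.integral_sub i2 (i3.const_mul β₁), intervalIntegral.integral_const_mul,
      intervalIntegral.integral_const, smul_eq_mul] at m1
    have m2 : (M - ε) * (b - a) ≤ e * (b - a) :=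
      mul_le_mul_of_nonneg_right he (by linarith)
    rw [e1]
    linarith
  rcases hends with ⟨ha, hb⟩ | ⟨ha, hb⟩
  · have m := main 1 (Or.inl rfl)
    rw [e3, ha, hb, intervalIntegral.integral_same, sub_zero, one_mul] at m
    exact m
  · have m := main (-1) (Or.inr rfl)
    rw [e3, ha, hb, intervalIntegral.integral_same, zero_sub] at m
    rw [show (-1 : ℝ) * -(∫ θ in θa..θc, √(M - w θ)) = ∫ θ in θa..θc, √(M - w θ) by ring] at m
    exact m

end Pool.Agent.H33.AM
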