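import Pool.Agent.H33.AM.P.R3
import Pool.Agent.H33.AM.P.T5a
import Pool.Agent.H33.AM.P.T4

/-!
# Module T5: the cost of crossing a gap

Notation: `q = s • zv P`, `ũ = u - q`, `θ(t) = ⟪zv k₀, x t⟫`, `θ' = ⟪zv k₀, u⟫ = ⟪zv k₀, ũ⟫`.
* `Trap.gap`: by `Trap.lo`, `e ≥ M - ε` and `β₁ a ≤ κ₁/4 a² + β₁²/κ₁` the action is at least
  `∫ (κ₁/4 ‖ũ‖² + (M - w(θ)) - (2 ε + β₁²/κ₁)) - β₀ ≥ ∫ (κ₁/4 ‖ũ‖² + (M - w(θ))/2) - β₀`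
  `≥ ∫ √(κ₁/2) ‖ũ‖ √(M - w(θ)) - β₀ ≥ √(κ₁/2)/‖zv k₀‖ |∫ √(M - w(θ)) θ'| - β₀`, and
  `∫ √(M - w(θ)) θ' = Ψ(θ(b)) - Ψ(θ(a))`, `Ψ(θ) = ∫_{θa}^θ √(M - w)`, by `Adm.integral_grad` applied to
  `g y = Ψ ⟪zv k₀, y⟫`, `G y = √(M - w ⟪zv k₀, y⟫) • zv k₀`. (`zv k₀ ≠ 0` by `ne_zero_of_dot`.)
* `cross_gap`: by `crossing`, `crossing'` there are `σ₁ ≤ σ₂` such that the curve is in the gap on
  `[σ₁, σ₂]`, in the level of its beginning at the time `σ₁` and in the level of its end at `σ₂`; the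
  pieces on `[0, σ₁]`, `[σ₂, T]` have both ends in the same level, hence cost `≥ -κ` (`Closes.same`
  in module T4; its one-line proof may be repeated here: close up and use `Crit`).
-/

set_option autoImplicit false

open MeasureTheory
open scoped RealInnerProductSpace

namespace Pool.Agent.H33.AM

variable {n : ℕ} {l : EuclideanSpace ℝ (Fin n) → EuclideanSpace ℝ (Fin n) → ℝ}
  {k₀ m P : Fin n → ℤ} {s : ℝ} {w : ℝ → ℝ} {κ₁ κ₂ ε β₀ β₁ M : ℝ}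

theorem cross_gap (hl : HL l) {e κ g₀ θa θc : ℝ} (hcrit : Crit l k₀ e)
    (ha : Closes l k₀ e κ θa) (hc : Closes l k₀ e κ θc) (hac : θa ≤ θc)
    (hgap : ∀ (a b : ℝ) (x u : ℝ → EuclideanSpace ℝ (Fin n)), Adm a b x u →
      (∀ t ∈ Set.Icc a b, ⟪zv k₀, x t⟫ ∈ Set.Icc θa θc) →
      ((⟪zv k₀, x a⟫ = θa ∧ ⟪zv k₀, x b⟫ = θc) ∨ (⟪zv k₀, x a⟫ = θc ∧ ⟪zv k₀, x b⟫ = θa)) →
      g₀ ≤ act l e a b x u)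
    {T : ℝ} {x y : EuclideanSpace ℝ (Fin n)} {r : ℝ}
    (hxy : (⟪zv k₀, x⟫ = θa ∧ ⟪zv k₀, y⟫ = θc) ∨ (⟪zv k₀, x⟫ = θc ∧ ⟪zv k₀, y⟫ = θa))
    (h : Conn l e T x y r) : g₀ - 2 * κ ≤ r := by
  obtain ⟨ξ, u, hadm, h0, hT, hr⟩ := h
  have hT0 : 0 ≤ T := hadm.le
  have hcont : ContinuousOn (fun t => ⟪zv k₀, ξ t⟫) (Set.Icc 0 T) :=
    continuousOn_const.inner hadm.cont
  have main : ∀ σ₁ σ₂ : ℝ, 0 ≤ σ₁ → σ₁ ≤ σ₂ → σ₂ ≤ T →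
      (∀ t ∈ Set.Icc σ₁ σ₂, ⟪zv k₀, ξ t⟫ ∈ Set.Icc θa θc) →
      ((⟪zv k₀, x⟫ = θa ∧ ⟪zv k₀, ξ σ₁⟫ = θa ∧ ⟪zv k₀, ξ σ₂⟫ = θc ∧ ⟪zv k₀, y⟫ = θc) ∨
        (⟪zv k₀, x⟫ = θc ∧ ⟪zv k₀, ξ σ₁⟫ = θc ∧ ⟪zv k₀, ξ σ₂⟫ = θa ∧ ⟪zv k₀, y⟫ = θa)) →
      g₀ - 2 * κ ≤ r := by
    intro σ₁ σ₂ hσ₁ hσ hσ₂ hin hcase
    have a1 : Adm 0 σ₁ ξ u := hadm.sub le_rfl hσ₁ (hσ.trans hσ₂)
    have a2 : Adm σ₁ σ₂ ξ u := hadm.sub hσ₁ hσ hσ₂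
    have a3 : Adm σ₂ T ξ u := hadm.sub (hσ₁.trans hσ) hσ₂ le_rfl
    have c1 := Conn.of_adm hl (e := e) a1
    have c3 := Conn.of_adm hl (e := e) a3
    have e1 := act_add hl (e := e) hadm hσ₁ (hσ.trans hσ₂)
    have e2 := act_add hl (e := e) (hadm.sub hσ₁ (hσ.trans hσ₂) le_rfl) hσ hσ₂
    rw [h0] at c1
    rw [hT] at c3
    rcases hcase with ⟨q1, q2, q3, q4⟩ | ⟨q1, q2, q3, q4⟩
    · have b1 := ha.same hl hcrit q1 q2 c1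
      have b3 := hc.same hl hcrit q3 q4 c3
      have b2 := hgap σ₁ σ₂ ξ u a2 hin (Or.inl ⟨q2, q3⟩)
      rw [← hr]
      linarith
    · have b1 := hc.same hl hcrit q1 q2 c1
      have b3 := ha.same hl hcrit q3 q4 c3
      have b2 := hgap σ₁ σ₂ ξ u a2 hin (Or.inr ⟨q2, q3⟩)
      rw [← hr]
      linarith
  rcases hxy with ⟨q1, q2⟩ | ⟨q1, q2⟩
  · obtain ⟨σ₁, σ₂, s1, s2, s3, s4, s5, s6⟩ := crossing hT0 hcont (A := θa) (B := θc)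
      (by rw [h0]; exact q1.le) hac (by rw [hT]; exact q2.ge)
    exact main σ₁ σ₂ s1 s2 s3 (fun t ht => ⟨(s6 t ht).1, (s6 t ht).2⟩) (Or.inl ⟨q1, s4, s5, q2⟩)
  · obtain ⟨σ₁, σ₂, s1, s2, s3, s4, s5, s6⟩ := crossing' hT0 hcont (A := θa) (B := θc)
      (by rw [h0]; exact q1.ge) hac (by rw [hT]; exact q2.le)
    exact main σ₁ σ₂ s1 s2 s3 (fun t ht => ⟨(s6 t ht).1, (s6 t ht).2⟩) (Or.inr ⟨q1, s4, s5, q2⟩)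

end Pool.Agent.H33.AM
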