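import Pool.Agent.H33.AM.P.R3

/-!
# Module T6: curves between the levels `θa + i`, `θa + j`; the abstract trapping lemma

* `levels`, `i ≤ j`: induction on `j - i`. `j = i`: `hsame` (translated by `zv (-(i • m))`, see
  `Conn.add_zv`, `dot k₀ m = 1`). `j > i`: by `Conn.cross` (twice) the curve is a concatenation of
  curves: level `θa + i` → level `θc + i` (cost `≥ b`), → level `θa + i + 1` (cost `≥ A`), → level
  `θa + j` (cost `≥ (j - i - 1) (b + A) - κ`). All the hypotheses are applied after a translation by an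
  integer multiple of `zv m`. `j ≤ i`: symmetric.
* `trapped_of_levels`: choose integers `i`, `j` with `|⟪zv k₀, x⟫ - (θa + i)| ≤ 1`,
  `|⟪zv k₀, y⟫ - (θa + j)| ≤ 1` (floor), extend the curve at both ends to the levels `θa + i`, `θa + j` by
  `Rough` (a point of level `t` is `t • zv m`): `r + 2 C₁ ≥ (j - i) fu - κ ≥ (j - i) η - κ` if `i ≤ j`,
  and `≥ (i - j) fd - κ ≥ (j - i) η - κ` if `j ≤ i`. So
  `C = κ + 2 C₁ + 2 (|fu| + |fd|)` works for every `η ∈ [-fd, fu]`.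
-/

set_option autoImplicit false

open MeasureTheory
open scoped RealInnerProductSpace

namespace Pool.Agent.H33.AM

variable {n : ℕ} {l : EuclideanSpace ℝ (Fin n) → EuclideanSpace ℝ (Fin n) → ℝ}
  {k₀ m : Fin n → ℤ}

private theorem T6a_tr (hkm : dot k₀ m = 1) (x : EuclideanSpace ℝ (Fin n)) (i : ℤ) :
    ⟪zv k₀, x + zv (-(i • m))⟫ = ⟪zv k₀, x⟫ - i := by
  rw [inner_add_right, inner_zv, dot_neg, dot_zsmul, hkm]
  push_cast
  ring

theorem levels (hl : HL l) (hkm : dot k₀ m = 1) {e κ b A B θa θc : ℝ} (hac : θa ≤ θc)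
    (hca : θc ≤ θa + 1)
    (hsame : ∀ (T : ℝ) (x y : EuclideanSpace ℝ (Fin n)) (r : ℝ), ⟪zv k₀, x⟫ = θa →
      ⟪zv k₀, y⟫ = θa → Conn l e T x y r → -κ ≤ r)
    (hgap : ∀ (T : ℝ) (x y : EuclideanSpace ℝ (Fin n)) (r : ℝ),
      ((⟪zv k₀, x⟫ = θa ∧ ⟪zv k₀, y⟫ = θc) ∨ (⟪zv k₀, x⟫ = θc ∧ ⟪zv k₀, y⟫ = θa)) →
      Conn l e T x y r → b ≤ r)
    (hup : ∀ (T : ℝ) (x y : EuclideanSpace ℝ (Fin n)) (r : ℝ), ⟪zv k₀, x⟫ = θc →
      ⟪zv k₀, y⟫ = θa + 1 → Conn l e T x y r → A ≤ r)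
    (hdown : ∀ (T : ℝ) (x y : EuclideanSpace ℝ (Fin n)) (r : ℝ), ⟪zv k₀, x⟫ = θa + 1 →
      ⟪zv k₀, y⟫ = θc → Conn l e T x y r → B ≤ r)
    (i j : ℤ) {T : ℝ} {x y : EuclideanSpace ℝ (Fin n)} {r : ℝ} (hx : ⟪zv k₀, x⟫ = θa + i)
    (hy : ⟪zv k₀, y⟫ = θa + j) (h : Conn l e T x y r) :
    (i ≤ j → ((j : ℝ) - i) * (b + A) - κ ≤ r) ∧ (j ≤ i → ((i : ℝ) - j) * (b + B) - κ ≤ r) := by
  have hsame' : ∀ (i : ℤ) (T : ℝ) (x y : EuclideanSpace ℝ (Fin n)) (r : ℝ),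
      ⟪zv k₀, x⟫ = θa + i → ⟪zv k₀, y⟫ = θa + i → Conn l e T x y r → -κ ≤ r := by
    intro i T x y r hx hy h
    refine hsame T _ _ r ?_ ?_ (h.add_zv hl (-(i • m)))
    · rw [T6a_tr hkm, hx]; ring
    · rw [T6a_tr hkm, hy]; ring
  have hgapU : ∀ (i : ℤ) (T : ℝ) (x y : EuclideanSpace ℝ (Fin n)) (r : ℝ),
      ⟪zv k₀, x⟫ = θa + i → ⟪zv k₀, y⟫ = θc + i → Conn l e T x y r → b ≤ r := by
    intro i T x y r hx hy h
    refine hgap T _ _ r (Or.inl ⟨?_, ?_⟩) (h.add_zv hl (-(i • m)))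
    · rw [T6a_tr hkm, hx]; ring
    · rw [T6a_tr hkm, hy]; ring
  have hgapD : ∀ (i : ℤ) (T : ℝ) (x y : EuclideanSpace ℝ (Fin n)) (r : ℝ),
      ⟪zv k₀, x⟫ = θc + i → ⟪zv k₀, y⟫ = θa + i → Conn l e T x y r → b ≤ r := by
    intro i T x y r hx hy h
    refine hgap T _ _ r (Or.inr ⟨?_, ?_⟩) (h.add_zv hl (-(i • m)))
    · rw [T6a_tr hkm, hx]; ring
    · rw [T6a_tr hkm, hy]; ring
  have hup' : ∀ (i : ℤ) (T : ℝ) (x y : EuclideanSpace ℝ (Fin n)) (r : ℝ),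
      ⟪zv k₀, x⟫ = θc + i → ⟪zv k₀, y⟫ = θa + 1 + i → Conn l e T x y r → A ≤ r := by
    intro i T x y r hx hy h
    refine hup T _ _ r ?_ ?_ (h.add_zv hl (-(i • m)))
    · rw [T6a_tr hkm, hx]; ring
    · rw [T6a_tr hkm, hy]; ring
  have hdown' : ∀ (i : ℤ) (T : ℝ) (x y : EuclideanSpace ℝ (Fin n)) (r : ℝ),
      ⟪zv k₀, x⟫ = θa + 1 + i → ⟪zv k₀, y⟫ = θc + i → Conn l e T x y r → B ≤ r := by
    intro i T x y r hx hy h
    refine hdown T _ _ r ?_ ?_ (h.add_zv hl (-(i • m)))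
    · rw [T6a_tr hkm, hx]; ring
    · rw [T6a_tr hkm, hy]; ring
  have up : ∀ (k : ℕ) (i : ℤ) (T : ℝ) (x y : EuclideanSpace ℝ (Fin n)) (r : ℝ),
      ⟪zv k₀, x⟫ = θa + i → ⟪zv k₀, y⟫ = θa + i + k → Conn l e T x y r →
      (k : ℝ) * (b + A) - κ ≤ r := by
    intro k
    induction k with
    | zero =>
      intro i T x y r hx hy h
      have h1 := hsame' i T x y r hx (by rw [hy]; simp) h
      simpa using h1
    | succ k ih =>
      intro i T x y r hx hy h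
      have hk0 : (0 : ℝ) ≤ (k : ℝ) := Nat.cast_nonneg k
      push_cast at hy
      obtain ⟨z, T₁, T₂, r₁, r₂, hz, -, hr, h1, h2⟩ := Conn.cross hl (k₀ := k₀) (A := θc + i) h
        (Or.inl ⟨by rw [hx]; linarith, by rw [hy]; linarith⟩)
      obtain ⟨z', T₃, T₄, r₃, r₄, hz', -, hr', h3, h4⟩ := Conn.cross hl (k₀ := k₀)
        (A := θa + 1 + i) h2 (Or.inl ⟨by rw [hz]; linarith, by rw [hy]; linarith⟩)
      have e1 := hgapU i T₁ x z r₁ hx hz h1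
      have e2 := hup' i T₃ z z' r₃ hz hz' h3
      have e3 := ih (i + 1) T₄ z' y r₄ (by rw [hz']; push_cast; ring) (by rw [hy]; push_cast; ring) h4
      push_cast
      rw [hr, hr']
      linarith
  have down : ∀ (k : ℕ) (i : ℤ) (T : ℝ) (x y : EuclideanSpace ℝ (Fin n)) (r : ℝ),
      ⟪zv k₀, x⟫ = θa + i + k → ⟪zv k₀, y⟫ = θa + i → Conn l e T x y r →
      (k : ℝ) * (b + B) - κ ≤ r := by
    intro k
    induction k with
    | zero =>
      intro i T x y r hx hy h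
      have h1 := hsame' i T x y r (by rw [hx]; simp) hy h
      simpa using h1
    | succ k ih =>
      intro i T x y r hx hy h
      have hk0 : (0 : ℝ) ≤ (k : ℝ) := Nat.cast_nonneg k
      push_cast at hx
      have hik : ((i + (k : ℤ) : ℤ) : ℝ) = (i : ℝ) + k := by push_cast; ring
      obtain ⟨z, T₁, T₂, r₁, r₂, hz, -, hr, h1, h2⟩ := Conn.cross hl (k₀ := k₀)
        (A := θc + ((i + (k : ℤ) : ℤ) : ℝ)) h
        (Or.inr ⟨by rw [hy, hik]; linarith, by rw [hx, hik]; linarith⟩)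
      obtain ⟨z', T₃, T₄, r₃, r₄, hz', -, hr', h3, h4⟩ := Conn.cross hl (k₀ := k₀)
        (A := θa + ((i + (k : ℤ) : ℤ) : ℝ)) h2
        (Or.inr ⟨by rw [hy, hik]; linarith, by rw [hz]; linarith⟩)
      have e1 := hdown' (i + k) T₁ x z r₁ (by rw [hx, hik]; ring) hz h1
      have e2 := hgapD (i + k) T₃ z z' r₃ hz hz' h3
      have e3 := ih i T₄ z' y r₄ (by rw [hz', hik]; ring) hy h4
      push_cast
      rw [hr, hr']
      linarith
  constructor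
  · intro hij
    obtain ⟨k, hk⟩ := Int.eq_ofNat_of_zero_le (sub_nonneg.mpr hij)
    have hk' : (j : ℝ) - i = k := by exact_mod_cast hk
    rw [hk']
    exact up k i T x y r hx (by rw [hy, ← hk']; ring) h
  · intro hij
    obtain ⟨k, hk⟩ := Int.eq_ofNat_of_zero_le (sub_nonneg.mpr hij)
    have hk' : (i : ℝ) - j = k := by exact_mod_cast hk
    rw [hk']
    exact down k j T x y r (by rw [hx, ← hk']; ring) hy h

end Pool.Agent.H33.AM
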