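import Pool.Agent.H33.AM.P.R3
import Pool.Agent.H33.AM.P.T6a

/-!
# Module T6: curves between the levels `θa + i`, `θa + j`; the abstract trapping lemma

* `levels`, `i ≤ j`: induction on `j - i`. `j = i`: `hsame` (translated by `zv (-(i • m))`, see
  `Conn.add_zv`, `dot k₀ m = 1`). `j > i`: by `Conn.cross` (twice) the curve is a concatenation of
  curves: level `θa + i` → level `θc + i` (cost `≥ b`), → level `θa + i + 1` (cost `≥ A`), → level
  `θa + j` (cost `≥ (j - i - 1) (b + A) - κ`). All the hypotheses are applied after a translation by an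
  integer multiple of `zv m`. `j ≤ i`: symmetric.
* `trapped_of_levels`: choose integers `i`, `j` with `|⟪zv k₀, x⟫ - (θa + i)| ≤ 1`,
  `|⟪zv k₀, y⟫ - (θa + j)| ≤ 1` (floor), extend the curve at both ends to the levels `θa + i`, `θa + j` by
  `Rough` (a point of level `t` is `t • zv m`): `r + 2 C₁ ≥ (j - i) fu - κ ≥ (j - i) η - κ` if `i ≤ j`,
  and `≥ (i - j) fd - κ ≥ (j - i) η - κ` if `j ≤ i`. So
  `C = κ + 2 C₁ + 2 (|fu| + |fd|)` works for every `η ∈ [-fd, fu]`.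
-/

set_option autoImplicit false

open MeasureTheory
open scoped RealInnerProductSpace

namespace Pool.Agent.H33.AM

variable {n : ℕ} {l : EuclideanSpace ℝ (Fin n) → EuclideanSpace ℝ (Fin n) → ℝ}
  {k₀ m : Fin n → ℤ}

theorem trapped_of_levels (hl : HL l) (hkm : dot k₀ m = 1) {e κ C₁ fu fd θa : ℝ}
    (hr : Rough l k₀ e C₁)
    (h : ∀ (i j : ℤ) (T : ℝ) (x y : EuclideanSpace ℝ (Fin n)) (r : ℝ), ⟪zv k₀, x⟫ = θa + i →
      ⟪zv k₀, y⟫ = θa + j → Conn l e T x y r →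
      (i ≤ j → ((j : ℝ) - i) * fu - κ ≤ r) ∧ (j ≤ i → ((i : ℝ) - j) * fd - κ ≤ r)) :
    ∃ C : ℝ, ∀ η ∈ Set.Icc (-fd) fu, ∀ (T : ℝ) (x y : EuclideanSpace ℝ (Fin n)) (r : ℝ),
      Conn l e T x y r → η * (⟪zv k₀, y⟫ - ⟪zv k₀, x⟫) - C ≤ r := by
  refine ⟨κ + 2 * C₁ + |fu| + |fd|, ?_⟩
  intro η hη T x y r hc
  have hlev : ∀ t : ℝ, ⟪zv k₀, t • zv m⟫ = t := by
    intro t
    rw [inner_smul_right, inner_zv, hkm]
    simp
  obtain ⟨i, hi⟩ : ∃ i : ℤ, i = ⌊⟪zv k₀, x⟫ - θa⌋ := ⟨_, rfl⟩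
  obtain ⟨j, hj⟩ : ∃ j : ℤ, j = ⌊⟪zv k₀, y⟫ - θa⌋ := ⟨_, rfl⟩
  have hi1 : (i : ℝ) ≤ ⟪zv k₀, x⟫ - θa := by rw [hi]; exact Int.floor_le _
  have hi2 : ⟪zv k₀, x⟫ - θa < (i : ℝ) + 1 := by rw [hi]; exact Int.lt_floor_add_one _
  have hj1 : (j : ℝ) ≤ ⟪zv k₀, y⟫ - θa := by rw [hj]; exact Int.floor_le _
  have hj2 : ⟪zv k₀, y⟫ - θa < (j : ℝ) + 1 := by rw [hj]; exact Int.lt_floor_add_one _
  -- the curve from the level `θa + i` to `x`
  obtain ⟨T₁, k, r₁, hk, hc₁, hr₁⟩ := hr ((θa + i) • zv m) x (by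
    rw [hlev, abs_le]
    constructor <;> linarith)
  have hc₁' : Conn l e T₁ ((θa + i) • zv m + zv (-k)) x r₁ := by
    have h1 := hc₁.add_zv hl (-k)
    rwa [add_assoc, ← zv_add, add_neg_cancel, zv_zero, add_zero] at h1
  -- the curve from `y` to the level `θa + j`
  obtain ⟨T₂, k', r₂, hk', hc₂, hr₂⟩ := hr y ((θa + j) • zv m) (by
    rw [hlev, abs_le]
    constructor <;> linarith)
  have hconn := (hc₁'.trans hl hc).trans hl hc₂
  have hx' : ⟪zv k₀, (θa + i) • zv m + zv (-k)⟫ = θa + i := by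
    rw [inner_add_right, hlev, inner_zv, dot_neg, hk]
    simp
  have hy' : ⟪zv k₀, (θa + j) • zv m + zv k'⟫ = θa + j := by
    rw [inner_add_right, hlev, inner_zv, hk']
    simp
  obtain ⟨h1, h2⟩ := h i j _ _ _ _ hx' hy' hconn
  have hηabs : |η| ≤ |fu| + |fd| := by
    rw [abs_le]
    constructor
    · linarith [hη.1, le_abs_self fd, abs_nonneg fu]
    · linarith [hη.2, le_abs_self fu, abs_nonneg fd]
  have hdiff : η * (⟪zv k₀, y⟫ - ⟪zv k₀, x⟫) ≤ η * ((j : ℝ) - i) + |η| := by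
    have h3 : η * ((⟪zv k₀, y⟫ - ⟪zv k₀, x⟫) - ((j : ℝ) - i)) ≤ |η| := by
      refine (le_abs_self _).trans ?_
      rw [abs_mul]
      have h4 : |(⟪zv k₀, y⟫ - ⟪zv k₀, x⟫) - ((j : ℝ) - i)| ≤ 1 := by
        rw [abs_le]
        constructor <;> linarith
      exact mul_le_of_le_one_right (abs_nonneg _) h4
    linarith
  have hkey : η * ((j : ℝ) - i) ≤ r + 2 * C₁ + κ := by
    rcases le_total i j with hij | hij
    · have h3 := h1 hij
      have h4 : (i : ℝ) ≤ j := by exact_mod_cast hij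
      have h5 : η * ((j : ℝ) - i) ≤ fu * ((j : ℝ) - i) :=
        mul_le_mul_of_nonneg_right hη.2 (by linarith)
      linarith
    · have h3 := h2 hij
      have h4 : (j : ℝ) ≤ i := by exact_mod_cast hij
      have h5 : (-η) * ((i : ℝ) - j) ≤ fd * ((i : ℝ) - j) :=
        mul_le_mul_of_nonneg_right (by linarith [hη.1]) (by linarith)
      linarith
  linarith

end Pool.Agent.H33.AM
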