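import Pool.Agent.H33.AM.P.T1
import Pool.Agent.H33.AM.P.T2
import Pool.Agent.H33.AM.P.T3
import Pool.Agent.H33.AM.P.T4
import Pool.Agent.H33.AM.P.T5
import Pool.Agent.H33.AM.P.T6

/-!
# Module T7: the trapping lemma

* `Trap.trapped`: `e` from `Trap.crit_exists`; `Closes` at `θa`, `θc` from `Trap.closes`; `Rough` from
  `Trap.rough`; `b = g₀ - 2 κ`, `g₀ = √(κ₁/2)/‖zv k₀‖ ∫ √(M - w) - β₀`, from `Trap.gap`, `cross_gap`;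
  `A`, `B` from `rest`; then `levels` and `trapped_of_levels` with `fu = b + A`, `fd = b + B`:
  `fu + fd = 2 b + A + B ≥ 2 g₀ - 6 κ > 0`.
* `trap_main`: let `M₁ = max w₁`, `w₁ θb < M₁`, `μ = M₁ - w₁ θb`; there is `0 < ρ` with
  `M₁ - w₁ ≥ μ/2` on `[θb - ρ, θb + ρ]`, `J = 2 ρ √(μ/2)`, `a₀ = √(κ₁/2)/‖zv k₀‖`, `C₀` from `lattice`.
  Choose `τ' > 0` with `3 κ₂ C₀²/(2 τ') < a₀ J/2`, then `δ > 0` so small that, with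
  `ε' = 2 δ + δ²/κ₁`, `δ + 3 (3 ε' τ' + δ + δ C₀) < a₀ J/2` and `2 ε' < μ/2`.
  For `σ > 0` and `Trap … (σ w₁) … (σ δ) (√σ δ) (√σ δ) M` (so `M = σ M₁`) one has
  `2 ε + β₁²/κ₁ = σ ε'`; put `ω = 2 σ ε'`, `τ₀ = τ'/√σ`,
  `θa = sSup {θ ∈ [θb - 1, θb] | M₁ - w₁ θ ≤ 2 ε'}`, `θc = sInf {θ ∈ [θb, θb + 1] | M₁ - w₁ θ ≤ 2 ε'}`
  (both sets are compact and not empty since `w₁` attains `M₁` in every interval of length one;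
  `M₁ - w₁ ≤ 2 ε'` at `θa`, `θc` and `≥ 2 ε'` on `[θa, θc]` by continuity; `θc ≤ θa + 1` since
  `θa + 1` belongs to the second set). The window `[θb - ρ, θb + ρ]` lies in `[θa, θc]`, so
  `∫_{θa}^{θc} √(M - w) ≥ √σ J`, and `κ = √σ (κ₂ C₀²/(2 τ') + 3 ε' τ' + δ + δ C₀)`.
-/

set_option autoImplicit false

open MeasureTheory
open scoped RealInnerProductSpace

namespace Pool.Agent.H33.AM

variable {n : ℕ} {k₀ m : Fin n → ℤ}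

theorem Trap.trapped {l : EuclideanSpace ℝ (Fin n) → EuclideanSpace ℝ (Fin n) → ℝ}
    {P : Fin n → ℤ} {s : ℝ} {w : ℝ → ℝ} {κ₁ κ₂ ε β₀ β₁ M : ℝ}
    (h : Trap l k₀ m P s w κ₁ κ₂ ε β₀ β₁ M) {C₀ ω τ₀ θa θc κ : ℝ} (hC₀ : 0 ≤ C₀)
    (hC : ∀ z : EuclideanSpace ℝ (Fin n), |⟪zv k₀, z⟫| ≤ 1 →
      ∃ k : Fin n → ℤ, dot k₀ k = 0 ∧ ‖z - zv k‖ ≤ C₀)
    (hτ : 0 < τ₀) (hac : θa ≤ θc) (hca : θc ≤ θa + 1) (ha : M - ω ≤ w θa) (hc : M - ω ≤ w θc)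
    (hgap : ∀ θ ∈ Set.Icc θa θc, 2 * (2 * ε + β₁ ^ 2 / κ₁) ≤ M - w θ)
    (hκ : κ = κ₂ * C₀ ^ 2 / (2 * τ₀) + (ω + (2 * ε + β₁ ^ 2 / κ₁)) * τ₀ + β₀ + β₁ * C₀)
    (hpos : 0 < 2 * (√(κ₁ / 2) / ‖zv k₀‖ * (∫ θ in θa..θc, √(M - w θ))) - 2 * β₀ - 6 * κ) :
    Trapped l k₀ := by
  obtain ⟨e, hcrit, hnc, hlow, hupp⟩ := h.crit_exists
  have hca' : Closes l k₀ e κ θa := by
    have h1 := h.closes (e := e) (C₀ := C₀) (ω := ω) (τ₀ := τ₀) (θ₀ := θa) hupp hC₀ hC hτ ha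
    rwa [← hκ] at h1
  have hcc' : Closes l k₀ e κ θc := by
    have h1 := h.closes (e := e) (C₀ := C₀) (ω := ω) (τ₀ := τ₀) (θ₀ := θc) hupp hC₀ hC hτ hc
    rwa [← hκ] at h1
  obtain ⟨C₁, hr⟩ := h.rough e hC₀ hC
  set g₀ : ℝ := √(κ₁ / 2) / ‖zv k₀‖ * (∫ θ in θa..θc, √(M - w θ)) - β₀ with hg₀
  have hgap' : ∀ (T : ℝ) (x y : EuclideanSpace ℝ (Fin n)) (r : ℝ),
      ((⟪zv k₀, x⟫ = θa ∧ ⟪zv k₀, y⟫ = θc) ∨ (⟪zv k₀, x⟫ = θc ∧ ⟪zv k₀, y⟫ = θa)) →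
      Conn l e T x y r → g₀ - 2 * κ ≤ r := by
    intro T x y r hxy hr
    exact cross_gap h.hl hcrit hca' hcc' hac
      (fun a b x u hx hθ hends => h.gap hlow hac hgap hx hθ hends) hxy hr
  obtain ⟨A, B, hAB, hA, hB⟩ := rest h.hl h.km hcrit hr hca' hcc' hac hca
  have hlev := fun (i j : ℤ) (T : ℝ) (x y : EuclideanSpace ℝ (Fin n)) (r : ℝ)
      (hx : ⟪zv k₀, x⟫ = θa + i) (hy : ⟪zv k₀, y⟫ = θa + j) (hxy : Conn l e T x y r) =>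
    levels (e := e) (κ := κ) (b := g₀ - 2 * κ) (A := A) (B := B) h.hl h.km hac hca
      (fun T x y r hx hy hxy => hca'.same h.hl hcrit hx hy hxy) hgap' hA hB i j hx hy hxy
  obtain ⟨C, hC'⟩ := trapped_of_levels (e := e) (κ := κ) (C₁ := C₁) (fu := g₀ - 2 * κ + A)
    (fd := g₀ - 2 * κ + B) (θa := θa) h.hl h.km hr hlev
  refine ⟨e, g₀ - 2 * κ + A, g₀ - 2 * κ + B, C, ?_, hcrit, hnc, hC'⟩
  have : 0 < 2 * g₀ - 6 * κ := by rw [hg₀]; linarith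
  linarith

end Pool.Agent.H33.AM
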