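import Pool.Agent.H33.AM.P.T1
import Pool.Agent.H33.AM.P.T2
import Pool.Agent.H33.AM.P.T3
import Pool.Agent.H33.AM.P.T4
import Pool.Agent.H33.AM.P.T5
import Pool.Agent.H33.AM.P.T6
import Pool.Agent.H33.AM.P.T7a

/-!
# Module T7: the trapping lemma

* `Trap.trapped`: `e` from `Trap.crit_exists`; `Closes` at `θa`, `θc` from `Trap.closes`; `Rough` from
  `Trap.rough`; `b = g₀ - 2 κ`, `g₀ = √(κ₁/2)/‖zv k₀‖ ∫ √(M - w) - β₀`, from `Trap.gap`, `cross_gap`;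
  `A`, `B` from `rest`; then `levels` and `trapped_of_levels` with `fu = b + A`, `fd = b + B`:
  `fu + fd = 2 b + A + B ≥ 2 g₀ - 6 κ > 0`.
* `trap_main`: let `M₁ = max w₁`, `w₁ θb < M₁`, `μ = M₁ - w₁ θb`; there is `0 < ρ` with
  `M₁ - w₁ ≥ μ/2` on `[θb - ρ, θb + ρ]`, `J = 2 ρ √(μ/2)`, `a₀ = √(κ₁/2)/‖zv k₀‖`, `C₀` from `lattice`.
  Choose `τ' > 0` with `3 κ₂ C₀²/(2 τ') < a₀ J/2`, then `δ > 0` so small that, with
  `ε' = 2 δ + δ²/κ₁`, `δ + 3 (3 ε' τ' + δ + δ C₀) < a₀ J/2` and `2 ε' < μ/2`.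
  For `σ > 0` and `Trap … (σ w₁) … (σ δ) (√σ δ) (√σ δ) M` (so `M = σ M₁`) one has
  `2 ε + β₁²/κ₁ = σ ε'`; put `ω = 2 σ ε'`, `τ₀ = τ'/√σ`,
  `θa = sSup {θ ∈ [θb - 1, θb] | M₁ - w₁ θ ≤ 2 ε'}`, `θc = sInf {θ ∈ [θb, θb + 1] | M₁ - w₁ θ ≤ 2 ε'}`
  (both sets are compact and not empty since `w₁` attains `M₁` in every interval of length one;
  `M₁ - w₁ ≤ 2 ε'` at `θa`, `θc` and `≥ 2 ε'` on `[θa, θc]` by continuity; `θc ≤ θa + 1` since
  `θa + 1` belongs to the second set). The window `[θb - ρ, θb + ρ]` lies in `[θa, θc]`, so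
  `∫_{θa}^{θc} √(M - w) ≥ √σ J`, and `κ = √σ (κ₂ C₀²/(2 τ') + 3 ε' τ' + δ + δ C₀)`.
-/

set_option autoImplicit false

open MeasureTheory
open scoped RealInnerProductSpace

namespace Pool.Agent.H33.AM

variable {n : ℕ} {k₀ m : Fin n → ℤ}

private theorem exists_max {w₁ : ℝ → ℝ} (hw : Continuous w₁) (hper : ∀ θ, w₁ (θ + 1) = w₁ θ) :
    ∃ M₁, (∀ θ, w₁ θ ≤ M₁) ∧ ∀ a, ∃ θ ∈ Set.Icc a (a + 1), w₁ θ = M₁ := by
  have hp : Function.Periodic w₁ 1 := hper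
  obtain ⟨θ₀, -, hθ₀⟩ := isCompact_Icc.exists_isMaxOn (s := Set.Icc (0 : ℝ) 1) ⟨0, by simp⟩
    hw.continuousOn
  refine ⟨w₁ θ₀, fun θ => ?_, fun a => ?_⟩
  · obtain ⟨y, hy, hy'⟩ := hp.exists_mem_Ico₀ one_pos θ
    rw [hy']
    exact hθ₀ ⟨hy.1, hy.2.le⟩
  · obtain ⟨y, hy, hy'⟩ := hp.exists_mem_Ico one_pos θ₀ a
    exact ⟨y, ⟨hy.1, hy.2.le⟩, hy'.symm⟩

private theorem exists_gap {w₁ : ℝ → ℝ} (hw : Continuous w₁) (hper : ∀ θ, w₁ (θ + 1) = w₁ θ)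
    {M₁ θb c : ℝ} (hM : ∀ a, ∃ θ ∈ Set.Icc a (a + 1), w₁ θ = M₁) (hc : 0 ≤ c)
    (hb : c < M₁ - w₁ θb) :
    ∃ θa θc, θa ≤ θb ∧ θb ≤ θc ∧ θc ≤ θa + 1 ∧ M₁ - w₁ θa ≤ c ∧ M₁ - w₁ θc ≤ c ∧
      ∀ θ ∈ Set.Icc θa θc, c ≤ M₁ - w₁ θ := by
  -- last point before `θb`
  set Sa : Set ℝ := Set.Icc (θb - 1) θb ∩ {θ | M₁ - w₁ θ ≤ c} with hSa
  set Sc : Set ℝ := Set.Icc θb (θb + 1) ∩ {θ | M₁ - w₁ θ ≤ c} with hSc
  have hcl : IsClosed {θ | M₁ - w₁ θ ≤ c} := isClosed_le (by fun_prop) continuous_const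
  have hSac : IsCompact Sa := isCompact_Icc.inter_right hcl
  have hScc : IsCompact Sc := isCompact_Icc.inter_right hcl
  have hSan : Sa.Nonempty := by
    obtain ⟨θ, hθ, hθ'⟩ := hM (θb - 1)
    refine ⟨θ, ⟨hθ.1, by have := hθ.2; linarith⟩, ?_⟩
    simp only [Set.mem_ofPred_eq, hθ', sub_self]
    exact hc
  have hScn : Sc.Nonempty := by
    obtain ⟨θ, hθ, hθ'⟩ := hM θb
    refine ⟨θ, hθ, ?_⟩
    simp only [Set.mem_ofPred_eq, hθ', sub_self]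
    exact hc
  have ha := hSac.sSup_mem hSan
  have hcm := hScc.sInf_mem hScn
  set θa := sSup Sa
  set θc := sInf Sc
  have hθa : ∀ θ, θa < θ → θ ≤ θb → c < M₁ - w₁ θ := by
    intro θ h1 h2
    by_contra h3
    have h4 : θ ∈ Sa := ⟨⟨by have := ha.1.1; linarith, h2⟩, not_lt.1 h3⟩
    have := le_csSup hSac.bddAbove h4
    linarith
  have hθc : ∀ θ, θb ≤ θ → θ < θc → c < M₁ - w₁ θ := by
    intro θ h1 h2
    by_contra h3
    have h4 : θ ∈ Sc := ⟨⟨h1, by have := hcm.1.2; linarith⟩, not_lt.1 h3⟩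
    have := csInf_le hScc.bddBelow h4
    linarith
  have hlt1 : θa < θb := by
    rcases ha.1.2.lt_or_eq with h | h
    · exact h
    · exfalso
      have := ha.2
      simp only [Set.mem_ofPred_eq, h] at this
      linarith
  have hlt2 : θb < θc := by
    rcases hcm.1.1.lt_or_eq with h | h
    · exact h
    · exfalso
      have := hcm.2
      simp only [Set.mem_ofPred_eq, ← h] at this
      linarith
  refine ⟨θa, θc, ha.1.2, hcm.1.1, ?_, ha.2, hcm.2, ?_⟩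
  · apply csInf_le hScc.bddBelow
    refine ⟨⟨by have := ha.1.1; linarith, by have := ha.1.2; linarith⟩, ?_⟩
    have := ha.2
    simp only [Set.mem_ofPred_eq] at this ⊢
    rw [hper]
    exact this
  · intro θ hθ
    have hcont : Continuous fun θ => M₁ - w₁ θ := by fun_prop
    rcases hθ.1.lt_or_eq with h1 | h1
    · rcases hθ.2.lt_or_eq with h2 | h2
      · rcases le_total θ θb with h3 | h3
        · exact (hθa θ h1 h3).le
        · exact (hθc θ h3 h2).le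
      · -- θ = θc: limit from the left
        rw [h2]
        have h4 : Filter.Tendsto (fun θ => M₁ - w₁ θ) (nhdsWithin θc (Set.Iio θc))
            (nhds (M₁ - w₁ θc)) := (hcont.tendsto θc).mono_left nhdsWithin_le_nhds
        refine ge_of_tendsto h4 ?_
        filter_upwards [Ioo_mem_nhdsLT hlt2] with t ht
        exact (hθc t ht.1.le ht.2).le
    · rw [← h1]
      have h4 : Filter.Tendsto (fun θ => M₁ - w₁ θ) (nhdsWithin θa (Set.Ioi θa))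
          (nhds (M₁ - w₁ θa)) := (hcont.tendsto θa).mono_left nhdsWithin_le_nhds
      refine ge_of_tendsto h4 ?_
      filter_upwards [Ioo_mem_nhdsGT hlt1] with t ht
      exact (hθa t ht.1 ht.2.le).le

theorem trap_main (hkm : dot k₀ m = 1) {κ₁ κ₂ : ℝ} (h1 : 0 < κ₁) (h2 : 0 < κ₂) {w₁ : ℝ → ℝ}
    (hw : Continuous w₁) (hper : ∀ θ, w₁ (θ + 1) = w₁ θ) (hnc : ∃ θ θ', w₁ θ ≠ w₁ θ') :
    ∃ δ : ℝ, 0 < δ ∧ ∀ (l : EuclideanSpace ℝ (Fin n) → EuclideanSpace ℝ (Fin n) → ℝ)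
      (P : Fin n → ℤ) (s σ M : ℝ), 0 < σ →
      Trap l k₀ m P s (fun θ => σ * w₁ θ) κ₁ κ₂ (σ * δ) (√σ * δ) (√σ * δ) M →
      Trapped l k₀ := by
  obtain ⟨M₁, hM₁, hM⟩ := exists_max hw hper
  obtain ⟨θb, hb⟩ : ∃ θb, w₁ θb < M₁ := by
    obtain ⟨θ, θ', h⟩ := hnc
    rcases (hM₁ θ).lt_or_eq with h3 | h3
    · exact ⟨θ, h3⟩
    · rcases (hM₁ θ').lt_or_eq with h4 | h4
      · exact ⟨θ', h4⟩
      · exact absurd (h3.trans h4.symm) h
  set μ : ℝ := M₁ - w₁ θb with hμ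
  have hμ0 : 0 < μ := sub_pos.2 hb
  obtain ⟨ρ, hρ, hρ'⟩ : ∃ ρ > 0, ∀ θ, |θ - θb| ≤ ρ → μ / 2 < M₁ - w₁ θ := by
    have hc : Continuous fun θ => M₁ - w₁ θ := by fun_prop
    have h3 : ∀ᶠ θ in nhds θb, μ / 2 < M₁ - w₁ θ :=
      (hc.tendsto θb).eventually (lt_mem_nhds (by linarith))
    obtain ⟨ρ, hρ, h4⟩ := Metric.eventually_nhds_iff.1 h3
    refine ⟨ρ / 2, by positivity, fun θ hθ => h4 ?_⟩
    rw [Real.dist_eq]
    linarith
  obtain ⟨C₀, hC₀, hC⟩ := lattice hkm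
  have hk0 : 0 < ‖zv k₀‖ := norm_pos_iff.2 (ne_zero_of_dot hkm).2
  set J : ℝ := 2 * ρ * √(μ / 2) with hJ
  have hJ0 : 0 < J := by positivity
  set a₀ : ℝ := √(κ₁ / 2) / ‖zv k₀‖ with ha₀
  have ha₀0 : 0 < a₀ := by positivity
  obtain ⟨τ', hτ', hτ1⟩ : ∃ τ' : ℝ, 0 < τ' ∧ 3 * κ₂ * C₀ ^ 2 < a₀ * J * τ' := by
    refine ⟨3 * κ₂ * C₀ ^ 2 / (a₀ * J) + 1, by positivity, ?_⟩
    have h3 : a₀ * J * (3 * κ₂ * C₀ ^ 2 / (a₀ * J) + 1) = 3 * κ₂ * C₀ ^ 2 + a₀ * J := by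
      field_simp
    rw [h3]
    have := mul_pos ha₀0 hJ0
    linarith
  obtain ⟨δ, hδ1, hδ2, hδ⟩ : ∃ δ : ℝ, (δ + 3 * (3 * (2 * δ + δ ^ 2 / κ₁) * τ' + δ + δ * C₀) <
      a₀ * J / 2) ∧ 2 * (2 * δ + δ ^ 2 / κ₁) < μ / 2 ∧ 0 < δ := by
    have h3 : Filter.Tendsto (fun δ : ℝ => δ + 3 * (3 * (2 * δ + δ ^ 2 / κ₁) * τ' + δ + δ * C₀))
        (nhds 0) (nhds 0) := by
      have : Continuous fun δ : ℝ => δ + 3 * (3 * (2 * δ + δ ^ 2 / κ₁) * τ' + δ + δ * C₀) := by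
        fun_prop
      simpa using this.tendsto 0
    have h4 : Filter.Tendsto (fun δ : ℝ => 2 * (2 * δ + δ ^ 2 / κ₁)) (nhds 0) (nhds 0) := by
      have : Continuous fun δ : ℝ => 2 * (2 * δ + δ ^ 2 / κ₁) := by fun_prop
      simpa using this.tendsto 0
    have h5 : ∀ᶠ δ in nhdsWithin (0 : ℝ) (Set.Ioi 0),
        (δ + 3 * (3 * (2 * δ + δ ^ 2 / κ₁) * τ' + δ + δ * C₀) < a₀ * J / 2) ∧
        2 * (2 * δ + δ ^ 2 / κ₁) < μ / 2 ∧ 0 < δ := by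
      have h6 := (h3.eventually (gt_mem_nhds (show (0 : ℝ) < a₀ * J / 2 by positivity)))
      have h7 := (h4.eventually (gt_mem_nhds (show (0 : ℝ) < μ / 2 by positivity)))
      filter_upwards [h6.filter_mono nhdsWithin_le_nhds, h7.filter_mono nhdsWithin_le_nhds,
        self_mem_nhdsWithin] with δ h8 h9 h10
      exact ⟨h8, h9, h10⟩
    exact h5.exists
  refine ⟨δ, hδ, fun l P s σ M hσ h => ?_⟩
  set ε' : ℝ := 2 * δ + δ ^ 2 / κ₁ with hε'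
  have hε'0 : 0 < ε' := by positivity
  have hMσ : M = σ * M₁ := by
    obtain ⟨θ, hθ⟩ := h.w_max
    obtain ⟨θ₁, -, hθ₁⟩ := hM 0
    have h3 := h.w_le θ₁
    simp only [hθ₁] at h3
    have h4 : σ * w₁ θ ≤ σ * M₁ := mul_le_mul_of_nonneg_left (hM₁ θ) hσ.le
    linarith
  have hs0 : 0 < √σ := Real.sqrt_pos.2 hσ
  have hss : √σ * √σ = σ := Real.mul_self_sqrt hσ.le
  have hε₁ : 2 * (σ * δ) + (√σ * δ) ^ 2 / κ₁ = σ * ε' := by
    rw [hε', mul_pow, Real.sq_sqrt hσ.le]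
    ring
  obtain ⟨θa, θc, hab, hbc, hca, ha, hc, hgap⟩ := exists_gap hw hper (c := 2 * ε') hM
    (by positivity) (by rw [← hμ]; linarith)
  have hI : √σ * J ≤ ∫ θ in θa..θc, √(M - σ * w₁ θ) := by
    have h3 : θa ≤ θb - ρ := by
      by_contra h4
      have := hρ' θa (by rw [abs_le]; constructor <;> linarith)
      linarith
    have h4 : θb + ρ ≤ θc := by
      by_contra h4
      have := hρ' θc (by rw [abs_le]; constructor <;> linarith)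
      linarith
    have hcont : Continuous fun θ => √(M - σ * w₁ θ) := by fun_prop
    have h5 : (∫ θ in (θb - ρ)..(θb + ρ), √σ * √(μ / 2)) ≤
        ∫ θ in (θb - ρ)..(θb + ρ), √(M - σ * w₁ θ) := by
      apply intervalIntegral.integral_mono_on (by linarith) (by simp)
        (hcont.intervalIntegrable _ _)
      intro θ hθ
      rw [← Real.sqrt_mul hσ.le]
      apply Real.sqrt_le_sqrt
      have := hρ' θ (by rw [abs_le]; constructor <;> linarith [hθ.1, hθ.2])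
      rw [hMσ]
      nlinarith
    have h6 : (∫ θ in (θb - ρ)..(θb + ρ), √σ * √(μ / 2)) = √σ * J := by
      rw [intervalIntegral.integral_const, hJ, smul_eq_mul]
      ring
    have h7 : (∫ θ in (θb - ρ)..(θb + ρ), √(M - σ * w₁ θ)) ≤
        ∫ θ in θa..θc, √(M - σ * w₁ θ) :=
      intervalIntegral.integral_mono_interval h3 (by linarith) h4
        (Filter.Eventually.of_forall fun θ => Real.sqrt_nonneg _) (hcont.intervalIntegrable _ _)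
    linarith
  refine h.trapped (C₀ := C₀) (ω := 2 * (σ * ε')) (τ₀ := τ' / √σ) (θa := θa) (θc := θc)
    (κ := √σ * (κ₂ * C₀ ^ 2 / (2 * τ') + 3 * ε' * τ' + δ + δ * C₀)) hC₀ hC (by positivity)
    (by linarith) hca ?_ ?_ ?_ ?_ ?_
  · rw [hMσ]
    nlinarith
  · rw [hMσ]
    nlinarith
  · intro θ hθ
    have h3 := hgap θ hθ
    rw [hε₁, hMσ]
    nlinarith
  · rw [hε₁]
    have h3 : (2 * (σ * ε') + σ * ε') * (τ' / √σ) = √σ * (3 * ε' * τ') := by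
      rw [mul_div_assoc', div_eq_iff hs0.ne']
      have h6 : √σ * (3 * ε' * τ') * √σ = √σ * √σ * (3 * ε' * τ') := by ring
      rw [h6, hss]
      ring
    have h4 : κ₂ * C₀ ^ 2 / (2 * (τ' / √σ)) = √σ * (κ₂ * C₀ ^ 2 / (2 * τ')) := by
      field_simp
    rw [h3, h4]
    ring
  · have h3 : κ₂ * C₀ ^ 2 / (2 * τ') < a₀ * J / 6 := by
      rw [div_lt_iff₀ (by positivity)]
      nlinarith
    have h4 : a₀ * (√σ * J) ≤ a₀ * ∫ θ in θa..θc, √(M - σ * w₁ θ) :=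
      mul_le_mul_of_nonneg_left hI ha₀0.le
    have h5 : 0 < √σ * (2 * (a₀ * J) - 2 * δ -
        6 * (κ₂ * C₀ ^ 2 / (2 * τ') + 3 * ε' * τ' + δ + δ * C₀)) := by
      apply mul_pos hs0
      linarith
    nlinarith

end Pool.Agent.H33.AM
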