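import Pool.Agent.H33.AM.P.V4

/-!
# Module V5: the magnetic potential

* `cube_deriv`: if `h` is `C¹` and periodic, `∫_cube ⟪∇h, v⟫ = 0`: differentiate the constant function
  `t ↦ ∫_cube h(y + t v)` (`cube_translate`) at `t = 0`.
* `exists_avK_A_ne`: suppose not. Then for every `k ≠ 0` and `P` with `dot k P = 0`, all the
  coefficients `∫_cube ⟪A, zv P⟫ cos(2π ⟪k, ·⟫ + φ)` vanish (`primitive`, `cos_coeff`; `∫₀¹ const ·
  cos(2π d θ + φ) = 0` for `d ≠ 0`). With `P = k_j e_i - k_i e_j`: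
  `k_j ∫ A_i cos(..) = k_i ∫ A_j cos(..)`. For `g = ∂_j A_i - ∂_i A_j` one has, by `cube_deriv` applied to
  `A_i cos(2π ⟪k, ·⟫ + φ)`, `∫ ∂_j A_i cos(..) = 2π k_j ∫ A_i sin(..)`, so all the coefficients of `g` with
  `k ≠ 0` vanish and `g` is constant (`const_of_coeff`), and the constant is `∫_cube g = 0`
  (`cube_deriv`). So `A' x` is symmetric for every `x`: contradiction.
* `exists_grad`: Poincaré's lemma (see `Mathlib/MeasureTheory/Integral/CurveIntegral/Poincare.lean`, or
  directly `h(x) = ∫₀¹ ⟪A(t x), x⟫ dt`): there is `h` with `∇h = A`; `h(x + zv k) - h(x)` is constant in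
  `x` and additive in `k`, so it is `⟪a₀, zv k⟫`; put `f = h - ⟪a₀, ·⟫`.
-/

set_option autoImplicit false

open MeasureTheory
open scoped RealInnerProductSpace

namespace Pool.Agent.H33.AM

variable {n : ℕ}

theorem cube_deriv {h : EuclideanSpace ℝ (Fin n) → ℝ}
    {H : EuclideanSpace ℝ (Fin n) → EuclideanSpace ℝ (Fin n)}
    (hh : ∀ x, HasGradientAt h (H x) x) (hH : Continuous H)
    (hper : ∀ x (k : Fin n → ℤ), h (x + zv k) = h x) (v : EuclideanSpace ℝ (Fin n)) :
    ∫ y in {y : EuclideanSpace ℝ (Fin n) | ∀ i, y i ∈ Set.Ico (0 : ℝ) 1}, ⟪H y, v⟫ = 0 := by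
  have hhc : Continuous h := continuous_iff_continuousAt.2 fun y => (hh y).continuousAt
  have hK : IsCompact ((EuclideanSpace.equiv (Fin n) ℝ) ⁻¹' (Set.Icc 0 1)) :=
    (EuclideanSpace.equiv (Fin n) ℝ).toHomeomorph.isClosedEmbedding.isCompact_preimage isCompact_Icc
  have hint : ∀ {f : EuclideanSpace ℝ (Fin n) → ℝ}, Continuous f → IntegrableOn f
      {y : EuclideanSpace ℝ (Fin n) | ∀ i, y i ∈ Set.Ico (0 : ℝ) 1} := by
    intro f hf
    refine (hf.continuousOn.integrableOn_compact hK).mono_set fun y hy => ?_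
    exact ⟨fun i => (hy i).1, fun i => (hy i).2.le⟩
  have hQm := cube_meas (n := n)
  set Q : Set (EuclideanSpace ℝ (Fin n)) := {y | ∀ i, y i ∈ Set.Ico (0 : ℝ) 1} with hQ
  have hcc : Continuous fun p : ℝ × EuclideanSpace ℝ (Fin n) => ⟪H (p.2 + p.1 • v), v⟫ :=
    (hH.comp (by fun_prop)).inner continuous_const
  obtain ⟨C, hC⟩ := ((isCompact_Icc (a := (-1 : ℝ)) (b := 1)).prod hK).exists_bound_of_continuousOn
    hcc.continuousOn
  have key := hasDerivAt_integral_of_dominated_loc_of_deriv_le (μ := volume.restrict Q)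
    (F := fun (t : ℝ) y => h (y + t • v)) (x₀ := 0) (s := Set.Icc (-1 : ℝ) 1)
    (F' := fun t y => ⟪H (y + t • v), v⟫) (bound := fun _ => C)
    (Icc_mem_nhds (by norm_num) (by norm_num))
    (Filter.Eventually.of_forall fun t => (hhc.comp (by fun_prop)).aestronglyMeasurable)
    (hint (by fun_prop)) (hcc.comp (by fun_prop : Continuous fun y =>
      ((0 : ℝ), y))).aestronglyMeasurable
    ((ae_restrict_iff' hQm).2 (Filter.Eventually.of_forall fun y hy t ht => hC (t, y)
      ⟨ht, ⟨fun i => (hy i).1, fun i => (hy i).2.le⟩⟩))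
    (hint continuous_const)
    (Filter.Eventually.of_forall fun y t _ => by
      have h1 : HasDerivAt (fun t : ℝ => y + t • v) v t := by
        simpa using ((hasDerivAt_id t).smul_const v).const_add y
      have h2 := (hh (y + t • v)).hasFDerivAt.comp_hasDerivAt t h1
      simp only [InnerProductSpace.toDual_apply_apply] at h2
      exact h2)
  have h3 : (fun t : ℝ => ∫ y in Q, h (y + t • v)) = fun _ => ∫ y in Q, h y := by
    funext t
    exact cube_translate hhc hper (t • v)
  have h4 := key.2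
  rw [h3] at h4
  have h5 := h4.unique (hasDerivAt_const (0 : ℝ) _)
  simpa using h5

end Pool.Agent.H33.AM
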