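import Pool.Agent.H33.AM.P.V4
import Pool.Agent.H33.AM.P.V5a

/-!
# Module V5: the magnetic potential

* `exists_avK_A_ne`: suppose not. Then for every `k ≠ 0` and `P` with `dot k P = 0`, all the
  coefficients `∫_cube ⟪A, zv P⟫ cos(2π ⟪k, ·⟫ + φ)` vanish (`primitive`, `cos_coeff`; `∫₀¹ const ·
  cos(2π d θ + φ) = 0` for `d ≠ 0`). With `P = k_j e_i - k_i e_j`:
  `k_j ∫ A_i cos(..) = k_i ∫ A_j cos(..)`. For `g = ⟪A' x v, w⟫ - ⟪A' x w, v⟫` one has, by `cube_deriv`
  applied to `⟪A, w⟫ cos(2π ⟪k, ·⟫ + φ)`,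
  `∫ ⟪A' x v, w⟫ cos(..) = 2π ⟪k, v⟫ ∫ ⟪A, w⟫ sin(..)`, so all the coefficients of `g` with
  `k ≠ 0` vanish and `g` is constant (`const_of_coeff`), and the constant is `∫_cube g = 0`
  (`cube_deriv`). So `A' x` is symmetric for every `x`: contradiction.
-/

set_option autoImplicit false

open MeasureTheory
open scoped RealInnerProductSpace

namespace Pool.Agent.H33.AM

variable {n : ℕ}

private theorem V5b_cube_subset :
    {y : EuclideanSpace ℝ (Fin n) | ∀ i, y i ∈ Set.Ico (0 : ℝ) 1} ⊆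
      Metric.closedBall 0 (Real.sqrt n) := by
  intro y hy
  rw [mem_closedBall_zero_iff, EuclideanSpace.norm_eq]
  refine Real.sqrt_le_sqrt ?_
  calc ∑ j, ‖y j‖ ^ 2 ≤ ∑ j : Fin n, (1 : ℝ) := by
        refine Finset.sum_le_sum fun j _ => ?_
        have := hy j
        rw [Real.norm_eq_abs, sq_abs]
        nlinarith [this.1, this.2]
    _ = n := by simp

private theorem V5b_int {F : Type*} [NormedAddCommGroup F] {g : EuclideanSpace ℝ (Fin n) → F}
    (hg : Continuous g) :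
    IntegrableOn g {y : EuclideanSpace ℝ (Fin n) | ∀ i, y i ∈ Set.Ico (0 : ℝ) 1} volume :=
  (hg.continuousOn.integrableOn_compact (isCompact_closedBall 0 (Real.sqrt n))).mono_set
    V5b_cube_subset

private theorem V5b_A_cont {A : EuclideanSpace ℝ (Fin n) → EuclideanSpace ℝ (Fin n)}
    {A' : EuclideanSpace ℝ (Fin n) → EuclideanSpace ℝ (Fin n) →L[ℝ] EuclideanSpace ℝ (Fin n)}
    {B : ℝ} (hA : HA A A' B) : Continuous A :=
  continuous_iff_continuousAt.2 fun v => (hA.der v).continuousAt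

private theorem V5b_A'_cont {A : EuclideanSpace ℝ (Fin n) → EuclideanSpace ℝ (Fin n)}
    {A' : EuclideanSpace ℝ (Fin n) → EuclideanSpace ℝ (Fin n) →L[ℝ] EuclideanSpace ℝ (Fin n)}
    {B : ℝ} (hA : HA A A' B) : Continuous A' := by
  have h : LipschitzWith (Real.toNNReal B) A' := by
    refine LipschitzWith.of_dist_le' fun x y => ?_
    rw [dist_eq_norm, dist_eq_norm]
    exact hA.lip x y
  exact h.continuous

private theorem V5b_A'_per {A : EuclideanSpace ℝ (Fin n) → EuclideanSpace ℝ (Fin n)}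
    {A' : EuclideanSpace ℝ (Fin n) → EuclideanSpace ℝ (Fin n) →L[ℝ] EuclideanSpace ℝ (Fin n)}
    {B : ℝ} (hA : HA A A' B) (x : EuclideanSpace ℝ (Fin n)) (k : Fin n → ℤ) :
    A' (x + zv k) = A' x := by
  have h1 : HasFDerivAt (fun y => A (y + zv k)) (A' (x + zv k)) x := by
    have h2 := (hA.der (x + zv k)).comp x ((hasFDerivAt_id x).add_const (zv k))
    simpa [Function.comp_def] using h2
  have h3 : (fun y => A (y + zv k)) = A := by
    funext y
    exact hA.per y k
  rw [h3] at h1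
  exact h1.unique (hA.der x)

private theorem V5b_cos_per (k l : Fin n → ℤ) (φ : ℝ) (x : EuclideanSpace ℝ (Fin n)) :
    Real.cos (2 * Real.pi * ⟪zv k, x + zv l⟫ + φ) = Real.cos (2 * Real.pi * ⟪zv k, x⟫ + φ) := by
  rw [inner_add_right, inner_zv]
  have : 2 * Real.pi * (⟪zv k, x⟫ + (dot k l : ℝ)) + φ =
      2 * Real.pi * ⟪zv k, x⟫ + φ + (dot k l : ℝ) * (2 * Real.pi) := by ring
  rw [this, Real.cos_add_int_mul_two_pi]

private theorem V5b_parts {A : EuclideanSpace ℝ (Fin n) → EuclideanSpace ℝ (Fin n)}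
    {A' : EuclideanSpace ℝ (Fin n) → EuclideanSpace ℝ (Fin n) →L[ℝ] EuclideanSpace ℝ (Fin n)}
    {B : ℝ} (hA : HA A A' B) (k : Fin n → ℤ) (φ : ℝ) (v w : EuclideanSpace ℝ (Fin n)) :
    ∫ y in {y : EuclideanSpace ℝ (Fin n) | ∀ i, y i ∈ Set.Ico (0 : ℝ) 1},
      ⟪A' y v, w⟫ * Real.cos (2 * Real.pi * ⟪zv k, y⟫ + φ) =
    2 * Real.pi * ⟪zv k, v⟫ *
      ∫ y in {y : EuclideanSpace ℝ (Fin n) | ∀ i, y i ∈ Set.Ico (0 : ℝ) 1},
        ⟪A y, w⟫ * Real.sin (2 * Real.pi * ⟪zv k, y⟫ + φ) := by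
  have cA := V5b_A_cont hA
  have cA' := V5b_A'_cont hA
  have ccos : Continuous fun y : EuclideanSpace ℝ (Fin n) =>
      Real.cos (2 * Real.pi * ⟪zv k, y⟫ + φ) := by fun_prop
  have csin : Continuous fun y : EuclideanSpace ℝ (Fin n) =>
      Real.sin (2 * Real.pi * ⟪zv k, y⟫ + φ) := by fun_prop
  set h : EuclideanSpace ℝ (Fin n) → ℝ := fun y =>
    ⟪w, A y⟫ * Real.cos (2 * Real.pi * ⟪zv k, y⟫ + φ) with hh
  set H : EuclideanSpace ℝ (Fin n) → EuclideanSpace ℝ (Fin n) := fun y =>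
    Real.cos (2 * Real.pi * ⟪zv k, y⟫ + φ) • ContinuousLinearMap.adjoint (A' y) w -
      (2 * Real.pi * (⟪w, A y⟫ * Real.sin (2 * Real.pi * ⟪zv k, y⟫ + φ))) • zv k with hH
  have hgrad : ∀ x, HasGradientAt h (H x) x := by
    intro x
    rw [hasGradientAt_iff_hasFDerivAt]
    have h1 : HasFDerivAt (fun y => ⟪w, A y⟫) ((innerSL ℝ w).comp (A' x)) x :=
      (innerSL ℝ w).hasFDerivAt.comp x (hA.der x)
    have h2 : HasFDerivAt (fun y : EuclideanSpace ℝ (Fin n) => 2 * Real.pi * ⟪zv k, y⟫ + φ)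
        ((2 * Real.pi) • (innerSL ℝ (zv k))) x :=
      (((innerSL ℝ (zv k)).hasFDerivAt (x := x)).const_mul (2 * Real.pi)).add_const φ
    have h3 := h1.mul h2.cos
    refine h3.congr_fderiv ?_
    ext u
    simp only [add_apply, smul_apply, smul_eq_mul,
      ContinuousLinearMap.comp_apply, innerSL_apply_apply, InnerProductSpace.toDual_apply_apply, hH,
      inner_sub_left, inner_smul_left, ContinuousLinearMap.adjoint_inner_left, Real.ringHom_apply]
    ring
  have hHc : Continuous H := by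
    have h1 : Continuous fun y => ContinuousLinearMap.adjoint (A' y) w :=
      (ContinuousLinearMap.adjoint.continuous.comp cA').clm_apply continuous_const
    have h2 : Continuous fun y =>
        2 * Real.pi * (⟪w, A y⟫ * Real.sin (2 * Real.pi * ⟪zv k, y⟫ + φ)) :=
      continuous_const.mul ((continuous_const.inner cA).mul csin)
    exact (ccos.fun_smul h1).fun_sub (h2.fun_smul continuous_const)
  have hper : ∀ x (l : Fin n → ℤ), h (x + zv l) = h x := by
    intro x l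
    simp only [hh, hA.per, V5b_cos_per]
  have hz := cube_deriv hgrad hHc hper v
  have he : ∀ y, ⟪H y, v⟫ = ⟪A' y v, w⟫ * Real.cos (2 * Real.pi * ⟪zv k, y⟫ + φ) -
      2 * Real.pi * ⟪zv k, v⟫ * (⟪A y, w⟫ * Real.sin (2 * Real.pi * ⟪zv k, y⟫ + φ)) := by
    intro y
    simp only [hH, inner_sub_left, inner_smul_left, ContinuousLinearMap.adjoint_inner_left,
      RCLike.conj_to_real]
    rw [real_inner_comm w (A' y v), real_inner_comm w (A y)]
    ring
  simp only [he] at hz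
  rw [integral_sub, integral_const_mul] at hz
  · linarith
  · refine V5b_int ?_
    exact ((cA'.clm_apply continuous_const).inner continuous_const).mul ccos
  · refine V5b_int ?_
    exact continuous_const.mul ((cA.inner continuous_const).mul csin)

private theorem V5b_int_cos {d : ℤ} (hd : d ≠ 0) (φ c : ℝ) :
    ∫ θ in (0 : ℝ)..1, c * Real.cos (2 * Real.pi * ((d : ℝ) * θ) + φ) = 0 := by
  rw [intervalIntegral.integral_const_mul]
  have hd' : (d : ℝ) ≠ 0 := by exact_mod_cast hd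
  have hc : 2 * Real.pi * (d : ℝ) ≠ 0 := by positivity
  have h1 : ∀ θ : ℝ, Real.cos (2 * Real.pi * ((d : ℝ) * θ) + φ) =
      Real.cos (2 * Real.pi * (d : ℝ) * θ + φ) := by
    intro θ
    congr 1
    ring
  simp only [h1]
  rw [intervalIntegral.integral_comp_mul_add (fun x => Real.cos x) hc φ, integral_cos]
  have h2 : 2 * Real.pi * (d : ℝ) * 1 + φ = φ + (d : ℝ) * (2 * Real.pi) := by ring
  rw [h2, Real.sin_add_int_mul_two_pi]
  simp

theorem exists_avK_A_ne {A : EuclideanSpace ℝ (Fin n) → EuclideanSpace ℝ (Fin n)}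
    {A' : EuclideanSpace ℝ (Fin n) → EuclideanSpace ℝ (Fin n) →L[ℝ] EuclideanSpace ℝ (Fin n)}
    {B : ℝ} (hA : HA A A' B) (hns : ∃ x v w, ⟪A' x v, w⟫ ≠ ⟪A' x w, v⟫) :
    ∃ k₀ m P₀ : Fin n → ℤ, dot k₀ m = 1 ∧ dot k₀ P₀ = 0 ∧
      ∃ θ θ', avK (fun x => ⟪A x, zv P₀⟫) k₀ m θ ≠ avK (fun x => ⟪A x, zv P₀⟫) k₀ m θ' := by
  by_contra hcon
  push Not at hcon
  have cA := V5b_A_cont hA
  have cA' := V5b_A'_cont hA
  -- the coefficients of `⟪A, P⟫`
  have hcoef : ∀ (k P : Fin n → ℤ) (φ : ℝ), k ≠ 0 → dot k P = 0 →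
      ∫ y in {y : EuclideanSpace ℝ (Fin n) | ∀ i, y i ∈ Set.Ico (0 : ℝ) 1},
        ⟪A y, zv P⟫ * Real.cos (2 * Real.pi * ⟪zv k, y⟫ + φ) = 0 := by
    intro k P φ hk hkP
    obtain ⟨d, k₀, m, hd, rfl, hkm⟩ := primitive hk
    have h1 : dot k₀ P = 0 := by
      have h2 : dot (d • k₀) P = d * dot k₀ P := by
        unfold dot
        rw [Finset.mul_sum]
        refine Finset.sum_congr rfl fun i _ => ?_
        simp only [Pi.smul_apply, smul_eq_mul]
        ring
      rw [h2] at hkP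
      exact (mul_eq_zero.1 hkP).resolve_left hd
    have h3 := cos_coeff hkm (g := fun x => ⟪A x, zv P⟫) (cA.inner continuous_const)
      (fun x l => by simp only [hA.per]) d φ
    rw [h3]
    have h4 : ∀ θ, avK (fun x => ⟪A x, zv P⟫) k₀ m θ = avK (fun x => ⟪A x, zv P⟫) k₀ m 0 :=
      fun θ => hcon k₀ m P hkm h1 θ 0
    simp only [h4]
    exact V5b_int_cos hd φ _
  -- the symmetry of the coefficients
  have hsymm : ∀ (k : Fin n → ℤ) (φ : ℝ) (v w : EuclideanSpace ℝ (Fin n)), k ≠ 0 →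
      ⟪zv k, v⟫ * (∫ y in {y : EuclideanSpace ℝ (Fin n) | ∀ i, y i ∈ Set.Ico (0 : ℝ) 1},
        ⟪A y, w⟫ * Real.cos (2 * Real.pi * ⟪zv k, y⟫ + φ)) =
      ⟪zv k, w⟫ * (∫ y in {y : EuclideanSpace ℝ (Fin n) | ∀ i, y i ∈ Set.Ico (0 : ℝ) 1},
        ⟪A y, v⟫ * Real.cos (2 * Real.pi * ⟪zv k, y⟫ + φ)) := by
    intro k φ v w hk
    set a : EuclideanSpace ℝ (Fin n) :=
      ∫ y in {y : EuclideanSpace ℝ (Fin n) | ∀ i, y i ∈ Set.Ico (0 : ℝ) 1},
        Real.cos (2 * Real.pi * ⟪zv k, y⟫ + φ) • A y with ha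
    have hia : IntegrableOn (fun y => Real.cos (2 * Real.pi * ⟪zv k, y⟫ + φ) • A y)
        {y : EuclideanSpace ℝ (Fin n) | ∀ i, y i ∈ Set.Ico (0 : ℝ) 1} volume := by
      refine V5b_int (Continuous.fun_smul ?_ cA)
      fun_prop
    have h1 : ∀ u : EuclideanSpace ℝ (Fin n),
        ∫ y in {y : EuclideanSpace ℝ (Fin n) | ∀ i, y i ∈ Set.Ico (0 : ℝ) 1},
        ⟪A y, u⟫ * Real.cos (2 * Real.pi * ⟪zv k, y⟫ + φ) = ⟪u, a⟫ := by
      intro u
      rw [ha, ← integral_inner hia u]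
      refine integral_congr_ae (Filter.Eventually.of_forall fun y => ?_)
      simp only [inner_smul_right]
      rw [real_inner_comm u (A y)]
      ring
    rw [h1, h1]
    have h2 : ∀ i j, (k j : ℝ) * a i = (k i : ℝ) * a j := by
      intro i j
      set P : Fin n → ℤ := k j • Pi.single i 1 - k i • Pi.single j 1 with hP
      have h3 : dot k P = 0 := by
        unfold dot
        simp only [hP, Pi.sub_apply, Pi.smul_apply, smul_eq_mul, mul_sub, Finset.sum_sub_distrib]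
        simp only [Pi.single_apply, mul_ite, mul_one, mul_zero, Finset.sum_ite_eq',
          Finset.mem_univ, if_true]
        ring
      have h4 := hcoef k P φ hk h3
      rw [h1] at h4
      have h5 : ⟪zv P, a⟫ = (k j : ℝ) * a i - (k i : ℝ) * a j := by
        rw [PiLp.inner_apply]
        simp only [zv, hP, Pi.sub_apply, Pi.smul_apply, smul_eq_mul, Int.cast_sub, Int.cast_mul,
          RCLike.inner_apply, conj_trivial, mul_sub, Finset.sum_sub_distrib]
        simp only [Pi.single_apply, Int.cast_ite, Int.cast_one, Int.cast_zero, mul_ite, mul_one,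
          mul_zero, Finset.sum_ite_eq', Finset.mem_univ, if_true]
        ring
      linarith
    have h6 : ∀ u u' : EuclideanSpace ℝ (Fin n), ⟪zv k, u⟫ * ⟪u', a⟫ =
        ∑ j, ∑ i, (u j * u' i) * ((k j : ℝ) * a i) := by
      intro u u'
      rw [PiLp.inner_apply, PiLp.inner_apply, Finset.sum_mul_sum]
      refine Finset.sum_congr rfl fun j _ => Finset.sum_congr rfl fun i _ => ?_
      simp only [zv, RCLike.inner_apply, conj_trivial]
      ring
    rw [h6, h6, Finset.sum_comm]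
    refine Finset.sum_congr rfl fun i _ => Finset.sum_congr rfl fun j _ => ?_
    rw [h2]
    ring
  obtain ⟨x₀, v, w, hne⟩ := hns
  set g : EuclideanSpace ℝ (Fin n) → ℝ := fun x => ⟪A' x v, w⟫ - ⟪A' x w, v⟫ with hg
  have gc1 : Continuous fun x => ⟪A' x v, w⟫ :=
    (cA'.clm_apply continuous_const).inner continuous_const
  have gc2 : Continuous fun x => ⟪A' x w, v⟫ :=
    (cA'.clm_apply continuous_const).inner continuous_const
  have gc : Continuous g := gc1.sub gc2
  have gper : ∀ x (k : Fin n → ℤ), g (x + zv k) = g x := by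
    intro x k
    simp only [hg, V5b_A'_per hA]
  have hgc : ∀ (k : Fin n → ℤ) (φ : ℝ),
      ∫ y in {y : EuclideanSpace ℝ (Fin n) | ∀ i, y i ∈ Set.Ico (0 : ℝ) 1},
        g y * Real.cos (2 * Real.pi * ⟪zv k, y⟫ + φ) = 0 := by
    intro k φ
    have ccos : Continuous fun y : EuclideanSpace ℝ (Fin n) =>
      Real.cos (2 * Real.pi * ⟪zv k, y⟫ + φ) := by fun_prop
    have h1 : ∀ y, g y * Real.cos (2 * Real.pi * ⟪zv k, y⟫ + φ) =
        ⟪A' y v, w⟫ * Real.cos (2 * Real.pi * ⟪zv k, y⟫ + φ) -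
          ⟪A' y w, v⟫ * Real.cos (2 * Real.pi * ⟪zv k, y⟫ + φ) := by
      intro y
      simp only [hg]
      ring
    simp only [h1]
    rw [integral_sub (V5b_int (gc1.fun_mul ccos)) (V5b_int (gc2.fun_mul ccos)), V5b_parts hA,
      V5b_parts hA]
    by_cases hk : k = 0
    · rw [hk, zv_zero]
      simp
    · have h2 := hsymm k (φ - Real.pi / 2) v w hk
      have h3 : ∀ y : EuclideanSpace ℝ (Fin n),
          Real.cos (2 * Real.pi * ⟪zv k, y⟫ + (φ - Real.pi / 2)) =
          Real.sin (2 * Real.pi * ⟪zv k, y⟫ + φ) := by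
        intro y
        rw [← Real.cos_sub_pi_div_two]
        congr 1
        ring
      simp only [h3] at h2
      linear_combination (2 * Real.pi) * h2
  have hconst := const_of_coeff gc gper fun k φ _ => hgc k φ
  have h0 := hgc 0 0
  have h1 : ∀ y : EuclideanSpace ℝ (Fin n),
      g y * Real.cos (2 * Real.pi * ⟪zv (0 : Fin n → ℤ), y⟫ + 0) = g x₀ := by
    intro y
    rw [zv_zero]
    simp [hconst y x₀]
  simp only [h1] at h0
  rw [setIntegral_const, Measure.real, cube_vol] at h0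
  simp only [ENNReal.toReal_one, one_smul] at h0
  exact hne (sub_eq_zero.1 h0)

end Pool.Agent.H33.AM
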