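import Pool.Agent.H33.AM.P.V4
import Pool.Agent.H33.AM.P.V5a
import Pool.Agent.H33.AM.P.V5b

/-!
# Module V5: the magnetic potential

* `cube_deriv`: if `h` is `C¹` and periodic, `∫_cube ⟪∇h, v⟫ = 0`: differentiate the constant function
  `t ↦ ∫_cube h(y + t v)` (`cube_translate`) at `t = 0`.
* `exists_avK_A_ne`: suppose not. Then for every `k ≠ 0` and `P` with `dot k P = 0`, all the
  coefficients `∫_cube ⟪A, zv P⟫ cos(2π ⟪k, ·⟫ + φ)` vanish (`primitive`, `cos_coeff`; `∫₀¹ const ·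
  cos(2π d θ + φ) = 0` for `d ≠ 0`). With `P = k_j e_i - k_i e_j`:
  `k_j ∫ A_i cos(..) = k_i ∫ A_j cos(..)`. For `g = ∂_j A_i - ∂_i A_j` one has, by `cube_deriv` applied to
  `A_i cos(2π ⟪k, ·⟫ + φ)`, `∫ ∂_j A_i cos(..) = 2π k_j ∫ A_i sin(..)`, so all the coefficients of `g` with
  `k ≠ 0` vanish and `g` is constant (`const_of_coeff`), and the constant is `∫_cube g = 0`
  (`cube_deriv`). So `A' x` is symmetric for every `x`: contradiction.
* `exists_grad`: Poincaré's lemma (see `Mathlib/MeasureTheory/Integral/CurveIntegral/Poincare.lean`, or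
  directly `h(x) = ∫₀¹ ⟪A(t x), x⟫ dt`): there is `h` with `∇h = A`; `h(x + zv k) - h(x)` is constant in
  `x` and additive in `k`, so it is `⟪a₀, zv k⟫`; put `f = h - ⟪a₀, ·⟫`.
-/

set_option autoImplicit false

open MeasureTheory
open scoped RealInnerProductSpace

namespace Pool.Agent.H33.AM

variable {n : ℕ}

private lemma prim {A : EuclideanSpace ℝ (Fin n) → EuclideanSpace ℝ (Fin n)}
    {A' : EuclideanSpace ℝ (Fin n) → EuclideanSpace ℝ (Fin n) →L[ℝ] EuclideanSpace ℝ (Fin n)}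
    {B : ℝ} (hA : HA A A' B) (hs : ∀ x v w, ⟪A' x v, w⟫ = ⟪A' x w, v⟫) :
    ∃ h : EuclideanSpace ℝ (Fin n) → ℝ, ∀ x, HasGradientAt h (A x) x := by
  set ω : EuclideanSpace ℝ (Fin n) → (EuclideanSpace ℝ (Fin n) →L[ℝ] ℝ) := fun x =>
    ∑ i, (A x i) • (EuclideanSpace.proj i : EuclideanSpace ℝ (Fin n) →L[ℝ] ℝ) with hω
  have hωa : ∀ x w, ω x w = ⟪A x, w⟫ := by
    intro x w
    simp only [hω, _root_.sum_apply, _root_.smul_apply,
      PiLp.proj_apply, smul_eq_mul, PiLp.inner_apply]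
    apply Finset.sum_congr rfl
    intro i _
    simp [mul_comm]
  have hωd : ∀ x, HasFDerivAt ω (∑ i, ((EuclideanSpace.proj i :
      EuclideanSpace ℝ (Fin n) →L[ℝ] ℝ).comp (A' x)).smulRight
        (EuclideanSpace.proj i : EuclideanSpace ℝ (Fin n) →L[ℝ] ℝ)) x := by
    intro x
    simp only [hω]
    apply HasFDerivAt.fun_sum
    intro i _
    have h1 : HasFDerivAt (fun y => (A y) i) ((EuclideanSpace.proj i :
      EuclideanSpace ℝ (Fin n) →L[ℝ] ℝ).comp (A' x)) x :=
      ((EuclideanSpace.proj i : EuclideanSpace ℝ (Fin n) →L[ℝ] ℝ).hasFDerivAt).comp x (hA.der x)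
    exact h1.smul_const (EuclideanSpace.proj i : EuclideanSpace ℝ (Fin n) →L[ℝ] ℝ)
  have hωs : ∀ x v w, fderiv ℝ ω x v w = ⟪A' x v, w⟫ := by
    intro x v w
    rw [(hωd x).fderiv]
    simp only [_root_.sum_apply, ContinuousLinearMap.smulRight_apply,
      ContinuousLinearMap.comp_apply, _root_.smul_apply,
      PiLp.proj_apply, smul_eq_mul, PiLp.inner_apply]
    apply Finset.sum_congr rfl
    intro i _
    simp [mul_comm]
  obtain ⟨h, hh⟩ := (convex_univ (E := EuclideanSpace ℝ (Fin n))).exists_forall_hasFDerivAt_of_fderiv_symmetric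
    (ω := ω) isOpen_univ (fun x _ => (hωd x).differentiableAt.differentiableWithinAt)
    (fun x _ v w => by rw [hωs, hωs, hs])
  refine ⟨h, fun x => ?_⟩
  have h1 := hh x (Set.mem_univ x)
  have h2 : ω x = (InnerProductSpace.toDual ℝ (EuclideanSpace ℝ (Fin n))) (A x) := by
    ext w
    rw [hωa]
    simp
  rw [h2] at h1
  exact h1

private lemma bdd_per {f : EuclideanSpace ℝ (Fin n) → ℝ} (hf : Continuous f)
    (hper : ∀ x (k : Fin n → ℤ), f (x + zv k) = f x) : ∃ C, ∀ x, |f x| ≤ C := by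
  have hc : IsCompact (Set.univ.pi fun _ : Fin n => Set.Icc (0 : ℝ) 1) :=
    isCompact_univ_pi fun _ => isCompact_Icc
  have hg : Continuous fun y : Fin n → ℝ => f (WithLp.toLp 2 y) :=
    hf.comp (PiLp.continuous_toLp 2 _)
  obtain ⟨C, hC⟩ := hc.exists_bound_of_continuousOn hg.continuousOn
  refine ⟨C, fun x => ?_⟩
  set y : Fin n → ℝ := fun i => Int.fract (x i) with hy
  have h1 : x = WithLp.toLp 2 y + zv (fun i => ⌊x i⌋) := by
    ext i
    simp [hy, zv, Int.fract_add_floor]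
  rw [h1, hper]
  have h2 := hC y (fun i _ => ⟨Int.fract_nonneg _, (Int.fract_lt_one _).le⟩)
  rwa [Real.norm_eq_abs] at h2

theorem exists_grad {A : EuclideanSpace ℝ (Fin n) → EuclideanSpace ℝ (Fin n)}
    {A' : EuclideanSpace ℝ (Fin n) → EuclideanSpace ℝ (Fin n) →L[ℝ] EuclideanSpace ℝ (Fin n)}
    {B : ℝ} (hA : HA A A' B) (hs : ∀ x v w, ⟪A' x v, w⟫ = ⟪A' x w, v⟫) :
    ∃ (a₀ : EuclideanSpace ℝ (Fin n)) (f : EuclideanSpace ℝ (Fin n) → ℝ),
      (∀ x, HasGradientAt f (A x - a₀) x) ∧ (∀ x (k : Fin n → ℤ), f (x + zv k) = f x) ∧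
      ∃ C, ∀ x, |f x| ≤ C := by
  obtain ⟨h, hh⟩ := prim hA hs
  have hcont : Continuous h := continuous_iff_continuousAt.mpr fun x => (hh x).continuousAt
  have hconst : ∀ (k : Fin n → ℤ) x, h (x + zv k) - h x = h (zv k) - h 0 := by
    intro k x
    have hd : ∀ y, HasFDerivAt (fun y => h (y + zv k) - h y)
        (0 : EuclideanSpace ℝ (Fin n) →L[ℝ] ℝ) y := by
      intro y
      have h1 := (hh (y + zv k)).hasFDerivAt
      have h4 : HasFDerivAt (fun y : EuclideanSpace ℝ (Fin n) => y + zv k)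
        (ContinuousLinearMap.id ℝ _) y := (hasFDerivAt_id y).add_const _
      have h5 := h1.comp y h4
      rw [ContinuousLinearMap.comp_id, hA.per] at h5
      have h6 := h5.sub (hh y).hasFDerivAt
      rw [sub_self] at h6
      exact h6
    have := is_const_of_fderiv_eq_zero (𝕜 := ℝ) (fun y => (hd y).differentiableAt)
      (fun y => (hd y).fderiv) x 0
    simp only [zero_add] at this
    exact this
  have hz0 : zv (0 : Fin n → ℤ) = 0 := zv_zero
  set ρ : (Fin n → ℤ) →+ ℝ :=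
    { toFun := fun k => h (zv k) - h 0
      map_zero' := by rw [hz0, sub_self]
      map_add' := by
        intro k l
        have h1 := hconst l (zv k)
        rw [← zv_add] at h1
        linarith } with hρ
  have hρa : ∀ k, ρ k = h (zv k) - h 0 := fun k => rfl
  set a₀ : EuclideanSpace ℝ (Fin n) := WithLp.toLp 2 fun i => ρ (Pi.single i 1) with ha₀
  have ha : ∀ k : Fin n → ℤ, ⟪a₀, zv k⟫ = ρ k := by
    intro k
    have h1 : k = ∑ i, k i • (Pi.single i (1 : ℤ) : Fin n → ℤ) := by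
      ext j
      simp [Finset.sum_apply, Pi.single_apply]
    have h2 : ρ k = ∑ i, (k i : ℝ) * ρ (Pi.single i 1) := by
      conv_lhs => rw [h1]
      rw [map_sum]
      apply Finset.sum_congr rfl
      intro i _
      rw [map_zsmul, zsmul_eq_mul]
    rw [h2]
    simp only [PiLp.inner_apply, ha₀, zv]
    apply Finset.sum_congr rfl
    intro i _
    simp [mul_comm]
  have hper : ∀ x (k : Fin n → ℤ), h (x + zv k) - ⟪a₀, x + zv k⟫ = h x - ⟪a₀, x⟫ := by
    intro x k
    rw [inner_add_right, ha, hρa]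
    have := hconst k x
    linarith
  refine ⟨a₀, fun x => h x - ⟪a₀, x⟫, ?_, hper, ?_⟩
  · intro x
    have h1 : HasFDerivAt (fun x => ⟪a₀, x⟫)
        ((InnerProductSpace.toDual ℝ (EuclideanSpace ℝ (Fin n))) a₀) x := by
      have := ((InnerProductSpace.toDual ℝ (EuclideanSpace ℝ (Fin n))) a₀).hasFDerivAt (x := x)
      refine this.congr_of_eventuallyEq (Filter.Eventually.of_forall fun y => ?_)
      simp
    have h2 := (hh x).hasFDerivAt.sub h1
    rw [← map_sub] at h2
    exact h2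
  · apply bdd_per _ hper
    exact hcont.sub (continuous_const.inner continuous_id)

end Pool.Agent.H33.AM
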