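import Pool.Agent.H33.AM.Basic

/-!
# Module R2: curves (`Adm`): integrability, the fundamental theorem of calculus, operations

Hints.
* `integrable`: on `Ioc a b` the curve `x` is a.e.-strongly measurable (continuous on a measurable
  set), `u` is measurable, and `(x t, u t)` stays in a compact set, on which `g` is bounded.
* `integral_grad`: apply
  `MeasureTheory.integral_eq_of_hasDerivAt_off_countable_of_le` (or
  `intervalIntegral.integral_eq_sub_of_hasDerivAt_off_countable_of_le`, look for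
  `integral_eq_of_hasDerivWithinAt_off_countable`) to `g ∘ x`.
* `concat`: `x'' t = if t ≤ T then x t else x' (t - T)`, likewise `u''`; the exceptional set is
  `s ∪ (T + s') ∪ {T}`.
-/

set_option autoImplicit false

open MeasureTheory
open scoped RealInnerProductSpace

namespace Pool.Agent.H33.AM

variable {n : ℕ}

theorem Adm.integrable {a b : ℝ} {x u : ℝ → EuclideanSpace ℝ (Fin n)} (h : Adm a b x u)
    {g : EuclideanSpace ℝ (Fin n) × EuclideanSpace ℝ (Fin n) → ℝ} (hg : Continuous g) :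
    IntervalIntegrable (fun t => g (x t, u t)) volume a b := by
  obtain ⟨R, hR⟩ := h.bd
  rw [intervalIntegrable_iff_integrableOn_Icc_of_le h.le]
  have hxm : AEStronglyMeasurable x (volume.restrict (Set.Icc a b)) :=
    h.cont.aestronglyMeasurable measurableSet_Icc
  have hum : AEStronglyMeasurable u (volume.restrict (Set.Icc a b)) :=
    h.meas.aestronglyMeasurable
  have hK : IsCompact ((x '' Set.Icc a b) ×ˢ
      (Metric.closedBall (0 : EuclideanSpace ℝ (Fin n)) R)) :=
    (isCompact_Icc.image_of_continuousOn h.cont).prod (isCompact_closedBall 0 R)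
  obtain ⟨C, hC⟩ := hK.exists_bound_of_continuousOn hg.continuousOn
  refine ⟨hg.comp_aestronglyMeasurable (hxm.prodMk hum),
    HasFiniteIntegral.restrict_of_bounded (C := C) measure_Icc_lt_top ?_⟩
  refine (ae_restrict_iff' measurableSet_Icc).2 (Filter.Eventually.of_forall fun t ht => ?_)
  refine hC _ ⟨Set.mem_image_of_mem x ht, ?_⟩
  simpa using hR t

theorem Adm.integral_grad {a b : ℝ} {x u : ℝ → EuclideanSpace ℝ (Fin n)} (h : Adm a b x u)
    {g : EuclideanSpace ℝ (Fin n) → ℝ} {G : EuclideanSpace ℝ (Fin n) → EuclideanSpace ℝ (Fin n)}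
    (hg : ∀ y, HasGradientAt g (G y) y) (hG : Continuous G) :
    ∫ t in a..b, ⟪G (x t), u t⟫ = g (x b) - g (x a) := by
  obtain ⟨s, hs, hd⟩ := h.der
  have hgc : Continuous g := continuous_iff_continuousAt.2 fun y => (hg y).continuousAt
  have hgi : Continuous fun p : EuclideanSpace ℝ (Fin n) × EuclideanSpace ℝ (Fin n) =>
      ⟪G p.1, p.2⟫ := (hG.comp continuous_fst).inner continuous_snd
  refine MeasureTheory.integral_eq_of_hasDerivAt_off_countable_of_le (fun t => g (x t))
    (fun t => ⟪G (x t), u t⟫) h.le hs (hgc.comp_continuousOn h.cont) ?_ (h.integrable hgi)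
  intro t ht
  have h1 := (hg (x t)).hasFDerivAt.comp_hasDerivAt t (hd t ht)
  simp only [InnerProductSpace.toDual_apply_apply] at h1
  exact h1

theorem Adm.integral_inner {a b : ℝ} {x u : ℝ → EuclideanSpace ℝ (Fin n)} (h : Adm a b x u)
    (c : EuclideanSpace ℝ (Fin n)) : ∫ t in a..b, ⟪c, u t⟫ = ⟪c, x b⟫ - ⟪c, x a⟫ := by
  have h1 := h.integral_grad (g := fun y => ⟪c, y⟫) (G := fun _ => c) ?_ continuous_const
  · exact h1
  · intro y
    rw [hasGradientAt_iff_hasFDerivAt]
    exact (InnerProductSpace.toDual ℝ (EuclideanSpace ℝ (Fin n)) c).hasFDerivAt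

theorem Adm.sub {a b a' b' : ℝ} {x u : ℝ → EuclideanSpace ℝ (Fin n)} (h : Adm a b x u)
    (ha : a ≤ a') (hab : a' ≤ b') (hb : b' ≤ b) : Adm a' b' x u := by
  obtain ⟨s, hs, hd⟩ := h.der
  refine ⟨hab, h.cont.mono (Set.Icc_subset_Icc ha hb), ⟨s, hs, fun t ht => hd t ?_⟩, h.meas, h.bd⟩
  exact ⟨⟨ha.trans_lt ht.1.1, ht.1.2.trans_le hb⟩, ht.2⟩

theorem Adm.shift {a b : ℝ} {x u : ℝ → EuclideanSpace ℝ (Fin n)} (h : Adm a b x u) (c : ℝ) :
    Adm (a + c) (b + c) (fun t => x (t - c)) fun t => u (t - c) := by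
  obtain ⟨s, hs, hd⟩ := h.der
  refine ⟨by linarith [h.le], ?_, ⟨(fun t => t - c) ⁻¹' s, ?_, fun t ht => ?_⟩,
    h.meas.comp (measurable_id.sub_const c), ?_⟩
  · refine h.cont.comp (by fun_prop) fun t ht => ?_
    exact ⟨by linarith [ht.1], by linarith [ht.2]⟩
  · exact hs.preimage (sub_left_injective)
  · have h1 := hd (t - c) ⟨⟨by linarith [ht.1.1], by linarith [ht.1.2]⟩, ht.2⟩
    exact h1.comp_sub_const t c
  · obtain ⟨R, hR⟩ := h.bd
    exact ⟨R, fun t => hR _⟩

theorem Adm.add_const {a b : ℝ} {x u : ℝ → EuclideanSpace ℝ (Fin n)} (h : Adm a b x u)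
    (y : EuclideanSpace ℝ (Fin n)) : Adm a b (fun t => x t + y) u := by
  obtain ⟨s, hs, hd⟩ := h.der
  exact ⟨h.le, h.cont.add continuousOn_const, ⟨s, hs, fun t ht => (hd t ht).add_const y⟩,
    h.meas, h.bd⟩

/-- Straight lines. -/
theorem Adm.line {T : ℝ} (hT : 0 ≤ T) (x v : EuclideanSpace ℝ (Fin n)) :
    Adm 0 T (fun t => x + t • v) fun _ => v := by
  refine ⟨hT, by fun_prop, ⟨∅, Set.countable_empty, fun t _ => ?_⟩, measurable_const,
    ⟨‖v‖, fun _ => le_rfl⟩⟩
  simpa using ((hasDerivAt_id t).smul_const v).const_add x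

/-- Concatenation. -/
theorem Adm.concat {T T' : ℝ} {x u x' u' : ℝ → EuclideanSpace ℝ (Fin n)} (h : Adm 0 T x u)
    (h' : Adm 0 T' x' u') (hx : x T = x' 0) :
    ∃ x'' u'' : ℝ → EuclideanSpace ℝ (Fin n), Adm 0 (T + T') x'' u'' ∧
      (∀ t ≤ T, x'' t = x t ∧ u'' t = u t) ∧
      ∀ t > T, x'' t = x' (t - T) ∧ u'' t = u' (t - T) := by
  classical
  obtain ⟨s, hs, hd⟩ := h.der
  obtain ⟨s', hs', hd'⟩ := h'.der
  obtain ⟨R, hR⟩ := h.bd
  obtain ⟨R', hR'⟩ := h'.bd
  refine ⟨fun t => if t ≤ T then x t else x' (t - T), fun t => if t ≤ T then u t else u' (t - T),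
    ⟨add_nonneg h.le h'.le, ?_, ⟨s ∪ ((fun t => t - T) ⁻¹' s' ∪ {T}), ?_, ?_⟩, ?_, ?_⟩, ?_, ?_⟩
  · refine ContinuousOn.if' ?_ ?_ ?_ ?_
    · intro t ht
      have htT : t = T := by
        have h1 := frontier_Iic_subset T (by simpa [Set.Iic] using ht.2)
        simpa using h1
      subst htT
      have h1 : ContinuousWithinAt x (Set.Icc 0 t) t := h.cont t ⟨h.le, le_rfl⟩
      have h2 : x t = if t ≤ t then x t else x' (t - t) := by simp
      rw [← h2]
      refine h1.tendsto.mono_left (nhdsWithin_mono _ ?_)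
      rintro r ⟨hr, hr'⟩
      exact ⟨hr.1, hr'⟩
    · intro t ht
      have htT : t = T := by
        have h1 := frontier_Iic_subset T (by simpa [Set.Iic] using ht.2)
        simpa using h1
      subst htT
      have h1 : ContinuousWithinAt x' (Set.Icc 0 T') 0 := h'.cont 0 ⟨le_rfl, h'.le⟩
      have h2 : x' 0 = if t ≤ t then x t else x' (t - t) := by simp [hx]
      rw [← h2]
      have h3 : Filter.Tendsto (fun r : ℝ => r - t) (nhdsWithin t (Set.Icc 0 (t + T') ∩ {a | ¬a ≤ t}))
          (nhdsWithin 0 (Set.Icc 0 T')) := by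
        refine tendsto_nhdsWithin_iff.2 ⟨?_, ?_⟩
        · have : Filter.Tendsto (fun r : ℝ => r - t) (nhds t) (nhds (t - t)) :=
            (continuous_id.sub continuous_const).tendsto t
          rw [sub_self] at this
          exact this.mono_left nhdsWithin_le_nhds
        · filter_upwards [self_mem_nhdsWithin] with r hr
          have h4 : ¬ r ≤ t := hr.2
          exact ⟨by linarith [not_le.1 h4], by linarith [hr.1.2]⟩
      exact h1.tendsto.comp h3
    · refine h.cont.mono ?_
      rintro r ⟨hr, hr'⟩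
      exact ⟨hr.1, hr'⟩
    · refine h'.cont.comp (by fun_prop) ?_
      rintro r ⟨hr, hr'⟩
      have h4 : ¬ r ≤ T := hr'
      exact ⟨by linarith [not_le.1 h4], by linarith [hr.2]⟩
  · exact hs.union ((hs'.preimage sub_left_injective).union (Set.countable_singleton T))
  · intro t ht
    have ht1 : t ∉ s := fun h => ht.2 (Or.inl h)
    have ht2 : t - T ∉ s' := fun h => ht.2 (Or.inr (Or.inl h))
    have ht3 : t ≠ T := fun h => ht.2 (Or.inr (Or.inr h))
    rcases lt_or_gt_of_ne ht3 with hlt | hgt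
    · have h1 := hd t ⟨⟨ht.1.1, hlt⟩, ht1⟩
      have h2 : (fun t => if t ≤ T then x t else x' (t - T)) =ᶠ[nhds t] x := by
        filter_upwards [Iio_mem_nhds hlt] with r hr
        exact if_pos (le_of_lt hr)
      simp only [if_pos hlt.le]
      exact h1.congr_of_eventuallyEq h2
    · have h1 := (hd' (t - T) ⟨⟨by linarith, by linarith [ht.1.2]⟩, ht2⟩).comp_sub_const t T
      have h2 : (fun t => if t ≤ T then x t else x' (t - T)) =ᶠ[nhds t] fun t => x' (t - T) := by
        filter_upwards [Ioi_mem_nhds hgt] with r hr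
        exact if_neg (not_le.2 hr)
      simp only [if_neg (not_le.2 hgt)]
      exact h1.congr_of_eventuallyEq h2
  · exact Measurable.ite measurableSet_Iic h.meas (h'.meas.comp (measurable_id.sub_const T))
  · refine ⟨max R R', fun t => ?_⟩
    split_ifs
    · exact (hR t).trans (le_max_left _ _)
    · exact (hR' _).trans (le_max_right _ _)
  · intro t ht
    simp [ht]
  · intro t ht
    simp [not_le.2 ht]

end Pool.Agent.H33.AM
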