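import Pool.Agent.H33.AM.P.R1
import Pool.Agent.H33.AM.P.R2

/-!
# Module V1: replacing a function by its average over closed lines

* `avP_trap`: let `h(x) = ∫₀¹ (t - 1/2) g(x + t P) dt`, `H(x) = ∫₀¹ (t - 1/2) G(x + t P) dt = ∇h(x)`
  (differentiation under the integral, or: `G` is Lipschitz, so a direct estimate),
  `⟪H x, zv P⟫ = ∫₀¹ (t - 1/2) (d/dt) g(x + t P) dt = (g(x + P) + g(x))/2 - avP g P x = g(x) - avP g P x`,
  `|h| ≤ B`, `‖H‖ ≤ B`. With `ũ = u - s P`: `(d/dt) h(x(t)) = s (g - avP g P)(x(t)) + ⟪H, ũ⟫`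
  (`Adm.integral_grad`), so `s |∫ (g - avP g P)| ≤ 2 B + B ∫ ‖ũ‖`.
* `avP_cont`, `avP_per`: continuity and periodicity of `avP g P`.
-/

set_option autoImplicit false

open MeasureTheory
open scoped RealInnerProductSpace

namespace Pool.Agent.H33.AM

variable {n : ℕ}

theorem avP_cont {g : EuclideanSpace ℝ (Fin n) → ℝ} (hg : Continuous g) (P : Fin n → ℤ) :
    Continuous (avP g P) := by
  have h : Continuous fun x => ∫ t in (0 : ℝ)..1, g (x + t • zv P) :=
    intervalIntegral.continuous_parametric_intervalIntegral_of_continuous'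
      (f := fun (x : EuclideanSpace ℝ (Fin n)) (t : ℝ) => g (x + t • zv P))
      (hg.comp (continuous_fst.add (continuous_snd.smul continuous_const))) 0 1
  exact h

theorem avP_trap {g : EuclideanSpace ℝ (Fin n) → ℝ}
    {G : EuclideanSpace ℝ (Fin n) → EuclideanSpace ℝ (Fin n)} {B : ℝ}
    (hg : ∀ x, HasGradientAt g (G x) x) (hper : ∀ x (k : Fin n → ℤ), g (x + zv k) = g x)
    (hb : ∀ x, |g x| ≤ B) (hbG : ∀ x, ‖G x‖ ≤ B) (hlip : ∀ x y, ‖G x - G y‖ ≤ B * ‖x - y‖)
    (P : Fin n → ℤ) {s : ℝ} (hs : 0 < s) {a b : ℝ} {x u : ℝ → EuclideanSpace ℝ (Fin n)}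
    (h : Adm a b x u) :
    |(∫ t in a..b, g (x t)) - ∫ t in a..b, avP g P (x t)| ≤
      (2 * B + B * ∫ t in a..b, ‖u t - s • zv P‖) / s := by
  have hB : 0 ≤ B := (norm_nonneg _).trans (hbG 0)
  have hGc : Continuous G := (LipschitzWith.of_dist_le_mul (K := ⟨B, hB⟩) (fun x y => by
    rw [dist_eq_norm, dist_eq_norm]
    exact hlip x y)).continuous
  have hgc : Continuous g := continuous_iff_continuousAt.mpr fun x =>
    (hg x).differentiableAt.continuousAt
  obtain ⟨Q, hQ⟩ : ∃ Q, Q = zv P := ⟨_, rfl⟩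
  have hlc : Continuous fun p : EuclideanSpace ℝ (Fin n) × ℝ => p.1 + p.2 • Q :=
    continuous_fst.add (continuous_snd.smul continuous_const)
  have hline : ∀ y : EuclideanSpace ℝ (Fin n), Continuous fun t : ℝ => y + t • Q := fun y =>
    continuous_const.add (continuous_id.smul continuous_const)
  obtain ⟨h', hh'⟩ : ∃ h' : EuclideanSpace ℝ (Fin n) → ℝ,
      h' = fun y => ∫ t in (0 : ℝ)..1, (t - 1 / 2) * g (y + t • Q) := ⟨_, rfl⟩
  obtain ⟨H', hH'⟩ : ∃ H' : EuclideanSpace ℝ (Fin n) → EuclideanSpace ℝ (Fin n),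
      H' = fun y => ∫ t in (0 : ℝ)..1, (t - 1 / 2) • G (y + t • Q) := ⟨_, rfl⟩
  have hH'c : Continuous H' := by
    rw [hH']
    exact intervalIntegral.continuous_parametric_intervalIntegral_of_continuous'
      (f := fun (y : EuclideanSpace ℝ (Fin n)) (t : ℝ) => (t - 1 / 2) • G (y + t • Q))
      ((continuous_snd.sub continuous_const).smul (hGc.comp hlc)) 0 1
  have hφc : ∀ y, Continuous fun t : ℝ => (t - 1 / 2) • G (y + t • Q) := fun y =>
    (continuous_id.sub continuous_const).smul (hGc.comp (hline y))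
  have hinner : ∀ y v, ⟪H' y, v⟫ = ∫ t in (0 : ℝ)..1, (t - 1 / 2) * ⟪G (y + t • Q), v⟫ := by
    intro y v
    have h1 := (innerSL ℝ v).intervalIntegral_comp_comm
      ((hφc y).intervalIntegrable (μ := volume) 0 1)
    rw [hH', real_inner_comm]
    rw [innerSL_apply_apply] at h1
    rw [← h1]
    refine intervalIntegral.integral_congr (fun t _ => ?_)
    simp only [innerSL_apply_apply]
    rw [real_inner_smul_right, real_inner_comm]
  have hhalf : ∀ t ∈ Set.uIoc (0 : ℝ) 1, |t - 1 / 2| ≤ 1 := by
    intro t ht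
    rw [Set.uIoc_of_le zero_le_one] at ht
    rw [abs_le]
    constructor <;> linarith [ht.1, ht.2]
  have hgrad : ∀ y, HasGradientAt h' (H' y) y := by
    intro y
    rw [hasGradientAt_iff_hasFDerivAt]
    have h1 := intervalIntegral.hasFDerivAt_integral_of_dominated_of_fderiv_le
      (μ := volume) (a := 0) (b := 1) (s := Set.univ) (x₀ := y) (bound := fun _ => B)
      (F := fun (z : EuclideanSpace ℝ (Fin n)) (t : ℝ) => (t - 1 / 2) * g (z + t • Q))
      (F' := fun (z : EuclideanSpace ℝ (Fin n)) (t : ℝ) =>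
        (t - 1 / 2) • (InnerProductSpace.toDual ℝ (EuclideanSpace ℝ (Fin n)) (G (z + t • Q))))
      Filter.univ_mem
      (Filter.Eventually.of_forall fun z => ((continuous_id.sub continuous_const).mul
        (hgc.comp (hline z))).aestronglyMeasurable)
      (((continuous_id.sub continuous_const).mul (hgc.comp (hline y))).intervalIntegrable 0 1)
      (((continuous_id.sub continuous_const).smul
        ((InnerProductSpace.toDual ℝ (EuclideanSpace ℝ (Fin n))).continuous.comp
          (hGc.comp (hline y)))).aestronglyMeasurable)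
      (Filter.Eventually.of_forall fun t ht z _ => by
        rw [norm_smul, LinearIsometryEquiv.norm_map, Real.norm_eq_abs]
        calc |t - 1 / 2| * ‖G (z + t • Q)‖ ≤ 1 * B :=
              mul_le_mul (hhalf t ht) (hbG _) (norm_nonneg _) zero_le_one
          _ = B := one_mul B)
      (continuous_const.intervalIntegrable 0 1)
      (Filter.Eventually.of_forall fun t _ z _ => by
        have h2 : HasFDerivAt (fun w : EuclideanSpace ℝ (Fin n) => w + t • Q)
            (ContinuousLinearMap.id ℝ (EuclideanSpace ℝ (Fin n))) z :=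
          (hasFDerivAt_id z).add_const (t • Q)
        have h3 := (hg (z + t • Q)).hasFDerivAt.comp z h2
        rw [ContinuousLinearMap.comp_id] at h3
        exact h3.const_mul (t - 1 / 2))
    rw [hh']
    refine h1.congr_fderiv ?_
    ext v
    rw [ContinuousLinearMap.intervalIntegral_apply, InnerProductSpace.toDual_apply_apply, hinner]
    · refine intervalIntegral.integral_congr (fun t _ => ?_)
      simp only [smul_apply, InnerProductSpace.toDual_apply_apply, smul_eq_mul]
    · exact (((continuous_id.sub continuous_const).smul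
        ((InnerProductSpace.toDual ℝ (EuclideanSpace ℝ (Fin n))).continuous.comp
          (hGc.comp (hline y)))).intervalIntegrable 0 1)
  have hpar : ∀ y, ⟪H' y, Q⟫ = g y - avP g P y := by
    intro y
    rw [hinner]
    have hv : ∀ t : ℝ, HasDerivAt (fun t : ℝ => g (y + t • Q)) ⟪G (y + t • Q), Q⟫ t := by
      intro t
      have h2 : HasDerivAt (fun t : ℝ => y + t • Q) Q t := by
        have h3 := ((hasDerivAt_id t).smul_const Q).const_add y
        rw [one_smul] at h3
        exact h3
      have h4 := (hg (y + t • Q)).hasFDerivAt.comp_hasDerivAt t h2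
      rw [InnerProductSpace.toDual_apply_apply] at h4
      exact h4
    have hu : ∀ t : ℝ, HasDerivAt (fun t : ℝ => t - 1 / 2) 1 t := fun t =>
      (hasDerivAt_id t).sub_const (1 / 2)
    have h5 := intervalIntegral.integral_mul_deriv_eq_deriv_mul (a := 0) (b := 1)
      (u := fun t : ℝ => t - 1 / 2) (u' := fun _ => 1) (v := fun t : ℝ => g (y + t • Q))
      (v' := fun t => ⟪G (y + t • Q), Q⟫)
      (fun t _ => hu t) (fun t _ => hv t) (continuous_const.intervalIntegrable 0 1)
      (((hGc.comp (hline y)).inner continuous_const).intervalIntegrable 0 1)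
    rw [h5]
    have h6 : g (y + (1 : ℝ) • Q) = g y := by
      rw [one_smul, hQ]
      exact hper y P
    have h7 : (∫ t in (0 : ℝ)..1, (fun _ => (1 : ℝ)) t * g (y + t • Q)) = avP g P y := by
      simp only [one_mul, avP, hQ]
    simp only [h6, zero_smul, add_zero, one_mul]
    unfold avP
    rw [← hQ]
    ring
  have hb' : ∀ y, |h' y| ≤ B := by
    intro y
    rw [hh']
    have h1 := intervalIntegral.norm_integral_le_of_norm_le_const (a := 0) (b := 1) (C := B)
      (f := fun t : ℝ => (t - 1 / 2) * g (y + t • Q)) (fun t ht => by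
        rw [norm_mul, Real.norm_eq_abs, Real.norm_eq_abs]
        calc |t - 1 / 2| * |g (y + t • Q)| ≤ 1 * B :=
              mul_le_mul (hhalf t ht) (hb _) (abs_nonneg _) zero_le_one
          _ = B := one_mul B)
    rw [sub_zero, abs_one, mul_one, Real.norm_eq_abs] at h1
    exact h1
  have hbH : ∀ y, ‖H' y‖ ≤ B := by
    intro y
    rw [hH']
    have h1 := intervalIntegral.norm_integral_le_of_norm_le_const (a := 0) (b := 1) (C := B)
      (f := fun t : ℝ => (t - 1 / 2) • G (y + t • Q)) (fun t ht => by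
        rw [norm_smul, Real.norm_eq_abs]
        calc |t - 1 / 2| * ‖G (y + t • Q)‖ ≤ 1 * B :=
              mul_le_mul (hhalf t ht) (hbG _) (norm_nonneg _) zero_le_one
          _ = B := one_mul B)
    rw [sub_zero, abs_one, mul_one] at h1
    exact h1
  -- along the curve
  have key := h.integral_grad hgrad hH'c
  have i1 : IntervalIntegrable (fun t => g (x t)) volume a b :=
    h.integrable (g := fun p => g p.1) (hgc.comp continuous_fst)
  have i2 : IntervalIntegrable (fun t => avP g P (x t)) volume a b :=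
    h.integrable (g := fun p => avP g P p.1) ((avP_cont hgc P).comp continuous_fst)
  have i3 : IntervalIntegrable (fun t => ⟪H' (x t), u t - s • Q⟫) volume a b :=
    h.integrable (g := fun p => ⟪H' p.1, p.2 - s • Q⟫)
      ((hH'c.comp continuous_fst).inner (continuous_snd.sub continuous_const))
  have i4 : IntervalIntegrable (fun t => ‖u t - s • Q‖) volume a b :=
    h.integrable (g := fun p => ‖p.2 - s • Q‖) (continuous_snd.sub continuous_const).norm
  have hdec : (∫ t in a..b, ⟪H' (x t), u t⟫) =
      s * ((∫ t in a..b, g (x t)) - ∫ t in a..b, avP g P (x t)) +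
        ∫ t in a..b, ⟪H' (x t), u t - s • Q⟫ := by
    rw [← intervalIntegral.integral_sub i1 i2, ← intervalIntegral.integral_const_mul,
      ← intervalIntegral.integral_add ((i1.sub i2).const_mul s) i3]
    refine intervalIntegral.integral_congr (fun t _ => ?_)
    rw [inner_sub_right, real_inner_smul_right, hpar]
    ring
  have hrest : |∫ t in a..b, ⟪H' (x t), u t - s • Q⟫| ≤ B * ∫ t in a..b, ‖u t - s • Q‖ := by
    rw [← intervalIntegral.integral_const_mul, ← Real.norm_eq_abs]
    refine intervalIntegral.norm_integral_le_of_norm_le h.le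
      (Filter.Eventually.of_forall fun t _ => ?_) (i4.const_mul B)
    calc ‖⟪H' (x t), u t - s • Q⟫‖ ≤ ‖H' (x t)‖ * ‖u t - s • Q‖ := norm_inner_le_norm _ _
      _ ≤ B * ‖u t - s • Q‖ := mul_le_mul_of_nonneg_right (hbH _) (norm_nonneg _)
  rw [← hQ, le_div_iff₀ hs]
  have e1 : |(∫ t in a..b, g (x t)) - ∫ t in a..b, avP g P (x t)| * s =
      |s * ((∫ t in a..b, g (x t)) - ∫ t in a..b, avP g P (x t))| := by
    rw [abs_mul, abs_of_pos hs, mul_comm]
  have e2 : s * ((∫ t in a..b, g (x t)) - ∫ t in a..b, avP g P (x t)) =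
      h' (x b) - h' (x a) - ∫ t in a..b, ⟪H' (x t), u t - s • Q⟫ := by
    rw [← key, hdec]
    ring
  rw [e1, e2]
  have e3 := abs_sub (h' (x b) - h' (x a)) (∫ t in a..b, ⟪H' (x t), u t - s • Q⟫)
  have e4 := abs_sub (h' (x b)) (h' (x a))
  linarith [hb' (x a), hb' (x b)]

end Pool.Agent.H33.AM
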