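import Pool.Agent.H33.AM.P.R1

/-!
# Module V2: trigonometric approximation, integrals over the unit cube, averages

`cube = {y | ∀ i, y i ∈ Ico 0 1}`.
* `trig_dense`: Stone-Weierstrass on `C(Fin n → UnitAddCircle, ℂ)` (the characters
  `x ↦ ∏ i, fourier (k i) (x i)` span a star-closed subalgebra separating points), then real parts.
* `cube_translate`: the cube is a fundamental domain of `ℤⁿ` (`ZSpan`,
  `MeasureTheory.IsAddFundamentalDomain.setIntegral_eq`), or Fubini and
  `Function.Periodic.intervalIntegral_add_eq`.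
* `cube_cos`: for `k ≠ 0` the integral vanishes: translate (by `cube_translate`) by `c` with
  `⟪zv k, c⟫ = 1/2`.
* `avK_cont`, `avK_per`: `avK g k₀ m` is continuous and 1-periodic (the integrand is bounded, the cube
  is bounded; `θ ↦ θ + 1` translates by `zv m`).
-/

set_option autoImplicit false

open MeasureTheory
open scoped RealInnerProductSpace

namespace Pool.Agent.H33.AM

variable {n : ℕ}

/-- The projection of `ℝⁿ` onto the torus. -/
private def tpr (x : Fin n → ℝ) : UnitAddTorus (Fin n) := fun i => ((x i : ℝ) : UnitAddCircle)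

private theorem tpr_quot : Topology.IsQuotientMap (tpr (n := n)) := by
  have h : IsOpenQuotientMap (Pi.map (fun (_ : Fin n) (t : ℝ) => (t : UnitAddCircle))) :=
    IsOpenQuotientMap.piMap (fun _ => QuotientAddGroup.isOpenQuotientMap_mk)
  exact h.isQuotientMap

private theorem tpr_eq {x y : Fin n → ℝ} (h : tpr x = tpr y) :
    ∃ k : Fin n → ℤ, ∀ i, x i = y i + k i := by
  have h1 : ∀ i, ∃ k : ℤ, x i = y i + k := by
    intro i
    have h2 : ((x i : ℝ) : UnitAddCircle) = ((y i : ℝ) : UnitAddCircle) := congrFun h i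
    have h3 : x i - y i ∈ AddSubgroup.zmultiples (1 : ℝ) := QuotientAddGroup.eq_iff_sub_mem.mp h2
    obtain ⟨k, hk⟩ := AddSubgroup.mem_zmultiples_iff.mp h3
    refine ⟨k, ?_⟩
    rw [zsmul_eq_mul, mul_one] at hk
    linarith
  choose k hk using h1
  exact ⟨k, hk⟩

private theorem inner_zv' (k : Fin n → ℤ) (x : EuclideanSpace ℝ (Fin n)) :
    ⟪zv k, x⟫ = ∑ i, (k i : ℝ) * x i := by
  rw [PiLp.inner_apply]
  refine Finset.sum_congr rfl (fun i _ => ?_)
  simp only [zv, RCLike.inner_apply, conj_trivial]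
  ring

private theorem mFourier_tpr (k : Fin n → ℤ) (x : EuclideanSpace ℝ (Fin n)) :
    UnitAddTorus.mFourier k (tpr (fun i => x i)) =
      Complex.exp (((2 * Real.pi * ⟪zv k, x⟫ : ℝ) : ℂ) * Complex.I) := by
  have h1 : UnitAddTorus.mFourier k (tpr (fun i => x i)) =
      ∏ i, fourier (k i) ((x i : ℝ) : UnitAddCircle) := rfl
  rw [h1, inner_zv', Finset.prod_congr rfl (fun i _ => fourier_coe_apply), ← Complex.exp_sum]
  congr 1
  push_cast
  rw [Finset.mul_sum, Finset.sum_mul]
  refine Finset.sum_congr rfl (fun i _ => ?_)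
  ring

theorem trig_dense {g : EuclideanSpace ℝ (Fin n) → ℝ} (hg : Continuous g)
    (hper : ∀ x (k : Fin n → ℤ), g (x + zv k) = g x) {ε : ℝ} (hε : 0 < ε) :
    ∃ (S : Finset (Fin n → ℤ)) (a b : (Fin n → ℤ) → ℝ), ∀ x,
      |g x - ∑ k ∈ S, (a k * Real.cos (2 * Real.pi * ⟪zv k, x⟫) +
        b k * Real.sin (2 * Real.pi * ⟪zv k, x⟫))| ≤ ε := by
  classical
  set g' : (Fin n → ℝ) → ℂ := fun x => ((g (WithLp.toLp 2 x) : ℝ) : ℂ) with hg'
  have hg'c : Continuous g' :=
    Complex.continuous_ofReal.comp (hg.comp (PiLp.continuous_toLp 2 _))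
  have hfac : ∀ x y : Fin n → ℝ, tpr x = tpr y → g' x = g' y := by
    intro x y hxy
    obtain ⟨k, hk⟩ := tpr_eq hxy
    have h1 : WithLp.toLp 2 x = WithLp.toLp 2 y + zv k := by
      ext i
      simp only [zv, PiLp.add_apply]
      exact hk i
    simp only [hg', h1, hper]
  obtain ⟨rep, hrep⟩ := (tpr_quot (n := n)).surjective.hasRightInverse
  have hG : ∀ x, g' (rep (tpr x)) = g' x := fun x => hfac _ _ (hrep (tpr x))
  let G : C(UnitAddTorus (Fin n), ℂ) := ⟨fun t => g' (rep t), by
    rw [tpr_quot.continuous_iff]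
    have h1 : (fun t => g' (rep t)) ∘ tpr = g' := by
      funext x
      exact hG x
    rw [h1]
    exact hg'c⟩
  have hmem : G ∈ closure (Submodule.span ℂ (Set.range (UnitAddTorus.mFourier (d := Fin n))) :
      Set C(UnitAddTorus (Fin n), ℂ)) := by
    have h1 := UnitAddTorus.span_mFourier_closure_eq_top (d := Fin n)
    have h2 : G ∈ (Submodule.span ℂ
        (Set.range (UnitAddTorus.mFourier (d := Fin n)))).topologicalClosure := by
      rw [h1]
      exact Submodule.mem_top
    exact h2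
  obtain ⟨P, hP, hPG⟩ := Metric.mem_closure_iff.mp hmem ε hε
  obtain ⟨c, hc⟩ := (Finsupp.mem_span_range_iff_exists_finsupp).mp hP
  refine ⟨c.support, fun k => (c k).re, fun k => -(c k).im, fun x => ?_⟩
  have h1 : P (tpr (fun i => x i)) = ∑ k ∈ c.support,
      c k * Complex.exp (((2 * Real.pi * ⟪zv k, x⟫ : ℝ) : ℂ) * Complex.I) := by
    rw [← hc, Finsupp.sum, ContinuousMap.sum_apply]
    refine Finset.sum_congr rfl (fun k _ => ?_)
    rw [ContinuousMap.smul_apply, mFourier_tpr, smul_eq_mul]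
  have h2 : (P (tpr (fun i => x i))).re = ∑ k ∈ c.support,
      ((c k).re * Real.cos (2 * Real.pi * ⟪zv k, x⟫) +
        -(c k).im * Real.sin (2 * Real.pi * ⟪zv k, x⟫)) := by
    rw [h1, Complex.re_sum]
    refine Finset.sum_congr rfl (fun k _ => ?_)
    rw [Complex.mul_re, Complex.exp_ofReal_mul_I_re, Complex.exp_ofReal_mul_I_im]
    ring
  have h3 : G (tpr (fun i => x i)) = ((g x : ℝ) : ℂ) := by
    have h4 : G (tpr (fun i => x i)) = g' (fun i => x i) := hG _
    rw [h4]
  have h5 : ‖(G - P) (tpr (fun i => x i))‖ ≤ ‖G - P‖ := ContinuousMap.norm_coe_le_norm _ _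
  rw [ContinuousMap.sub_apply, h3, ← dist_eq_norm G P] at h5
  have h6 := Complex.abs_re_le_norm (((g x : ℝ) : ℂ) - P (tpr (fun i => x i)))
  rw [Complex.sub_re, Complex.ofReal_re, h2] at h6
  exact h6.trans (h5.trans hPG.le)

end Pool.Agent.H33.AM
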