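import Pool.Agent.H33.AM.P.R1
import Pool.Agent.H33.AM.P.V2a

/-!
# Module V2: trigonometric approximation, integrals over the unit cube, averages

`cube = {y | ∀ i, y i ∈ Ico 0 1}`.
* `trig_dense`: Stone-Weierstrass on `C(Fin n → UnitAddCircle, ℂ)` (the characters
  `x ↦ ∏ i, fourier (k i) (x i)` span a star-closed subalgebra separating points), then real parts.
* `cube_translate`: the cube is a fundamental domain of `ℤⁿ` (`ZSpan`,
  `MeasureTheory.IsAddFundamentalDomain.setIntegral_eq`), or Fubini and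
  `Function.Periodic.intervalIntegral_add_eq`.
* `cube_cos`: for `k ≠ 0` the integral vanishes: translate (by `cube_translate`) by `c` with
  `⟪zv k, c⟫ = 1/2`.
* `avK_cont`, `avK_per`: `avK g k₀ m` is continuous and 1-periodic (the integrand is bounded, the cube
  is bounded; `θ ↦ θ + 1` translates by `zv m`).
-/

set_option autoImplicit false

open MeasureTheory
open scoped RealInnerProductSpace

namespace Pool.Agent.H33.AM

variable {n : ℕ}

private theorem V2b_eq : {y : EuclideanSpace ℝ (Fin n) | ∀ i, y i ∈ Set.Ico (0 : ℝ) 1} =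
    (@WithLp.ofLp 2 (Fin n → ℝ)) ⁻¹' (Set.univ.pi fun _ => Set.Ico (0 : ℝ) 1) := by
  ext y
  simp [Set.mem_pi]

theorem cube_vol : volume {y : EuclideanSpace ℝ (Fin n) | ∀ i, y i ∈ Set.Ico (0 : ℝ) 1} = 1 := by
  rw [V2b_eq, (PiLp.volume_preserving_ofLp (Fin n)).measure_preimage
    (MeasurableSet.univ_pi fun _ => measurableSet_Ico).nullMeasurableSet, volume_pi_pi]
  simp

theorem cube_meas : MeasurableSet {y : EuclideanSpace ℝ (Fin n) | ∀ i, y i ∈ Set.Ico (0 : ℝ) 1} := by
  rw [V2b_eq]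
  exact (PiLp.volume_preserving_ofLp (Fin n)).measurable
    (MeasurableSet.univ_pi fun _ => measurableSet_Ico)

private noncomputable abbrev V2b_b (n : ℕ) : Module.Basis (Fin n) ℝ (EuclideanSpace ℝ (Fin n)) :=
  (EuclideanSpace.basisFun (Fin n) ℝ).toBasis

private theorem V2b_fd : {y : EuclideanSpace ℝ (Fin n) | ∀ i, y i ∈ Set.Ico (0 : ℝ) 1} =
    ZSpan.fundamentalDomain (V2b_b n) := by
  ext y
  rw [ZSpan.mem_fundamentalDomain]
  simp [V2b_b]

open scoped Pointwise in
theorem cube_translate {g : EuclideanSpace ℝ (Fin n) → ℝ} (hg : Continuous g)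
    (hper : ∀ x (k : Fin n → ℤ), g (x + zv k) = g x) (c : EuclideanSpace ℝ (Fin n)) :
    ∫ y in {y : EuclideanSpace ℝ (Fin n) | ∀ i, y i ∈ Set.Ico (0 : ℝ) 1}, g (y + c) =
      ∫ y in {y : EuclideanSpace ℝ (Fin n) | ∀ i, y i ∈ Set.Ico (0 : ℝ) 1}, g y := by
  rw [V2b_fd]
  have h1 := ZSpan.isAddFundamentalDomain' (V2b_b n) (volume : Measure (EuclideanSpace ℝ (Fin n)))
  have : Countable (Submodule.span ℤ (Set.range (V2b_b n))).toAddSubgroup :=
    inferInstanceAs (Countable (Submodule.span ℤ (Set.range (V2b_b n))))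
  have h2 := h1.vadd_of_comm c
  have h3 : ∫ y in c +ᵥ ZSpan.fundamentalDomain (V2b_b n), g y =
      ∫ y in ZSpan.fundamentalDomain (V2b_b n), g y := by
    apply h2.setIntegral_eq h1
    intro v x
    obtain ⟨k, hk⟩ : ∃ k : Fin n → ℤ, (v : EuclideanSpace ℝ (Fin n)) = zv k := by
      have := ((V2b_b n).mem_span_iff_repr_mem ℤ (v : EuclideanSpace ℝ (Fin n))).1 v.2
      choose k hk using this
      refine ⟨k, ?_⟩
      ext i
      have := hk i
      simp [V2b_b] at this
      simp [zv, this]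
    have : v +ᵥ x = x + zv k := by
      rw [AddSubgroup.vadd_def, vadd_eq_add, hk, add_comm]
    rw [this, hper]
  rw [← h3]
  have h4 : c +ᵥ ZSpan.fundamentalDomain (V2b_b n) =
      (fun y => y + c) '' ZSpan.fundamentalDomain (V2b_b n) := by
    ext y
    rw [Set.mem_vadd_set, Set.mem_image]
    simp only [vadd_eq_add, add_comm]
  rw [h4, (measurePreserving_add_right volume c).setIntegral_image_emb
    (measurableEmbedding_addRight c)]

theorem cube_cos {k : Fin n → ℤ} (hk : k ≠ 0) (φ : ℝ) :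
    ∫ y in {y : EuclideanSpace ℝ (Fin n) | ∀ i, y i ∈ Set.Ico (0 : ℝ) 1},
      Real.cos (2 * Real.pi * ⟪zv k, y⟫ + φ) = 0 := by
  have hzk : zv k ≠ 0 := by
    intro h0
    apply hk
    funext i
    have := congrArg (fun v : EuclideanSpace ℝ (Fin n) => v i) h0
    simpa [zv] using this
  have hN : 0 < ‖zv k‖ ^ 2 := by positivity
  obtain ⟨c, hc⟩ : ∃ c : EuclideanSpace ℝ (Fin n), ⟪zv k, c⟫ = 1 / 2 := by
    refine ⟨(1 / (2 * ‖zv k‖ ^ 2)) • zv k, ?_⟩
    rw [inner_smul_right, real_inner_self_eq_norm_sq]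
    field_simp
  have hcont : Continuous fun y : EuclideanSpace ℝ (Fin n) =>
      Real.cos (2 * Real.pi * ⟪zv k, y⟫ + φ) := by fun_prop
  have h1 := cube_translate hcont (by
    intro x j
    rw [inner_add_right, inner_zv,
      show 2 * Real.pi * (⟪zv k, x⟫ + (dot k j : ℝ)) + φ =
        2 * Real.pi * ⟪zv k, x⟫ + φ + (dot k j) * (2 * Real.pi) by ring,
      Real.cos_add_int_mul_two_pi]) c
  have h2 : ∀ y : EuclideanSpace ℝ (Fin n), Real.cos (2 * Real.pi * ⟪zv k, y + c⟫ + φ) =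
      -Real.cos (2 * Real.pi * ⟪zv k, y⟫ + φ) := by
    intro y
    rw [inner_add_right, hc,
      show 2 * Real.pi * (⟪zv k, y⟫ + 1 / 2) + φ = 2 * Real.pi * ⟪zv k, y⟫ + φ + Real.pi by ring,
      Real.cos_add_pi]
  simp only [h2] at h1
  rw [integral_neg] at h1
  linarith

end Pool.Agent.H33.AM
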