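import Pool.Agent.H33.AM.P.R1
import Pool.Agent.H33.AM.P.V2a
import Pool.Agent.H33.AM.P.V2b

/-!
# Module V2: trigonometric approximation, integrals over the unit cube, averages

`cube = {y | ∀ i, y i ∈ Ico 0 1}`.
* `trig_dense`: Stone-Weierstrass on `C(Fin n → UnitAddCircle, ℂ)` (the characters
  `x ↦ ∏ i, fourier (k i) (x i)` span a star-closed subalgebra separating points), then real parts.
* `cube_translate`: the cube is a fundamental domain of `ℤⁿ` (`ZSpan`,
  `MeasureTheory.IsAddFundamentalDomain.setIntegral_eq`), or Fubini and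
  `Function.Periodic.intervalIntegral_add_eq`.
* `cube_cos`: for `k ≠ 0` the integral vanishes: translate (by `cube_translate`) by `c` with
  `⟪zv k, c⟫ = 1/2`.
* `avK_cont`, `avK_per`: `avK g k₀ m` is continuous and 1-periodic (the integrand is bounded, the cube
  is bounded; `θ ↦ θ + 1` translates by `zv m`).
-/

set_option autoImplicit false

open MeasureTheory
open scoped RealInnerProductSpace

namespace Pool.Agent.H33.AM

variable {n : ℕ}

private theorem V2c_norm_le {y : EuclideanSpace ℝ (Fin n)}
    (hy : ∀ i, y i ∈ Set.Ico (0 : ℝ) 1) : ‖y‖ ≤ Real.sqrt n := by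
  rw [EuclideanSpace.norm_eq]
  apply Real.sqrt_le_sqrt
  calc ∑ i, ‖y i‖ ^ 2 ≤ ∑ _i : Fin n, (1 : ℝ) := by
        refine Finset.sum_le_sum (fun i _ => ?_)
        have h := hy i
        rw [Real.norm_of_nonneg h.1]
        have h2 := h.2
        have h1 := h.1
        nlinarith
    _ = n := by simp

theorem avK_cont {g : EuclideanSpace ℝ (Fin n) → ℝ} (hg : Continuous g)
    (hper : ∀ x (k : Fin n → ℤ), g (x + zv k) = g x) (k₀ m : Fin n → ℤ) :
    Continuous (avK g k₀ m) := by
  have _ := hper
  have hG : Continuous (fun p : ℝ × EuclideanSpace ℝ (Fin n) =>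
      g (p.1 • zv m + p.2 - ⟪zv k₀, p.2⟫ • zv m)) := by
    fun_prop
  have hfin : IsFiniteMeasure (volume.restrict
      {y : EuclideanSpace ℝ (Fin n) | ∀ i, y i ∈ Set.Ico (0 : ℝ) 1}) := by
    constructor
    rw [Measure.restrict_apply_univ, cube_vol]
    exact ENNReal.one_lt_top
  rw [continuous_iff_continuousAt]
  intro θ₀
  obtain ⟨C, hC⟩ := ((isCompact_closedBall θ₀ 1).prod
    (isCompact_closedBall (0 : EuclideanSpace ℝ (Fin n)) (Real.sqrt n))).exists_bound_of_continuousOn
      hG.continuousOn
  unfold avK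
  apply continuousAt_of_dominated (bound := fun _ => C)
  · refine Filter.Eventually.of_forall (fun θ => ?_)
    exact (hG.comp (Continuous.prodMk_right θ)).aestronglyMeasurable
  · filter_upwards [Metric.closedBall_mem_nhds θ₀ one_pos] with θ hθ
    rw [ae_restrict_iff' cube_meas]
    refine Filter.Eventually.of_forall (fun y hy => ?_)
    exact hC (θ, y) ⟨hθ, by simpa using V2c_norm_le hy⟩
  · exact integrable_const C
  · refine Filter.Eventually.of_forall (fun y => ?_)
    exact (hG.comp (Continuous.prodMk_left y)).continuousAt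

theorem avK_per {g : EuclideanSpace ℝ (Fin n) → ℝ}
    (hper : ∀ x (k : Fin n → ℤ), g (x + zv k) = g x) (k₀ m : Fin n → ℤ) (θ : ℝ) :
    avK g k₀ m (θ + 1) = avK g k₀ m θ := by
  unfold avK
  congr 1
  ext y
  rw [← hper (θ • zv m + y - ⟪zv k₀, y⟫ • zv m) m]
  congr 1
  rw [add_smul, one_smul]
  abel

end Pool.Agent.H33.AM
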