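import Pool.Agent.H33.AM.P.R3
import Pool.Agent.H33.AM.P.V1
import Pool.Agent.H33.AM.P.V2
import Pool.Agent.H33.AM.P.X1

/-!
# Module V6: trapping data for `ℓ(x, v) = K v - K q - ⟪D q, v - q⟫ + A(x) · v - V(x)`, `q = s P`

* `Trap.mono`: larger errors are worse (`b - a ≥ 0`, the integral of a norm is nonnegative).
* `HL_ell`: `K` is continuous (`HK.grad`), `A`, `V` are continuous.
* `trap_potential` (`A = 0`): `κ₁/2 ‖ũ‖² ≤ K u - K q - ⟪D q, u - q⟫ ≤ κ₂/2 ‖ũ‖²`, and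
  `|∫ V(x) - ∫ w(θ)| ≤ |∫ V - ∫ avP V P| + δ (b - a) ≤ (2 B + B ∫ ‖ũ‖)/s + δ (b - a)` by `avP_trap`.
  Maximum: `w` is continuous and 1-periodic, so it attains its maximum; the theorem gives `M`.
* `trap_magnetic`: `⟪A x, u⟫ = s ⟪A x, zv P⟫ + ⟪A x, ũ⟫`, `|⟪A x, ũ⟫| ≤ B ‖ũ‖`, `|V| ≤ B`, and
  `avP_trap` for `g = ⟪A, zv P⟫`, `G x = adjoint (A' x) (zv P)`, with the constant `B ‖zv P‖`:
  `|s ∫ g - s ∫ avP g P| ≤ 2 B ‖zv P‖ + B ‖zv P‖ ∫ ‖ũ‖`, and
  `|s avP g P x - σ w₀(θ)| ≤ s ρ` with `w₀ = avK ⟪A, zv P₀⟫ k₀ m`, `σ = s S`.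
  So `w = -σ w₀ = σ (-w₀)`.
-/

set_option autoImplicit false

open MeasureTheory
open scoped RealInnerProductSpace

namespace Pool.Agent.H33.AM

variable {n : ℕ}

theorem Trap.mono {l : EuclideanSpace ℝ (Fin n) → EuclideanSpace ℝ (Fin n) → ℝ}
    {k₀ m P : Fin n → ℤ} {s : ℝ} {w : ℝ → ℝ} {κ₁ κ₂ ε β₀ β₁ M ε' β₀' β₁' : ℝ}
    (h : Trap l k₀ m P s w κ₁ κ₂ ε β₀ β₁ M) (h1 : ε ≤ ε') (h2 : β₀ ≤ β₀') (h3 : β₁ ≤ β₁') :
    Trap l k₀ m P s w κ₁ κ₂ ε' β₀' β₁' M := by
  refine ⟨h.hl, h.km, h.kP, h.s_pos, h.w_cont, h.w_per, h.w_le, h.w_max, h.κ₁_pos, h.κ₂_pos,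
    h.ε_nonneg.trans h1, h.β₀_nonneg.trans h2, h.β₁_nonneg.trans h3, ?_, ?_⟩
  · intro a b x u hu
    have h4 := h.lo a b x u hu
    have h5 : 0 ≤ b - a := sub_nonneg.2 hu.le
    have h6 : 0 ≤ ∫ t in a..b, ‖u t - s • zv P‖ :=
      intervalIntegral.integral_nonneg hu.le fun t _ => norm_nonneg _
    have h7 := mul_le_mul_of_nonneg_right h1 h5
    have h8 := mul_le_mul_of_nonneg_right h3 h6
    linarith
  · intro a b x u hu
    have h4 := h.hi a b x u hu
    have h5 : 0 ≤ b - a := sub_nonneg.2 hu.le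
    have h6 : 0 ≤ ∫ t in a..b, ‖u t - s • zv P‖ :=
      intervalIntegral.integral_nonneg hu.le fun t _ => norm_nonneg _
    have h7 := mul_le_mul_of_nonneg_right h1 h5
    have h8 := mul_le_mul_of_nonneg_right h3 h6
    linarith

private theorem V6a_cont {g : EuclideanSpace ℝ (Fin n) → ℝ}
    {G : EuclideanSpace ℝ (Fin n) → EuclideanSpace ℝ (Fin n)}
    (h : ∀ x, HasGradientAt g (G x) x) : Continuous g :=
  continuous_iff_continuousAt.2 fun x => (h x).differentiableAt.continuousAt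

private theorem V6a_max {w : ℝ → ℝ} (hc : Continuous w) (hp : ∀ θ, w (θ + 1) = w θ) :
    ∃ M, (∀ θ, w θ ≤ M) ∧ ∃ θ, w θ = M := by
  obtain ⟨θ₀, -, h0⟩ := isCompact_Icc.exists_isMaxOn (Set.nonempty_Icc.2 (zero_le_one' ℝ))
    hc.continuousOn
  refine ⟨w θ₀, fun θ => ?_, θ₀, rfl⟩
  have hper : Function.Periodic w 1 := hp
  obtain ⟨y, hy, hyθ⟩ := hper.exists_mem_Ico₀ one_pos θ
  rw [hyθ]
  exact h0 ⟨hy.1, hy.2.le⟩

/-- the integral of the potential along a curve -/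
private theorem V6a_V {V : EuclideanSpace ℝ (Fin n) → ℝ}
    {F : EuclideanSpace ℝ (Fin n) → EuclideanSpace ℝ (Fin n)} {B : ℝ}
    (hV : HV V F B) {k₀ m P : Fin n → ℤ} {s δ : ℝ} (hs : 0 < s)
    (hav : ∀ x, |avP V P x - avK V k₀ m ⟪zv k₀, x⟫| ≤ δ) {a b : ℝ}
    {x u : ℝ → EuclideanSpace ℝ (Fin n)} (h : Adm a b x u) :
    |(∫ t in a..b, V (x t)) - ∫ t in a..b, avK V k₀ m ⟪zv k₀, x t⟫| ≤
      2 * B / s + B / s * (∫ t in a..b, ‖u t - s • zv P‖) + δ * (b - a) := by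
  have hVc := V6a_cont hV.der
  have h1 := avP_trap hV.der hV.per hV.bd hV.bdF hV.lip P hs h
  have i1 : IntervalIntegrable (fun t => avP V P (x t)) volume a b :=
    h.integrable (g := fun p => avP V P p.1) ((avP_cont hVc P).comp continuous_fst)
  have i2 : IntervalIntegrable (fun t => avK V k₀ m ⟪zv k₀, x t⟫) volume a b :=
    h.integrable (g := fun p => avK V k₀ m ⟪zv k₀, p.1⟫)
      ((avK_cont hVc hV.per k₀ m).comp (continuous_const.inner continuous_fst))
  have h2 : |(∫ t in a..b, avP V P (x t)) - ∫ t in a..b, avK V k₀ m ⟪zv k₀, x t⟫| ≤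
      δ * (b - a) := by
    rw [← intervalIntegral.integral_sub i1 i2]
    have h3 := intervalIntegral.norm_integral_le_of_norm_le_const (a := a) (b := b)
      (f := fun t => avP V P (x t) - avK V k₀ m ⟪zv k₀, x t⟫) (C := δ)
      (fun t _ => hav (x t))
    rw [Real.norm_eq_abs, abs_of_nonneg (sub_nonneg.2 h.le)] at h3
    exact h3
  have h4 : (2 * B + B * ∫ t in a..b, ‖u t - s • zv P‖) / s =
      2 * B / s + B / s * (∫ t in a..b, ‖u t - s • zv P‖) := by
    rw [add_div]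
    ring
  rw [h4] at h1
  have h5 := abs_sub_le (∫ t in a..b, V (x t)) (∫ t in a..b, avP V P (x t))
    (∫ t in a..b, avK V k₀ m ⟪zv k₀, x t⟫)
  linarith

theorem trap_potential {K V : EuclideanSpace ℝ (Fin n) → ℝ}
    {D F : EuclideanSpace ℝ (Fin n) → EuclideanSpace ℝ (Fin n)} {κ₁ κ₂ B : ℝ}
    (hK : HK K D κ₁ κ₂) (hV : HV V F B) {k₀ m P : Fin n → ℤ} (hkm : dot k₀ m = 1)
    (hkP : dot k₀ P = 0) {s δ : ℝ} (hs : 0 < s) (hδ : 0 ≤ δ)
    (hav : ∀ x, |avP V P x - avK V k₀ m ⟪zv k₀, x⟫| ≤ δ) :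
    ∃ M, Trap (fun x v => K v - K (s • zv P) - ⟪D (s • zv P), v - s • zv P⟫ - V x) k₀ m P s
      (avK V k₀ m) κ₁ κ₂ δ (2 * B / s) (B / s) M := by
  have hVc : Continuous V := V6a_cont hV.der
  have hKc : Continuous K := V6a_cont hK.grad
  have hwc := avK_cont hVc hV.per k₀ m
  have hwp := avK_per hV.per k₀ m
  obtain ⟨M, hM1, hM2⟩ := V6a_max hwc hwp
  have hq : ∀ q : EuclideanSpace ℝ (Fin n), Continuous
      fun p : EuclideanSpace ℝ (Fin n) × EuclideanSpace ℝ (Fin n) =>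
        K p.2 - K q - ⟪D q, p.2 - q⟫ - V p.1 := by
    intro q
    exact (((hKc.comp continuous_snd).sub continuous_const).sub
      (continuous_const.inner (continuous_snd.sub continuous_const))).sub
      (hVc.comp continuous_fst)
  have hl : HL (fun x v => K v - K (s • zv P) - ⟪D (s • zv P), v - s • zv P⟫ - V x) := by
    refine ⟨hq (s • zv P), fun x v k => ?_⟩
    simp only [hV.per x k]
  refine ⟨M, hl, hkm, hkP, hs, hwc, hwp, hM1, hM2, hK.pos, hK.pos₂, hδ,
    div_nonneg (mul_nonneg zero_le_two hV.nonneg) hs.le, div_nonneg hV.nonneg hs.le, ?_, ?_⟩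
  · intro a b x u h
    have h1 := abs_le.1 (V6a_V (k₀ := k₀) (m := m) hV hs hav h)
    have il : IntervalIntegrable
        (fun t => K (u t) - K (s • zv P) - ⟪D (s • zv P), u t - s • zv P⟫ - V (x t))
        volume a b := h.integrable (hq (s • zv P))
    have iV : IntervalIntegrable (fun t => V (x t)) volume a b :=
      h.integrable (g := fun p => V p.1) (hVc.comp continuous_fst)
    have iw : IntervalIntegrable (fun t => avK V k₀ m ⟪zv k₀, x t⟫) volume a b :=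
      h.integrable (g := fun p => avK V k₀ m ⟪zv k₀, p.1⟫)
        (hwc.comp (continuous_const.inner continuous_fst))
    have iu : IntervalIntegrable (fun t => κ₁ / 2 * ‖u t - s • zv P‖ ^ 2) volume a b :=
      h.integrable (g := fun p => κ₁ / 2 * ‖p.2 - s • zv P‖ ^ 2)
        (continuous_const.mul ((continuous_snd.sub continuous_const).norm.pow 2))
    have h2 : (∫ t in a..b, (κ₁ / 2 * ‖u t - s • zv P‖ ^ 2 - V (x t))) ≤
        ∫ t in a..b, (K (u t) - K (s • zv P) - ⟪D (s • zv P), u t - s • zv P⟫ - V (x t)) := by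
      refine intervalIntegral.integral_mono_on h.le (iu.sub iV) il fun t _ => ?_
      have := hK.lo (s • zv P) (u t)
      linarith
    rw [intervalIntegral.integral_sub iu iV] at h2
    rw [intervalIntegral.integral_sub iu iw]
    linarith [h1.1, h1.2]
  · intro a b x u h
    have h1 := abs_le.1 (V6a_V (k₀ := k₀) (m := m) hV hs hav h)
    have il : IntervalIntegrable
        (fun t => K (u t) - K (s • zv P) - ⟪D (s • zv P), u t - s • zv P⟫ - V (x t))
        volume a b := h.integrable (hq (s • zv P))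
    have iV : IntervalIntegrable (fun t => V (x t)) volume a b :=
      h.integrable (g := fun p => V p.1) (hVc.comp continuous_fst)
    have iw : IntervalIntegrable (fun t => avK V k₀ m ⟪zv k₀, x t⟫) volume a b :=
      h.integrable (g := fun p => avK V k₀ m ⟪zv k₀, p.1⟫)
        (hwc.comp (continuous_const.inner continuous_fst))
    have iu : IntervalIntegrable (fun t => κ₂ / 2 * ‖u t - s • zv P‖ ^ 2) volume a b :=
      h.integrable (g := fun p => κ₂ / 2 * ‖p.2 - s • zv P‖ ^ 2)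
        (continuous_const.mul ((continuous_snd.sub continuous_const).norm.pow 2))
    have h2 : (∫ t in a..b, (K (u t) - K (s • zv P) - ⟪D (s • zv P), u t - s • zv P⟫ - V (x t))) ≤
        ∫ t in a..b, (κ₂ / 2 * ‖u t - s • zv P‖ ^ 2 - V (x t)) := by
      refine intervalIntegral.integral_mono_on h.le il (iu.sub iV) fun t _ => ?_
      have := hK.hi (s • zv P) (u t)
      linarith
    rw [intervalIntegral.integral_sub iu iV] at h2
    rw [intervalIntegral.integral_sub iu iw]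
    linarith [h1.1, h1.2]

end Pool.Agent.H33.AM
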