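import Pool.Agent.H33.AM.P.R3
import Pool.Agent.H33.AM.P.V1
import Pool.Agent.H33.AM.P.V2
import Pool.Agent.H33.AM.P.X1
import Pool.Agent.H33.AM.P.V6a

/-!
# Module V6: trapping data for `ℓ(x, v) = K v - K q - ⟪D q, v - q⟫ + A(x) · v - V(x)`, `q = s P`

* `Trap.mono`: larger errors are worse (`b - a ≥ 0`, the integral of a norm is nonnegative).
* `HL_ell`: `K` is continuous (`HK.grad`), `A`, `V` are continuous.
* `trap_potential` (`A = 0`): `κ₁/2 ‖ũ‖² ≤ K u - K q - ⟪D q, u - q⟫ ≤ κ₂/2 ‖ũ‖²`, and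
  `|∫ V(x) - ∫ w(θ)| ≤ |∫ V - ∫ avP V P| + δ (b - a) ≤ (2 B + B ∫ ‖ũ‖)/s + δ (b - a)` by `avP_trap`.
  Maximum: `w` is continuous and 1-periodic, so it attains its maximum; the theorem gives `M`.
* `trap_magnetic`: `⟪A x, u⟫ = s ⟪A x, zv P⟫ + ⟪A x, ũ⟫`, `|⟪A x, ũ⟫| ≤ B ‖ũ‖`, `|V| ≤ B`, and
  `avP_trap` for `g = ⟪A, zv P⟫`, `G x = adjoint (A' x) (zv P)`, with the constant `B ‖zv P‖`:
  `|s ∫ g - s ∫ avP g P| ≤ 2 B ‖zv P‖ + B ‖zv P‖ ∫ ‖ũ‖`, and
  `|s avP g P x - σ w₀(θ)| ≤ s ρ` with `w₀ = avK ⟪A, zv P₀⟫ k₀ m`, `σ = s S`.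
  So `w = -σ w₀ = σ (-w₀)`.
-/

set_option autoImplicit false

open MeasureTheory
open scoped RealInnerProductSpace

namespace Pool.Agent.H33.AM

variable {n : ℕ}

private theorem periodic_max {w : ℝ → ℝ} (hc : Continuous w) (hp : ∀ θ, w (θ + 1) = w θ) :
    ∃ M, (∀ θ, w θ ≤ M) ∧ ∃ θ, w θ = M := by
  obtain ⟨θ₀, -, h0⟩ := (isCompact_Icc (a := (0 : ℝ)) (b := 1)).exists_isMaxOn
    (Set.nonempty_Icc.2 zero_le_one) hc.continuousOn
  refine ⟨w θ₀, fun θ => ?_, θ₀, rfl⟩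
  have hper : Function.Periodic w 1 := hp
  obtain ⟨y, hy, hy2⟩ := hper.exists_mem_Ico₀ one_pos θ
  rw [hy2]
  exact h0 ⟨hy.1, hy.2.le⟩

private theorem grad_inner {A : EuclideanSpace ℝ (Fin n) → EuclideanSpace ℝ (Fin n)}
    {A' : EuclideanSpace ℝ (Fin n) → EuclideanSpace ℝ (Fin n) →L[ℝ] EuclideanSpace ℝ (Fin n)}
    {B : ℝ} (hA : HA A A' B) (x : EuclideanSpace ℝ (Fin n)) (P : Fin n → ℤ) :
    HasGradientAt (fun x => ⟪A x, zv P⟫) (ContinuousLinearMap.adjoint (A' x) (zv P)) x := by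
  have h1 : HasFDerivAt (fun x => ⟪zv P, A x⟫) ((innerSL ℝ (zv P)).comp (A' x)) x :=
    (innerSL ℝ (zv P)).hasFDerivAt.comp x (hA.der x)
  rw [hasGradientAt_iff_hasFDerivAt]
  have h2 : (innerSL ℝ (zv P)).comp (A' x) =
      (InnerProductSpace.toDual ℝ (EuclideanSpace ℝ (Fin n)))
        (ContinuousLinearMap.adjoint (A' x) (zv P)) := by
    ext y
    rw [InnerProductSpace.toDual_apply_apply, ContinuousLinearMap.adjoint_inner_left]
    rfl
  rw [← h2]
  exact h1.congr_of_eventuallyEq (Filter.Eventually.of_forall fun y => real_inner_comm _ _)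

theorem trap_magnetic {K V : EuclideanSpace ℝ (Fin n) → ℝ}
    {D F A : EuclideanSpace ℝ (Fin n) → EuclideanSpace ℝ (Fin n)}
    {A' : EuclideanSpace ℝ (Fin n) → EuclideanSpace ℝ (Fin n) →L[ℝ] EuclideanSpace ℝ (Fin n)}
    {κ₁ κ₂ B : ℝ} (hK : HK K D κ₁ κ₂) (hA : HA A A' B) (hV : HV V F B) {k₀ m P P₀ : Fin n → ℤ}
    (hkm : dot k₀ m = 1) (hkP : dot k₀ P = 0) {s S ρ : ℝ} (hs : 0 < s) (hS : 0 < S) (hρ : 0 ≤ ρ)
    (hav : ∀ x, |avP (fun x => ⟪A x, zv P⟫) P x -
      S * avK (fun x => ⟪A x, zv P₀⟫) k₀ m ⟪zv k₀, x⟫| ≤ ρ) :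
    ∃ M, Trap (fun x v => K v - K (s • zv P) - ⟪D (s • zv P), v - s • zv P⟫ + ⟪A x, v⟫ - V x)
      k₀ m P s (fun θ => (s * S) * -avK (fun x => ⟪A x, zv P₀⟫) k₀ m θ) κ₁ κ₂ (s * ρ + B)
      (2 * B * ‖zv P‖) (B * ‖zv P‖ + B) M := by
  have hAc : Continuous A := continuous_iff_continuousAt.2 fun x => (hA.der x).continuousAt
  have hVc : Continuous V := continuous_iff_continuousAt.2 fun x => (hV.der x).continuousAt
  have hKc : Continuous K := continuous_iff_continuousAt.2 fun x => (hK.grad x).continuousAt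
  have hB : 0 ≤ B := hA.nonneg
  have hg0c : Continuous fun x => ⟪A x, zv P₀⟫ := hAc.inner continuous_const
  have hg0p : ∀ x (k : Fin n → ℤ), ⟪A (x + zv k), zv P₀⟫ = ⟪A x, zv P₀⟫ := fun x k => by
    rw [hA.per x k]
  have hgc : Continuous fun x => ⟪A x, zv P⟫ := hAc.inner continuous_const
  have hgp : ∀ x (k : Fin n → ℤ), ⟪A (x + zv k), zv P⟫ = ⟪A x, zv P⟫ := fun x k => by
    rw [hA.per x k]
  have hwc : Continuous fun θ => (s * S) * -avK (fun x => ⟪A x, zv P₀⟫) k₀ m θ :=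
    continuous_const.mul (avK_cont hg0c hg0p k₀ m).neg
  have hwp : ∀ θ, (s * S) * -avK (fun x => ⟪A x, zv P₀⟫) k₀ m (θ + 1) =
      (s * S) * -avK (fun x => ⟪A x, zv P₀⟫) k₀ m θ := fun θ => by
    rw [avK_per (g := fun x => ⟪A x, zv P₀⟫) hg0p k₀ m θ]
  obtain ⟨M, hM1, hM2⟩ := periodic_max hwc hwp
  have hlc : Continuous fun p : EuclideanSpace ℝ (Fin n) × EuclideanSpace ℝ (Fin n) =>
      K p.2 - K (s • zv P) - ⟪D (s • zv P), p.2 - s • zv P⟫ + ⟪A p.1, p.2⟫ - V p.1 := by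
    have h1 : Continuous fun p : EuclideanSpace ℝ (Fin n) × EuclideanSpace ℝ (Fin n) => K p.2 :=
      hKc.comp continuous_snd
    have h2 : Continuous fun p : EuclideanSpace ℝ (Fin n) × EuclideanSpace ℝ (Fin n) =>
        ⟪D (s • zv P), p.2 - s • zv P⟫ :=
      continuous_const.inner (continuous_snd.sub continuous_const)
    have h3 : Continuous fun p : EuclideanSpace ℝ (Fin n) × EuclideanSpace ℝ (Fin n) =>
        ⟪A p.1, p.2⟫ := (hAc.comp continuous_fst).inner continuous_snd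
    have h4 : Continuous fun p : EuclideanSpace ℝ (Fin n) × EuclideanSpace ℝ (Fin n) => V p.1 :=
      hVc.comp continuous_fst
    exact (((h1.sub continuous_const).sub h2).add h3).sub h4
  refine ⟨M, ?_⟩
  have key : ∀ (a b : ℝ) (x u : ℝ → EuclideanSpace ℝ (Fin n)), Adm a b x u →
      |s * (∫ t in a..b, ⟪A (x t), zv P⟫) -
        s * ∫ t in a..b, avP (fun x => ⟪A x, zv P⟫) P (x t)| ≤
      2 * B * ‖zv P‖ + B * ‖zv P‖ * ∫ t in a..b, ‖u t - s • zv P‖ := by
    intro a b x u h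
    have h1 := avP_trap (g := fun x => ⟪A x, zv P⟫)
      (G := fun x => ContinuousLinearMap.adjoint (A' x) (zv P)) (B := B * ‖zv P‖)
      (fun x => grad_inner hA x P) hgp
      (fun x => (abs_real_inner_le_norm _ _).trans
        (mul_le_mul_of_nonneg_right (hA.bd x) (norm_nonneg _)))
      (fun x => by
        refine (ContinuousLinearMap.le_opNorm _ _).trans
          (mul_le_mul_of_nonneg_right ?_ (norm_nonneg _))
        rw [LinearIsometryEquiv.norm_map]
        exact hA.bdA x)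
      (fun x y => by
        have h2 : ContinuousLinearMap.adjoint (A' x) (zv P) -
            ContinuousLinearMap.adjoint (A' y) (zv P) =
            ContinuousLinearMap.adjoint (A' x - A' y) (zv P) := by
          rw [map_sub]; rfl
        rw [h2]
        refine (ContinuousLinearMap.le_opNorm _ _).trans ?_
        rw [LinearIsometryEquiv.norm_map]
        calc ‖A' x - A' y‖ * ‖zv P‖ ≤ (B * ‖x - y‖) * ‖zv P‖ :=
              mul_le_mul_of_nonneg_right (hA.lip x y) (norm_nonneg _)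
          _ = B * ‖zv P‖ * ‖x - y‖ := by ring)
      P hs h
    rw [← mul_sub, abs_mul, abs_of_pos hs]
    calc s * |(∫ t in a..b, ⟪A (x t), zv P⟫) -
          ∫ t in a..b, avP (fun x => ⟪A x, zv P⟫) P (x t)| ≤
          s * ((2 * (B * ‖zv P‖) + B * ‖zv P‖ * ∫ t in a..b, ‖u t - s • zv P‖) / s) :=
            mul_le_mul_of_nonneg_left h1 hs.le
      _ = 2 * B * ‖zv P‖ + B * ‖zv P‖ * ∫ t in a..b, ‖u t - s • zv P‖ := by
          field_simp
  have hint : ∀ (κ : ℝ) (a b : ℝ) (x u : ℝ → EuclideanSpace ℝ (Fin n)), Adm a b x u →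
      IntervalIntegrable (fun t => κ / 2 * ‖u t - s • zv P‖ ^ 2) volume a b ∧
      IntervalIntegrable (fun t => (s * S) * -avK (fun x => ⟪A x, zv P₀⟫) k₀ m ⟪zv k₀, x t⟫)
        volume a b ∧
      IntervalIntegrable (fun t => ⟪A (x t), zv P⟫) volume a b ∧
      IntervalIntegrable (fun t => avP (fun x => ⟪A x, zv P⟫) P (x t)) volume a b ∧
      IntervalIntegrable (fun t => ‖u t - s • zv P‖) volume a b ∧
      IntervalIntegrable (fun t => K (u t) - K (s • zv P) - ⟪D (s • zv P), u t - s • zv P⟫ +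
        ⟪A (x t), u t⟫ - V (x t)) volume a b := by
    intro κ a b x u h
    refine ⟨?_, ?_, ?_, ?_, ?_, ?_⟩
    · exact h.integrable (g := fun p => κ / 2 * ‖p.2 - s • zv P‖ ^ 2)
        (continuous_const.mul ((continuous_snd.sub continuous_const).norm.pow 2))
    · exact h.integrable (g := fun p => (s * S) * -avK (fun x => ⟪A x, zv P₀⟫) k₀ m ⟪zv k₀, p.1⟫)
        (hwc.comp (continuous_const.inner continuous_fst))
    · exact h.integrable (g := fun p => ⟪A p.1, zv P⟫) (hgc.comp continuous_fst)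
    · exact h.integrable (g := fun p => avP (fun x => ⟪A x, zv P⟫) P p.1)
        ((avP_cont hgc P).comp continuous_fst)
    · exact h.integrable (g := fun p => ‖p.2 - s • zv P‖)
        (continuous_snd.sub continuous_const).norm
    · exact h.integrable hlc
  have hpt : ∀ x v : EuclideanSpace ℝ (Fin n),
      κ₁ / 2 * ‖v - s • zv P‖ ^ 2 + s * ⟪A x, zv P⟫ - B * ‖v - s • zv P‖ - B ≤
        K v - K (s • zv P) - ⟪D (s • zv P), v - s • zv P⟫ + ⟪A x, v⟫ - V x ∧
      K v - K (s • zv P) - ⟪D (s • zv P), v - s • zv P⟫ + ⟪A x, v⟫ - V x ≤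
        κ₂ / 2 * ‖v - s • zv P‖ ^ 2 + s * ⟪A x, zv P⟫ + B * ‖v - s • zv P‖ + B := by
    intro x v
    have h1 := hK.lo (s • zv P) v
    have h2 := hK.hi (s • zv P) v
    have h3 : ⟪A x, v⟫ = s * ⟪A x, zv P⟫ + ⟪A x, v - s • zv P⟫ := by
      rw [inner_sub_right, real_inner_smul_right]; ring
    have h4 : |⟪A x, v - s • zv P⟫| ≤ B * ‖v - s • zv P‖ :=
      (abs_real_inner_le_norm _ _).trans
        (mul_le_mul_of_nonneg_right (hA.bd x) (norm_nonneg _))
    have h5 := abs_le.1 h4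
    have h6 := abs_le.1 (hV.bd x)
    constructor
    · rw [h3]; linarith [h5.1, h6.2]
    · rw [h3]; linarith [h5.2, h6.1]
  have hptw : ∀ x : EuclideanSpace ℝ (Fin n),
      -((s * S) * -avK (fun x => ⟪A x, zv P₀⟫) k₀ m ⟪zv k₀, x⟫) - s * ρ ≤
        s * avP (fun x => ⟪A x, zv P⟫) P x ∧
      s * avP (fun x => ⟪A x, zv P⟫) P x ≤
        -((s * S) * -avK (fun x => ⟪A x, zv P₀⟫) k₀ m ⟪zv k₀, x⟫) + s * ρ := by
    intro x
    have h1 := abs_le.1 (hav x)
    have h2 := mul_le_mul_of_nonneg_left h1.1 hs.le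
    have h3 := mul_le_mul_of_nonneg_left h1.2 hs.le
    constructor
    · nlinarith [h2]
    · nlinarith [h3]
  refine
    { hl := ⟨hlc, fun x v k => by simp only [hA.per x k, hV.per x k]⟩
      km := hkm
      kP := hkP
      s_pos := hs
      w_cont := hwc
      w_per := hwp
      w_le := hM1
      w_max := hM2
      κ₁_pos := hK.pos
      κ₂_pos := hK.pos₂
      ε_nonneg := by positivity
      β₀_nonneg := by positivity
      β₁_nonneg := by positivity
      lo := ?_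
      hi := ?_ }
  · intro a b x u h
    obtain ⟨i1, i2, i3, i4, i5, i6⟩ := hint κ₁ a b x u h
    have hk := abs_le.1 (key a b x u h)
    have i2n : IntervalIntegrable (fun t => -((s * S) *
      -avK (fun x => ⟪A x, zv P₀⟫) k₀ m ⟪zv k₀, x t⟫)) volume a b := i2.neg
    have e1 : ∫ t in a..b, (κ₁ / 2 * ‖u t - s • zv P‖ ^ 2 + s * ⟪A (x t), zv P⟫ -
        B * ‖u t - s • zv P‖ - B) ≤ ∫ t in a..b, (K (u t) - K (s • zv P) -
        ⟪D (s • zv P), u t - s • zv P⟫ + ⟪A (x t), u t⟫ - V (x t)) := by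
      refine intervalIntegral.integral_mono_on h.le ?_ i6 fun t _ => (hpt (x t) (u t)).1
      exact ((i1.add (i3.const_mul s)).sub (i5.const_mul B)).sub intervalIntegrable_const
    have e2 : ∫ t in a..b, (κ₁ / 2 * ‖u t - s • zv P‖ ^ 2 + s * ⟪A (x t), zv P⟫ -
        B * ‖u t - s • zv P‖ - B) = (∫ t in a..b, κ₁ / 2 * ‖u t - s • zv P‖ ^ 2) +
        s * (∫ t in a..b, ⟪A (x t), zv P⟫) - B * (∫ t in a..b, ‖u t - s • zv P‖) -
        B * (b - a) := by
      rw [intervalIntegral.integral_sub ((i1.add (i3.const_mul s)).sub (i5.const_mul B))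
        intervalIntegrable_const, intervalIntegral.integral_sub (i1.add (i3.const_mul s))
        (i5.const_mul B), intervalIntegral.integral_add i1 (i3.const_mul s),
        intervalIntegral.integral_const]
      simp only [smul_eq_mul, intervalIntegral.integral_const_mul]
      ring
    have e3 : ∫ t in a..b, (-((s * S) * -avK (fun x => ⟪A x, zv P₀⟫) k₀ m ⟪zv k₀, x t⟫) -
        s * ρ) ≤ ∫ t in a..b, s * avP (fun x => ⟪A x, zv P⟫) P (x t) := by
      refine intervalIntegral.integral_mono_on h.le (i2n.sub intervalIntegrable_const)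
        (i4.const_mul s) fun t _ => (hptw (x t)).1
    have e4 : ∫ t in a..b, (-((s * S) * -avK (fun x => ⟪A x, zv P₀⟫) k₀ m ⟪zv k₀, x t⟫) -
        s * ρ) = -(∫ t in a..b, (s * S) * -avK (fun x => ⟪A x, zv P₀⟫) k₀ m ⟪zv k₀, x t⟫) -
        s * ρ * (b - a) := by
      rw [intervalIntegral.integral_sub i2n intervalIntegrable_const,
        intervalIntegral.integral_const]
      have e8 := intervalIntegral.integral_neg (μ := volume) (a := a) (b := b)
        (f := fun t => (s * S) * -avK (fun x => ⟪A x, zv P₀⟫) k₀ m ⟪zv k₀, x t⟫)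
      rw [e8]
      simp only [smul_eq_mul]
      ring
    have e5 : ∫ t in a..b, s * avP (fun x => ⟪A x, zv P⟫) P (x t) =
        s * ∫ t in a..b, avP (fun x => ⟪A x, zv P⟫) P (x t) :=
      intervalIntegral.integral_const_mul _ _
    have e6 : ∫ t in a..b, (κ₁ / 2 * ‖u t - s • zv P‖ ^ 2 -
        (s * S) * -avK (fun x => ⟪A x, zv P₀⟫) k₀ m ⟪zv k₀, x t⟫) =
        (∫ t in a..b, κ₁ / 2 * ‖u t - s • zv P‖ ^ 2) -
        ∫ t in a..b, (s * S) * -avK (fun x => ⟪A x, zv P₀⟫) k₀ m ⟪zv k₀, x t⟫ :=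
      intervalIntegral.integral_sub i1 i2
    rw [e2] at e1
    rw [e4, e5] at e3
    rw [e6]
    have e7 := hk.1
    nlinarith [e1, e3, e7]
  · intro a b x u h
    obtain ⟨i1, i2, i3, i4, i5, i6⟩ := hint κ₂ a b x u h
    have hk := abs_le.1 (key a b x u h)
    have i2n : IntervalIntegrable (fun t => -((s * S) *
      -avK (fun x => ⟪A x, zv P₀⟫) k₀ m ⟪zv k₀, x t⟫)) volume a b := i2.neg
    have e1 : ∫ t in a..b, (K (u t) - K (s • zv P) -
        ⟪D (s • zv P), u t - s • zv P⟫ + ⟪A (x t), u t⟫ - V (x t)) ≤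
        ∫ t in a..b, (κ₂ / 2 * ‖u t - s • zv P‖ ^ 2 + s * ⟪A (x t), zv P⟫ +
        B * ‖u t - s • zv P‖ + B) := by
      refine intervalIntegral.integral_mono_on h.le i6 ?_ fun t _ => (hpt (x t) (u t)).2
      exact ((i1.add (i3.const_mul s)).add (i5.const_mul B)).add intervalIntegrable_const
    have e2 : ∫ t in a..b, (κ₂ / 2 * ‖u t - s • zv P‖ ^ 2 + s * ⟪A (x t), zv P⟫ +
        B * ‖u t - s • zv P‖ + B) = (∫ t in a..b, κ₂ / 2 * ‖u t - s • zv P‖ ^ 2) +
        s * (∫ t in a..b, ⟪A (x t), zv P⟫) + B * (∫ t in a..b, ‖u t - s • zv P‖) +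
        B * (b - a) := by
      rw [intervalIntegral.integral_add ((i1.add (i3.const_mul s)).add (i5.const_mul B))
        intervalIntegrable_const, intervalIntegral.integral_add (i1.add (i3.const_mul s))
        (i5.const_mul B), intervalIntegral.integral_add i1 (i3.const_mul s),
        intervalIntegral.integral_const]
      simp only [smul_eq_mul, intervalIntegral.integral_const_mul]
      ring
    have e3 : ∫ t in a..b, s * avP (fun x => ⟪A x, zv P⟫) P (x t) ≤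
        ∫ t in a..b, (-((s * S) * -avK (fun x => ⟪A x, zv P₀⟫) k₀ m ⟪zv k₀, x t⟫) +
        s * ρ) := by
      refine intervalIntegral.integral_mono_on h.le (i4.const_mul s)
        (i2n.add intervalIntegrable_const) fun t _ => (hptw (x t)).2
    have e4 : ∫ t in a..b, (-((s * S) * -avK (fun x => ⟪A x, zv P₀⟫) k₀ m ⟪zv k₀, x t⟫) +
        s * ρ) = -(∫ t in a..b, (s * S) * -avK (fun x => ⟪A x, zv P₀⟫) k₀ m ⟪zv k₀, x t⟫) +
        s * ρ * (b - a) := by
      rw [intervalIntegral.integral_add i2n intervalIntegrable_const,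
        intervalIntegral.integral_const]
      have e8 := intervalIntegral.integral_neg (μ := volume) (a := a) (b := b)
        (f := fun t => (s * S) * -avK (fun x => ⟪A x, zv P₀⟫) k₀ m ⟪zv k₀, x t⟫)
      rw [e8]
      simp only [smul_eq_mul]
      ring
    have e5 : ∫ t in a..b, s * avP (fun x => ⟪A x, zv P⟫) P (x t) =
        s * ∫ t in a..b, avP (fun x => ⟪A x, zv P⟫) P (x t) :=
      intervalIntegral.integral_const_mul _ _
    have e6 : ∫ t in a..b, (κ₂ / 2 * ‖u t - s • zv P‖ ^ 2 -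
        (s * S) * -avK (fun x => ⟪A x, zv P₀⟫) k₀ m ⟪zv k₀, x t⟫) =
        (∫ t in a..b, κ₂ / 2 * ‖u t - s • zv P‖ ^ 2) -
        ∫ t in a..b, (s * S) * -avK (fun x => ⟪A x, zv P₀⟫) k₀ m ⟪zv k₀, x t⟫ :=
      intervalIntegral.integral_sub i1 i2
    rw [e2] at e1
    rw [e4, e5] at e3
    rw [e6]
    have e7 := hk.2
    nlinarith [e1, e3, e7]

end Pool.Agent.H33.AM
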