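import Pool.Agent.H33.AM.P.R3
import Pool.Agent.H33.AM.P.T7
import Pool.Agent.H33.AM.P.V5
import Pool.Agent.H33.AM.P.V6

/-!
# Module V7: flats of the action functional

* `flat_of_trapped`: put `E₀ = e - E₁` with `e` from `Trapped`; on curves
  `∫ (L - ⟪c₀ + η k₀, u⟫ + E₀) = ∫ (ℓ + e) - η (⟪k₀, x(b)⟫ - ⟪k₀, x(a)⟫) + f(x(b)) - f(x(a))`
  (`Adm.integral_inner`), and for `E' < E₀` the failure of `Crit l k₀ (E' + E₁)` gives the closed curve
  (`f` is periodic; `0 < T` since `T = 0` gives the action `0`).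
* `flat_potential`: `A' x` symmetric, so `A = a₀ + ∇f` (`exists_grad`). By `exists_avK_ne` there are `k₀`,
  `m` with `avK V k₀ m` not constant; `δ` from `trap_main` (`w₁ = avK V k₀ m`); `N` from `avP_tendsto` with
  `P₀ = 0`, `P = PN k₀ m 0 N`; `s` large (`2 B/s ≤ δ`), `σ = 1`, `trap_potential`, `Trap.mono`.
  `lag K A V x v = ℓ(x, v) + ⟪c₀, v⟫ + E₁ + ⟪∇f(x), v⟫`, `c₀ = D q + a₀`, `E₁ = K q - ⟪D q, q⟫`, and
  `∫ ⟪∇f(x), u⟫ = f(x(b)) - f(x(a))` (`Adm.integral_grad`).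
* `flat_magnetic`: `k₀`, `m`, `P₀` from `exists_avK_A_ne`; `δ` from `trap_main` with
  `w₁ = -avK ⟪A, zv P₀⟫ k₀ m`. Choose `N ≥ 1` large, `P = PN k₀ m P₀ N`, `S = N ^ n`:
  `|⟪A, zv P⟫ - S ⟪A, zv P₀⟫| ≤ B C S/N` (`PN_size`) and `|avP ⟪A, zv P₀⟫ P - avK ..| ≤ δ/4`
  (`avP_tendsto`), so `|avP ⟪A, zv P⟫ P - S avK ..| ≤ ρ = S δ/2`. With `σ = s S` and `s` large:
  `s ρ + B ≤ σ δ`, `2 B ‖zv P‖ ≤ √σ δ`, `B ‖zv P‖ + B ≤ √σ δ`; `trap_magnetic`, `Trap.mono`, `trap_main`,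
  `flat_of_trapped` with `f = 0`, `c₀ = D q`, `E₁ = K q - ⟪D q, q⟫`.
-/

set_option autoImplicit false

open MeasureTheory
open scoped RealInnerProductSpace

namespace Pool.Agent.H33.AM

variable {n : ℕ}

private theorem act_eq {l : EuclideanSpace ℝ (Fin n) → EuclideanSpace ℝ (Fin n) → ℝ} (hl : HL l)
    {a b : ℝ} {x u : ℝ → EuclideanSpace ℝ (Fin n)} (h : Adm a b x u)
    (c : EuclideanSpace ℝ (Fin n)) (E : ℝ) :
    ∫ t in a..b, (l (x t) (u t) + ⟪c, u t⟫ + E) =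
      (∫ t in a..b, l (x t) (u t)) + (⟪c, x b⟫ - ⟪c, x a⟫) + E * (b - a) := by
  have h1 : IntervalIntegrable (fun t => l (x t) (u t)) volume a b := h.integrable hl.cont
  have h2 : IntervalIntegrable (fun t => ⟪c, u t⟫) volume a b :=
    h.integrable (g := fun p => ⟪c, p.2⟫) (by fun_prop)
  rw [intervalIntegral.integral_add (h1.add h2) (by simp), intervalIntegral.integral_add h1 h2,
    h.integral_inner c]
  simp [mul_comm]

theorem flat_of_trapped {L l : EuclideanSpace ℝ (Fin n) → EuclideanSpace ℝ (Fin n) → ℝ}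
    {k₀ : Fin n → ℤ} (hk : k₀ ≠ 0) (hL : HL L) (hl : HL l) {c₀ : EuclideanSpace ℝ (Fin n)}
    {E₁ C₁ : ℝ} {f : EuclideanSpace ℝ (Fin n) → ℝ} (hf : ∀ x, |f x| ≤ C₁)
    (hfper : ∀ x (k : Fin n → ℤ), f (x + zv k) = f x)
    (hLl : ∀ (a b : ℝ) (x u : ℝ → EuclideanSpace ℝ (Fin n)), Adm a b x u →
      ∫ t in a..b, L (x t) (u t) =
        (∫ t in a..b, (l (x t) (u t) + ⟪c₀, u t⟫ + E₁)) + f (x b) - f (x a))
    (h : Trapped l k₀) : Flat L := by
  obtain ⟨e, fu, fd, C, hlt, hcrit, hnc, hη⟩ := h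
  have key : ∀ (T : ℝ) (x u : ℝ → EuclideanSpace ℝ (Fin n)) (c : EuclideanSpace ℝ (Fin n)) (E : ℝ),
      Adm 0 T x u → ∫ t in (0 : ℝ)..T, (L (x t) (u t) - ⟪c, u t⟫ + E) =
        (∫ t in (0 : ℝ)..T, l (x t) (u t)) + (⟪c₀, x T⟫ - ⟪c₀, x 0⟫) - (⟪c, x T⟫ - ⟪c, x 0⟫) +
          (E₁ + E) * T + (f (x T) - f (x 0)) := by
    intro T x u c E hx
    have h1 := act_eq hL hx (-c) E
    have h2 : ∫ t in (0 : ℝ)..T, (L (x t) (u t) - ⟪c, u t⟫ + E) =
        ∫ t in (0 : ℝ)..T, (L (x t) (u t) + ⟪-c, u t⟫ + E) := by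
      congr 1
      funext t
      rw [inner_neg_left]
      ring
    rw [h2, h1, hLl 0 T x u hx, act_eq hl hx c₀ E₁, inner_neg_left, inner_neg_left]
    ring
  have key2 : ∀ (T : ℝ) (x u : ℝ → EuclideanSpace ℝ (Fin n)) (e : ℝ), Adm 0 T x u →
      act l e 0 T x u = (∫ t in (0 : ℝ)..T, l (x t) (u t)) + e * T := by
    intro T x u e hx
    have h1 : IntervalIntegrable (fun t => l (x t) (u t)) volume 0 T := hx.integrable hl.cont
    unfold act
    rw [intervalIntegral.integral_add h1 (by simp)]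
    simp [mul_comm]
  refine ⟨k₀, c₀, e - E₁, -fd, fu, C + 2 * C₁, hk, hlt, ?_, ?_⟩
  · intro η hη' T x u hx
    have h1 := hη η hη' T (x 0) (x T) (act l e 0 T x u) ⟨x, u, hx, rfl, rfl, rfl⟩
    rw [key T x u _ _ hx]
    rw [key2 T x u e hx] at h1
    rw [inner_add_left, inner_add_left, inner_smul_left, inner_smul_left]
    have h3 := abs_le.1 (hf (x T))
    have h4 := abs_le.1 (hf (x 0))
    simp only [conj_trivial]
    nlinarith
  · intro E' hE'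
    have h1 := hnc (E' + E₁) (by linarith)
    unfold Crit at h1
    push Not at h1
    obtain ⟨T, x, k, r, hk0, ⟨ξ, u, hξ, hξ0, hξT, hact⟩, hr⟩ := h1
    refine ⟨T, ξ, u, k, ?_, hξ, by rw [hξT, hξ0], hk0, ?_⟩
    · rcases hξ.le.lt_or_eq with h2 | h2
      · exact h2
      · exfalso
        rw [← h2] at hact
        unfold act at hact
        simp only [intervalIntegral.integral_same] at hact
        linarith
    · rw [key T ξ u _ _ hξ]
      rw [key2 T ξ u _ hξ] at hact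
      have h3 : f (ξ T) = f (ξ 0) := by rw [hξT, hξ0, hfper]
      rw [h3]
      linarith

end Pool.Agent.H33.AM
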