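import Pool.Agent.H33.AM.P.R3
import Pool.Agent.H33.AM.P.T7
import Pool.Agent.H33.AM.P.V5
import Pool.Agent.H33.AM.P.V6
import Pool.Agent.H33.AM.P.V7a

/-!
# Module V7: flats of the action functional

* `flat_of_trapped`: put `E₀ = e - E₁` with `e` from `Trapped`; on curves
  `∫ (L - ⟪c₀ + η k₀, u⟫ + E₀) = ∫ (ℓ + e) - η (⟪k₀, x(b)⟫ - ⟪k₀, x(a)⟫) + f(x(b)) - f(x(a))`
  (`Adm.integral_inner`), and for `E' < E₀` the failure of `Crit l k₀ (E' + E₁)` gives the closed curve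
  (`f` is periodic; `0 < T` since `T = 0` gives the action `0`).
* `flat_potential`: `A' x` symmetric, so `A = a₀ + ∇f` (`exists_grad`). By `exists_avK_ne` there are `k₀`,
  `m` with `avK V k₀ m` not constant; `δ` from `trap_main` (`w₁ = avK V k₀ m`); `N` from `avP_tendsto` with
  `P₀ = 0`, `P = PN k₀ m 0 N`; `s` large (`2 B/s ≤ δ`), `σ = 1`, `trap_potential`, `Trap.mono`.
  `lag K A V x v = ℓ(x, v) + ⟪c₀, v⟫ + E₁ + ⟪∇f(x), v⟫`, `c₀ = D q + a₀`, `E₁ = K q - ⟪D q, q⟫`, and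
  `∫ ⟪∇f(x), u⟫ = f(x(b)) - f(x(a))` (`Adm.integral_grad`).
* `flat_magnetic`: `k₀`, `m`, `P₀` from `exists_avK_A_ne`; `δ` from `trap_main` with
  `w₁ = -avK ⟪A, zv P₀⟫ k₀ m`. Choose `N ≥ 1` large, `P = PN k₀ m P₀ N`, `S = N ^ n`:
  `|⟪A, zv P⟫ - S ⟪A, zv P₀⟫| ≤ B C S/N` (`PN_size`) and `|avP ⟪A, zv P₀⟫ P - avK ..| ≤ δ/4`
  (`avP_tendsto`), so `|avP ⟪A, zv P⟫ P - S avK ..| ≤ ρ = S δ/2`. With `σ = s S` and `s` large:
  `s ρ + B ≤ σ δ`, `2 B ‖zv P‖ ≤ √σ δ`, `B ‖zv P‖ + B ≤ √σ δ`; `trap_magnetic`, `Trap.mono`, `trap_main`,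
  `flat_of_trapped` with `f = 0`, `c₀ = D q`, `E₁ = K q - ⟪D q, q⟫`.
-/

set_option autoImplicit false

open MeasureTheory
open scoped RealInnerProductSpace

namespace Pool.Agent.H33.AM

variable {n : ℕ}


private theorem V7b_HL {K V : EuclideanSpace ℝ (Fin n) → ℝ}
    {D F A : EuclideanSpace ℝ (Fin n) → EuclideanSpace ℝ (Fin n)}
    {A' : EuclideanSpace ℝ (Fin n) → EuclideanSpace ℝ (Fin n) →L[ℝ] EuclideanSpace ℝ (Fin n)}
    {κ₁ κ₂ B : ℝ} (hK : HK K D κ₁ κ₂) (hA : HA A A' B) (hV : HV V F B) : HL (lag K A V) := by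
  have hKc : Continuous K := continuous_iff_continuousAt.2 fun v =>
    (hK.grad v).hasFDerivAt.continuousAt
  have hAc : Continuous A := continuous_iff_continuousAt.2 fun x => (hA.der x).continuousAt
  have hVc : Continuous V := continuous_iff_continuousAt.2 fun x =>
    (hV.der x).hasFDerivAt.continuousAt
  refine ⟨?_, fun x v k => ?_⟩
  · unfold lag
    fun_prop
  · rw [lag, lag, hA.per, hV.per]

theorem flat_potential {K V : EuclideanSpace ℝ (Fin n) → ℝ}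
    {D F A : EuclideanSpace ℝ (Fin n) → EuclideanSpace ℝ (Fin n)}
    {A' : EuclideanSpace ℝ (Fin n) → EuclideanSpace ℝ (Fin n) →L[ℝ] EuclideanSpace ℝ (Fin n)}
    {κ₁ κ₂ B : ℝ} (hK : HK K D κ₁ κ₂) (hA : HA A A' B) (hV : HV V F B)
    (hs : ∀ x v w, ⟪A' x v, w⟫ = ⟪A' x w, v⟫) (hne : ∃ x y, V x ≠ V y) : Flat (lag K A V) := by
  have hKc : Continuous K := continuous_iff_continuousAt.2 fun v =>
    (hK.grad v).hasFDerivAt.continuousAt
  have hAc : Continuous A := continuous_iff_continuousAt.2 fun x => (hA.der x).continuousAt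
  have hVc : Continuous V := continuous_iff_continuousAt.2 fun x =>
    (hV.der x).hasFDerivAt.continuousAt
  obtain ⟨a₀, f, hf, hfper, C, hfC⟩ := exists_grad hA hs
  obtain ⟨k₀, m, hkm, hnc⟩ := exists_avK_ne hVc hV.per hne
  obtain ⟨δ, hδ, hmain⟩ := trap_main hkm hK.pos hK.pos₂ (avK_cont hVc hV.per k₀ m)
    (avK_per hV.per k₀ m) hnc
  obtain ⟨N, hN⟩ := avP_tendsto hkm (dot_zero k₀) hVc hV.per hδ
  have hav := hN N le_rfl
  have hkP := PN_dot hkm (dot_zero k₀) N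
  have hB := hV.nonneg
  have hs0 : 0 < (2 * B + 1) / δ := by positivity
  obtain ⟨M, hT⟩ := trap_potential hK hV hkm hkP hs0 hδ.le hav
  have h1 : 2 * B / ((2 * B + 1) / δ) ≤ δ := by
    rw [div_le_iff₀ hs0, mul_div_cancel₀ _ hδ.ne']
    linarith
  have h2 : B / ((2 * B + 1) / δ) ≤ δ := by
    rw [div_le_iff₀ hs0, mul_div_cancel₀ _ hδ.ne']
    linarith
  have hT' := hT.mono (ε' := 1 * δ) (β₀' := √1 * δ) (β₁' := √1 * δ) (by rw [one_mul])
    (by rw [Real.sqrt_one, one_mul]; exact h1) (by rw [Real.sqrt_one, one_mul]; exact h2)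
  have hT'' := hmain _ (PN k₀ m 0 N) ((2 * B + 1) / δ) 1 M one_pos (by
    simp only [one_mul]
    rw [one_mul] at hT'
    exact hT')
  set q : EuclideanSpace ℝ (Fin n) := ((2 * B + 1) / δ) • zv (PN k₀ m 0 N) with hq
  refine flat_of_trapped (c₀ := D q + a₀) (E₁ := K q - ⟪D q, q⟫) (ne_zero_of_dot hkm).1
    (V7b_HL hK hA hV) hT.hl hfC hfper ?_ hT''
  intro a b x u hx
  have hG := hx.integral_grad hf (hAc.sub continuous_const)
  have i1 := hx.integrable (g := fun p => K p.2 - K q - ⟪D q, p.2 - q⟫ - V p.1 +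
    ⟪D q + a₀, p.2⟫ + (K q - ⟪D q, q⟫)) (by fun_prop)
  have i2 := hx.integrable (g := fun p => ⟪A p.1 - a₀, p.2⟫) (by fun_prop)
  have hsum : ∫ t in a..b, lag K A V (x t) (u t) =
      ∫ t in a..b, ((K (u t) - K q - ⟪D q, u t - q⟫ - V (x t) + ⟪D q + a₀, u t⟫ +
        (K q - ⟪D q, q⟫)) + ⟪A (x t) - a₀, u t⟫) := by
    refine intervalIntegral.integral_congr fun t _ => ?_
    simp only [lag, inner_add_left, inner_sub_left, inner_sub_right]
    ring
  rw [hsum, intervalIntegral.integral_add i1 i2, hG]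
  ring

end Pool.Agent.H33.AM
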