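import Pool.Agent.H33.AM.P.R3
import Pool.Agent.H33.AM.P.T7
import Pool.Agent.H33.AM.P.V5
import Pool.Agent.H33.AM.P.V6
import Pool.Agent.H33.AM.P.V7a
import Pool.Agent.H33.AM.P.V7b

/-!
# Module V7: flats of the action functional

* `flat_of_trapped`: put `E₀ = e - E₁` with `e` from `Trapped`; on curves
  `∫ (L - ⟪c₀ + η k₀, u⟫ + E₀) = ∫ (ℓ + e) - η (⟪k₀, x(b)⟫ - ⟪k₀, x(a)⟫) + f(x(b)) - f(x(a))`
  (`Adm.integral_inner`), and for `E' < E₀` the failure of `Crit l k₀ (E' + E₁)` gives the closed curve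
  (`f` is periodic; `0 < T` since `T = 0` gives the action `0`).
* `flat_potential`: `A' x` symmetric, so `A = a₀ + ∇f` (`exists_grad`). By `exists_avK_ne` there are `k₀`,
  `m` with `avK V k₀ m` not constant; `δ` from `trap_main` (`w₁ = avK V k₀ m`); `N` from `avP_tendsto` with
  `P₀ = 0`, `P = PN k₀ m 0 N`; `s` large (`2 B/s ≤ δ`), `σ = 1`, `trap_potential`, `Trap.mono`.
  `lag K A V x v = ℓ(x, v) + ⟪c₀, v⟫ + E₁ + ⟪∇f(x), v⟫`, `c₀ = D q + a₀`, `E₁ = K q - ⟪D q, q⟫`, and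
  `∫ ⟪∇f(x), u⟫ = f(x(b)) - f(x(a))` (`Adm.integral_grad`).
* `flat_magnetic`: `k₀`, `m`, `P₀` from `exists_avK_A_ne`; `δ` from `trap_main` with
  `w₁ = -avK ⟪A, zv P₀⟫ k₀ m`. Choose `N ≥ 1` large, `P = PN k₀ m P₀ N`, `S = N ^ n`:
  `|⟪A, zv P⟫ - S ⟪A, zv P₀⟫| ≤ B C S/N` (`PN_size`) and `|avP ⟪A, zv P₀⟫ P - avK ..| ≤ δ/4`
  (`avP_tendsto`), so `|avP ⟪A, zv P⟫ P - S avK ..| ≤ ρ = S δ/2`. With `σ = s S` and `s` large:
  `s ρ + B ≤ σ δ`, `2 B ‖zv P‖ ≤ √σ δ`, `B ‖zv P‖ + B ≤ √σ δ`; `trap_magnetic`, `Trap.mono`, `trap_main`,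
  `flat_of_trapped` with `f = 0`, `c₀ = D q`, `E₁ = K q - ⟪D q, q⟫`.
-/

set_option autoImplicit false

open MeasureTheory
open scoped RealInnerProductSpace

namespace Pool.Agent.H33.AM

variable {n : ℕ}


private theorem V7c_HL {K V : EuclideanSpace ℝ (Fin n) → ℝ}
    {D F A : EuclideanSpace ℝ (Fin n) → EuclideanSpace ℝ (Fin n)}
    {A' : EuclideanSpace ℝ (Fin n) → EuclideanSpace ℝ (Fin n) →L[ℝ] EuclideanSpace ℝ (Fin n)}
    {κ₁ κ₂ B : ℝ} (hK : HK K D κ₁ κ₂) (hA : HA A A' B) (hV : HV V F B) : HL (lag K A V) := by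
  have hKc : Continuous K := continuous_iff_continuousAt.2 fun v =>
    (hK.grad v).hasFDerivAt.continuousAt
  have hAc : Continuous A := continuous_iff_continuousAt.2 fun x => (hA.der x).continuousAt
  have hVc : Continuous V := continuous_iff_continuousAt.2 fun x =>
    (hV.der x).hasFDerivAt.continuousAt
  refine ⟨?_, fun x v k => ?_⟩
  · unfold lag
    fun_prop
  · rw [lag, lag, hA.per, hV.per]

theorem flat_magnetic {K V : EuclideanSpace ℝ (Fin n) → ℝ}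
    {D F A : EuclideanSpace ℝ (Fin n) → EuclideanSpace ℝ (Fin n)}
    {A' : EuclideanSpace ℝ (Fin n) → EuclideanSpace ℝ (Fin n) →L[ℝ] EuclideanSpace ℝ (Fin n)}
    {κ₁ κ₂ B : ℝ} (hK : HK K D κ₁ κ₂) (hA : HA A A' B) (hV : HV V F B)
    (hns : ∃ x v w, ⟪A' x v, w⟫ ≠ ⟪A' x w, v⟫) : Flat (lag K A V) := by
  have hKc : Continuous K := continuous_iff_continuousAt.2 fun v =>
    (hK.grad v).hasFDerivAt.continuousAt
  have hAc : Continuous A := continuous_iff_continuousAt.2 fun x => (hA.der x).continuousAt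
  obtain ⟨k₀, m, P₀, hkm, hkP₀, θ₁, θ₂, hne⟩ := exists_avK_A_ne hA hns
  have hg : Continuous fun x => ⟪A x, zv P₀⟫ := by fun_prop
  have hgper : ∀ x (k : Fin n → ℤ), ⟪A (x + zv k), zv P₀⟫ = ⟪A x, zv P₀⟫ := by
    intro x k
    rw [hA.per]
  obtain ⟨δ, hδ, hmain⟩ := trap_main hkm hK.pos hK.pos₂
    (w₁ := fun θ => -avK (fun x => ⟪A x, zv P₀⟫) k₀ m θ) (avK_cont hg hgper k₀ m).neg
    (fun θ => by rw [avK_per hgper k₀ m]) ⟨θ₁, θ₂, fun h => hne (neg_injective h)⟩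
  obtain ⟨C, hC0, hC⟩ := PN_size hkm P₀
  obtain ⟨N₀, hN₀⟩ := avP_tendsto hkm hkP₀ hg hgper (show 0 < δ / 4 by positivity)
  have hB := hV.nonneg
  obtain ⟨N₁, hN₁⟩ := exists_nat_ge (4 * B * C / δ)
  set N : ℕ := max (max N₀ N₁) 1 with hN
  have hN0 : N₀ ≤ N := (le_max_left _ _).trans (le_max_left _ _)
  have hN1 : (N₁ : ℝ) ≤ N := by exact_mod_cast (le_max_right _ _).trans (le_max_left _ _)
  have hN2 : 1 ≤ N := le_max_right _ _
  have hNpos : (0 : ℝ) < N := by exact_mod_cast hN2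
  have hav0 := hN₀ N hN0
  have hkP := PN_dot hkm hkP₀ N
  have hCN := hC N hN2
  set P : Fin n → ℤ := PN k₀ m P₀ N with hP
  set S : ℝ := (N : ℝ) ^ n with hS
  have hS0 : 0 < S := by positivity
  have hBC : B * (C * S / N) ≤ S * (δ / 4) := by
    have h1 : 4 * B * C / δ ≤ N := hN₁.trans hN1
    rw [div_le_iff₀ hδ] at h1
    rw [mul_div_assoc', div_le_iff₀ hNpos]
    nlinarith [mul_le_mul_of_nonneg_left h1 hS0.le]
  have hav : ∀ x, |avP (fun x => ⟪A x, zv P⟫) P x -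
      S * avK (fun x => ⟪A x, zv P₀⟫) k₀ m ⟪zv k₀, x⟫| ≤ S * (δ / 2) := by
    intro x
    have e1 : avP (fun x => ⟪A x, zv P⟫) P x = S * avP (fun x => ⟪A x, zv P₀⟫) P x +
        avP (fun x => ⟪A x, zv P - S • zv P₀⟫) P x := by
      unfold avP
      rw [← intervalIntegral.integral_const_mul, ← intervalIntegral.integral_add]
      · refine intervalIntegral.integral_congr fun t _ => ?_
        simp only [inner_sub_right, inner_smul_right]
        ring
      · exact Continuous.intervalIntegrable (by fun_prop) _ _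
      · exact Continuous.intervalIntegrable (by fun_prop) _ _
    have e2 : |avP (fun x => ⟪A x, zv P - S • zv P₀⟫) P x| ≤ B * (C * S / N) := by
      unfold avP
      have h1 := intervalIntegral.norm_integral_le_of_norm_le_const (a := (0 : ℝ)) (b := 1)
        (f := fun t : ℝ => ⟪A (x + t • zv P), zv P - S • zv P₀⟫) (C := B * (C * S / N))
        (fun t _ => by
          refine (norm_inner_le_norm _ _).trans ?_
          exact mul_le_mul (hA.bd _) hCN (norm_nonneg _) hB)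
      rw [Real.norm_eq_abs] at h1
      simpa using h1
    have e3 : |S * avP (fun x => ⟪A x, zv P₀⟫) P x -
        S * avK (fun x => ⟪A x, zv P₀⟫) k₀ m ⟪zv k₀, x⟫| ≤ S * (δ / 4) := by
      rw [← mul_sub, abs_mul, abs_of_pos hS0]
      exact mul_le_mul_of_nonneg_left (hav0 x) hS0.le
    rw [e1]
    have h2 := abs_add_le (S * avP (fun x => ⟪A x, zv P₀⟫) P x -
        S * avK (fun x => ⟪A x, zv P₀⟫) k₀ m ⟪zv k₀, x⟫)
      (avP (fun x => ⟪A x, zv P - S • zv P₀⟫) P x)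
    rw [show S * avP (fun x => ⟪A x, zv P₀⟫) P x + avP (fun x => ⟪A x, zv P - S • zv P₀⟫) P x -
        S * avK (fun x => ⟪A x, zv P₀⟫) k₀ m ⟪zv k₀, x⟫ =
      S * avP (fun x => ⟪A x, zv P₀⟫) P x - S * avK (fun x => ⟪A x, zv P₀⟫) k₀ m ⟪zv k₀, x⟫ +
        avP (fun x => ⟪A x, zv P - S • zv P₀⟫) P x by ring]
    linarith
  set b₀ : ℝ := 2 * B * ‖zv P‖ + B with hb₀
  have hb₀0 : 0 ≤ b₀ := by positivity
  set σ : ℝ := (b₀ / δ) ^ 2 + 2 * B / δ + 1 with hσ
  have hσ0 : 0 < σ := by positivity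
  have hσ1 : b₀ ≤ √σ * δ := by
    have h1 : b₀ / δ ≤ √σ := by
      refine Real.le_sqrt_of_sq_le ?_
      have : 0 ≤ 2 * B / δ := by positivity
      linarith
    rwa [div_le_iff₀ hδ] at h1
  have hσ2 : B ≤ σ * δ / 2 := by
    have h1 : 2 * B / δ ≤ σ := by
      have : 0 ≤ (b₀ / δ) ^ 2 := by positivity
      linarith
    rw [div_le_iff₀ hδ] at h1
    linarith
  have hs0 : 0 < σ / S := by positivity
  have hsS : σ / S * S = σ := div_mul_cancel₀ _ hS0.ne'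
  obtain ⟨M, hT⟩ := trap_magnetic hK hA hV hkm hkP hs0 hS0
    (show 0 ≤ S * (δ / 2) by positivity) hav
  have hnP : 0 ≤ B * ‖zv P‖ := by positivity
  have hT' := hT.mono (ε' := σ * δ) (β₀' := √σ * δ) (β₁' := √σ * δ)
    (by
      rw [← mul_assoc, hsS]
      linarith)
    (by linarith) (by linarith)
  rw [hsS] at hT'
  have hT'' := hmain _ P (σ / S) σ M hσ0 hT'
  set q : EuclideanSpace ℝ (Fin n) := (σ / S) • zv P with hq
  refine flat_of_trapped (c₀ := D q) (E₁ := K q - ⟪D q, q⟫) (C₁ := 0) (f := fun _ => 0)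
    (ne_zero_of_dot hkm).1 (V7c_HL hK hA hV) hT.hl (fun _ => by rw [abs_zero])
    (fun _ _ => rfl) ?_ hT''
  intro a b x u _
  rw [add_zero, sub_zero]
  refine intervalIntegral.integral_congr fun t _ => ?_
  simp only [lag, inner_sub_right]
  ring

end Pool.Agent.H33.AM
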