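import Pool.Agent.H33.AM.P.X3

/-!
# Module X4: periodic orbits

`per_orbit`: `D'` from `HK.inv`, `Y = field A A' F D'`, `φ` its flow (`field_loc`, `field_growth`,
`flow_of_growth`). For `N ≥ 1` let `x^N` be a discrete minimiser (`disc_exists`), `z^N_i` as in
`disc_euler`. By `euler` (with `τ = T/N`, `c = C τ²`) `‖φ (i τ) (z^N_0) - z^N_i‖ ≤ C' τ` for `i ≤ N`. Since
`z^N_N = z^N_0 + (zv k, 0)` (quasi-periodicity and `A` periodic) and `z^N_0` is bounded, a subsequence
`z^N_0 → z*` satisfies `φ T z* = z* + (zv k, 0)`. The solution `γ(t) = (φ t z*).1`,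
`v(t) = D' ((φ t z*).2 - A (γ t))` (`Sol_of_flow`) is `T`-periodic modulo `zv k` (uniqueness, `Y` is
periodic). Action: `|∫_0^T g(φ t z) dt - ∑ τ g(φ (i τ) z)| → 0` and `|g(φ (i τ) z^N_0) - g(z^N_i)| ≤ C'' τ` for
`g(z) = lag K A V z.1 (D' (z.2 - A z.1))` (Lipschitz on bounded sets, resp. uniformly continuous), so
`∫_0^T g(φ t z*) dt = lim Sd(x^N) ≤ ∫ lag(x, u) + ε` by `disc_of_curve`, for every `ε > 0`.
-/

set_option autoImplicit false

open MeasureTheory
open scoped RealInnerProductSpace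

namespace Pool.Agent.H33.AM

variable {n : ℕ} {K V : EuclideanSpace ℝ (Fin n) → ℝ}
  {D F A : EuclideanSpace ℝ (Fin n) → EuclideanSpace ℝ (Fin n)}
  {A' : EuclideanSpace ℝ (Fin n) → EuclideanSpace ℝ (Fin n) →L[ℝ] EuclideanSpace ℝ (Fin n)}
  {κ₁ κ₂ B T : ℝ}

section riem

variable {W : Type*} [NormedAddCommGroup W] [ProperSpace W]

private lemma riemann_sum {g : W → ℝ} (hg : Continuous g) {φ : ℝ → W → W}
    (hφ : Continuous fun p : ℝ × W => φ p.1 p.2) {T R C : ℝ} (hT : 0 < T) {zs : W}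
    (hzs : ‖zs‖ ≤ R) {ε : ℝ} (hε : 0 < ε) :
    ∃ δ > 0, ∀ (N : ℕ) (z : ℕ → W), 0 < N → T / N < δ → ‖z 0 - zs‖ < δ → (∀ i ≤ N, ‖z i‖ ≤ R) →
      (∀ i ≤ N, ‖φ (i * (T / N)) (z 0) - z i‖ ≤ C * (T / N)) →
      |(∫ t in (0 : ℝ)..T, g (φ t zs)) - ∑ i ∈ Finset.range N, (T / N) * g (z i)| ≤ ε := by
  set Φ : ℝ × W → W := fun p => φ p.1 p.2 with hΦ
  set K1 : Set (ℝ × W) := Set.Icc 0 T ×ˢ Metric.closedBall 0 R with hK1
  have hK1c : IsCompact K1 := isCompact_Icc.prod (isCompact_closedBall 0 R)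
  obtain ⟨R1, hR1⟩ := (hK1c.image hφ).isBounded.exists_norm_le
  set B1 : Set W := Metric.closedBall 0 (max R R1) with hB1
  have hB1c : IsCompact B1 := isCompact_closedBall 0 _
  have hgu : UniformContinuousOn g B1 := hB1c.uniformContinuousOn_of_continuous hg.continuousOn
  have hΦu : UniformContinuousOn Φ K1 := hK1c.uniformContinuousOn_of_continuous hφ.continuousOn
  rw [Metric.uniformContinuousOn_iff] at hgu hΦu
  obtain ⟨δ1, hδ1, H1⟩ := hgu (ε / T) (by positivity)
  obtain ⟨δ2, hδ2, H2⟩ := hΦu (δ1 / 2) (by positivity)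
  refine ⟨min δ2 (δ1 / (2 * (|C| + 1))), lt_min hδ2 (by positivity), ?_⟩
  intro N z hN hτ hz0 hzR hzφ
  have hN' : (0:ℝ) < N := by exact_mod_cast hN
  set τ := T / N with hτd
  have hτ0 : 0 < τ := by positivity
  have hNτ : N * τ = T := by rw [hτd]; field_simp
  have t1 : τ < δ2 := hτ.trans_le (min_le_left _ _)
  have t2 : τ < δ1 / (2 * (|C| + 1)) := hτ.trans_le (min_le_right _ _)
  have t3 : C * τ ≤ δ1 / 2 := by
    rw [lt_div_iff₀ (by positivity)] at t2
    nlinarith [le_abs_self C, abs_nonneg C]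
  set a : ℕ → ℝ := fun i => i * τ with ha
  have hcont : Continuous fun t => g (φ t zs) :=
    hg.comp (hφ.comp (continuous_id.prodMk continuous_const))
  have hint : ∀ x y : ℝ, IntervalIntegrable (fun t => g (φ t zs)) volume x y :=
    fun x y => hcont.intervalIntegrable x y
  have hsum : ∑ i ∈ Finset.range N, ∫ t in a i..a (i + 1), g (φ t zs) =
      ∫ t in (0 : ℝ)..T, g (φ t zs) := by
    rw [intervalIntegral.sum_integral_adjacent_intervals (fun i _ => hint _ _)]
    simp only [ha, Nat.cast_zero, zero_mul]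
    rw [hNτ]
  rw [← hsum, ← Finset.sum_sub_distrib]
  have key : ∀ i ∈ Finset.range N,
      |(∫ t in a i..a (i + 1), g (φ t zs)) - τ * g (z i)| ≤ ε / T * τ := by
    intro i hi
    rw [Finset.mem_range] at hi
    have hi' : (i:ℝ) + 1 ≤ N := by exact_mod_cast hi
    have e1 : a (i + 1) - a i = τ := by
      simp only [ha]
      push_cast
      ring
    have e0 : a i ≤ a (i + 1) := by linarith
    have e2 : (∫ t in a i..a (i + 1), g (φ t zs)) - τ * g (z i) =
        ∫ t in a i..a (i + 1), (g (φ t zs) - g (z i)) := by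
      rw [intervalIntegral.integral_sub (hint _ _) (continuous_const.intervalIntegrable _ _),
        intervalIntegral.integral_const, e1, smul_eq_mul]
    rw [e2]
    have e3 := intervalIntegral.norm_integral_le_of_norm_le_const (a := a i) (b := a (i + 1))
      (f := fun t => g (φ t zs) - g (z i)) (C := ε / T) ?_
    · rw [e1, abs_of_pos hτ0, Real.norm_eq_abs] at e3
      exact e3
    · intro t ht
      rw [Set.uIoc_of_le e0] at ht
      obtain ⟨ht1, ht2⟩ := ht
      have hai : 0 ≤ a i := by simp only [ha]; positivity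
      have haT : a (i + 1) ≤ T := by
        rw [← hNτ]
        simp only [ha]
        push_cast
        exact mul_le_mul_of_nonneg_right hi' hτ0.le
      have m1 : (t, zs) ∈ K1 := by
        refine ⟨⟨by simp only; linarith, by simp only; linarith⟩, ?_⟩
        rw [mem_closedBall_zero_iff]
        exact hzs
      have m2 : (a i, z 0) ∈ K1 := by
        refine ⟨⟨hai, by simp only; linarith⟩, ?_⟩
        rw [mem_closedBall_zero_iff]
        exact hzR 0 (Nat.zero_le _)
      have d1 : dist (t, zs) (a i, z 0) < δ2 := by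
        rw [Prod.dist_eq, max_lt_iff]
        constructor
        · simp only
          rw [Real.dist_eq, abs_of_nonneg (by linarith)]
          linarith
        · simp only
          rw [dist_comm, dist_eq_norm]
          exact hz0.trans_le (min_le_left _ _)
      have d2 := H2 _ m1 _ m2 d1
      have d3 : dist (φ (a i) (z 0)) (z i) ≤ C * τ := by
        rw [dist_eq_norm]
        exact hzφ i hi.le
      have d4 : dist (φ t zs) (z i) < δ1 := by
        calc dist (φ t zs) (z i) ≤ dist (φ t zs) (φ (a i) (z 0)) + dist (φ (a i) (z 0)) (z i) :=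
              dist_triangle _ _ _
          _ < δ1 / 2 + δ1 / 2 := add_lt_add_of_lt_of_le d2 (d3.trans t3)
          _ = δ1 := by ring
      have m3 : φ t zs ∈ B1 := by
        rw [hB1, mem_closedBall_zero_iff]
        exact (hR1 _ ⟨_, m1, rfl⟩).trans (le_max_right _ _)
      have m4 : z i ∈ B1 := by
        rw [hB1, mem_closedBall_zero_iff]
        exact (hzR i hi.le).trans (le_max_left _ _)
      have d5 := H1 _ m3 _ m4 d4
      rw [← dist_eq_norm]
      exact d5.le
  calc |∑ i ∈ Finset.range N, ((∫ t in a i..a (i + 1), g (φ t zs)) - τ * g (z i))|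
      ≤ ∑ i ∈ Finset.range N, |(∫ t in a i..a (i + 1), g (φ t zs)) - τ * g (z i)| :=
        Finset.abs_sum_le_sum_abs _ _
    _ ≤ ∑ i ∈ Finset.range N, ε / T * τ := Finset.sum_le_sum key
    _ = ε := by
        rw [Finset.sum_const, Finset.card_range, nsmul_eq_mul, ← hNτ]
        field_simp

end riem

private lemma HV.perF (hV : HV V F B) (x : EuclideanSpace ℝ (Fin n)) (k : Fin n → ℤ) :
    F (x + zv k) = F x := by
  have h1 := hV.der (x + zv k)
  have h2 : HasGradientAt V (F (x + zv k)) x := by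
    have h3 := h1.hasFDerivAt
    have h4 : HasFDerivAt (fun y : EuclideanSpace ℝ (Fin n) => y + zv k)
      (ContinuousLinearMap.id ℝ _) x := (hasFDerivAt_id x).add_const _
    have h5 := h3.comp x h4
    rw [ContinuousLinearMap.comp_id] at h5
    have h6 : V ∘ (fun y => y + zv k) = V := by
      funext y
      exact hV.per y k
    rw [h6] at h5
    exact h5
  exact h2.unique (hV.der x)

private lemma HA.perA (hA : HA A A' B) (x : EuclideanSpace ℝ (Fin n)) (k : Fin n → ℤ) :
    A' (x + zv k) = A' x := by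
  have h3 := hA.der (x + zv k)
  have h4 : HasFDerivAt (fun y : EuclideanSpace ℝ (Fin n) => y + zv k)
    (ContinuousLinearMap.id ℝ _) x := (hasFDerivAt_id x).add_const _
  have h5 := h3.comp x h4
  rw [ContinuousLinearMap.comp_id] at h5
  have h6 : A ∘ (fun y => y + zv k) = A := by
    funext y
    exact hA.per y k
  rw [h6] at h5
  exact h5.unique (hA.der x)

theorem per_orbit (hK : HK K D κ₁ κ₂) (hA : HA A A' B) (hV : HV V F B) (hT : 0 < T)
    {x u : ℝ → EuclideanSpace ℝ (Fin n)} (h : Adm 0 T x u) {k : Fin n → ℤ}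
    (hx : x T = x 0 + zv k) :
    ∃ γ v : ℝ → EuclideanSpace ℝ (Fin n), Sol D F A A' γ v ∧ (∀ t, γ (t + T) = γ t + zv k) ∧
      (∀ t, v (t + T) = v t) ∧
      ∫ t in (0 : ℝ)..T, lag K A V (γ t) (v t) ≤ ∫ t in (0 : ℝ)..T, lag K A V (x t) (u t) := by
  obtain ⟨D', hD1, hD2, hD⟩ := hK.inv
  have hκ := hK.pos
  set Y := field A A' F D' with hY
  obtain ⟨Cg, hgr⟩ := field_growth hκ hA hV hD
  have hloc := field_loc hκ hA hV hD
  obtain ⟨φ, hφ⟩ := flow_of_growth hloc hgr
  -- discrete minimisers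
  have hex : ∀ N : ℕ, ∃ x : ℤ → EuclideanSpace ℝ (Fin n), IsDM K A V T (N + 1) k x ∧
      ∀ j, x 0 j ∈ Set.Icc (0 : ℝ) 1 := fun N => disc_exists hK hA hV hT (Nat.succ_pos N) k
  choose X hX hX0 using hex
  set Z : ℕ → ℕ → EuclideanSpace ℝ (Fin n) × EuclideanSpace ℝ (Fin n) := fun N i =>
    (X N i, D ((1 / (T / ((N + 1 : ℕ) : ℝ))) • (X N (i + 1) - X N i)) + A (X N i)) with hZ
  obtain ⟨R, C, hRC⟩ := disc_euler hK hA hV hD1 hD2 hD hT k
  have hR : ∀ N, ∀ i ≤ N + 1, ‖Z N i‖ ≤ R := fun N =>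
    (hRC (N + 1) (X N) (Nat.succ_pos N) (hX N) (hX0 N) (Z N) (fun i => rfl)).1
  have hC : ∀ N, ∀ i < N + 1, ‖Z N (i + 1) - Z N i - (T / ((N + 1 : ℕ) : ℝ)) • Y (Z N i)‖ ≤
      C * (T / ((N + 1 : ℕ) : ℝ)) ^ 2 := fun N =>
    (hRC (N + 1) (X N) (Nat.succ_pos N) (hX N) (hX0 N) (Z N) (fun i => rfl)).2
  obtain ⟨C₂, hC₂⟩ := euler hloc hgr hφ R T
  have hE : ∀ N i : ℕ, i ≤ N + 1 → ‖φ ((i : ℝ) * (T / ((N + 1 : ℕ) : ℝ))) (Z N 0) - Z N i‖ ≤
      (C₂ * (1 + |C|)) * (T / ((N + 1 : ℕ) : ℝ)) := by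
    intro N i hi
    have hN' : (0:ℝ) < ((N + 1 : ℕ) : ℝ) := by positivity
    have hτ : 0 < T / ((N + 1 : ℕ) : ℝ) := by positivity
    have h := hC₂ (T / ((N + 1 : ℕ) : ℝ)) (|C| * (T / ((N + 1 : ℕ) : ℝ)) ^ 2) (N + 1) hτ
      (by positivity) (by rw [mul_div_cancel₀ _ hN'.ne']) (Z N) (hR N) ?_ i hi
    · refine h.trans (le_of_eq ?_)
      field_simp
    · intro i hi
      exact (hC N i hi).trans (mul_le_mul_of_nonneg_right (le_abs_self C) (by positivity))
  -- subsequence
  have hcb : ∀ N, Z N 0 ∈ Metric.closedBall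
      (0 : EuclideanSpace ℝ (Fin n) × EuclideanSpace ℝ (Fin n)) R := by
    intro N
    rw [mem_closedBall_zero_iff]
    exact hR N 0 (Nat.zero_le _)
  obtain ⟨zs, hzs, ψ, hψ, hlim⟩ := (isCompact_closedBall _ R).tendsto_subseq hcb
  rw [mem_closedBall_zero_iff] at hzs
  have hτlim : Filter.Tendsto (fun m : ℕ => T / ((ψ m + 1 : ℕ) : ℝ)) Filter.atTop (nhds 0) := by
    have h1 : Filter.Tendsto (fun m : ℕ => T / ((m + 1 : ℕ) : ℝ)) Filter.atTop (nhds 0) :=
      (tendsto_const_div_atTop_nhds_zero_nat T).comp (Filter.tendsto_add_atTop_nat 1)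
    exact h1.comp hψ.tendsto_atTop
  -- end point
  have hend : ∀ N, Z N (N + 1) = Z N 0 + (zv k, 0) := by
    intro N
    have h0 := (hX N).1 0
    have h1 := (hX N).1 1
    rw [zero_add] at h0
    have e1 : ((N + 1 : ℕ) : ℤ) + 1 = 1 + ((N + 1 : ℕ) : ℤ) := by ring
    simp only [hZ]
    rw [e1, h1, h0]
    have e2 : (1 : ℤ) = ((0 : ℕ) : ℤ) + 1 := by simp
    apply Prod.ext
    · simp
    · simp only [Nat.cast_zero, zero_add, Prod.snd_add, add_zero, add_sub_add_right_eq_sub]
      rw [hA.per]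
  have hperz : φ T zs = zs + (zv k, 0) := by
    have l1 : Filter.Tendsto (fun m => φ T (Z (ψ m) 0)) Filter.atTop (nhds (φ T zs)) := by
      have : Continuous fun z => φ T z := hφ.cont.comp (continuous_const.prodMk continuous_id)
      exact (this.tendsto zs).comp hlim
    have l2 : Filter.Tendsto (fun m => Z (ψ m) 0 + (zv k, 0)) Filter.atTop
        (nhds (zs + (zv k, 0))) := hlim.add_const _
    have l3 : Filter.Tendsto (fun m => φ T (Z (ψ m) 0) - (Z (ψ m) 0 + (zv k, 0))) Filter.atTop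
        (nhds 0) := by
      rw [tendsto_zero_iff_norm_tendsto_zero]
      have l4 := hτlim.const_mul (C₂ * (1 + |C|))
      rw [mul_zero] at l4
      refine squeeze_zero (fun m => norm_nonneg _) (fun m => ?_) l4
      have h := hE (ψ m) (ψ m + 1) le_rfl
      have hN' : (0:ℝ) < ((ψ m + 1 : ℕ) : ℝ) := by positivity
      rw [mul_div_cancel₀ _ hN'.ne', hend] at h
      exact h
    have l5 := l1.sub l2
    have l6 := tendsto_nhds_unique l5 l3
    exact sub_eq_zero.mp l6
  have hYper : ∀ z, Y (z + (zv k, 0)) = Y z := by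
    intro z
    simp only [hY, field, Prod.fst_add, Prod.snd_add, add_zero]
    rw [hA.per, hA.perA, hV.perF]
  have hper : ∀ t, φ (t + T) zs = φ t zs + (zv k, 0) := by
    intro t
    have h1 := hφ.uniq (fun s => φ s zs) (fun s => hφ.der zs s) t T
    have h2 := hφ.uniq (fun s => φ s zs + (zv k, 0)) (fun s => by
      have := (hφ.der zs s).add_const ((zv k, 0) :
        EuclideanSpace ℝ (Fin n) × EuclideanSpace ℝ (Fin n))
      have e := hYper (φ s zs)
      rw [hY] at e
      rw [e]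
      exact this) t 0
    simp only [add_zero] at h2
    rw [hφ.zero, ← hperz] at h2
    rw [h1, ← h2]
  refine ⟨fun t => (φ t zs).1, fun t => D' ((φ t zs).2 - A (φ t zs).1),
    Sol_of_flow hκ hA hD1 hD (fun t => hφ.der zs t), ?_, ?_, ?_⟩
  · intro t
    simp only [hper, Prod.fst_add]
  · intro t
    simp only [hper, Prod.fst_add, Prod.snd_add, add_zero]
    rw [hA.per]
  · -- action
    set g : EuclideanSpace ℝ (Fin n) × EuclideanSpace ℝ (Fin n) → ℝ := fun z =>
      lag K A V z.1 (D' (z.2 - A z.1)) with hg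
    have cD' : Continuous D' := by
      have : LipschitzWith (Real.toNNReal (1 / κ₁)) D' := by
        apply LipschitzWith.of_dist_le_mul
        intro p q
        rw [dist_eq_norm, dist_eq_norm, Real.coe_toNNReal _ (by positivity), one_div,
          inv_mul_eq_div, le_div_iff₀ hκ, mul_comm]
        exact hD p q
      exact this.continuous
    have cK : Continuous K :=
      continuous_iff_continuousAt.mpr fun v => (hK.grad v).continuousAt
    have cV : Continuous V :=
      continuous_iff_continuousAt.mpr fun v => (hV.der v).continuousAt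
    have cA : Continuous A :=
      continuous_iff_continuousAt.mpr fun v => (hA.der v).continuousAt
    have cg : Continuous g := by
      simp only [hg, lag]
      have c1 : Continuous fun z : EuclideanSpace ℝ (Fin n) × EuclideanSpace ℝ (Fin n) =>
        D' (z.2 - A z.1) := cD'.comp (continuous_snd.sub (cA.comp continuous_fst))
      exact ((cK.comp c1).add ((cA.comp continuous_fst).inner c1)).sub (cV.comp continuous_fst)
    have hSd : ∀ N, Sd K A V (T / ((N + 1 : ℕ) : ℝ)) (N + 1) (X N) =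
        ∑ i ∈ Finset.range (N + 1), (T / ((N + 1 : ℕ) : ℝ)) * g (Z N i) := by
      intro N
      unfold Sd
      apply Finset.sum_congr rfl
      intro i _
      simp only [hg, hZ]
      rw [add_sub_cancel_right, hD2]
    apply le_of_forall_pos_le_add
    intro ε hε
    obtain ⟨δ, hδ, hδ'⟩ := riemann_sum cg hφ.cont (C := C₂ * (1 + |C|)) hT hzs (half_pos hε)
    obtain ⟨N₀, hN₀⟩ := disc_of_curve hK hA hV hT h hx (half_pos hε)
    have ev1 : ∀ᶠ m in Filter.atTop, T / ((ψ m + 1 : ℕ) : ℝ) < δ :=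
      (tendsto_order.mp hτlim).2 δ hδ
    have ev2 : ∀ᶠ m in Filter.atTop, ‖Z (ψ m) 0 - zs‖ < δ := by
      have := Metric.tendsto_atTop.mp hlim δ hδ
      obtain ⟨M, hM⟩ := this
      refine Filter.eventually_atTop.mpr ⟨M, fun m hm => ?_⟩
      have := hM m hm
      rw [dist_eq_norm] at this
      exact this
    have ev3 : ∀ᶠ m in Filter.atTop, N₀ ≤ ψ m + 1 := by
      refine Filter.eventually_atTop.mpr ⟨N₀, fun m hm => ?_⟩
      have := hψ.id_le m
      simp only [id] at this
      omega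
    obtain ⟨m, hm1, hm2, hm3⟩ := (ev1.and (ev2.and ev3)).exists
    have s1 := hδ' (ψ m + 1) (Z (ψ m)) (Nat.succ_pos _) hm1 hm2 (hR (ψ m)) (hE (ψ m))
    obtain ⟨y, hy, hy'⟩ := hN₀ (ψ m + 1) hm3
    have s2 := (hX (ψ m)).2 y hy
    rw [hSd] at s2
    have s3 := (abs_le.mp s1).2
    have s4 : (∫ t in (0 : ℝ)..T, lag K A V (φ t zs).1 (D' ((φ t zs).2 - A (φ t zs).1))) =
      ∫ t in (0 : ℝ)..T, g (φ t zs) := rfl
    rw [s4]
    linarith

end Pool.Agent.H33.AM
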