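import Pool.Agent.H33.AM.P.I2
import Pool.Agent.H33.AM.P.X4
import Pool.Agent.H33.AM.P.V7

/-!
# Module I3: a flat of the action functional is a flat of the alpha function

Let `c_η = c₀ + η k₀`. For every `η ∈ [η₁, η₂]`: `actionValues` at `c_η` is bounded below by `-E₀`
(`actionValues_ge`). Let `E' < E₀`; the closed curve with `∫ (L - ⟪c₀, u⟫ + E') < 0`, of period `T`, closed
modulo `k` with `dot k₀ k = 0`, gives by `per_orbit` a periodic orbit `(γ, v)` with
`∫ L(γ, v) ≤ ∫ L(x, u)`, and `∫ ⟪c_η, v⟫ = ⟪c_η, zv k⟫ = ⟪c₀, zv k⟫ = ∫ ⟪c₀, u⟫`, so the value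
`(1/T) ∫ (L(γ, v) - ⟪c_η, v⟫) < -E'` belongs to `actionValues` at `c_η` (`mem_actionValues`). So
`alpha L c_η = E₀` for all `η ∈ [η₁, η₂]`, and `alpha` is not strictly convex (`k₀ ≠ 0`).
-/

set_option autoImplicit false

open MeasureTheory
open scoped RealInnerProductSpace

namespace Pool.Agent.H33.AM

variable {n : ℕ} {K V : EuclideanSpace ℝ (Fin n) → ℝ}
  {D F A : EuclideanSpace ℝ (Fin n) → EuclideanSpace ℝ (Fin n)}
  {A' : EuclideanSpace ℝ (Fin n) → EuclideanSpace ℝ (Fin n) →L[ℝ] EuclideanSpace ℝ (Fin n)}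
  {κ₁ κ₂ B : ℝ}

private theorem lag_cont (hK : HK K D κ₁ κ₂) (hA : HA A A' B) (hV : HV V F B) :
    Continuous fun p : EuclideanSpace ℝ (Fin n) × EuclideanSpace ℝ (Fin n) =>
      lag K A V p.1 p.2 := by
  have h1 : Continuous K := continuous_iff_continuousAt.2 fun x => (hK.grad x).continuousAt
  have h2 : Continuous V := continuous_iff_continuousAt.2 fun x => (hV.der x).continuousAt
  have h3 : Continuous A := continuous_iff_continuousAt.2 fun x => (hA.der x).continuousAt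
  unfold lag
  fun_prop

theorem alpha_flat (hK : HK K D κ₁ κ₂) (hA : HA A A' B) (hV : HV V F B)
    (h : Flat (lag K A V)) : ∃ (k₀ : Fin n → ℤ) (c₀ : EuclideanSpace ℝ (Fin n)) (E₀ η₁ η₂ : ℝ),
      k₀ ≠ 0 ∧ η₁ < η₂ ∧ ∀ η ∈ Set.Icc η₁ η₂,
        alpha (fun x v _ => lag K A V x v) (c₀ + η • zv k₀) = E₀ := by
  obtain ⟨k₀, c₀, E₀, η₁, η₂, C, hk, hη, hlow, hup⟩ := h
  refine ⟨k₀, c₀, E₀, η₁, η₂, hk, hη, fun η hη' => ?_⟩
  have hlo : ∀ a ∈ actionValues (fun x v _ => lag K A V x v) (c₀ + η • zv k₀), -E₀ ≤ a :=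
    fun a ha => actionValues_ge hK hA hV (hlow η hη') ha
  have hhi : ∀ E' < E₀, ∃ a ∈ actionValues (fun x v _ => lag K A V x v) (c₀ + η • zv k₀),
      a < -E' := by
    intro E' hE'
    obtain ⟨T, x, u, k, hT, hx, hxT, hk0, hneg⟩ := hup E' hE'
    obtain ⟨γ, v, hsol, hγ, hv, hle⟩ := per_orbit hK hA hV hT hx hxT
    refine ⟨_, mem_actionValues hK hA hV hT hsol hγ hv (c₀ + η • zv k₀), ?_⟩
    have hc := lag_cont hK hA hV
    have hγc : Continuous γ := continuous_iff_continuousAt.2 fun t => (hsol.der t).continuousAt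
    have hvc := hsol.cont
    have hLc : Continuous fun t => lag K A V (γ t) (v t) := hc.comp (hγc.prodMk hvc)
    have h1 : ∫ t in (0 : ℝ)..T, ⟪c₀ + η • zv k₀, v t⟫ = ⟪c₀, zv k⟫ := by
      have h2 : ∫ t in (0 : ℝ)..T, ⟪c₀ + η • zv k₀, v t⟫ =
          ⟪c₀ + η • zv k₀, γ T⟫ - ⟪c₀ + η • zv k₀, γ 0⟫ := by
        apply intervalIntegral.integral_eq_sub_of_hasDerivAt
        · intro t _
          exact ((innerSL ℝ (c₀ + η • zv k₀)).hasFDerivAt.comp_hasDerivAt t (hsol.der t))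
        · exact (continuous_const.inner hvc).intervalIntegrable _ _
      have h3 : γ T = γ 0 + zv k := by
        have := hγ 0
        rwa [zero_add] at this
      rw [h2, h3, inner_add_right, inner_add_left, inner_add_left, inner_smul_left,
        inner_smul_left, inner_zv, hk0]
      simp
    have h4 : ∫ t in (0 : ℝ)..T, (lag K A V (γ t) (v t) - ⟪c₀ + η • zv k₀, v t⟫) =
        (∫ t in (0 : ℝ)..T, lag K A V (γ t) (v t)) - ⟪c₀, zv k⟫ := by
      rw [intervalIntegral.integral_sub (hLc.intervalIntegrable _ _)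
        ((continuous_const.inner hvc).intervalIntegrable _ _), h1]
    have h5 : ∫ t in (0 : ℝ)..T, (lag K A V (x t) (u t) - ⟪c₀, u t⟫ + E') =
        (∫ t in (0 : ℝ)..T, lag K A V (x t) (u t)) - ⟪c₀, zv k⟫ + E' * T := by
      have h6 : IntervalIntegrable (fun t => lag K A V (x t) (u t)) volume 0 T :=
        hx.integrable hc
      have h7 : IntervalIntegrable (fun t => ⟪c₀, u t⟫) volume 0 T :=
        hx.integrable (g := fun p => ⟪c₀, p.2⟫) (by fun_prop)
      rw [intervalIntegral.integral_add (h6.sub h7) (by simp),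
        intervalIntegral.integral_sub h6 h7, hx.integral_inner, hxT, inner_add_right]
      simp [mul_comm]
    rw [h5] at hneg
    rw [h4, one_div, inv_mul_lt_iff₀ hT]
    nlinarith
  have h1 : sInf (actionValues (fun x v _ => lag K A V x v) (c₀ + η • zv k₀)) = -E₀ := by
    apply le_antisymm
    · apply le_of_forall_pos_le_add
      intro ε hε
      obtain ⟨a, ha, ha'⟩ := hhi (E₀ - ε) (by linarith)
      have := csInf_le ⟨-E₀, fun b hb => hlo b hb⟩ ha
      linarith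
    · obtain ⟨a, ha, -⟩ := hhi (E₀ - 1) (by linarith)
      exact le_csInf ⟨a, ha⟩ hlo
  unfold alpha
  rw [h1, neg_neg]

theorem not_strict_of_flat (hK : HK K D κ₁ κ₂) (hA : HA A A' B) (hV : HV V F B)
    (h : Flat (lag K A V)) :
    ¬ StrictConvexOn ℝ Set.univ (alpha (fun x v _ => lag K A V x v)) := by
  obtain ⟨k₀, c₀, E₀, η₁, η₂, hk, hη, hα⟩ := alpha_flat hK hA hV h
  intro hs
  have hk' : zv k₀ ≠ 0 := by
    intro h0
    apply hk
    funext i
    have := congrArg (fun y : EuclideanSpace ℝ (Fin n) => y i) h0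
    simpa [zv] using this
  have hne : c₀ + η₁ • zv k₀ ≠ c₀ + η₂ • zv k₀ := by
    intro h1
    have h2 : η₁ • zv k₀ = η₂ • zv k₀ := add_left_cancel h1
    have h3 : (η₁ - η₂) • zv k₀ = 0 := by rw [sub_smul, h2, sub_self]
    rcases smul_eq_zero.1 h3 with h4 | h4
    · linarith
    · exact hk' h4
  have h1 := hs.2 (Set.mem_univ (c₀ + η₁ • zv k₀)) (Set.mem_univ (c₀ + η₂ • zv k₀)) hne
    (show (0 : ℝ) < 1 / 2 by norm_num) (show (0 : ℝ) < 1 / 2 by norm_num) (by norm_num)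
  have h2 : (1 / 2 : ℝ) • (c₀ + η₁ • zv k₀) + (1 / 2 : ℝ) • (c₀ + η₂ • zv k₀) =
      c₀ + ((η₁ + η₂) / 2) • zv k₀ := by
    module
  rw [h2, hα _ ⟨by linarith, by linarith⟩, hα _ ⟨le_rfl, hη.le⟩, hα _ ⟨hη.le, le_rfl⟩] at h1
  simp only [smul_eq_mul] at h1
  linarith

end Pool.Agent.H33.AM
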