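import Pool.Agent.H33.AM.Basic

/-!
# Module R1: arithmetic of integer vectors, crossing lemmas

All the statements are elementary.

* `crossing`: let `σ₁ = sSup {t ∈ [a, b] | θ t ≤ A}`... more precisely: let `σ₂ = sInf {t ∈ [a, b] | B ≤ θ t}`
  (compact nonempty set, so `θ σ₂ = B` by continuity and `θ a ≤ A ≤ B`), and
  `σ₁ = sSup {t ∈ [a, σ₂] | θ t ≤ A}`, so `θ σ₁ = A`, and `A ≤ θ ≤ B` between.
-/

set_option autoImplicit false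

open MeasureTheory
open scoped RealInnerProductSpace

namespace Pool.Agent.H33.AM

variable {n : ℕ}

theorem zv_add (k l : Fin n → ℤ) : zv (k + l) = zv k + zv l := by
  ext i
  simp [zv]

theorem zv_neg (k : Fin n → ℤ) : zv (-k) = -zv k := by
  ext i
  simp [zv]

theorem zv_zero : zv (0 : Fin n → ℤ) = 0 := by
  ext i
  simp [zv]

theorem zv_nsmul (j : ℕ) (k : Fin n → ℤ) : zv (j • k) = (j : ℝ) • zv k := by
  ext i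
  simp [zv]

theorem zv_zsmul (j : ℤ) (k : Fin n → ℤ) : zv (j • k) = (j : ℝ) • zv k := by
  ext i
  simp [zv]

theorem inner_zv (k l : Fin n → ℤ) : ⟪zv k, zv l⟫ = (dot k l : ℝ) := by
  simp [zv, dot, PiLp.inner_apply, mul_comm]

theorem dot_add (k l l' : Fin n → ℤ) : dot k (l + l') = dot k l + dot k l' := by
  simp [dot, mul_add, Finset.sum_add_distrib]

theorem dot_neg (k l : Fin n → ℤ) : dot k (-l) = -dot k l := by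
  simp [dot]

theorem dot_zero (k : Fin n → ℤ) : dot k 0 = 0 := by
  simp [dot]

theorem dot_nsmul (j : ℕ) (k l : Fin n → ℤ) : dot k (j • l) = j * dot k l := by
  simp only [dot, Pi.smul_apply, nsmul_eq_mul, Finset.mul_sum]
  exact Finset.sum_congr rfl (fun i _ => by ring)

theorem dot_zsmul (j : ℤ) (k l : Fin n → ℤ) : dot k (j • l) = j * dot k l := by
  simp only [dot, Pi.smul_apply, smul_eq_mul, Finset.mul_sum]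
  exact Finset.sum_congr rfl (fun i _ => by ring)

theorem ne_zero_of_dot {k₀ m : Fin n → ℤ} (h : dot k₀ m = 1) : k₀ ≠ 0 ∧ zv k₀ ≠ 0 := by
  constructor
  · rintro rfl
    simp [dot] at h
  · intro h0
    have h1 := inner_zv k₀ m
    rw [h0, inner_zero_left, h] at h1
    norm_num at h1

/-- Up-crossing of `[A, B]`. -/
theorem crossing {θ : ℝ → ℝ} {a b A B : ℝ} (hab : a ≤ b) (hc : ContinuousOn θ (Set.Icc a b))
    (hA : θ a ≤ A) (hAB : A ≤ B) (hB : B ≤ θ b) :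
    ∃ σ₁ σ₂, a ≤ σ₁ ∧ σ₁ ≤ σ₂ ∧ σ₂ ≤ b ∧ θ σ₁ = A ∧ θ σ₂ = B ∧
      ∀ t ∈ Set.Icc σ₁ σ₂, A ≤ θ t ∧ θ t ≤ B := by
  have hS2c : IsCompact (Set.Icc a b ∩ θ ⁻¹' Set.Ici B) :=
    isCompact_Icc.of_isClosed_subset
      (hc.preimage_isClosed_of_isClosed isClosed_Icc isClosed_Ici) Set.inter_subset_left
  have hS2n : (Set.Icc a b ∩ θ ⁻¹' Set.Ici B).Nonempty := ⟨b, ⟨hab, le_refl _⟩, hB⟩
  obtain ⟨σ₂, hσ₂⟩ := hS2c.exists_isLeast hS2n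
  have hσ₂m := hσ₂.1
  have hc2 : ContinuousOn θ (Set.Icc a σ₂) :=
    hc.mono (Set.Icc_subset_Icc le_rfl hσ₂m.1.2)
  have hθ2 : θ σ₂ = B := by
    obtain ⟨t, ht, hθt⟩ := intermediate_value_Icc hσ₂m.1.1 hc2
      (show B ∈ Set.Icc (θ a) (θ σ₂) from ⟨hA.trans hAB, hσ₂m.2⟩)
    have h1 : σ₂ ≤ t := hσ₂.2 ⟨⟨ht.1, ht.2.trans hσ₂m.1.2⟩, hθt.ge⟩
    have h2 : t = σ₂ := le_antisymm ht.2 h1
    rw [← h2, hθt]
  have hS1c : IsCompact (Set.Icc a σ₂ ∩ θ ⁻¹' Set.Iic A) :=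
    isCompact_Icc.of_isClosed_subset
      (hc2.preimage_isClosed_of_isClosed isClosed_Icc isClosed_Iic) Set.inter_subset_left
  have hS1n : (Set.Icc a σ₂ ∩ θ ⁻¹' Set.Iic A).Nonempty := ⟨a, ⟨le_refl _, hσ₂m.1.1⟩, hA⟩
  obtain ⟨σ₁, hσ₁⟩ := hS1c.exists_isGreatest hS1n
  have hσ₁m := hσ₁.1
  have hc1 : ContinuousOn θ (Set.Icc σ₁ σ₂) :=
    hc2.mono (Set.Icc_subset_Icc hσ₁m.1.1 le_rfl)
  have hθ1 : θ σ₁ = A := by
    obtain ⟨t, ht, hθt⟩ := intermediate_value_Icc hσ₁m.1.2 hc1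
      (show A ∈ Set.Icc (θ σ₁) (θ σ₂) from ⟨hσ₁m.2, hAB.trans hσ₂m.2⟩)
    have h1 : t ≤ σ₁ := hσ₁.2 ⟨⟨hσ₁m.1.1.trans ht.1, ht.2⟩, hθt.le⟩
    have h2 : t = σ₁ := le_antisymm h1 ht.1
    rw [← h2, hθt]
  refine ⟨σ₁, σ₂, hσ₁m.1.1, hσ₁m.1.2, hσ₂m.1.2, hθ1, hθ2, fun t ht => ⟨?_, ?_⟩⟩
  · by_contra hcon
    push Not at hcon
    have h1 : t ≤ σ₁ := hσ₁.2 ⟨⟨hσ₁m.1.1.trans ht.1, ht.2⟩, hcon.le⟩
    have h2 : t = σ₁ := le_antisymm h1 ht.1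
    rw [h2, hθ1] at hcon
    exact lt_irrefl _ hcon
  · by_contra hcon
    push Not at hcon
    have h1 : σ₂ ≤ t :=
      hσ₂.2 ⟨⟨hσ₁m.1.1.trans ht.1, ht.2.trans hσ₂m.1.2⟩, hcon.le⟩
    have h2 : t = σ₂ := le_antisymm ht.2 h1
    rw [h2, hθ2] at hcon
    exact lt_irrefl _ hcon

/-- Down-crossing of `[A, B]`. -/
theorem crossing' {θ : ℝ → ℝ} {a b A B : ℝ} (hab : a ≤ b) (hc : ContinuousOn θ (Set.Icc a b))
    (hB : B ≤ θ a) (hAB : A ≤ B) (hA : θ b ≤ A) :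
    ∃ σ₁ σ₂, a ≤ σ₁ ∧ σ₁ ≤ σ₂ ∧ σ₂ ≤ b ∧ θ σ₁ = B ∧ θ σ₂ = A ∧
      ∀ t ∈ Set.Icc σ₁ σ₂, A ≤ θ t ∧ θ t ≤ B := by
  obtain ⟨σ₁, σ₂, h1, h2, h3, h4, h5, h6⟩ := crossing (θ := fun t => -θ t) hab hc.neg
    (neg_le_neg hB) (neg_le_neg hAB) (neg_le_neg hA)
  refine ⟨σ₁, σ₂, h1, h2, h3, neg_injective h4, neg_injective h5, fun t ht => ?_⟩
  have h7 := h6 t ht
  exact ⟨neg_le_neg_iff.mp h7.2, neg_le_neg_iff.mp h7.1⟩

end Pool.Agent.H33.AM
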