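import Pool.Agent.H33.AM.P.R1
import Pool.Agent.H33.AM.P.R2

/-!
# Module R3: connecting curves (`Conn`)

`Conn l e T x y r` = there is a curve from `x` to `y` in time `T` with the action `r` with respect
to `ℓ + e`. Everything follows from module R2 (integrability of `t ↦ l (x t) (u t)` is
`Adm.integrable` with `HL.cont`), substitution rules for interval integrals and, for `Conn.cross`,
the intermediate value theorem for `t ↦ ⟪zv k₀, ξ t⟫`.
-/

set_option autoImplicit false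

open MeasureTheory
open scoped RealInnerProductSpace

namespace Pool.Agent.H33.AM

variable {n : ℕ} {l : EuclideanSpace ℝ (Fin n) → EuclideanSpace ℝ (Fin n) → ℝ}

theorem Conn.nonneg {e T : ℝ} {x y : EuclideanSpace ℝ (Fin n)} {r : ℝ} (h : Conn l e T x y r) :
    0 ≤ T := by
  obtain ⟨ξ, u, h1, -⟩ := h
  exact h1.le

theorem Conn.refl (l : EuclideanSpace ℝ (Fin n) → EuclideanSpace ℝ (Fin n) → ℝ) (e : ℝ)
    (x : EuclideanSpace ℝ (Fin n)) : Conn l e 0 x x 0 := by
  refine ⟨fun _ => x, fun _ => 0, ?_, rfl, rfl, ?_⟩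
  · simpa using Adm.line (n := n) le_rfl x 0
  · simp [act]

/-- Pieces of a curve. -/
theorem Conn.of_adm (hl : HL l) {a b e : ℝ} {x u : ℝ → EuclideanSpace ℝ (Fin n)}
    (h : Adm a b x u) : Conn l e (b - a) (x a) (x b) (act l e a b x u) := by
  have h1 := h.shift (-a)
  simp only [sub_neg_eq_add, add_neg_cancel] at h1
  rw [← sub_eq_add_neg] at h1
  refine ⟨_, _, h1, by simp, by simp, ?_⟩
  unfold act
  rw [intervalIntegral.integral_comp_add_right (fun t => l (x t) (u t) + e)]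
  simp

theorem act_add (hl : HL l) {a b c e : ℝ} {x u : ℝ → EuclideanSpace ℝ (Fin n)}
    (h : Adm a c x u) (hab : a ≤ b) (hbc : b ≤ c) :
    act l e a c x u = act l e a b x u + act l e b c x u := by
  have hg : Continuous fun p : EuclideanSpace ℝ (Fin n) × EuclideanSpace ℝ (Fin n) =>
      l p.1 p.2 + e := hl.cont.add continuous_const
  exact (intervalIntegral.integral_add_adjacent_intervals
    ((h.sub le_rfl hab hbc).integrable hg) ((h.sub hab hbc le_rfl).integrable hg)).symm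

theorem Conn.trans (hl : HL l) {e T T' : ℝ} {x y z : EuclideanSpace ℝ (Fin n)} {r r' : ℝ}
    (h : Conn l e T x y r) (h' : Conn l e T' y z r') : Conn l e (T + T') x z (r + r') := by
  obtain ⟨ξ, u, ha, h0, hT, hr⟩ := h
  obtain ⟨ξ', u', ha', h0', hT', hr'⟩ := h'
  obtain ⟨ξ'', u'', ha'', h1, h2⟩ := ha.concat ha' (hT.trans h0'.symm)
  have hT0 : 0 ≤ T := ha.le
  have hT0' : 0 ≤ T' := ha'.le
  refine ⟨ξ'', u'', ha'', ?_, ?_, ?_⟩
  · rw [(h1 0 hT0).1, h0]
  · rcases hT0'.eq_or_lt with h3 | h3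
    · rw [← h3, add_zero, (h1 T le_rfl).1, hT, ← hT', ← h3, h0']
    · rw [(h2 (T + T') (by linarith)).1, add_sub_cancel_left, hT']
  · rw [act_add hl ha'' hT0 (by linarith), ← hr, ← hr']
    congr 1
    · unfold act
      refine intervalIntegral.integral_congr_ae (Filter.Eventually.of_forall fun t ht => ?_)
      rw [Set.uIoc_of_le hT0] at ht
      rw [(h1 t ht.2).1, (h1 t ht.2).2]
    · unfold act
      have h3 : ∫ t in (T : ℝ)..(T + T'), (l (ξ'' t) (u'' t) + e) =
          ∫ t in (T : ℝ)..(T + T'), (l (ξ' (t - T)) (u' (t - T)) + e) := by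
        refine intervalIntegral.integral_congr_ae (Filter.Eventually.of_forall fun t ht => ?_)
        rw [Set.uIoc_of_le (by linarith)] at ht
        rw [(h2 t ht.1).1, (h2 t ht.1).2]
      rw [h3, intervalIntegral.integral_comp_sub_right (fun t => l (ξ' t) (u' t) + e)]
      simp

theorem Conn.add_zv (hl : HL l) {e T : ℝ} {x y : EuclideanSpace ℝ (Fin n)} {r : ℝ}
    (h : Conn l e T x y r) (k : Fin n → ℤ) : Conn l e T (x + zv k) (y + zv k) r := by
  obtain ⟨ξ, u, ha, h0, hT, hr⟩ := h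
  refine ⟨fun t => ξ t + zv k, u, ha.add_const _, by simp [h0], by simp [hT], ?_⟩
  rw [← hr]
  unfold act
  simp only [hl.per]

/-- Change of the level. -/
theorem Conn.level (hl : HL l) {e T : ℝ} {x y : EuclideanSpace ℝ (Fin n)} {r : ℝ}
    (h : Conn l e T x y r) (e' : ℝ) : Conn l e' T x y (r + (e' - e) * T) := by
  obtain ⟨ξ, u, ha, h0, hT, hr⟩ := h
  refine ⟨ξ, u, ha, h0, hT, ?_⟩
  rw [← hr]
  unfold act
  have hg : Continuous fun p : EuclideanSpace ℝ (Fin n) × EuclideanSpace ℝ (Fin n) =>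
      l p.1 p.2 + e := hl.cont.add continuous_const
  have h1 : (fun t => l (ξ t) (u t) + e') = fun t => (l (ξ t) (u t) + e) + (e' - e) := by
    funext t
    ring
  rw [h1, intervalIntegral.integral_add (ha.integrable hg) (by simp)]
  simp [mul_comm]
  ring

/-- Iteration of a curve which is closed modulo an integer vector. -/
theorem Conn.iter (hl : HL l) {e T : ℝ} {x : EuclideanSpace ℝ (Fin n)} {k : Fin n → ℤ} {r : ℝ}
    (h : Conn l e T x (x + zv k) r) (j : ℕ) :
    Conn l e (j * T) x (x + zv (j • k)) (j * r) := by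
  induction j with
  | zero =>
    have h1 : x + zv (0 • k) = x := by rw [zero_smul, zv_zero, add_zero]
    rw [h1]
    simpa using Conn.refl l e x
  | succ j ih =>
    have h1 := Conn.trans hl ih (h.add_zv hl (j • k))
    have h2 : x + zv k + zv (j • k) = x + zv ((j + 1) • k) := by
      rw [add_smul, one_smul, zv_add]
      abel
    rw [h2] at h1
    have h3 : ((j + 1 : ℕ) : ℝ) * T = j * T + T := by push_cast; ring
    have h4 : ((j + 1 : ℕ) : ℝ) * r = j * r + r := by push_cast; ring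
    rw [h3, h4]
    exact h1

/-- A curve has to cross the levels of `k₀ · x` between its ends. -/
theorem Conn.cross (hl : HL l) {k₀ : Fin n → ℤ} {e T A : ℝ} {x y : EuclideanSpace ℝ (Fin n)}
    {r : ℝ} (h : Conn l e T x y r)
    (hA : (⟪zv k₀, x⟫ ≤ A ∧ A ≤ ⟪zv k₀, y⟫) ∨ (⟪zv k₀, y⟫ ≤ A ∧ A ≤ ⟪zv k₀, x⟫)) :
    ∃ (z : EuclideanSpace ℝ (Fin n)) (T₁ T₂ r₁ r₂ : ℝ), ⟪zv k₀, z⟫ = A ∧ T = T₁ + T₂ ∧
      r = r₁ + r₂ ∧ Conn l e T₁ x z r₁ ∧ Conn l e T₂ z y r₂ := by
  obtain ⟨ξ, u, ha, h0, hT, hr⟩ := h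
  have hT0 : 0 ≤ T := ha.le
  have hc : ContinuousOn (fun t => ⟪zv k₀, ξ t⟫) (Set.Icc 0 T) :=
    continuousOn_const.inner ha.cont
  have h1 : ∃ σ ∈ Set.Icc 0 T, ⟪zv k₀, ξ σ⟫ = A := by
    rcases hA with hA | hA
    · have h2 := intermediate_value_Icc hT0 hc
      exact h2 ⟨by simpa [h0] using hA.1, by simpa [hT] using hA.2⟩
    · have h2 := intermediate_value_Icc' hT0 hc
      exact h2 ⟨by simpa [hT] using hA.1, by simpa [h0] using hA.2⟩
  obtain ⟨σ, hσ, hσA⟩ := h1
  have h2 := Conn.of_adm (e := e) hl (ha.sub le_rfl hσ.1 hσ.2)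
  have h3 := Conn.of_adm (e := e) hl (ha.sub hσ.1 hσ.2 le_rfl)
  rw [h0, sub_zero] at h2
  rw [hT] at h3
  refine ⟨ξ σ, σ, T - σ, act l e 0 σ ξ u, act l e σ T ξ u, hσA, by ring, ?_, h2, h3⟩
  rw [← hr, act_add hl ha hσ.1 hσ.2]

end Pool.Agent.H33.AM
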