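import Pool.Agent.H33.AM.P.R3

/-!
# Module T1: the critical value

Notation: `q = s • zv P`, `θ(x) = ⟪zv k₀, x⟫`, `ũ = u - q`.
* `crit_lower`: let `w θ* = M` and `x* = θ* • zv m` (so `θ(x*) = θ*` as `dot k₀ m = 1`); the line
  `x* + t q`, `t ∈ [0, j / s]`, ends in `x* + zv (j • P)`, stays in the level `θ*`, `ũ = 0`; by
  `Trap.hi` its action w.r.t. `ℓ + e` is at most `(-M + ε + e) j / s + β₀`; it is `≥ 0` by `Crit`;
  let `j → ∞`.
* `crit_upper`: if `Conn l e T x (x + zv k) r`, then by `Conn.iter` there is a curve with the action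
  `j r` in the time `j T`; `Trap.lo` and `κ₁/2 a² - β₁ a ≥ -β₁²/(2 κ₁)`, `w ≤ M` give
  `j r ≥ j T (e - M - ε - β₁²/(2 κ₁)) - β₀ ≥ -β₀` for every `j`; let `j → ∞`.
* `crit_exists`: `e = sInf {e | Crit l k₀ e}`; the action is affine in `e` (`Conn.level`).
-/

set_option autoImplicit false

open MeasureTheory
open scoped RealInnerProductSpace

namespace Pool.Agent.H33.AM

variable {n : ℕ} {l : EuclideanSpace ℝ (Fin n) → EuclideanSpace ℝ (Fin n) → ℝ}
  {k₀ m P : Fin n → ℤ} {s : ℝ} {w : ℝ → ℝ} {κ₁ κ₂ ε β₀ β₁ M : ℝ}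

private theorem Trap.T1_lower (h : Trap l k₀ m P s w κ₁ κ₂ ε β₀ β₁ M) {e T : ℝ}
    (he : M + ε + β₁ ^ 2 / (2 * κ₁) ≤ e) {x y : EuclideanSpace ℝ (Fin n)} {r : ℝ}
    (hr : Conn l e T x y r) : -β₀ ≤ r := by
  obtain ⟨ξ, u, ha, h0, hT, hr⟩ := hr
  have hT0 : 0 ≤ T := ha.le
  have h1 := h.lo 0 T ξ u ha
  have hκ := h.κ₁_pos
  have hw : Continuous w := h.w_cont
  have hi1 : IntervalIntegrable (fun t => κ₁ / 2 * ‖u t - s • zv P‖ ^ 2 - w ⟪zv k₀, ξ t⟫) volume 0 T :=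
    ha.integrable (g := fun p => κ₁ / 2 * ‖p.2 - s • zv P‖ ^ 2 - w ⟪zv k₀, p.1⟫) (by fun_prop)
  have hi2 : IntervalIntegrable (fun t => ‖u t - s • zv P‖) volume 0 T :=
    ha.integrable (g := fun p => ‖p.2 - s • zv P‖) (by fun_prop)
  have hi3 : IntervalIntegrable (fun t => l (ξ t) (u t)) volume 0 T :=
    ha.integrable (g := fun p => l p.1 p.2) h.hl.cont
  have h2 : act l e 0 T ξ u = (∫ t in (0 : ℝ)..T, l (ξ t) (u t)) + e * T := by
    unfold act
    rw [intervalIntegral.integral_add hi3 (by simp)]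
    simp [mul_comm]
  have h3 : ∫ t in (0 : ℝ)..T, ((ε - e : ℝ)) ≤ ∫ t in (0 : ℝ)..T,
      ((κ₁ / 2 * ‖u t - s • zv P‖ ^ 2 - w ⟪zv k₀, ξ t⟫) - β₁ * ‖u t - s • zv P‖) := by
    refine intervalIntegral.integral_mono_on hT0 (by simp) (hi1.sub (hi2.const_mul β₁)) ?_
    intro t _
    have h4 := h.w_le ⟪zv k₀, ξ t⟫
    have h5 : -(β₁ ^ 2 / (2 * κ₁)) ≤ κ₁ / 2 * ‖u t - s • zv P‖ ^ 2 - β₁ * ‖u t - s • zv P‖ := by
      set a := ‖u t - s • zv P‖
      have h6 : κ₁ / 2 * a ^ 2 - β₁ * a + β₁ ^ 2 / (2 * κ₁) = (κ₁ * a - β₁) ^ 2 / (2 * κ₁) := by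
        field_simp
        ring
      have h7 : 0 ≤ (κ₁ * a - β₁) ^ 2 / (2 * κ₁) := by positivity
      linarith
    linarith
  rw [intervalIntegral.integral_sub hi1 (hi2.const_mul β₁), intervalIntegral.integral_const_mul] at h3
  rw [← hr, h2]
  simp only [intervalIntegral.integral_const, sub_zero, smul_eq_mul] at h3
  linarith

theorem Trap.crit_lower (h : Trap l k₀ m P s w κ₁ κ₂ ε β₀ β₁ M) {e : ℝ} (he : Crit l k₀ e) :
    M - ε ≤ e := by
  obtain ⟨θ, hθ⟩ := h.w_max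
  have hs := h.s_pos
  have key : ∀ j : ℕ, 0 ≤ (-M + ε + e) * (j / s) + β₀ := by
    intro j
    have hT : (0 : ℝ) ≤ j / s := by positivity
    have ha := Adm.line (n := n) hT (θ • zv m) (s • zv P)
    have hlev : ∀ t : ℝ, ⟪zv k₀, θ • zv m + t • s • zv P⟫ = θ := by
      intro t
      rw [inner_add_right, inner_smul_right, inner_smul_right, inner_smul_right, inner_zv, inner_zv,
        h.km, h.kP]
      simp
    have hend : θ • zv m + ((j : ℝ) / s) • s • zv P = θ • zv m + zv (j • P) := by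
      rw [zv_nsmul, smul_smul, div_mul_cancel₀ _ hs.ne']
    have h1 := he (j / s) (θ • zv m) (j • P) (act l e 0 (j / s) (fun t => θ • zv m + t • s • zv P)
      fun _ => s • zv P) (by rw [dot_nsmul, h.kP, mul_zero])
      ⟨_, _, ha, by simp, hend, rfl⟩
    have h2 := h.hi 0 (j / s) _ _ ha
    have hi3 : IntervalIntegrable (fun t => l (θ • zv m + t • s • zv P) (s • zv P)) volume 0 (j / s) :=
      ha.integrable (g := fun p => l p.1 p.2) h.hl.cont
    have h3 : act l e 0 (j / s) (fun t => θ • zv m + t • s • zv P) (fun _ => s • zv P) =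
        (∫ t in (0 : ℝ)..(j / s), l (θ • zv m + t • s • zv P) (s • zv P)) + e * (j / s) := by
      unfold act
      rw [intervalIntegral.integral_add hi3 (by simp)]
      simp [mul_comm]
    simp only [hlev, sub_self, norm_zero, hθ] at h2
    rw [h3] at h1
    simp at h2
    nlinarith
  by_contra hcon
  have hneg : -M + ε + e < 0 := by linarith
  obtain ⟨j, hj⟩ := exists_nat_gt (β₀ / (-(-M + ε + e)) * s)
  have h1 := key j
  have h2 : β₀ / (-(-M + ε + e)) < j / s := by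
    rw [lt_div_iff₀ hs]
    exact hj
  rw [div_lt_iff₀ (by linarith)] at h2
  linarith

theorem Trap.crit_upper (h : Trap l k₀ m P s w κ₁ κ₂ ε β₀ β₁ M) {e : ℝ}
    (he : M + ε + β₁ ^ 2 / (2 * κ₁) ≤ e) : Crit l k₀ e := by
  intro T x k r _ hr
  by_contra hcon
  have hneg : r < 0 := not_le.1 hcon
  obtain ⟨j, hj⟩ := exists_nat_gt (β₀ / (-r))
  have h1 := h.T1_lower he (hr.iter h.hl j)
  rw [div_lt_iff₀ (by linarith)] at hj
  linarith

theorem Trap.crit_exists (h : Trap l k₀ m P s w κ₁ κ₂ ε β₀ β₁ M) :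
    ∃ e, Crit l k₀ e ∧ (∀ e' < e, ¬ Crit l k₀ e') ∧ M - ε ≤ e ∧
      e ≤ M + ε + β₁ ^ 2 / (2 * κ₁) := by
  have hne : {e | Crit l k₀ e}.Nonempty := ⟨_, h.crit_upper le_rfl⟩
  have hbdd : BddBelow {e | Crit l k₀ e} := ⟨M - ε, fun e he => h.crit_lower he⟩
  have hcrit : Crit l k₀ (sInf {e | Crit l k₀ e}) := by
    intro T x k r hk hr
    by_contra hcon
    have hneg : r < 0 := not_le.1 hcon
    have hT : 0 ≤ T := hr.nonneg
    obtain ⟨e', he', hlt⟩ := exists_lt_of_csInf_lt hne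
      (show sInf {e | Crit l k₀ e} < sInf {e | Crit l k₀ e} + (-r) / (T + 1) by
        have : 0 < (-r) / (T + 1) := div_pos (by linarith) (by linarith)
        linarith)
    have h1 := he' T x k _ hk (hr.level h.hl e')
    have h2 : (e' - sInf {e | Crit l k₀ e}) * T ≤ (-r) / (T + 1) * T :=
      mul_le_mul_of_nonneg_right (by linarith) hT
    have h3 : (-r) / (T + 1) * T < -r := by
      rw [div_mul_eq_mul_div, div_lt_iff₀ (by linarith)]
      nlinarith
    linarith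
  refine ⟨sInf {e | Crit l k₀ e}, hcrit, fun e' he' hc => ?_, h.crit_lower hcrit,
    csInf_le hbdd (h.crit_upper le_rfl)⟩
  exact absurd (csInf_le hbdd hc) (not_le.2 he')

end Pool.Agent.H33.AM
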