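import Pool.Agent.H33.AM.P.V2

/-!
# Module V3: `avP g (PN k₀ m P₀ N)` converges to `avK g k₀ m ⟪zv k₀, ·⟫`

`c_k(x) = cos(2π ⟪zv k, x⟫ + φ)`; write `a cos + b sin` as combinations of `cos(· + φ)`, `φ = 0`,
`φ = -π/2`. `k · m` = `dot k m`.
* `avP_cos`: if `dot k P ≠ 0` the average of `c_k` over the closed line vanishes; if `dot k P = 0` it
  is `c_k`.
* `avK_cos`: with `k' = k - (k · m) k₀`, `⟪zv k, θ m + y - ⟪k₀, y⟫ m⟫ = (k · m) θ + ⟪zv k', y⟫`; so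
  `avK c_k θ = cos(2π (k · m) θ + φ)` if `k' = 0` and `0` if `k' ≠ 0` (`cube_cos`).
* `PN_dot`: `dot k₀ (PN ..) = 0`, as `dot k₀ m = 1`, `dot k₀ P₀ = 0`.
* `PN_ne`: `dot k (PN k₀ m P₀ N) = N ^ n (k · P₀) + ∑ j, k' j N ^ j`, a nonzero polynomial in `N` if
  `k' ≠ 0`, so it does not vanish for `N` large.
* `PN_size`: `zv (PN ..) - N ^ n • zv P₀` is `O(N ^ (n - 1))` (`n ≥ 1` because `dot k₀ m = 1`).
* `avP_tendsto`: by `trig_dense` and the previous lemmas (`|avP g| ≤ sup |g|`, `|avK g| ≤ sup |g|`,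
  linearity).
-/

set_option autoImplicit false

open MeasureTheory
open scoped RealInnerProductSpace

namespace Pool.Agent.H33.AM

variable {n : ℕ}

private theorem V3a_int_cos {d : ℤ} (hd : d ≠ 0) (c : ℝ) :
    ∫ θ in (0 : ℝ)..1, Real.cos (2 * Real.pi * (d : ℝ) * θ + c) = 0 := by
  have hd' : (d : ℝ) ≠ 0 := by exact_mod_cast hd
  have hc : 2 * Real.pi * (d : ℝ) ≠ 0 := by positivity
  rw [intervalIntegral.integral_comp_mul_add (fun x => Real.cos x) hc c, integral_cos]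
  have h2 : 2 * Real.pi * (d : ℝ) * 1 + c = c + (d : ℝ) * (2 * Real.pi) := by ring
  rw [h2, Real.sin_add_int_mul_two_pi]
  simp

theorem avP_cos (k P : Fin n → ℤ) (φ : ℝ) (x : EuclideanSpace ℝ (Fin n)) :
    avP (fun y => Real.cos (2 * Real.pi * ⟪zv k, y⟫ + φ)) P x =
      if dot k P = 0 then Real.cos (2 * Real.pi * ⟪zv k, x⟫ + φ) else 0 := by
  unfold avP
  have h1 : ∀ t : ℝ, 2 * Real.pi * ⟪zv k, x + t • zv P⟫ + φ =
      2 * Real.pi * (dot k P : ℝ) * t + (2 * Real.pi * ⟪zv k, x⟫ + φ) := by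
    intro t
    rw [inner_add_right, inner_smul_right, inner_zv]
    ring
  simp only [h1]
  split_ifs with h
  · rw [h]
    simp
  · exact V3a_int_cos h _

private theorem V3a_dot_PN (k₀ m P₀ k : Fin n → ℤ) (N : ℕ) :
    dot k (PN k₀ m P₀ N) = (N : ℤ) ^ n * dot k P₀ +
      ∑ j : Fin n, (k j - dot k m * k₀ j) * (N : ℤ) ^ (j : ℕ) := by
  have h1 : dot k (PN k₀ m P₀ N) = ∑ i, ((N : ℤ) ^ n * (k i * P₀ i) + k i * (N : ℤ) ^ (i : ℕ) -
      dot k₀ (fun j => (N : ℤ) ^ (j : ℕ)) * (k i * m i)) := by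
    unfold dot PN
    refine Finset.sum_congr rfl fun i _ => ?_
    unfold dot
    ring
  have h2 : ∑ j : Fin n, (k j - dot k m * k₀ j) * (N : ℤ) ^ (j : ℕ) =
      ∑ j : Fin n, k j * (N : ℤ) ^ (j : ℕ) - dot k m * dot k₀ (fun j => (N : ℤ) ^ (j : ℕ)) := by
    unfold dot
    rw [Finset.mul_sum, ← Finset.sum_sub_distrib]
    refine Finset.sum_congr rfl fun i _ => ?_
    ring
  rw [h1, Finset.sum_sub_distrib, Finset.sum_add_distrib, ← Finset.mul_sum, ← Finset.mul_sum, h2]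
  unfold dot
  ring

theorem PN_dot {k₀ m P₀ : Fin n → ℤ} (hkm : dot k₀ m = 1) (hP : dot k₀ P₀ = 0) (N : ℕ) :
    dot k₀ (PN k₀ m P₀ N) = 0 := by
  rw [V3a_dot_PN, hkm, hP]
  simp

theorem PN_ne (k₀ m P₀ k : Fin n → ℤ) (hk : k ≠ (dot k m) • k₀) :
    ∃ N₀ : ℕ, ∀ N ≥ N₀, dot k (PN k₀ m P₀ N) ≠ 0 := by
  set p : Polynomial ℤ := Polynomial.C (dot k P₀) * Polynomial.X ^ n +
    ∑ j : Fin n, Polynomial.C (k j - dot k m * k₀ j) * Polynomial.X ^ (j : ℕ) with hp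
  have hp0 : p ≠ 0 := by
    intro h0
    apply hk
    funext i
    have h1 : p.coeff (i : ℕ) = 0 := by rw [h0]; simp
    rw [hp, Polynomial.coeff_add, Polynomial.finsetSum_coeff] at h1
    simp only [Polynomial.coeff_C_mul, Polynomial.coeff_X_pow, mul_ite, mul_one, mul_zero] at h1
    rw [if_neg i.2.ne, zero_add, Finset.sum_eq_single i] at h1
    · rw [if_pos rfl] at h1
      simp only [Pi.smul_apply, smul_eq_mul]
      linarith
    · intro j _ hj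
      rw [if_neg]
      intro h2
      exact hj (Fin.ext h2.symm)
    · intro h2
      exact absurd (Finset.mem_univ i) h2
  have heval : ∀ N : ℕ, p.eval (N : ℤ) = dot k (PN k₀ m P₀ N) := by
    intro N
    rw [V3a_dot_PN, hp, Polynomial.eval_add, Polynomial.eval_finsetSum]
    simp only [Polynomial.eval_mul, Polynomial.eval_C, Polynomial.eval_pow, Polynomial.eval_X]
    ring
  have hfin : {x : ℤ | p.IsRoot x}.Finite := Polynomial.finite_setOfPred_isRoot hp0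
  have hfin2 : {N : ℕ | p.IsRoot (N : ℤ)}.Finite :=
    hfin.preimage (Nat.cast_injective.injOn)
  obtain ⟨M, hM⟩ := hfin2.bddAbove
  refine ⟨M + 1, fun N hN h0 => ?_⟩
  have h1 : N ∈ {N : ℕ | p.IsRoot (N : ℤ)} := by
    change p.eval (N : ℤ) = 0
    rw [heval, h0]
  have := hM h1
  omega

theorem PN_size {k₀ m : Fin n → ℤ} (hkm : dot k₀ m = 1) (P₀ : Fin n → ℤ) :
    ∃ C : ℝ, 0 ≤ C ∧ ∀ N : ℕ, 1 ≤ N →
      ‖zv (PN k₀ m P₀ N) - ((N : ℝ) ^ n) • zv P₀‖ ≤ C * (N : ℝ) ^ n / N := by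
  have hn : 1 ≤ n := by
    rcases Nat.eq_zero_or_pos n with h | h
    · subst h
      simp [dot] at hkm
    · exact h
  set S : ℝ := ∑ j, |(k₀ j : ℝ)| with hS
  have hS0 : 0 ≤ S := Finset.sum_nonneg fun j _ => abs_nonneg _
  refine ⟨∑ i, (1 + S * |(m i : ℝ)|), Finset.sum_nonneg fun i _ => by positivity, ?_⟩
  intro N hN
  have hN' : (1 : ℝ) ≤ N := by exact_mod_cast hN
  have hN0 : (0 : ℝ) < N := by linarith
  have hpow : (N : ℝ) ^ n / N = (N : ℝ) ^ (n - 1) := by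
    obtain ⟨l, rfl⟩ : ∃ l, n = l + 1 := ⟨n - 1, by omega⟩
    rw [pow_succ]
    field_simp
    simp
  have hpi : ∀ i : Fin n, (N : ℝ) ^ (i : ℕ) ≤ (N : ℝ) ^ (n - 1) := fun i =>
    pow_le_pow_right₀ hN' (by omega)
  have hd : |((dot k₀ (fun j => (N : ℤ) ^ (j : ℕ)) : ℤ) : ℝ)| ≤ S * (N : ℝ) ^ (n - 1) := by
    unfold dot
    push_cast
    refine (Finset.abs_sum_le_sum_abs _ _).trans ?_
    rw [hS, Finset.sum_mul]
    refine Finset.sum_le_sum fun j _ => ?_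
    rw [abs_mul, abs_of_nonneg (show (0 : ℝ) ≤ (N : ℝ) ^ (j : ℕ) by positivity)]
    exact mul_le_mul_of_nonneg_left (hpi j) (abs_nonneg _)
  set w : EuclideanSpace ℝ (Fin n) := zv (PN k₀ m P₀ N) - ((N : ℝ) ^ n) • zv P₀ with hw
  have hwi : ∀ i, |w i| ≤ (1 + S * |(m i : ℝ)|) * (N : ℝ) ^ (n - 1) := by
    intro i
    have h1 : w i = (N : ℝ) ^ (i : ℕ) -
        ((dot k₀ (fun j => (N : ℤ) ^ (j : ℕ)) : ℤ) : ℝ) * (m i : ℝ) := by
      simp only [hw, zv, PN, PiLp.sub_apply, PiLp.smul_apply, smul_eq_mul]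
      push_cast
      ring
    rw [h1]
    refine (abs_sub _ _).trans ?_
    rw [abs_mul, abs_of_nonneg (show (0 : ℝ) ≤ (N : ℝ) ^ (i : ℕ) by positivity)]
    have h2 := mul_le_mul_of_nonneg_right hd (abs_nonneg (m i : ℝ))
    have h3 := hpi i
    nlinarith
  have hnorm : ‖w‖ ≤ ∑ i, |w i| := by
    rw [EuclideanSpace.norm_eq]
    refine Real.sqrt_le_iff.2 ⟨Finset.sum_nonneg fun i _ => abs_nonneg _, ?_⟩
    simp only [Real.norm_eq_abs]
    exact Finset.sum_sq_le_sq_sum_of_nonneg fun i _ => abs_nonneg _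
  calc ‖w‖ ≤ ∑ i, |w i| := hnorm
    _ ≤ ∑ i, (1 + S * |(m i : ℝ)|) * (N : ℝ) ^ (n - 1) := Finset.sum_le_sum fun i _ => hwi i
    _ = (∑ i, (1 + S * |(m i : ℝ)|)) * (N : ℝ) ^ n / N := by
        rw [← Finset.sum_mul, mul_div_assoc, hpow]

end Pool.Agent.H33.AM
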