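import Pool.Agent.H33.AM.P.V2
import Pool.Agent.H33.AM.P.V3a

/-!
# Module V3: `avP g (PN k₀ m P₀ N)` converges to `avK g k₀ m ⟪zv k₀, ·⟫`

`c_k(x) = cos(2π ⟪zv k, x⟫ + φ)`; write `a cos + b sin` as combinations of `cos(· + φ)`, `φ = 0`,
`φ = -π/2`. `k · m` = `dot k m`.
* `avP_cos`: if `dot k P ≠ 0` the average of `c_k` over the closed line vanishes; if `dot k P = 0` it
  is `c_k`.
* `avK_cos`: with `k' = k - (k · m) k₀`, `⟪zv k, θ m + y - ⟪k₀, y⟫ m⟫ = (k · m) θ + ⟪zv k', y⟫`; so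
  `avK c_k θ = cos(2π (k · m) θ + φ)` if `k' = 0` and `0` if `k' ≠ 0` (`cube_cos`).
* `PN_dot`: `dot k₀ (PN ..) = 0`, as `dot k₀ m = 1`, `dot k₀ P₀ = 0`.
* `PN_ne`: `dot k (PN k₀ m P₀ N) = N ^ n (k · P₀) + ∑ j, k' j N ^ j`, a nonzero polynomial in `N` if
  `k' ≠ 0`, so it does not vanish for `N` large.
* `PN_size`: `zv (PN ..) - N ^ n • zv P₀` is `O(N ^ (n - 1))` (`n ≥ 1` because `dot k₀ m = 1`).
* `avP_tendsto`: by `trig_dense` and the previous lemmas (`|avP g| ≤ sup |g|`, `|avK g| ≤ sup |g|`,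
  linearity).
-/

set_option autoImplicit false

open MeasureTheory
open scoped RealInnerProductSpace

namespace Pool.Agent.H33.AM

variable {n : ℕ}

theorem avK_cos (k k₀ m : Fin n → ℤ) (φ θ : ℝ) :
    avK (fun y => Real.cos (2 * Real.pi * ⟪zv k, y⟫ + φ)) k₀ m θ =
      if k = (dot k m) • k₀ then Real.cos (2 * Real.pi * ((dot k m : ℝ) * θ) + φ) else 0 := by
  have h1 : ∀ y : EuclideanSpace ℝ (Fin n), ⟪zv k, θ • zv m + y - ⟪zv k₀, y⟫ • zv m⟫ =
      (dot k m : ℝ) * θ + ⟪zv (k - dot k m • k₀), y⟫ := by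
    intro y
    rw [sub_eq_add_neg k, zv_add, zv_neg, zv_zsmul, inner_add_left, inner_neg_left,
      real_inner_smul_left, inner_sub_right, inner_add_right, real_inner_smul_right,
      real_inner_smul_right, inner_zv]
    ring
  unfold avK
  simp only [h1]
  split_ifs with hk
  · have h2 : k - dot k m • k₀ = 0 := sub_eq_zero.2 hk
    simp only [h2, zv_zero, inner_zero_left, add_zero]
    rw [setIntegral_const, Measure.real, cube_vol]
    simp
  · have h2 : k - dot k m • k₀ ≠ 0 := sub_ne_zero.2 hk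
    have h3 := cube_cos h2 (2 * Real.pi * ((dot k m : ℝ) * θ) + φ)
    refine Eq.trans ?_ h3
    congr 1
    funext y
    congr 1
    ring

end Pool.Agent.H33.AM
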