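import Pool.Agent.H33.AM.P.V2
import Pool.Agent.H33.AM.P.V3a
import Pool.Agent.H33.AM.P.V3b

/-!
# Module V3: `avP g (PN k₀ m P₀ N)` converges to `avK g k₀ m ⟪zv k₀, ·⟫`

`c_k(x) = cos(2π ⟪zv k, x⟫ + φ)`; write `a cos + b sin` as combinations of `cos(· + φ)`, `φ = 0`,
`φ = -π/2`. `k · m` = `dot k m`.
* `avP_cos`: if `dot k P ≠ 0` the average of `c_k` over the closed line vanishes; if `dot k P = 0` it
  is `c_k`.
* `avK_cos`: with `k' = k - (k · m) k₀`, `⟪zv k, θ m + y - ⟪k₀, y⟫ m⟫ = (k · m) θ + ⟪zv k', y⟫`; so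
  `avK c_k θ = cos(2π (k · m) θ + φ)` if `k' = 0` and `0` if `k' ≠ 0` (`cube_cos`).
* `PN_dot`: `dot k₀ (PN ..) = 0`, as `dot k₀ m = 1`, `dot k₀ P₀ = 0`.
* `PN_ne`: `dot k (PN k₀ m P₀ N) = N ^ n (k · P₀) + ∑ j, k' j N ^ j`, a nonzero polynomial in `N` if
  `k' ≠ 0`, so it does not vanish for `N` large.
* `PN_size`: `zv (PN ..) - N ^ n • zv P₀` is `O(N ^ (n - 1))` (`n ≥ 1` because `dot k₀ m = 1`).
* `avP_tendsto`: by `trig_dense` and the previous lemmas (`|avP g| ≤ sup |g|`, `|avK g| ≤ sup |g|`,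
  linearity).
-/

set_option autoImplicit false

open MeasureTheory
open scoped RealInnerProductSpace

namespace Pool.Agent.H33.AM

variable {n : ℕ}

private theorem zv_zsmul' (c : ℤ) (k : Fin n → ℤ) : zv (c • k) = (c : ℝ) • zv k := by
  ext i
  simp [zv]

private theorem dot_zsmul_left (c : ℤ) (k l : Fin n → ℤ) : dot (c • k) l = c * dot k l := by
  simp only [dot, Finset.mul_sum, Pi.smul_apply, smul_eq_mul, mul_assoc]

private theorem avK_arg_cont (k₀ m : Fin n → ℤ) (θ : ℝ) :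
    Continuous fun y : EuclideanSpace ℝ (Fin n) => θ • zv m + y - ⟪zv k₀, y⟫ • zv m := by
  fun_prop

private theorem avK_intg {f : EuclideanSpace ℝ (Fin n) → ℝ} (hf : Continuous f) {B : ℝ}
    (hB : ∀ x, |f x| ≤ B) (k₀ m : Fin n → ℤ) (θ : ℝ) :
    IntegrableOn (fun y => f (θ • zv m + y - ⟪zv k₀, y⟫ • zv m))
      {y : EuclideanSpace ℝ (Fin n) | ∀ i, y i ∈ Set.Ico (0 : ℝ) 1} := by
  refine Measure.integrableOn_of_bounded (M := B) ?_ ?_ ?_
  · rw [cube_vol]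
    exact ENNReal.one_ne_top
  · exact (hf.comp (avK_arg_cont k₀ m θ)).aestronglyMeasurable
  · exact Filter.Eventually.of_forall fun y => by
      rw [Real.norm_eq_abs]
      exact hB _

private theorem avP_intg {f : EuclideanSpace ℝ (Fin n) → ℝ} (hf : Continuous f) (P : Fin n → ℤ)
    (x : EuclideanSpace ℝ (Fin n)) :
    IntervalIntegrable (fun t : ℝ => f (x + t • zv P)) volume 0 1 := by
  apply Continuous.intervalIntegrable
  exact hf.comp (by fun_prop)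

private theorem avK_close {g f : EuclideanSpace ℝ (Fin n) → ℝ} (hg : Continuous g)
    (hf : Continuous f) {B δ : ℝ} (hB : ∀ x, |f x| ≤ B) (hδ : ∀ x, |g x - f x| ≤ δ)
    (k₀ m : Fin n → ℤ) (θ : ℝ) : |avK g k₀ m θ - avK f k₀ m θ| ≤ δ := by
  have hgB : ∀ x, |g x| ≤ δ + B := by
    intro x
    have h1 := hδ x
    have h2 := hB x
    have h3 : g x = (g x - f x) + f x := by ring
    calc |g x| = |(g x - f x) + f x| := by rw [← h3]
      _ ≤ |g x - f x| + |f x| := abs_add_le _ _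
      _ ≤ δ + B := add_le_add h1 h2
  have e : avK g k₀ m θ - avK f k₀ m θ =
      ∫ y in {y : EuclideanSpace ℝ (Fin n) | ∀ i, y i ∈ Set.Ico (0 : ℝ) 1},
        (g (θ • zv m + y - ⟪zv k₀, y⟫ • zv m) - f (θ • zv m + y - ⟪zv k₀, y⟫ • zv m)) := by
    rw [avK, avK, ← integral_sub (avK_intg hg hgB k₀ m θ) (avK_intg hf hB k₀ m θ)]
  rw [e, ← Real.norm_eq_abs]
  have h := norm_setIntegral_le_of_norm_le_const
    (μ := (volume : Measure (EuclideanSpace ℝ (Fin n))))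
    (s := {y : EuclideanSpace ℝ (Fin n) | ∀ i, y i ∈ Set.Ico (0 : ℝ) 1}) (C := δ)
    (f := fun y => g (θ • zv m + y - ⟪zv k₀, y⟫ • zv m) - f (θ • zv m + y - ⟪zv k₀, y⟫ • zv m))
    (by rw [cube_vol]; exact ENNReal.one_lt_top)
    (fun y _ => by rw [Real.norm_eq_abs]; exact hδ _)
  refine h.trans (le_of_eq ?_)
  rw [Measure.real, cube_vol]
  simp

private theorem avP_close {g f : EuclideanSpace ℝ (Fin n) → ℝ} (hg : Continuous g)
    (hf : Continuous f) {δ : ℝ} (hδ : ∀ x, |g x - f x| ≤ δ) (P : Fin n → ℤ)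
    (x : EuclideanSpace ℝ (Fin n)) : |avP g P x - avP f P x| ≤ δ := by
  rw [avP, avP, ← intervalIntegral.integral_sub (avP_intg hg P x) (avP_intg hf P x),
    ← Real.norm_eq_abs]
  have h := intervalIntegral.norm_integral_le_of_norm_le_const (a := (0 : ℝ)) (b := 1) (C := δ)
    (f := fun t : ℝ => g (x + t • zv P) - f (x + t • zv P))
    (fun y _ => by rw [Real.norm_eq_abs]; exact hδ _)
  refine h.trans (le_of_eq ?_)
  simp

private theorem cosk_cont (k : Fin n → ℤ) (φ : ℝ) :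
    Continuous fun y : EuclideanSpace ℝ (Fin n) => Real.cos (2 * Real.pi * ⟪zv k, y⟫ + φ) := by
  fun_prop

/-- The trigonometric polynomial. -/
private noncomputable def trg (S : Finset (Fin n → ℤ)) (a b : (Fin n → ℤ) → ℝ)
    (x : EuclideanSpace ℝ (Fin n)) : ℝ :=
  ∑ k ∈ S, (a k * Real.cos (2 * Real.pi * ⟪zv k, x⟫ + 0) +
    b k * Real.cos (2 * Real.pi * ⟪zv k, x⟫ + -(Real.pi / 2)))

private theorem trg_eq (S : Finset (Fin n → ℤ)) (a b : (Fin n → ℤ) → ℝ)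
    (x : EuclideanSpace ℝ (Fin n)) :
    trg S a b x = ∑ k ∈ S, (a k * Real.cos (2 * Real.pi * ⟪zv k, x⟫) +
      b k * Real.sin (2 * Real.pi * ⟪zv k, x⟫)) := by
  unfold trg
  refine Finset.sum_congr rfl fun k _ => ?_
  rw [add_zero, ← sub_eq_add_neg, Real.cos_sub_pi_div_two]

private theorem trg_cont (S : Finset (Fin n → ℤ)) (a b : (Fin n → ℤ) → ℝ) :
    Continuous (trg S a b) := by
  unfold trg
  refine continuous_finsetSum _ fun k _ => ?_
  exact (continuous_const.mul (cosk_cont k 0)).add (continuous_const.mul (cosk_cont k _))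

private theorem trg_bd (S : Finset (Fin n → ℤ)) (a b : (Fin n → ℤ) → ℝ)
    (x : EuclideanSpace ℝ (Fin n)) : |trg S a b x| ≤ ∑ k ∈ S, (|a k| + |b k|) := by
  unfold trg
  refine (Finset.abs_sum_le_sum_abs _ _).trans (Finset.sum_le_sum fun k _ => ?_)
  refine (abs_add_le _ _).trans (add_le_add ?_ ?_)
  · rw [abs_mul]
    exact mul_le_of_le_one_right (abs_nonneg _) (Real.abs_cos_le_one _)
  · rw [abs_mul]
    exact mul_le_of_le_one_right (abs_nonneg _) (Real.abs_cos_le_one _)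

private theorem avP_trg (S : Finset (Fin n → ℤ)) (a b : (Fin n → ℤ) → ℝ) (P : Fin n → ℤ)
    (x : EuclideanSpace ℝ (Fin n)) :
    avP (trg S a b) P x =
      ∑ k ∈ S, (a k * avP (fun y => Real.cos (2 * Real.pi * ⟪zv k, y⟫ + 0)) P x +
        b k * avP (fun y => Real.cos (2 * Real.pi * ⟪zv k, y⟫ + -(Real.pi / 2))) P x) := by
  unfold avP trg
  rw [intervalIntegral.integral_finsetSum]
  · refine Finset.sum_congr rfl fun k _ => ?_
    rw [intervalIntegral.integral_add, intervalIntegral.integral_const_mul,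
      intervalIntegral.integral_const_mul]
    · exact (avP_intg (cosk_cont k 0) P x).const_mul _
    · exact (avP_intg (cosk_cont k _) P x).const_mul _
  · intro k _
    exact ((avP_intg (cosk_cont k 0) P x).const_mul _).add
      ((avP_intg (cosk_cont k _) P x).const_mul _)

private theorem avK_trg (S : Finset (Fin n → ℤ)) (a b : (Fin n → ℤ) → ℝ) (k₀ m : Fin n → ℤ)
    (θ : ℝ) :
    avK (trg S a b) k₀ m θ =
      ∑ k ∈ S, (a k * avK (fun y => Real.cos (2 * Real.pi * ⟪zv k, y⟫ + 0)) k₀ m θ +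
        b k * avK (fun y => Real.cos (2 * Real.pi * ⟪zv k, y⟫ + -(Real.pi / 2))) k₀ m θ) := by
  have hc : ∀ (k : Fin n → ℤ) (φ : ℝ) (x : EuclideanSpace ℝ (Fin n)),
      |Real.cos (2 * Real.pi * ⟪zv k, x⟫ + φ)| ≤ 1 := fun k φ x => Real.abs_cos_le_one _
  unfold avK trg
  rw [integral_finsetSum]
  · refine Finset.sum_congr rfl fun k _ => ?_
    rw [integral_add, integral_const_mul, integral_const_mul]
    · exact (avK_intg (cosk_cont k 0) (hc k 0) k₀ m θ).const_mul _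
    · exact (avK_intg (cosk_cont k _) (hc k _) k₀ m θ).const_mul _
  · intro k _
    exact ((avK_intg (cosk_cont k 0) (hc k 0) k₀ m θ).const_mul _).add
      ((avK_intg (cosk_cont k _) (hc k _) k₀ m θ).const_mul _)

private theorem cos_eq {k₀ m P₀ : Fin n → ℤ} (hkm : dot k₀ m = 1) (hP : dot k₀ P₀ = 0)
    (k : Fin n → ℤ) (N : ℕ) (hN : k ≠ (dot k m) • k₀ → dot k (PN k₀ m P₀ N) ≠ 0) (φ : ℝ)
    (x : EuclideanSpace ℝ (Fin n)) :
    avP (fun y => Real.cos (2 * Real.pi * ⟪zv k, y⟫ + φ)) (PN k₀ m P₀ N) x =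
      avK (fun y => Real.cos (2 * Real.pi * ⟪zv k, y⟫ + φ)) k₀ m ⟪zv k₀, x⟫ := by
  rw [avP_cos, avK_cos]
  by_cases h : k = (dot k m) • k₀
  · have h0 : dot k (PN k₀ m P₀ N) = 0 := by
      rw [h, dot_zsmul_left, PN_dot hkm hP, mul_zero]
    rw [if_pos h0, if_pos h]
    have h1 : ⟪zv k, x⟫ = (dot k m : ℝ) * ⟪zv k₀, x⟫ := by
      conv_lhs => rw [h]
      rw [zv_zsmul', real_inner_smul_left]
    rw [h1]
  · rw [if_neg (hN h), if_neg h]

theorem avP_tendsto {k₀ m P₀ : Fin n → ℤ} (hkm : dot k₀ m = 1) (hP : dot k₀ P₀ = 0)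
    {g : EuclideanSpace ℝ (Fin n) → ℝ} (hg : Continuous g)
    (hper : ∀ x (k : Fin n → ℤ), g (x + zv k) = g x) {ε : ℝ} (hε : 0 < ε) :
    ∃ N₀ : ℕ, ∀ N ≥ N₀, ∀ x, |avP g (PN k₀ m P₀ N) x - avK g k₀ m ⟪zv k₀, x⟫| ≤ ε := by
  obtain ⟨S, a, b, hS⟩ := trig_dense hg hper (half_pos hε)
  have hT : ∀ x, |g x - trg S a b x| ≤ ε / 2 := by
    intro x
    rw [trg_eq]
    exact hS x
  have hN : ∀ k : Fin n → ℤ, ∃ N₀ : ℕ, ∀ N ≥ N₀,
      (k ≠ (dot k m) • k₀ → dot k (PN k₀ m P₀ N) ≠ 0) := by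
    intro k
    by_cases h : k ≠ (dot k m) • k₀
    · obtain ⟨N₀, h0⟩ := PN_ne k₀ m P₀ k h
      exact ⟨N₀, fun N hN _ => h0 N hN⟩
    · exact ⟨0, fun N _ h' => absurd h' h⟩
  choose F hF using hN
  refine ⟨S.sup F, fun N hN x => ?_⟩
  have e : avP (trg S a b) (PN k₀ m P₀ N) x = avK (trg S a b) k₀ m ⟪zv k₀, x⟫ := by
    rw [avP_trg, avK_trg]
    refine Finset.sum_congr rfl fun k hk => ?_
    have h1 : F k ≤ N := (Finset.le_sup hk).trans hN
    rw [cos_eq hkm hP k N (hF k N h1) 0 x, cos_eq hkm hP k N (hF k N h1) (-(Real.pi / 2)) x]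
  have h1 := avP_close hg (trg_cont S a b) hT (PN k₀ m P₀ N) x
  have h2 := avK_close hg (trg_cont S a b) (trg_bd S a b) hT k₀ m ⟪zv k₀, x⟫
  rw [e] at h1
  rw [abs_le] at h1 h2 ⊢
  constructor
  · linarith [h1.1, h2.2]
  · linarith [h1.2, h2.1]

end Pool.Agent.H33.AM
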