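import Pool.Agent.H33.AM.P.V3

/-!
# Module V4: nonconstant averages exist

`cube = {y | ∀ i, y i ∈ Ico 0 1}`.
* `cos_coeff`: for `dot k₀ m = 1`, `d ≠ 0`: `∫_cube g(y) cos(2π d ⟪k₀, y⟫ + φ) dy =
  ∫₀¹ avK g k₀ m θ cos(2π d θ + φ) dθ`. Both sides are continuous for the uniform norm and linear in `g`,
  so by `trig_dense` it is enough to take `g = cos(2π ⟪zv l, ·⟫ + ψ)` (`avK_cos`, `cube_cos`, product
  formulas for cosines).
* `primitive`: divide `k ≠ 0` by the gcd `d` of its entries and use Bezout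
  (`Finset.extract_gcd`, `Finset.gcd`/`Ideal.span` … or induction).
* `const_of_coeff`: if all the coefficients `∫_cube g cos(2π ⟪k, ·⟫ + φ)`, `k ≠ 0`, vanish then `g` is
  constant: with `ḡ = ∫_cube g`, `∫_cube (g - ḡ)² = lim ∫_cube (g - ḡ) p_j = 0` for trigonometric
  polynomials `p_j → g` uniformly; then use continuity and periodicity.
* `exists_avK_ne`: combine.
-/

set_option autoImplicit false

open MeasureTheory
open scoped RealInnerProductSpace

namespace Pool.Agent.H33.AM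

variable {n : ℕ}

private theorem closed_cube_compact :
    IsCompact {y : EuclideanSpace ℝ (Fin n) | ∀ i, y i ∈ Set.Icc (0 : ℝ) 1} := by
  have h1 : IsCompact (Set.univ.pi fun _ : Fin n => Set.Icc (0 : ℝ) 1) :=
    isCompact_univ_pi fun _ => isCompact_Icc
  have h2 := (EuclideanSpace.equiv (Fin n) ℝ).toHomeomorph.isCompact_preimage.2 h1
  refine h2.of_isClosed_subset ?_ fun y hy => ?_
  · have h3 : {y : EuclideanSpace ℝ (Fin n) | ∀ i, y i ∈ Set.Icc (0 : ℝ) 1} =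
        ⋂ i : Fin n, {y : EuclideanSpace ℝ (Fin n) | y i ∈ Set.Icc (0 : ℝ) 1} := by
      ext y; simp
    rw [h3]
    refine isClosed_iInter fun i => ?_
    exact isClosed_Icc.preimage (by fun_prop : Continuous fun y : EuclideanSpace ℝ (Fin n) => y i)
  · intro i _
    exact hy i

private theorem swap_cube {F : ℝ → EuclideanSpace ℝ (Fin n) → ℝ}
    (hF : Continuous fun p : ℝ × EuclideanSpace ℝ (Fin n) => F p.1 p.2) :
    ∫ θ in (0 : ℝ)..1, ∫ y in {y : EuclideanSpace ℝ (Fin n) | ∀ i, y i ∈ Set.Ico (0 : ℝ) 1},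
      F θ y =
    ∫ y in {y : EuclideanSpace ℝ (Fin n) | ∀ i, y i ∈ Set.Ico (0 : ℝ) 1},
      ∫ θ in (0 : ℝ)..1, F θ y := by
  have h1 : ∀ y : EuclideanSpace ℝ (Fin n), ∫ θ in (0 : ℝ)..1, F θ y =
      ∫ θ in Set.Ioc (0 : ℝ) 1, F θ y := fun y => intervalIntegral.integral_of_le zero_le_one
  simp only [h1]
  rw [intervalIntegral.integral_of_le zero_le_one]
  refine MeasureTheory.integral_integral_swap ?_
  rw [Measure.prod_restrict]
  have h2 : IntegrableOn (fun p : ℝ × EuclideanSpace ℝ (Fin n) => F p.1 p.2)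
      (Set.Icc (0 : ℝ) 1 ×ˢ {y : EuclideanSpace ℝ (Fin n) | ∀ i, y i ∈ Set.Icc (0 : ℝ) 1})
      ((volume : Measure ℝ).prod (volume : Measure (EuclideanSpace ℝ (Fin n)))) :=
    hF.continuousOn.integrableOn_compact (isCompact_Icc.prod closed_cube_compact)
  refine h2.mono_set (Set.prod_mono Set.Ioc_subset_Icc_self fun y hy i => ?_)
  exact ⟨(hy i).1, (hy i).2.le⟩

theorem cos_coeff {k₀ m : Fin n → ℤ} (hkm : dot k₀ m = 1) {g : EuclideanSpace ℝ (Fin n) → ℝ}
    (hg : Continuous g) (hper : ∀ x (k : Fin n → ℤ), g (x + zv k) = g x) (d : ℤ) (φ : ℝ) :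
    ∫ y in {y : EuclideanSpace ℝ (Fin n) | ∀ i, y i ∈ Set.Ico (0 : ℝ) 1},
      g y * Real.cos (2 * Real.pi * ⟪zv (d • k₀), y⟫ + φ) =
    ∫ θ in (0 : ℝ)..1, avK g k₀ m θ * Real.cos (2 * Real.pi * ((d : ℝ) * θ) + φ) := by
  have hcont : Continuous fun y : EuclideanSpace ℝ (Fin n) =>
      g y * Real.cos (2 * Real.pi * ⟪zv (d • k₀), y⟫ + φ) := by
    have h1 : Continuous fun y : EuclideanSpace ℝ (Fin n) => ⟪zv (d • k₀), y⟫ :=
      continuous_const.inner continuous_id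
    exact hg.mul (Real.continuous_cos.comp ((continuous_const.mul h1).add continuous_const))
  have hhper : ∀ (x : EuclideanSpace ℝ (Fin n)) (k : Fin n → ℤ),
      g (x + zv k) * Real.cos (2 * Real.pi * ⟪zv (d • k₀), x + zv k⟫ + φ) =
        g x * Real.cos (2 * Real.pi * ⟪zv (d • k₀), x⟫ + φ) := by
    intro x k
    rw [hper x k, inner_add_right, inner_zv]
    have h1 : 2 * Real.pi * (⟪zv (d • k₀), x⟫ + (dot (d • k₀) k : ℝ)) + φ =
        (2 * Real.pi * ⟪zv (d • k₀), x⟫ + φ) + (dot (d • k₀) k : ℤ) * (2 * Real.pi) := by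
      ring
    rw [h1, Real.cos_add_int_mul_two_pi]
  have hkm' : ⟪zv k₀, zv m⟫ = (1 : ℝ) := by rw [inner_zv, hkm]; norm_num
  have hin : Continuous fun p : ℝ × EuclideanSpace ℝ (Fin n) => ⟪zv k₀, p.2⟫ :=
    continuous_const.inner continuous_snd
  have hA : ∫ θ in (0 : ℝ)..1, avK g k₀ m θ * Real.cos (2 * Real.pi * ((d : ℝ) * θ) + φ) =
      ∫ θ in (0 : ℝ)..1, ∫ y in {y : EuclideanSpace ℝ (Fin n) | ∀ i, y i ∈ Set.Ico (0 : ℝ) 1},
        g (θ • zv m + y - ⟪zv k₀, y⟫ • zv m) *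
          Real.cos (2 * Real.pi * ((d : ℝ) * θ) + φ) := by
    refine intervalIntegral.integral_congr fun θ _ => ?_
    simp only [avK]
    rw [integral_mul_const]
  have hB := swap_cube (n := n) (F := fun θ y => g (θ • zv m + y - ⟪zv k₀, y⟫ • zv m) *
      Real.cos (2 * Real.pi * ((d : ℝ) * θ) + φ)) (by
    have h1 : Continuous fun p : ℝ × EuclideanSpace ℝ (Fin n) =>
        p.1 • zv m + p.2 - ⟪zv k₀, p.2⟫ • zv m :=
      ((continuous_fst.smul continuous_const).add continuous_snd).sub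
        (hin.smul continuous_const)
    have h2 : Continuous fun p : ℝ × EuclideanSpace ℝ (Fin n) =>
        2 * Real.pi * ((d : ℝ) * p.1) + φ :=
      (continuous_const.mul (continuous_const.mul continuous_fst)).add continuous_const
    exact (hg.comp h1).mul (Real.continuous_cos.comp h2))
  have hC : ∀ y : EuclideanSpace ℝ (Fin n),
      ∫ θ in (0 : ℝ)..1, g (θ • zv m + y - ⟪zv k₀, y⟫ • zv m) *
          Real.cos (2 * Real.pi * ((d : ℝ) * θ) + φ) =
      ∫ θ in (0 : ℝ)..1, g (y + θ • zv m) *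
        Real.cos (2 * Real.pi * ⟪zv (d • k₀), y + θ • zv m⟫ + φ) := by
    intro y
    have hp : Function.Periodic (fun θ : ℝ => g (θ • zv m + y - ⟪zv k₀, y⟫ • zv m) *
          Real.cos (2 * Real.pi * ((d : ℝ) * θ) + φ)) 1 := by
      intro θ
      have h1 : (θ + 1) • zv m + y - ⟪zv k₀, y⟫ • zv m =
          (θ • zv m + y - ⟪zv k₀, y⟫ • zv m) + zv m := by
        rw [add_smul, one_smul]; abel
      have h2 : 2 * Real.pi * ((d : ℝ) * (θ + 1)) + φ =
          (2 * Real.pi * ((d : ℝ) * θ) + φ) + (d : ℤ) * (2 * Real.pi) := by ring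
      show g ((θ + 1) • zv m + y - ⟪zv k₀, y⟫ • zv m) *
          Real.cos (2 * Real.pi * ((d : ℝ) * (θ + 1)) + φ) = _
      rw [h1, h2, hper, Real.cos_add_int_mul_two_pi]
    have h3 := hp.intervalIntegral_add_eq 0 ⟪zv k₀, y⟫
    rw [zero_add] at h3
    rw [h3]
    have h4 := intervalIntegral.integral_comp_add_right (a := 0) (b := 1)
      (fun θ : ℝ => g (θ • zv m + y - ⟪zv k₀, y⟫ • zv m) *
          Real.cos (2 * Real.pi * ((d : ℝ) * θ) + φ)) ⟪zv k₀, y⟫
    rw [zero_add, add_comm (1 : ℝ)] at h4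
    rw [← h4]
    refine intervalIntegral.integral_congr fun θ _ => ?_
    have h5 : (θ + ⟪zv k₀, y⟫) • zv m + y - ⟪zv k₀, y⟫ • zv m = y + θ • zv m := by
      rw [add_smul]; abel
    have h6 : 2 * Real.pi * ((d : ℝ) * (θ + ⟪zv k₀, y⟫)) + φ =
        2 * Real.pi * ⟪zv (d • k₀), y + θ • zv m⟫ + φ := by
      rw [zv_zsmul, real_inner_smul_left, inner_add_right, real_inner_smul_right, hkm']
      ring
    show g ((θ + ⟪zv k₀, y⟫) • zv m + y - ⟪zv k₀, y⟫ • zv m) *
          Real.cos (2 * Real.pi * ((d : ℝ) * (θ + ⟪zv k₀, y⟫)) + φ) = _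
    rw [h5, h6]
  have hD := swap_cube (n := n) (F := fun θ y => g (y + θ • zv m) *
        Real.cos (2 * Real.pi * ⟪zv (d • k₀), y + θ • zv m⟫ + φ)) (by
    have h1 : Continuous fun p : ℝ × EuclideanSpace ℝ (Fin n) => p.2 + p.1 • zv m :=
      continuous_snd.add (continuous_fst.smul continuous_const)
    exact hcont.comp h1)
  rw [hA, hB]
  simp only [hC]
  rw [← hD]
  have hE : ∀ θ : ℝ, ∫ y in {y : EuclideanSpace ℝ (Fin n) | ∀ i, y i ∈ Set.Ico (0 : ℝ) 1},
      g (y + θ • zv m) * Real.cos (2 * Real.pi * ⟪zv (d • k₀), y + θ • zv m⟫ + φ) =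
      ∫ y in {y : EuclideanSpace ℝ (Fin n) | ∀ i, y i ∈ Set.Ico (0 : ℝ) 1},
      g y * Real.cos (2 * Real.pi * ⟪zv (d • k₀), y⟫ + φ) := fun θ =>
    cube_translate hcont hhper (θ • zv m)
  simp only [hE]
  rw [intervalIntegral.integral_const]
  simp

end Pool.Agent.H33.AM
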