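import Pool.Agent.H33.AM.P.V3
import Pool.Agent.H33.AM.P.V4a

/-!
# Module V4: nonconstant averages exist

`cube = {y | ∀ i, y i ∈ Ico 0 1}`.
* `cos_coeff`: for `dot k₀ m = 1`, `d ≠ 0`: `∫_cube g(y) cos(2π d ⟪k₀, y⟫ + φ) dy =
  ∫₀¹ avK g k₀ m θ cos(2π d θ + φ) dθ`. Both sides are continuous for the uniform norm and linear in `g`,
  so by `trig_dense` it is enough to take `g = cos(2π ⟪zv l, ·⟫ + ψ)` (`avK_cos`, `cube_cos`, product
  formulas for cosines).
* `primitive`: divide `k ≠ 0` by the gcd `d` of its entries and use Bezout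
  (`Finset.extract_gcd`, `Finset.gcd`/`Ideal.span` … or induction).
* `const_of_coeff`: if all the coefficients `∫_cube g cos(2π ⟪k, ·⟫ + φ)`, `k ≠ 0`, vanish then `g` is
  constant: with `ḡ = ∫_cube g`, `∫_cube (g - ḡ)² = lim ∫_cube (g - ḡ) p_j = 0` for trigonometric
  polynomials `p_j → g` uniformly; then use continuity and periodicity.
* `exists_avK_ne`: combine.
-/

set_option autoImplicit false

open MeasureTheory
open scoped RealInnerProductSpace

namespace Pool.Agent.H33.AM

variable {n : ℕ}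

theorem primitive {k : Fin n → ℤ} (hk : k ≠ 0) :
    ∃ (d : ℤ) (k₀ m : Fin n → ℤ), d ≠ 0 ∧ k = d • k₀ ∧ dot k₀ m = 1 := by
  obtain ⟨d, hd⟩ := (IsPrincipalIdealRing.principal (Ideal.span (Set.range k))).principal
  have hdvd : ∀ i, d ∣ k i := by
    intro i
    have h1 : k i ∈ Ideal.span (Set.range k) := Ideal.subset_span ⟨i, rfl⟩
    rw [hd] at h1
    exact Ideal.mem_span_singleton.1 h1
  have hd0 : d ≠ 0 := by
    rintro rfl
    apply hk
    funext i
    simpa using hdvd i
  choose k₀ hk₀ using hdvd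
  have hmem : d ∈ Ideal.span (Set.range k) := by
    rw [hd]
    exact Ideal.mem_span_singleton_self d
  obtain ⟨m, hm⟩ := Ideal.mem_span_range_iff_exists_fun.1 hmem
  refine ⟨d, k₀, m, hd0, ?_, ?_⟩
  · funext i
    rw [hk₀ i]
    rfl
  · have h1 : d * dot k₀ m = d * 1 := by
      rw [mul_one]
      nth_rewrite 2 [← hm]
      unfold dot
      rw [Finset.mul_sum]
      refine Finset.sum_congr rfl fun i _ => ?_
      rw [hk₀ i]
      ring
    exact mul_left_cancel₀ hd0 h1

end Pool.Agent.H33.AM
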