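import Pool.Agent.H33.AM.P.V3
import Pool.Agent.H33.AM.P.V4a
import Pool.Agent.H33.AM.P.V4b

/-!
# Module V4: nonconstant averages exist

`cube = {y | ∀ i, y i ∈ Ico 0 1}`.
* `cos_coeff`: for `dot k₀ m = 1`, `d ≠ 0`: `∫_cube g(y) cos(2π d ⟪k₀, y⟫ + φ) dy =
  ∫₀¹ avK g k₀ m θ cos(2π d θ + φ) dθ`. Both sides are continuous for the uniform norm and linear in `g`,
  so by `trig_dense` it is enough to take `g = cos(2π ⟪zv l, ·⟫ + ψ)` (`avK_cos`, `cube_cos`, product
  formulas for cosines).
* `primitive`: divide `k ≠ 0` by the gcd `d` of its entries and use Bezout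
  (`Finset.extract_gcd`, `Finset.gcd`/`Ideal.span` … or induction).
* `const_of_coeff`: if all the coefficients `∫_cube g cos(2π ⟪k, ·⟫ + φ)`, `k ≠ 0`, vanish then `g` is
  constant: with `ḡ = ∫_cube g`, `∫_cube (g - ḡ)² = lim ∫_cube (g - ḡ) p_j = 0` for trigonometric
  polynomials `p_j → g` uniformly; then use continuity and periodicity.
* `exists_avK_ne`: combine.
-/

set_option autoImplicit false

open MeasureTheory
open scoped RealInnerProductSpace

namespace Pool.Agent.H33.AM

variable {n : ℕ}

private theorem V4c_bound {f : EuclideanSpace ℝ (Fin n) → ℝ} (hf : Continuous f) :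
    ∃ C, ∀ y : EuclideanSpace ℝ (Fin n), (∀ i, y i ∈ Set.Ico (0 : ℝ) 1) → |f y| ≤ C := by
  have hK : IsCompact ((EuclideanSpace.equiv (Fin n) ℝ) ⁻¹' (Set.Icc 0 1)) :=
    (EuclideanSpace.equiv (Fin n) ℝ).toHomeomorph.isClosedEmbedding.isCompact_preimage isCompact_Icc
  obtain ⟨C, hC⟩ := hK.exists_bound_of_continuousOn hf.continuousOn
  refine ⟨C, fun y hy => hC y ?_⟩
  exact ⟨fun i => (hy i).1, fun i => (hy i).2.le⟩

private theorem V4c_int {f : EuclideanSpace ℝ (Fin n) → ℝ} (hf : Continuous f) :
    IntegrableOn f {y : EuclideanSpace ℝ (Fin n) | ∀ i, y i ∈ Set.Ico (0 : ℝ) 1} := by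
  have hK : IsCompact ((EuclideanSpace.equiv (Fin n) ℝ) ⁻¹' (Set.Icc 0 1)) :=
    (EuclideanSpace.equiv (Fin n) ℝ).toHomeomorph.isClosedEmbedding.isCompact_preimage isCompact_Icc
  refine (hf.continuousOn.integrableOn_compact hK).mono_set fun y hy => ?_
  exact ⟨fun i => (hy i).1, fun i => (hy i).2.le⟩

theorem const_of_coeff {g : EuclideanSpace ℝ (Fin n) → ℝ} (hg : Continuous g)
    (hper : ∀ x (k : Fin n → ℤ), g (x + zv k) = g x)
    (h : ∀ (k : Fin n → ℤ) (φ : ℝ), k ≠ 0 →
      ∫ y in {y : EuclideanSpace ℝ (Fin n) | ∀ i, y i ∈ Set.Ico (0 : ℝ) 1},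
        g y * Real.cos (2 * Real.pi * ⟪zv k, y⟫ + φ) = 0) (x y : EuclideanSpace ℝ (Fin n)) :
    g x = g y := by
  have hQm := cube_meas (n := n)
  set Q : Set (EuclideanSpace ℝ (Fin n)) := {y | ∀ i, y i ∈ Set.Ico (0 : ℝ) 1} with hQ
  have hvol : volume.real Q = 1 := by
    rw [Measure.real, cube_vol]
    simp
  set c : ℝ := ∫ y in Q, g y with hc
  have hint : ∀ {f : EuclideanSpace ℝ (Fin n) → ℝ}, Continuous f → IntegrableOn f Q :=
    fun hf => V4c_int hf
  have hzero : ∫ y in Q, (g y - c) ^ 2 = 0 := by
    obtain ⟨C, hC⟩ := V4c_bound (n := n) (f := fun y => g y - c) (by fun_prop)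
    have hkey : ∀ ε > 0, ∫ y in Q, (g y - c) ^ 2 ≤ ε * C := by
      intro ε hε
      obtain ⟨S, a, b, hS⟩ := trig_dense hg hper hε
      set p : EuclideanSpace ℝ (Fin n) → ℝ := fun x =>
        ∑ k ∈ S, (a k * Real.cos (2 * Real.pi * ⟪zv k, x⟫) +
          b k * Real.sin (2 * Real.pi * ⟪zv k, x⟫)) with hp
      have hpc : Continuous p := by fun_prop
      have h1 : ∫ y in Q, (g y - c) * p y = 0 := by
        have h2 : ∀ y, (g y - c) * p y = ∑ k ∈ S,
            (a k * ((g y - c) * Real.cos (2 * Real.pi * ⟪zv k, y⟫)) +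
              b k * ((g y - c) * Real.sin (2 * Real.pi * ⟪zv k, y⟫))) := by
          intro y
          simp only [hp]
          rw [Finset.mul_sum]
          refine Finset.sum_congr rfl fun k _ => ?_
          ring
        simp only [h2]
        rw [integral_finsetSum]
        · refine Finset.sum_eq_zero fun k _ => ?_
          rw [integral_add, integral_const_mul, integral_const_mul]
          · have h2' : ∀ φ : ℝ, ∫ y in Q, (g y - c) * Real.cos (2 * Real.pi * ⟪zv k, y⟫ + φ) = 0 := by
              intro φ
              have h7 : ∀ y, (g y - c) * Real.cos (2 * Real.pi * ⟪zv k, y⟫ + φ) =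
                  g y * Real.cos (2 * Real.pi * ⟪zv k, y⟫ + φ) -
                    c * Real.cos (2 * Real.pi * ⟪zv k, y⟫ + φ) := fun y => by ring
              simp only [h7]
              rw [integral_sub (hint (by fun_prop)) (hint (by fun_prop)), integral_const_mul]
              by_cases hk : k = 0
              · simp only [hk, zv_zero, inner_zero_left, mul_zero, zero_add]
                rw [integral_mul_const, setIntegral_const, hvol]
                simp [← hc]
              · have h8 := h k φ hk
                have h9 := cube_cos hk φ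
                rw [← hQ] at h9
                rw [h8, h9]
                simp
            have h3 : ∫ y in Q, (g y - c) * Real.cos (2 * Real.pi * ⟪zv k, y⟫) = 0 := by
              have h7 := h2' 0
              simpa using h7
            have h4 : ∫ y in Q, (g y - c) * Real.sin (2 * Real.pi * ⟪zv k, y⟫) = 0 := by
              have h7 := h2' (-(Real.pi / 2))
              simpa [← sub_eq_add_neg, Real.cos_sub_pi_div_two] using h7
            rw [h3, h4]
            simp
          · exact hint (by fun_prop)
          · exact hint (by fun_prop)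
        · intro k _
          exact hint (by fun_prop)
      have h5 : ∫ y in Q, (g y - c) ^ 2 = ∫ y in Q, (g y - c) * (g y - p y) := by
        have h6 : ∫ y in Q, (g y - c) * (g y - p y) =
            ∫ y in Q, ((g y - c) ^ 2 + (c * (g y - c) - (g y - c) * p y)) := by
          congr 1
          funext y
          ring
        rw [h6, integral_add (hint (by fun_prop)) (hint (by fun_prop)),
          integral_sub (hint (by fun_prop)) (hint (by fun_prop)), h1, integral_const_mul,
          integral_sub (hint hg) (hint continuous_const)]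
        simp [hvol, ← hc]
      rw [h5]
      have h10 : ‖∫ y in Q, (g y - c) * (g y - p y)‖ ≤ ε * C * volume.real Q := by
        refine norm_setIntegral_le_of_norm_le_const (by rw [cube_vol]; exact ENNReal.one_lt_top) ?_
        intro y hy
        rw [norm_mul, Real.norm_eq_abs, Real.norm_eq_abs, mul_comm]
        exact mul_le_mul (hS y) (hC y hy) (abs_nonneg _) hε.le
      rw [hvol, mul_one] at h10
      exact (Real.le_norm_self _).trans h10
    have hnn : 0 ≤ ∫ y in Q, (g y - c) ^ 2 := integral_nonneg fun y => sq_nonneg _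
    by_contra hcon
    have hpos : 0 < ∫ y in Q, (g y - c) ^ 2 := lt_of_le_of_ne hnn (Ne.symm hcon)
    set J := ∫ y in Q, (g y - c) ^ 2 with hJ
    have hC0 : 0 < |C| + 1 := by positivity
    have h11 := hkey (J / (2 * (|C| + 1))) (by positivity)
    have h12 : J / (2 * (|C| + 1)) * C ≤ J / (2 * (|C| + 1)) * (|C| + 1) :=
      mul_le_mul_of_nonneg_left (by linarith [le_abs_self C]) (by positivity)
    have h13 : J / (2 * (|C| + 1)) * (|C| + 1) = J / 2 := by
      field_simp
    linarith
  have hconst : ∀ z, g z = c := by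
    intro z
    set e₀ : EuclideanSpace ℝ (Fin n) := WithLp.toLp 2 fun _ => (1 / 2 : ℝ) with he₀
    have h1 := cube_translate (n := n) (g := fun y => (g y - c) ^ 2) (by fun_prop)
      (fun x k => by simp only [hper]) (z - e₀)
    rw [← hQ, hzero] at h1
    have h2 := (setIntegral_eq_zero_iff_of_nonneg_ae
      (f := fun y => (g (y + (z - e₀)) - c) ^ 2) (s := Q) (μ := volume)
      (Filter.Eventually.of_forall fun y => sq_nonneg _) (hint (by fun_prop))).1 h1
    set U : Set (EuclideanSpace ℝ (Fin n)) := {y | ∀ i, y i ∈ Set.Ioo (0 : ℝ) 1} with hU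
    have hUo : IsOpen U := by
      rw [hU, Set.ofPred_forall]
      refine isOpen_iInter_of_finite fun i => ?_
      exact isOpen_Ioo.preimage (by fun_prop)
    have hUQ : U ⊆ Q := fun y hy i => ⟨(hy i).1.le, (hy i).2⟩
    have h3 : (fun y => (g (y + (z - e₀)) - c) ^ 2) =ᵐ[volume.restrict U] fun _ => 0 :=
      ae_restrict_of_ae_restrict_of_subset hUQ h2
    have h4 := Measure.eqOn_open_of_ae_eq h3 hUo (by fun_prop) continuousOn_const
    have h5 : e₀ ∈ U := fun i => by
      simp only [he₀]
      norm_num
    have h6 := h4 h5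
    simp only [add_sub_cancel] at h6
    have h7 := pow_eq_zero_iff (two_ne_zero) |>.1 h6
    linarith
  rw [hconst x, hconst y]

end Pool.Agent.H33.AM
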