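import Pool.Agent.H33.AM.P.V3
import Pool.Agent.H33.AM.P.V4a
import Pool.Agent.H33.AM.P.V4b
import Pool.Agent.H33.AM.P.V4c

/-!
# Module V4: nonconstant averages exist

`cube = {y | ∀ i, y i ∈ Ico 0 1}`.
* `cos_coeff`: for `dot k₀ m = 1`, `d ≠ 0`: `∫_cube g(y) cos(2π d ⟪k₀, y⟫ + φ) dy =
  ∫₀¹ avK g k₀ m θ cos(2π d θ + φ) dθ`. Both sides are continuous for the uniform norm and linear in `g`,
  so by `trig_dense` it is enough to take `g = cos(2π ⟪zv l, ·⟫ + ψ)` (`avK_cos`, `cube_cos`, product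
  formulas for cosines).
* `primitive`: divide `k ≠ 0` by the gcd `d` of its entries and use Bezout
  (`Finset.extract_gcd`, `Finset.gcd`/`Ideal.span` … or induction).
* `const_of_coeff`: if all the coefficients `∫_cube g cos(2π ⟪k, ·⟫ + φ)`, `k ≠ 0`, vanish then `g` is
  constant: with `ḡ = ∫_cube g`, `∫_cube (g - ḡ)² = lim ∫_cube (g - ḡ) p_j = 0` for trigonometric
  polynomials `p_j → g` uniformly; then use continuity and periodicity.
* `exists_avK_ne`: combine.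
-/

set_option autoImplicit false

open MeasureTheory
open scoped RealInnerProductSpace

namespace Pool.Agent.H33.AM

variable {n : ℕ}

private theorem V4d_cos {d : ℤ} (hd : d ≠ 0) (φ : ℝ) :
    ∫ θ in (0 : ℝ)..1, Real.cos (2 * Real.pi * ((d : ℝ) * θ) + φ) = 0 := by
  have hd' : (d : ℝ) ≠ 0 := by exact_mod_cast hd
  have hder : ∀ θ ∈ Set.uIcc (0 : ℝ) 1, HasDerivAt
      (fun θ : ℝ => Real.sin (2 * Real.pi * ((d : ℝ) * θ) + φ) / (2 * Real.pi * d))
      (Real.cos (2 * Real.pi * ((d : ℝ) * θ) + φ)) θ := by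
    intro θ _
    have h1 : HasDerivAt (fun θ : ℝ => 2 * Real.pi * ((d : ℝ) * θ) + φ) (2 * Real.pi * d) θ := by
      simpa using (((hasDerivAt_id θ).const_mul (d : ℝ)).const_mul (2 * Real.pi)).add_const φ
    have h2 := (h1.sin).div_const (2 * Real.pi * d)
    have h3 : Real.cos (2 * Real.pi * ((d : ℝ) * θ) + φ) * (2 * Real.pi * d) / (2 * Real.pi * d) =
        Real.cos (2 * Real.pi * ((d : ℝ) * θ) + φ) :=
      mul_div_cancel_right₀ _ (by positivity)
    rw [h3] at h2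
    exact h2
  rw [intervalIntegral.integral_eq_sub_of_hasDerivAt hder (by
    apply Continuous.intervalIntegrable
    fun_prop)]
  have h4 : Real.sin (2 * Real.pi * ((d : ℝ) * 1) + φ) = Real.sin φ := by
    have h5 : 2 * Real.pi * ((d : ℝ) * 1) + φ = φ + d * (2 * Real.pi) := by ring
    rw [h5, Real.sin_add_int_mul_two_pi]
  rw [h4]
  simp

theorem exists_avK_ne {g : EuclideanSpace ℝ (Fin n) → ℝ} (hg : Continuous g)
    (hper : ∀ x (k : Fin n → ℤ), g (x + zv k) = g x) (hne : ∃ x y, g x ≠ g y) :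
    ∃ k₀ m : Fin n → ℤ, dot k₀ m = 1 ∧ ∃ θ θ', avK g k₀ m θ ≠ avK g k₀ m θ' := by
  by_contra hcon
  push Not at hcon
  obtain ⟨x, y, hxy⟩ := hne
  refine hxy (const_of_coeff hg hper ?_ x y)
  intro k φ hk
  obtain ⟨d, k₀, m, hd, hkd, hkm⟩ := primitive hk
  rw [hkd, cos_coeff hkm hg hper d φ]
  have h1 : ∀ θ : ℝ, avK g k₀ m θ = avK g k₀ m 0 := fun θ => hcon k₀ m hkm θ 0
  have h2 : ∀ θ : ℝ, avK g k₀ m θ * Real.cos (2 * Real.pi * ((d : ℝ) * θ) + φ) =
      avK g k₀ m 0 * Real.cos (2 * Real.pi * ((d : ℝ) * θ) + φ) := fun θ => by rw [h1 θ]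
  simp only [h2]
  rw [intervalIntegral.integral_const_mul, V4d_cos hd, mul_zero]

end Pool.Agent.H33.AM
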