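import Pool.Agent.H33.AM.P.I3
import Pool.Agent.H33.AM.P.C1

/-!
# Module Z1: final assembly

* `HK_of`, `HV_of`, `HA_of`: the structures from `C²` hypotheses (periodic continuous functions are
  bounded; a `C²` periodic function has a bounded second derivative, so its gradient is Lipschitz).
-/

set_option autoImplicit false

open MeasureTheory
open scoped RealInnerProductSpace

namespace Pool.Agent.H33.AM

variable {n : ℕ}

private theorem z1a_bounded {Z : Type*} [NormedAddCommGroup Z] {g : E n → Z} (hg : Continuous g)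
    (hper : ∀ x (k : Fin n → ℤ), g (x + zv k) = g x) : ∃ C : ℝ, ∀ x, ‖g x‖ ≤ C := by
  obtain ⟨C, hC⟩ := (isCompact_closedBall (0 : E n) (Real.sqrt n)).exists_bound_of_continuousOn
    hg.continuousOn
  refine ⟨C, fun x => ?_⟩
  set k : Fin n → ℤ := fun i => -⌊x i⌋ with hk
  rw [← hper x k]
  apply hC
  rw [mem_closedBall_zero_iff, EuclideanSpace.norm_eq]
  apply Real.sqrt_le_sqrt
  calc ∑ i, ‖(x + zv k) i‖ ^ 2 ≤ ∑ _i : Fin n, (1 : ℝ) := by
        apply Finset.sum_le_sum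
        intro i _
        have h1 : (x + zv k) i = x i - (⌊x i⌋ : ℝ) := by
          simp [zv, hk, sub_eq_add_neg]
        rw [h1, Real.norm_eq_abs, sq_abs]
        have h2 := Int.floor_le (x i)
        have h3 := Int.lt_floor_add_one (x i)
        nlinarith
    _ = n := by simp

private theorem z1a_fderiv_per {Z : Type*} [NormedAddCommGroup Z] [NormedSpace ℝ Z] {g : E n → Z}
    (hper : ∀ x (k : Fin n → ℤ), g (x + zv k) = g x) (x : E n) (k : Fin n → ℤ) :
    fderiv ℝ g (x + zv k) = fderiv ℝ g x := by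
  have h1 : (fun y => g (y + zv k)) = g := funext fun y => hper y k
  have h2 := fderiv_comp_add_right (𝕜 := ℝ) (f := g) (x := x) (zv k)
  rw [h1] at h2
  exact h2.symm

private theorem z1a_main {Z : Type*} [NormedAddCommGroup Z] [NormedSpace ℝ Z] {g : E n → Z}
    (hg : ContDiff ℝ 2 g) (hper : ∀ x (k : Fin n → ℤ), g (x + zv k) = g x) :
    ∃ B₀ : ℝ, 0 ≤ B₀ ∧ (∀ x, ‖g x‖ ≤ B₀) ∧ (∀ x, ‖fderiv ℝ g x‖ ≤ B₀) ∧
      ∀ x y, ‖fderiv ℝ g x - fderiv ℝ g y‖ ≤ B₀ * ‖x - y‖ := by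
  have hg1 : ContDiff ℝ 1 (fderiv ℝ g) := hg.fderiv_right (by norm_num)
  obtain ⟨C₁, h₁⟩ := z1a_bounded hg.continuous hper
  obtain ⟨C₂, h₂⟩ := z1a_bounded hg1.continuous (z1a_fderiv_per hper)
  obtain ⟨C₃, h₃⟩ := z1a_bounded (hg1.continuous_fderiv (by norm_num))
    (z1a_fderiv_per (z1a_fderiv_per hper))
  have l1 : C₁ ≤ max (max C₁ C₂) C₃ := le_trans (le_max_left _ _) (le_max_left _ _)
  have l2 : C₂ ≤ max (max C₁ C₂) C₃ := le_trans (le_max_right _ _) (le_max_left _ _)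
  have l3 : C₃ ≤ max (max C₁ C₂) C₃ := le_max_right _ _
  refine ⟨max (max C₁ C₂) C₃, le_trans (norm_nonneg _) (le_trans (h₁ 0) l1),
    fun x => le_trans (h₁ x) l1, fun x => le_trans (h₂ x) l2, fun x y => ?_⟩
  have := (convex_univ (𝕜 := ℝ) (E := E n)).norm_image_sub_le_of_norm_fderiv_le (𝕜 := ℝ)
    (f := fderiv ℝ g) (C := max (max C₁ C₂) C₃) (x := y) (y := x)
    (fun z _ => (hg1.differentiable (by norm_num)) z)
    (fun z _ => le_trans (h₃ z) l3) (Set.mem_univ _) (Set.mem_univ _)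
  exact this

private theorem z1a_pr (x : E n) (k : Fin n → ℤ) : pr (x + zv k) = pr x :=
  (pr_eq_iff _ _).2 ⟨k, rfl⟩

theorem HV_of {V : E n → ℝ} (hV : ContDiff ℝ 2 V) (hper : ∀ x y, pr x = pr y → V x = V y) :
    ∃ B₀ : ℝ, ∀ B ≥ B₀, HV V (gradient V) B := by
  obtain ⟨B₀, h0, h1, h2, h3⟩ := z1a_main hV fun x k => hper _ _ (z1a_pr x k)
  refine ⟨B₀, fun B hB => ?_⟩
  have hper' : ∀ x (k : Fin n → ℤ), V (x + zv k) = V x := fun x k => hper _ _ (z1a_pr x k)
  refine ⟨le_trans h0 hB, fun x => ?_, hper', fun x => ?_, fun x => ?_, fun x y => ?_⟩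
  · exact (hV.differentiable (by norm_num) x).hasGradientAt
  · have := h1 x
    rw [Real.norm_eq_abs] at this
    exact le_trans this hB
  · have : ‖gradient V x‖ = ‖fderiv ℝ V x‖ := by
      unfold gradient
      exact LinearIsometryEquiv.norm_map _ _
    rw [this]
    exact le_trans (h2 x) hB
  · have : ‖gradient V x - gradient V y‖ = ‖fderiv ℝ V x - fderiv ℝ V y‖ := by
      unfold gradient
      rw [← map_sub]
      exact LinearIsometryEquiv.norm_map _ _
    rw [this]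
    exact le_trans (h3 x y) (mul_le_mul_of_nonneg_right hB (norm_nonneg _))

theorem HA_of {A : E n → E n} (hA : ContDiff ℝ 2 A) (hper : ∀ x y, pr x = pr y → A x = A y) :
    ∃ B₀ : ℝ, ∀ B ≥ B₀, HA A (fderiv ℝ A) B := by
  obtain ⟨B₀, h0, h1, h2, h3⟩ := z1a_main hA fun x k => hper _ _ (z1a_pr x k)
  refine ⟨B₀, fun B hB => ?_⟩
  exact ⟨le_trans h0 hB, fun x => (hA.differentiable (by norm_num) x).hasFDerivAt,
    fun x k => hper _ _ (z1a_pr x k), fun x => le_trans (h1 x) hB, fun x => le_trans (h2 x) hB,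
    fun x y => le_trans (h3 x y) (mul_le_mul_of_nonneg_right hB (norm_nonneg _))⟩

end Pool.Agent.H33.AM
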