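import Pool.Agent.H33.AM.P.I3
import Pool.Agent.H33.AM.P.C1
import Pool.Agent.H33.AM.P.Z1a

/-!
# Module Z1: final assembly

* `HK_of`, `HV_of`, `HA_of`: the structures from `C²` hypotheses (periodic continuous functions are
  bounded; a `C²` periodic function has a bounded second derivative, so its gradient is Lipschitz).
-/

set_option autoImplicit false

open MeasureTheory
open scoped RealInnerProductSpace

namespace Pool.Agent.H33.AM

variable {n : ℕ}

theorem main (K : E n → ℝ) (A : E n → E n) (V : E n → ℝ) {κ₁ κ₂ : ℝ}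
    (hK : HK K (gradient K) κ₁ κ₂) (hA : ContDiff ℝ 2 A) (hV : ContDiff ℝ 2 V)
    (hAper : ∀ x y, pr x = pr y → A x = A y) (hVper : ∀ x y, pr x = pr y → V x = V y)
    (hα : StrictConvexOn ℝ Set.univ (alpha fun x v _ => K v + ⟪A x, v⟫ - V x)) :
    (∀ x y, V x = V y) ∧ (∀ x v w, ⟪fderiv ℝ A x v, w⟫ = ⟪fderiv ℝ A x w, v⟫) ∧
      ∀ c, aubry (fun x v _ => K v + ⟪A x, v⟫ - V x) c = Set.univ := by
  obtain ⟨B₁, hB₁⟩ := HV_of hV hVper
  obtain ⟨B₂, hB₂⟩ := HA_of hA hAper
  have hV' := hB₁ (max B₁ B₂) (le_max_left _ _)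
  have hA' := hB₂ (max B₁ B₂) (le_max_right _ _)
  have hα' : StrictConvexOn ℝ Set.univ (alpha fun x v _ => lag K A V x v) := hα
  have hs : ∀ x v w, ⟪fderiv ℝ A x v, w⟫ = ⟪fderiv ℝ A x w, v⟫ := by
    by_contra hns
    push Not at hns
    exact not_strict_of_flat hK hA' hV' (flat_magnetic hK hA' hV' hns) hα'
  have hVc : ∀ x y, V x = V y := by
    by_contra hns
    push Not at hns
    exact not_strict_of_flat hK hA' hV' (flat_potential hK hA' hV' hs hns) hα'
  refine ⟨hVc, hs, fun c => ?_⟩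
  obtain ⟨a₀, f, hf, hfper, C, hfb⟩ := exists_grad hA' hs
  obtain ⟨D', hD1, -, -⟩ := hK.inv
  have hα₀ := alpha_int (V₀ := V 0) hK hA' hV' hs hf hfper hfb (fun x => hVc x 0)
    (hD1 (c - a₀))
  have hp := fun x => peierls_int (V₀ := V 0) hK hA' hV' hf hfper hfb (fun x => hVc x 0)
    (hD1 (c - a₀)) hα₀ x
  exact Set.eq_univ_of_forall fun x => hp x

end Pool.Agent.H33.AM
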